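import Mathlib

/-!
# Auxiliary polynomials in two variables, I

A polynomial with integer coefficients which vanishes to high order at given integer points.
-/

set_option autoImplicit false

open Finset Polynomial

namespace Pool.Agent.K9h7.SG

open scoped Polynomial.Bivariate

/-- the polynomial with given coefficients on a finite set of exponents -/
noncomputable def bip (S : Finset (ℕ × ℕ)) (c : S → ℤ) : ℤ[X][Y] :=
  ∑ s : S, monomial s.1.2 (monomial s.1.1 (c s))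

theorem bip_eval (S : Finset (ℕ × ℕ)) (c : S → ℤ) (a b : ℤ) :
    evalEval a b (bip S c) = ∑ s : S, c s * a ^ s.1.1 * b ^ s.1.2 := by
  unfold bip
  rw [evalEval_finsetSum]
  refine Finset.sum_congr rfl fun s _ => ?_
  simp [evalEval, eval_monomial]

theorem bip_coeff (S : Finset (ℕ × ℕ)) (c : S → ℤ) (s : S) :
    ((bip S c).coeff s.1.2).coeff s.1.1 = c s := by
  unfold bip
  rw [finsetSum_coeff, finsetSum_coeff, Finset.sum_eq_single s]
  · simp
  · intro t _ hts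
    rw [coeff_monomial]
    split_ifs with h
    · rw [coeff_monomial, if_neg]
      intro h2
      exact hts (Subtype.ext (Prod.ext h2 h))
    · simp
  · intro h; exact absurd (Finset.mem_univ _) h

theorem bip_ne_zero {S : Finset (ℕ × ℕ)} {c : S → ℤ} (hc : c ≠ 0) : bip S c ≠ 0 := by
  intro h
  apply hc
  funext s
  rw [← bip_coeff S c s, h]
  simp

theorem pow_expand (x0 z : ℤ) (u N : ℕ) (hN : u < N) :
    (x0 + z) ^ u = ∑ s ∈ range N, (u.choose s : ℤ) * x0 ^ (u - s) * z ^ s := by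
  have h1 : ∑ s ∈ range N, (u.choose s : ℤ) * x0 ^ (u - s) * z ^ s =
      ∑ s ∈ range (u + 1), (u.choose s : ℤ) * x0 ^ (u - s) * z ^ s := by
    symm
    apply Finset.sum_subset
    · intro s hs; rw [mem_range] at hs ⊢; omega
    · intro s _ hs
      rw [mem_range, not_lt] at hs
      rw [Nat.choose_eq_zero_of_lt (by omega)]
      simp
  rw [h1, add_comm x0 z, add_pow]
  refine Finset.sum_congr rfl fun s _ => ?_
  ring

/-- If `F` vanishes to the order `μ` at `(x0,y0)` then `F(a,b)` is divisible by `D^μ` whenever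
`(a,b)` is congruent to `(x0,y0)` modulo `D`. -/
theorem vanish_dvd (S : Finset (ℕ × ℕ)) (c : S → ℤ) (x0 y0 : ℤ) (μ : ℕ)
    (h : ∀ s t : ℕ, s + t < μ → ∑ σ : S, ((σ.1.1.choose s : ℤ) * x0 ^ (σ.1.1 - s) *
      ((σ.1.2.choose t : ℤ) * y0 ^ (σ.1.2 - t))) * c σ = 0)
    (D a b : ℤ) (ha : D ∣ a - x0) (hb : D ∣ b - y0) :
    D ^ μ ∣ evalEval a b (bip S c) := by
  rw [bip_eval]
  obtain ⟨α, hα⟩ := ha
  obtain ⟨β, hβ⟩ := hb
  have ha' : a = x0 + D * α := by rw [← hα]; ring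
  have hb' : b = y0 + D * β := by rw [← hβ]; ring
  obtain ⟨N, hN⟩ : ∃ N : ℕ, ∀ σ : S, σ.1.1 < N ∧ σ.1.2 < N := by
    refine ⟨∑ σ : S, (σ.1.1 + σ.1.2 + 1), fun σ => ?_⟩
    have := Finset.single_le_sum (f := fun σ : S => σ.1.1 + σ.1.2 + 1) (fun _ _ => Nat.zero_le _)
      (Finset.mem_univ σ)
    omega
  have key : ∑ σ : S, c σ * a ^ σ.1.1 * b ^ σ.1.2 =
      ∑ s ∈ range N, ∑ t ∈ range N, (∑ σ : S, ((σ.1.1.choose s : ℤ) * x0 ^ (σ.1.1 - s) *
      ((σ.1.2.choose t : ℤ) * y0 ^ (σ.1.2 - t))) * c σ) * ((D * α) ^ s * (D * β) ^ t) := by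
    have h1 : ∀ σ : S, c σ * a ^ σ.1.1 * b ^ σ.1.2 = ∑ s ∈ range N, ∑ t ∈ range N,
        (((σ.1.1.choose s : ℤ) * x0 ^ (σ.1.1 - s) *
      ((σ.1.2.choose t : ℤ) * y0 ^ (σ.1.2 - t))) * c σ) * ((D * α) ^ s * (D * β) ^ t) := by
      intro σ
      rw [ha', hb', pow_expand x0 (D * α) _ N (hN σ).1, pow_expand y0 (D * β) _ N (hN σ).2,
        mul_assoc, Finset.sum_mul_sum, Finset.mul_sum]
      refine Finset.sum_congr rfl fun s _ => ?_
      rw [Finset.mul_sum]
      refine Finset.sum_congr rfl fun t _ => ?_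
      ring
    rw [Finset.sum_congr rfl fun σ _ => h1 σ, Finset.sum_comm]
    refine Finset.sum_congr rfl fun s _ => ?_
    rw [Finset.sum_comm]
    refine Finset.sum_congr rfl fun t _ => ?_
    rw [Finset.sum_mul]
  rw [key]
  refine Finset.dvd_sum fun s _ => Finset.dvd_sum fun t _ => ?_
  rcases lt_or_ge (s + t) μ with hst | hst
  · rw [h s t hst]; simp
  · refine Dvd.dvd.mul_left ?_ _
    have : (D * α) ^ s * (D * β) ^ t = D ^ (s + t) * (α ^ s * β ^ t) := by ring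
    rw [this]
    exact (pow_dvd_pow D hst).mul_right _

/-- number of exponents below a line -/
noncomputable def Sset (ν w : ℝ) : Finset (ℕ × ℕ) :=
  ((range (⌈w⌉₊ + 1)) ×ˢ (range (⌈w / ν⌉₊ + 1))).filter fun s => (s.1 : ℝ) + ν * s.2 < w

theorem Sset_lt {ν w : ℝ} {s : ℕ × ℕ} (hs : s ∈ Sset ν w) : (s.1 : ℝ) + ν * s.2 < w := by
  unfold Sset at hs
  exact (mem_filter.1 hs).2

theorem sum_lin (ν w : ℝ) (V : ℕ) :
    ∑ v ∈ range V, (w - ν * v) = V * w - ν * (V * (V - 1) / 2) := by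
  induction V with
  | zero => simp
  | succ V ih =>
    rw [Finset.sum_range_succ, ih]
    push_cast
    ring

theorem Sset_card {ν w : ℝ} (hν : 0 < ν) (hw : 0 < w) : w ^ 2 / (2 * ν) ≤ ((Sset ν w).card : ℝ) := by
  set V := ⌈w / ν⌉₊ with hV
  have hV1 : w / ν ≤ V := Nat.le_ceil _
  have hV2 : (V : ℝ) < w / ν + 1 := Nat.ceil_lt_add_one (by positivity)
  have hinj : ((range V).sigma fun v => range ⌈w - ν * v⌉₊).card ≤ (Sset ν w).card := by
    apply Finset.card_le_card_of_injOn (fun x => (x.2, x.1))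
    · rintro ⟨v, u⟩ hx
      rw [Finset.mem_coe, Finset.mem_sigma, mem_range, mem_range] at hx
      obtain ⟨h1, h2⟩ := hx
      simp only at h1 h2
      have h3 : (u : ℝ) < w - ν * v := Nat.lt_ceil.1 h2
      have hv0 : (0 : ℝ) ≤ ν * v := by positivity
      rw [Finset.mem_coe]
      unfold Sset
      rw [mem_filter, mem_product, mem_range, mem_range]
      refine ⟨⟨?_, by simp only; omega⟩, by simp only; linarith⟩
      simp only
      have : u < ⌈w⌉₊ := Nat.lt_ceil.2 (by linarith)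
      omega
    · rintro ⟨v, u⟩ _ ⟨v', u'⟩ _ h
      simp only [Prod.mk.injEq] at h
      obtain ⟨rfl, rfl⟩ := h
      rfl
  have h2 : ∑ v ∈ range V, (w - ν * v) ≤ (((range V).sigma fun v => range ⌈w - ν * v⌉₊).card : ℝ) := by
    rw [Finset.card_sigma]
    push_cast
    refine Finset.sum_le_sum fun v _ => ?_
    rw [card_range]
    exact Nat.le_ceil _
  rw [sum_lin] at h2
  have h3 : w ^ 2 / (2 * ν) ≤ V * w - ν * (V * (V - 1) / 2) := by
    have hθ : ∃ θ : ℝ, (V : ℝ) = w / ν + θ ∧ 0 ≤ θ ∧ θ ≤ 1 := ⟨V - w / ν, by ring, by linarith, by linarith⟩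
    obtain ⟨θ, hθ1, hθ2, hθ3⟩ := hθ
    rw [hθ1]
    have : (w / ν + θ) * w - ν * ((w / ν + θ) * (w / ν + θ - 1) / 2) - w ^ 2 / (2 * ν)
        = (w + ν * θ * (1 - θ)) / 2 := by
      field_simp
      ring
    have h4 : 0 ≤ ν * θ * (1 - θ) := by
      have : 0 ≤ 1 - θ := by linarith
      positivity
    linarith
  have h5 : (((range V).sigma fun v => range ⌈w - ν * v⌉₊).card : ℝ) ≤ (Sset ν w).card := by
    exact_mod_cast hinj
  linarith

/-- Existence of the auxiliary polynomial. -/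
theorem exists_bip {ι : Type} [Fintype ι] (px py : ι → ℤ) (μ : ι → ℕ) (S : Finset (ℕ × ℕ))
    (hS : (∑ i, ((μ i : ℝ) ^ 2 + μ i) / 2 : ℝ) < (S.card : ℝ)) :
    ∃ c : S → ℤ, c ≠ 0 ∧ ∀ i : ι, ∀ s t : ℕ, s + t < μ i →
      ∑ σ : S, ((σ.1.1.choose s : ℤ) * (px i) ^ (σ.1.1 - s) *
      ((σ.1.2.choose t : ℤ) * (py i) ^ (σ.1.2 - t))) * c σ = 0 := by
  classical
  let A : Matrix (Σ i : ι, Σ s : Fin (μ i), Fin (μ i - s)) S ℤ := fun x σ =>
    ((σ.1.1.choose x.2.1 : ℤ) * (px x.1) ^ (σ.1.1 - x.2.1) *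
      ((σ.1.2.choose x.2.2 : ℤ) * (py x.1) ^ (σ.1.2 - x.2.2)))
  have hsum : ∀ m : ℕ, (∑ s : Fin m, ((m - s : ℕ) : ℝ)) = ((m : ℝ) ^ 2 + m) / 2 := by
    intro m
    rw [Fin.sum_univ_eq_sum_range (fun s => ((m - s : ℕ) : ℝ)) m]
    have h1 : ∑ s ∈ range m, ((m - s : ℕ) : ℝ) = ∑ s ∈ range m, ((m : ℝ) - 1 * s) := by
      refine Finset.sum_congr rfl fun s hs => ?_
      rw [mem_range] at hs
      rw [Nat.cast_sub hs.le]; ring
    rw [h1, sum_lin]; ring
  have hcard : Fintype.card (Σ i : ι, Σ s : Fin (μ i), Fin (μ i - s)) < Fintype.card S := by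
    have h1 : (Fintype.card (Σ i : ι, Σ s : Fin (μ i), Fin (μ i - s)) : ℝ) =
        ∑ i, ((μ i : ℝ) ^ 2 + μ i) / 2 := by
      rw [Fintype.card_sigma]
      push_cast
      refine Finset.sum_congr rfl fun i _ => ?_
      rw [Fintype.card_sigma, ← hsum (μ i)]
      push_cast
      refine Finset.sum_congr rfl fun s _ => ?_
      rw [Fintype.card_fin]
    have h2 : Fintype.card S = S.card := Fintype.card_coe S
    rw [h2]
    rw [← h1] at hS
    exact_mod_cast hS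
  have hex : ∃ t : S → ℤ, t ≠ 0 ∧ A.mulVec t = 0 := by
    rcases Nat.eq_zero_or_pos (Fintype.card (Σ i : ι, Σ s : Fin (μ i), Fin (μ i - s))) with h0 | h0
    · have hem : IsEmpty (Σ i : ι, Σ s : Fin (μ i), Fin (μ i - s)) := Fintype.card_eq_zero_iff.1 h0
      have hne : 0 < Fintype.card S := by omega
      obtain ⟨σ⟩ := Fintype.card_pos_iff.1 hne
      refine ⟨fun _ => 1, fun h => ?_, ?_⟩
      · have := congrFun h σ
        simp at this
      · funext x
        exact hem.elim x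
    · obtain ⟨t, h1, h2, _⟩ := Int.Matrix.exists_ne_zero_int_vec_norm_le A hcard h0
      exact ⟨t, h1, h2⟩
  obtain ⟨t, ht, hA⟩ := hex
  refine ⟨t, ht, fun i s u hsu => ?_⟩
  have := congrFun hA ⟨i, ⟨s, by omega⟩, ⟨u, by simp only; omega⟩⟩
  simpa [A, Matrix.mulVec, dotProduct] using this

end Pool.Agent.K9h7.SG
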