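import Pool.Agent.K9h7.SG.Aux1

/-!
# Auxiliary polynomials in two variables, II

A finite family of polynomials such that one of them vanishes at every point `(a,b)` of the box
`|a| ≤ T`, `|b| ≤ T^ν` with strong congruence properties.
-/

set_option autoImplicit false

open Finset Polynomial Filter

namespace Pool.Agent.K9h7.SG

open scoped Polynomial.Bivariate

theorem small_eventually {κ : Type} [Fintype κ] (c : κ → ℝ) (e : κ → ℝ) (w : ℝ)
    (h : ∀ i, e i < w) : ∀ᶠ T : ℝ in atTop, ∑ i, c i * T ^ (e i) < T ^ w := by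
  have h1 : Tendsto (fun T : ℝ => ∑ i, c i * T ^ (-(w - e i))) atTop (nhds (∑ i, c i * 0)) := by
    refine tendsto_finsetSum _ fun i _ => ?_
    exact (tendsto_rpow_neg_atTop (by linarith [h i])).const_mul _
  simp only [mul_zero, Finset.sum_const_zero] at h1
  have h2 := h1.eventually (gt_mem_nhds (zero_lt_one))
  filter_upwards [h2, eventually_gt_atTop 0] with T hT hT0
  have h3 : ∑ i, c i * T ^ (e i) = (∑ i, c i * T ^ (-(w - e i))) * T ^ w := by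
    rw [Finset.sum_mul]
    refine Finset.sum_congr rfl fun i _ => ?_
    rw [mul_assoc, ← Real.rpow_add hT0]
    congr 2
    ring
  rw [h3]
  have h4 : 0 < T ^ w := Real.rpow_pos_of_pos hT0 _
  nlinarith

theorem good_ineq {ι : Type} [Fintype ι] {ν ε β M : ℝ} (hν : 0 < ν) (hε : 0 < ε)
    (α : ι → ℝ) (μ : ι → ℕ) (hα0 : ∀ i, 0 ≤ α i) (hαβ : ∀ i, α i ≤ β)
    (hM : 4 * (β * Fintype.card ι) / ε ≤ M) (hM0 : 0 < M)
    (hμ1 : ∀ i, (μ i : ℝ) ≤ M * α i) (hμ2 : ∀ i, M * α i < μ i + 1)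
    (hs : ν + ε ≤ ∑ i, α i ^ 2) :
    0 < ∑ i, (μ i : ℝ) ^ 2 ∧
    ∑ i, ((μ i : ℝ) ^ 2 + μ i) / 2 < ((∑ i, (μ i : ℝ) ^ 2) / M) ^ 2 / (2 * ν) := by
  set S := ∑ i, (μ i : ℝ) ^ 2 with hS
  set L := ∑ i, (μ i : ℝ) with hL
  set B := β * Fintype.card ι with hB
  have hαsum : ∑ i, α i ≤ B := by
    calc ∑ i, α i ≤ ∑ _i : ι, β := Finset.sum_le_sum fun i _ => hαβ i
      _ = B := by rw [Finset.sum_const, Finset.card_univ, nsmul_eq_mul, mul_comm]
  have hB0 : 0 ≤ B := le_trans (Finset.sum_nonneg fun i _ => hα0 i) hαsum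
  have h1 : M ^ 2 * ∑ i, α i ^ 2 - 2 * M * ∑ i, α i ≤ S := by
    rw [Finset.mul_sum, Finset.mul_sum, ← Finset.sum_sub_distrib]
    refine Finset.sum_le_sum fun i _ => ?_
    have hm0 : (0 : ℝ) ≤ μ i := Nat.cast_nonneg _
    have ha := hα0 i
    rcases le_or_gt 1 (M * α i) with h | h
    · have : M * α i - 1 ≤ μ i := by linarith [hμ2 i]
      have h0 : 0 ≤ M * α i - 1 := by linarith
      nlinarith
    · have : 0 ≤ M * α i := by positivity
      nlinarith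
  have hL1 : L ≤ M * B := by
    calc L ≤ ∑ i, M * α i := Finset.sum_le_sum fun i _ => hμ1 i
      _ = M * ∑ i, α i := by rw [Finset.mul_sum]
      _ ≤ M * B := by nlinarith
  have hMB : 4 * B ≤ M * ε := by
    rw [div_le_iff₀ hε] at hM; exact hM
  have hS1 : M ^ 2 * (ν + ε / 2) ≤ S := by
    have : M ^ 2 * (ν + ε) - 2 * M * B ≤ S := by
      refine le_trans ?_ h1
      have hm2 : 0 < M ^ 2 := by positivity
      nlinarith
    nlinarith
  have hM2 : 0 < M ^ 2 := by positivity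
  have hS0 : 0 < S := by
    have : 0 < M ^ 2 * (ν + ε / 2) := by positivity
    linarith
  refine ⟨hS0, ?_⟩
  have hsum : ∑ i, ((μ i : ℝ) ^ 2 + μ i) / 2 = (S + L) / 2 := by
    rw [← Finset.sum_div, Finset.sum_add_distrib]
  rw [hsum, div_pow, div_div, div_lt_div_iff₀ (by norm_num) (by positivity)]
  -- (S + L) * (M ^ 2 * (2 * ν)) < S ^ 2 * 2
  have hL2 : ν * M ^ 2 * L ≤ ν * M ^ 2 * (M ^ 2 * ε / 4) := by
    apply mul_le_mul_of_nonneg_left _ (by positivity)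
    calc L ≤ M * B := hL1
      _ ≤ M * (M * ε / 4) := by
        apply mul_le_mul_of_nonneg_left _ hM0.le
        linarith
      _ = M ^ 2 * ε / 4 := by ring
  have h5 : M ^ 2 * (ν + ε / 2) * (M ^ 2 * (ε / 2)) ≤ S * (S - ν * M ^ 2) := by
    apply mul_le_mul hS1 _ (by positivity) hS0.le
    nlinarith
  have h6 : ν * M ^ 2 * (M ^ 2 * ε / 4) < M ^ 2 * (ν + ε / 2) * (M ^ 2 * (ε / 2)) := by
    have e1 : M ^ 2 * (ν + ε / 2) * (M ^ 2 * (ε / 2)) - ν * M ^ 2 * (M ^ 2 * ε / 4)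
        = M ^ 2 * M ^ 2 * (ν * ε / 4 + ε ^ 2 / 4) := by ring
    have : 0 < M ^ 2 * M ^ 2 * (ν * ε / 4 + ε ^ 2 / 4) := by positivity
    linarith
  nlinarith

/-- **The auxiliary polynomials.** -/
theorem aux_family {ι : Type} [Fintype ι] (px py : ι → ℤ) (ν ε β : ℝ) (hν : 0 < ν)
    (hε : 0 < ε) (hβ : 0 < β) :
    ∃ (𝓕 : Finset ℤ[X][Y]) (T₀ : ℝ), 1 < T₀ ∧ (∀ F ∈ 𝓕, F ≠ 0) ∧ ∀ T : ℝ, T₀ ≤ T →
      ∀ a b : ℤ, |(a : ℝ)| ≤ T → |(b : ℝ)| ≤ T ^ ν → ∀ D : ι → ℕ, (∀ i, 0 < D i) →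
      (Pairwise fun i j => Nat.Coprime (D i) (D j)) →
      (∀ i, (D i : ℤ) ∣ a - px i) → (∀ i, (D i : ℤ) ∣ b - py i) →
      (∀ i, Real.log (D i) ≤ β * Real.log T) →
      ν + ε ≤ ∑ i, (Real.log (D i) / Real.log T) ^ 2 → ∃ F ∈ 𝓕, evalEval a b F = 0 := by
  classical
  set M : ℝ := 4 * (β * Fintype.card ι) / ε + 1 with hM
  have hM0 : 0 < M := by positivity
  set N : ℕ := ⌈M * β⌉₊ with hN
  -- the polynomials
  have hex : ∀ μ : ι → Fin (N + 1), ∃ c : Sset ν ((∑ i, ((μ i : ℕ) : ℝ) ^ 2) / M) → ℤ,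
      (∑ i, (((μ i : ℕ) : ℝ) ^ 2 + (μ i : ℕ)) / 2 <
        ((Sset ν ((∑ i, ((μ i : ℕ) : ℝ) ^ 2) / M)).card : ℝ)) →
      (c ≠ 0 ∧ ∀ i : ι, ∀ s t : ℕ, s + t < (μ i : ℕ) →
      ∑ σ : Sset ν ((∑ i, ((μ i : ℕ) : ℝ) ^ 2) / M),
        ((σ.1.1.choose s : ℤ) * (px i) ^ (σ.1.1 - s) *
      ((σ.1.2.choose t : ℤ) * (py i) ^ (σ.1.2 - t))) * c σ = 0) := by
    intro μ
    by_cases h : (∑ i, (((μ i : ℕ) : ℝ) ^ 2 + (μ i : ℕ)) / 2 <
        ((Sset ν ((∑ i, ((μ i : ℕ) : ℝ) ^ 2) / M)).card : ℝ))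
    · obtain ⟨c, hc⟩ := exists_bip px py (fun i => (μ i : ℕ)) _ h
      exact ⟨c, fun _ => hc⟩
    · exact ⟨0, fun h' => absurd h' h⟩
  choose c hc using hex
  have hev : ∀ᶠ T : ℝ in atTop, ∀ μ : ι → Fin (N + 1),
      ∑ σ : Sset ν ((∑ i, ((μ i : ℕ) : ℝ) ^ 2) / M),
        |(c μ σ : ℝ)| * T ^ ((σ.1.1 : ℝ) + ν * σ.1.2) < T ^ ((∑ i, ((μ i : ℕ) : ℝ) ^ 2) / M) := by
    rw [eventually_all]
    intro μ
    exact small_eventually _ _ _ fun σ => Sset_lt σ.2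
  obtain ⟨T₁, hT₁⟩ := eventually_atTop.1 hev
  refine ⟨(univ.filter fun μ : ι → Fin (N + 1) =>
    (∑ i, (((μ i : ℕ) : ℝ) ^ 2 + (μ i : ℕ)) / 2 <
        ((Sset ν ((∑ i, ((μ i : ℕ) : ℝ) ^ 2) / M)).card : ℝ))).image fun μ => bip _ (c μ),
    max T₁ 2, lt_of_lt_of_le (by norm_num) (le_max_right _ _), ?_, ?_⟩
  · intro F hF
    rw [mem_image] at hF
    obtain ⟨μ, hμ, rfl⟩ := hF
    rw [mem_filter] at hμ
    exact bip_ne_zero (hc μ hμ.2).1
  intro T hT a b ha hb D hD hcop hDa hDb hlog hsum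
  have hT2 : (2 : ℝ) ≤ T := le_trans (le_max_right _ _) hT
  have hT0 : 0 < T := by linarith
  have hlogT : 0 < Real.log T := Real.log_pos (by linarith)
  set α : ι → ℝ := fun i => Real.log (D i) / Real.log T with hα
  have hα0 : ∀ i, 0 ≤ α i := fun i =>
    div_nonneg (Real.log_nonneg (by exact_mod_cast hD i)) hlogT.le
  have hαβ : ∀ i, α i ≤ β := fun i => by
    rw [hα]; simp only; rw [div_le_iff₀ hlogT]; exact hlog i
  set m : ι → ℕ := fun i => ⌊M * α i⌋₊ with hm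
  have hm1 : ∀ i, (m i : ℝ) ≤ M * α i := fun i => Nat.floor_le (mul_nonneg hM0.le (hα0 i))
  have hm2 : ∀ i, M * α i < m i + 1 := fun i => Nat.lt_floor_add_one _
  have hmN : ∀ i, m i < N + 1 := by
    intro i
    have : (m i : ℝ) ≤ N := by
      calc (m i : ℝ) ≤ M * α i := hm1 i
        _ ≤ M * β := mul_le_mul_of_nonneg_left (hαβ i) hM0.le
        _ ≤ N := Nat.le_ceil _
    have : m i ≤ N := by exact_mod_cast this
    omega
  let μ : ι → Fin (N + 1) := fun i => ⟨m i, hmN i⟩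
  have hμm : ∀ i, ((μ i : ℕ) : ℝ) = m i := fun i => rfl
  obtain ⟨hS0, hgood⟩ := good_ineq (β := β) (M := M) hν hε α m hα0 hαβ (by rw [hM]; linarith) hM0
    hm1 hm2 hsum
  have hw0 : 0 < (∑ i, ((μ i : ℕ) : ℝ) ^ 2) / M := div_pos hS0 hM0
  have hgood' : (∑ i, (((μ i : ℕ) : ℝ) ^ 2 + (μ i : ℕ)) / 2 <
        ((Sset ν ((∑ i, ((μ i : ℕ) : ℝ) ^ 2) / M)).card : ℝ)) :=
    lt_of_lt_of_le hgood (Sset_card hν hw0)
  refine ⟨bip _ (c μ), mem_image.2 ⟨μ, mem_filter.2 ⟨mem_univ _, hgood'⟩, rfl⟩, ?_⟩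
  -- size
  have hsize : |((evalEval a b (bip _ (c μ)) : ℤ) : ℝ)| <
      T ^ ((∑ i, ((μ i : ℕ) : ℝ) ^ 2) / M) := by
    refine lt_of_le_of_lt ?_ (hT₁ T (le_trans (le_max_left _ _) hT) μ)
    rw [bip_eval]
    push_cast
    refine le_trans (Finset.abs_sum_le_sum_abs _ _) ?_
    refine Finset.sum_le_sum fun σ _ => ?_
    rw [abs_mul, abs_mul, mul_assoc]
    apply mul_le_mul_of_nonneg_left _ (abs_nonneg _)
    rw [abs_pow, abs_pow, Real.rpow_add hT0, Real.rpow_natCast, Real.rpow_mul hT0.le,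
      Real.rpow_natCast]
    apply mul_le_mul
    · exact pow_le_pow_left₀ (abs_nonneg _) ha _
    · exact pow_le_pow_left₀ (abs_nonneg _) hb _
    · positivity
    · positivity
  -- divisibility
  have hdvd : ((∏ i, (D i : ℤ) ^ (m i))) ∣ evalEval a b (bip _ (c μ)) := by
    apply Finset.prod_dvd_of_coprime
    · intro i _ j _ hij
      have := hcop hij
      exact IsCoprime.pow (Nat.isCoprime_iff_coprime.2 this)
    · intro i _
      exact vanish_dvd _ (c μ) (px i) (py i) (m i) (fun s t hst => (hc μ hgood').2 i s t hst) _ a b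
        (hDa i) (hDb i)
  have hprod : T ^ ((∑ i, ((μ i : ℕ) : ℝ) ^ 2) / M) ≤ ((∏ i, (D i : ℤ) ^ (m i) : ℤ) : ℝ) := by
    push_cast
    have h1 : ∀ i, (D i : ℝ) = T ^ (α i) := by
      intro i
      have hDi : (0 : ℝ) < D i := by exact_mod_cast hD i
      rw [Real.rpow_def_of_pos hT0, hα]
      simp only
      rw [mul_div_cancel₀ _ hlogT.ne', Real.exp_log hDi]
    have h2 : ∏ i, (D i : ℝ) ^ (m i) = T ^ (∑ i, α i * m i) := by
      rw [Real.rpow_sum_of_pos hT0]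
      refine Finset.prod_congr rfl fun i _ => ?_
      rw [h1 i, ← Real.rpow_natCast, ← Real.rpow_mul hT0.le]
    rw [h2]
    apply Real.rpow_le_rpow_of_exponent_le (by linarith)
    rw [Finset.sum_div]
    refine Finset.sum_le_sum fun i _ => ?_
    rw [div_le_iff₀ hM0, hμm]
    have := hm1 i
    have h0 : (0 : ℝ) ≤ m i := Nat.cast_nonneg _
    nlinarith
  have hfin : |evalEval a b (bip _ (c μ))| < ∏ i, (D i : ℤ) ^ (m i) := by
    have : ((|evalEval a b (bip _ (c μ))| : ℤ) : ℝ) < ((∏ i, (D i : ℤ) ^ (m i) : ℤ) : ℝ) := by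
      rw [Int.cast_abs]
      exact lt_of_lt_of_le hsize hprod
    exact_mod_cast this
  exact Int.eq_zero_of_abs_lt_dvd hdvd hfin

end Pool.Agent.K9h7.SG
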