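import Mathlib

/-!
# Integer valued polynomials with `0 ≤ f(-k) < k` for `k ≤ R`
-/

set_option autoImplicit false

open Finset Polynomial

namespace Pool.Agent.K9h7.SG

/-- difference with step `g` -/
def dl (g : ℕ) (f : ℕ → ℚ) : ℕ → ℚ := fun x => f (x + g) - f x

/-- iterated differences -/
def dls : List ℕ → (ℕ → ℚ) → (ℕ → ℚ)
  | [], f => f
  | g :: gs, f => dls gs (dl g f)

/-- `f` is given by a polynomial of degree at most `n` with coefficient `a` at `x^n` -/
def PN (n : ℕ) (a : ℚ) (f : ℕ → ℚ) : Prop :=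
  ∃ P : ℚ[X], P.natDegree ≤ n ∧ P.coeff n = a ∧ ∀ x : ℕ, f x = P.eval (x : ℚ)

theorem PN_dl {n : ℕ} {a : ℚ} {f : ℕ → ℚ} (h : PN (n + 1) a f) (g : ℕ) :
    PN n ((n + 1) * g * a) (dl g f) := by
  obtain ⟨P, h1, h2, h3⟩ := h
  have hc : ∀ j, (taylor (g : ℚ) P).coeff j = ∑ i ∈ range (n + 2), (i.choose j : ℚ) * P.coeff i * (g : ℚ) ^ (i - j) := by
    intro j
    rw [taylor_coeff, hasseDeriv_apply, sum_over_range' _ _ (n + 2) (by omega)]
    · rw [eval_finsetSum]
      refine Finset.sum_congr rfl fun i _ => ?_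
      rw [eval_monomial]
    · intro i; simp
  refine ⟨taylor (g : ℚ) P - P, ?_, ?_, ?_⟩
  · rw [natDegree_le_iff_coeff_eq_zero]
    intro j hj
    rw [coeff_sub]
    rcases Nat.lt_or_ge (n + 1) j with h4 | h4
    · rw [coeff_eq_zero_of_natDegree_lt (by rw [natDegree_taylor]; omega),
        coeff_eq_zero_of_natDegree_lt (by omega), sub_zero]
    · have hj' : j = n + 1 := by omega
      subst hj'
      rw [hc, Finset.sum_range_succ, Finset.sum_eq_zero]
      · simp
      · intro i hi
        rw [mem_range] at hi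
        rw [Nat.choose_eq_zero_of_lt hi]
        simp
  · rw [coeff_sub, hc, Finset.sum_range_succ, Finset.sum_range_succ, Finset.sum_eq_zero]
    · rw [h2]
      simp
      ring
    · intro i hi
      rw [mem_range] at hi
      rw [Nat.choose_eq_zero_of_lt hi]
      simp
  · intro x
    unfold dl
    rw [h3, h3, eval_sub, taylor_eval]
    push_cast
    rw [add_comm (x : ℚ) g]

theorem PN_dls (gs : List ℕ) : ∀ {a : ℚ} {f : ℕ → ℚ}, PN gs.length a f → ∀ x,
    dls gs f x = (gs.length.factorial : ℚ) * a * gs.prod := by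
  induction gs with
  | nil =>
    intro a f h x
    obtain ⟨P, h1, h2, h3⟩ := h
    simp only [List.length_nil, Nat.le_zero] at h1
    rw [dls, h3, eq_C_of_natDegree_eq_zero h1, eval_C]
    simp only [List.length_nil] at h2
    rw [h2]; simp
  | cons g gs ih =>
    intro a f h x
    rw [dls, ih (PN_dl h g)]
    rw [List.length_cons, Nat.factorial_succ, List.prod_cons]
    push_cast
    ring

theorem dls_bound (gs : List ℕ) : ∀ {f : ℕ → ℚ} {B : ℚ} {M : ℕ}, 2 + gs.sum ≤ M →
    (∀ x, 2 ≤ x → x ≤ M → |f x| ≤ B) → |dls gs f 2| ≤ 2 ^ gs.length * B := by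
  induction gs with
  | nil =>
    intro f B M hM hf
    simp only [List.sum_nil, add_zero] at hM
    simpa [dls] using hf 2 le_rfl hM
  | cons g gs ih =>
    intro f B M hM hf
    rw [List.sum_cons] at hM
    have := ih (f := dl g f) (B := 2 * B) (M := M - g) (by omega) (by
      intro x h1 h2
      unfold dl
      refine (abs_sub _ _).trans ?_
      have h3 := hf (x + g) (by omega) (by omega)
      have h4 := hf x h1 (by omega)
      linarith)
    rw [dls, List.length_cons]
    calc |dls gs (dl g f) 2| ≤ 2 ^ gs.length * (2 * B) := this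
      _ = 2 ^ (gs.length + 1) * B := by ring

theorem dls_bound' (g : ℕ) (gs : List ℕ) {f : ℕ → ℚ} {M : ℕ} (hM : 2 + (g + gs.sum) ≤ M)
    (hf : ∀ x, 2 ≤ x → x ≤ M → 0 ≤ f x ∧ f x ≤ 1) : |dls (g :: gs) f 2| ≤ 2 ^ gs.length := by
  have := dls_bound gs (f := dl g f) (B := 1) (M := M - g) (by omega) (by
      intro x h1 h2
      unfold dl
      have h3 := hf (x + g) (by omega) (by omega)
      have h4 := hf x h1 (by omega)
      rw [abs_le]
      constructor <;> linarith [h3.1, h3.2, h4.1, h4.2])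
  rw [dls]
  simpa using this

theorem dls_int (gs : List ℕ) : ∀ {f : ℕ → ℚ} {M : ℕ} (y : ℕ), y + gs.sum ≤ M →
    (∀ x, y ≤ x → x ≤ M → ∃ z : ℤ, f x = z) → ∃ z : ℤ, dls gs f y = z := by
  induction gs with
  | nil =>
    intro f M y hM hf
    simp only [List.sum_nil, add_zero] at hM
    exact hf y le_rfl hM
  | cons g gs ih =>
    intro f M y hM hf
    rw [List.sum_cons] at hM
    rw [dls]
    refine ih (f := dl g f) (M := M - g) y (by omega) ?_
    intro x h1 h2
    obtain ⟨z1, hz1⟩ := hf (x + g) (by omega) (by omega)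
    obtain ⟨z2, hz2⟩ := hf x h1 (by omega)
    refine ⟨z1 - z2, ?_⟩
    unfold dl
    rw [hz1, hz2]; push_cast; rfl

/-- The main inequality for a nonlinear polynomial. -/
theorem classify {d : ℤ} (hd : d ≠ 0) (Q : ℤ[X]) (R : ℕ)
    (hrow : ∀ k : ℕ, 1 ≤ k → k ≤ R → ∃ i : ℕ, i < k ∧ Q.eval (-(k : ℤ)) = d * i)
    (g : ℕ) (gs : List ℕ) (hlen : gs.length + 2 = Q.natDegree)
    (hsum : g + gs.sum + 2 ≤ R) (hdeg : Q.natDegree + 1 ≤ R) :
    g * gs.prod ≤ Q.natDegree * 2 ^ gs.length := by
  have hdQ : (d : ℚ) ≠ 0 := by exact_mod_cast hd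
  -- the rational polynomial `h(x) = Q(-x) / d`
  set h : ℚ[X] := C ((d : ℚ)⁻¹) * (Q.map (Int.castRingHom ℚ)).comp (-X) with hh
  have hev : ∀ x : ℤ, h.eval (x : ℚ) = (Q.eval (-x) : ℤ) / d := by
    intro x
    rw [hh, eval_mul, eval_C, eval_comp, eval_neg, eval_X]
    have h1 : eval (-(x : ℚ)) (Q.map (Int.castRingHom ℚ)) = ((Q.eval (-x) : ℤ) : ℚ) := by
      have := eval_intCast_map (Int.castRingHom ℚ) Q (-x)
      simpa only [eq_intCast, Int.cast_id, Int.cast_neg] using this
    rw [h1]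
    field_simp
  have hdegh : h.natDegree = Q.natDegree := by
    rw [hh, natDegree_C_mul (inv_ne_zero hdQ), natDegree_comp]
    rw [natDegree_neg, natDegree_X, mul_one]
    exact natDegree_map_eq_of_injective (Int.cast_injective) Q
  have hh0 : h ≠ 0 := by
    intro h0
    rw [h0, natDegree_zero] at hdegh
    omega
  have hlc : h.coeff Q.natDegree ≠ 0 := by
    rw [← hdegh]; exact leadingCoeff_ne_zero.2 hh0
  set a := h.coeff Q.natDegree with ha
  -- integer values
  have hint : ∀ k : ℕ, 1 ≤ k → k ≤ R → ∃ i : ℕ, i < k ∧ h.eval (k : ℚ) = i := by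
    intro k h1 h2
    obtain ⟨i, hi, hi2⟩ := hrow k h1 h2
    refine ⟨i, hi, ?_⟩
    have := hev k
    rw [Int.cast_natCast] at this
    rw [this, hi2]
    push_cast
    field_simp
  -- lower bound for the leading coefficient
  have hlow : 1 ≤ |(Q.natDegree.factorial : ℚ) * a| := by
    have h1 : PN (List.replicate Q.natDegree 1).length a (fun x : ℕ => h.eval (x : ℚ)) := by
      rw [List.length_replicate]
      exact ⟨h, hdegh.le, rfl, fun x => rfl⟩
    have h2 := PN_dls _ h1 1
    rw [List.length_replicate, List.prod_replicate, one_pow, Nat.cast_one, mul_one] at h2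
    obtain ⟨z, hz⟩ := dls_int (List.replicate Q.natDegree 1) (f := fun x : ℕ => h.eval (x : ℚ))
      (M := R) 1 (by rw [List.sum_replicate, smul_eq_mul, mul_one]; omega) (by
        intro x hx1 hx2
        obtain ⟨i, _, hi⟩ := hint x hx1 hx2
        exact ⟨i, by rw [hi]; simp⟩)
    rw [← h2, hz]
    have hz0 : z ≠ 0 := by
      intro h0
      rw [h0] at hz
      rw [hz, Int.cast_zero] at h2
      have : (Q.natDegree.factorial : ℚ) ≠ 0 := by exact_mod_cast (Nat.factorial_ne_zero _)
      exact (mul_ne_zero this hlc) h2.symm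
    have := Int.one_le_abs hz0
    rw [← Int.cast_abs]
    exact_mod_cast this
  -- divide by `x - 1`
  have hroot : h.IsRoot 1 := by
    obtain ⟨i, hi, hi2⟩ := hint 1 le_rfl (by omega)
    have : i = 0 := by omega
    rw [this] at hi2
    simpa using hi2
  obtain ⟨u, hu⟩ := dvd_iff_isRoot.2 hroot
  have hu0 : u ≠ 0 := by
    intro h0; rw [h0, mul_zero] at hu; exact hh0 hu
  have hdegu : u.natDegree + 1 = Q.natDegree := by
    rw [← hdegh, hu, natDegree_mul (X_sub_C_ne_zero 1) hu0, natDegree_X_sub_C]; ring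
  have hcoeffu : u.coeff u.natDegree = a := by
    have h1 : h.leadingCoeff = u.leadingCoeff := by
      rw [hu, leadingCoeff_mul, leadingCoeff_X_sub_C, one_mul]
    rw [coeff_natDegree, ← h1, ha, ← hdegh, coeff_natDegree]
  have hub : ∀ x : ℕ, 2 ≤ x → x ≤ R → 0 ≤ u.eval (x : ℚ) ∧ u.eval (x : ℚ) ≤ 1 := by
    intro x h1 h2
    obtain ⟨i, hi, hi2⟩ := hint x (by omega) h2
    rw [hu, eval_mul, eval_sub, eval_X, eval_C] at hi2
    have hx : (2 : ℚ) ≤ x := by exact_mod_cast h1
    have hi3 : (i : ℚ) + 1 ≤ x := by exact_mod_cast hi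
    have hi0 : (0 : ℚ) ≤ i := Nat.cast_nonneg _
    constructor
    · by_contra hc
      push Not at hc
      nlinarith
    · by_contra hc
      push Not at hc
      nlinarith
  have h1 : PN (g :: gs).length a (fun x : ℕ => u.eval (x : ℚ)) := by
    have e : (g :: gs).length = u.natDegree := by rw [List.length_cons]; omega
    rw [e]
    exact ⟨u, le_rfl, hcoeffu, fun x => rfl⟩
  have h2 := PN_dls _ h1 2
  have h3 := dls_bound' g gs (f := fun x : ℕ => u.eval (x : ℚ)) (M := R) (by omega) hub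
  rw [h2, List.length_cons, List.prod_cons] at h3
  have e : Q.natDegree = gs.length + 1 + 1 := by omega
  rw [e, Nat.factorial_succ, Nat.cast_mul, Nat.cast_add, Nat.cast_add, Nat.cast_one] at hlow
  generalize gs.prod = pr at *
  rw [Nat.cast_mul] at h3
  have hpos : (0 : ℚ) ≤ (g : ℚ) * pr := by positivity
  rw [abs_mul, abs_mul] at h3 hlow
  rw [abs_of_nonneg hpos] at h3
  have hf : |((gs.length + 1).factorial : ℚ)| = (gs.length + 1).factorial := abs_of_nonneg (by positivity)
  have hf2 : |((gs.length : ℚ) + 1 + 1)| = (gs.length : ℚ) + 1 + 1 := abs_of_nonneg (by positivity)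
  rw [hf2] at hlow
  rw [hf] at hlow h3
  have hgoal : ((g * pr : ℕ) : ℚ) ≤ ((gs.length + 1 + 1) * 2 ^ gs.length : ℕ) := by
    push_cast
    set t := ((gs.length + 1).factorial : ℚ) * |a| with ht
    have ht0 : 0 ≤ t := by positivity
    have hl : 1 ≤ ((gs.length : ℚ) + 1 + 1) * t := by
      rw [ht]; linarith
    calc (g : ℚ) * pr = 1 * ((g : ℚ) * pr) := (one_mul _).symm
      _ ≤ (((gs.length : ℚ) + 1 + 1) * t) * ((g : ℚ) * pr) :=
          mul_le_mul_of_nonneg_right hl hpos
      _ = ((gs.length : ℚ) + 1 + 1) * (t * ((g : ℚ) * pr)) := by ring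
      _ ≤ ((gs.length : ℚ) + 1 + 1) * 2 ^ gs.length :=
          mul_le_mul_of_nonneg_left h3 (by positivity)
  have := (Nat.cast_le (α := ℚ)).1 hgoal
  rw [e]
  exact this

end Pool.Agent.K9h7.SG
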