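import Pool.Agent.K9h7.SG.Aux2
import Pool.Agent.K9h7.SG.Class

/-!
# The polynomials of degree at most one in `Y`, and the corollaries of the classification
-/

set_option autoImplicit false

open Finset Polynomial Polynomial.Bivariate

namespace Pool.Agent.K9h7.SG

/-- an integer polynomial of smaller degree is eventually smaller in absolute value -/
theorem eventually_abs_lt {A S : ℤ[X]} (h : S.degree < A.degree) :
    ∃ x0 : ℕ, ∀ x : ℤ, (x0 : ℤ) ≤ |x| → |S.eval x| < |A.eval x| := by
  have key : ∀ A S : ℤ[X], S.degree < A.degree → ∃ x0 : ℕ, ∀ x : ℤ, (x0 : ℤ) ≤ x →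
      |S.eval x| < |A.eval x| := by
    intro A S h
    have hA : A ≠ 0 := by
      rintro rfl
      simp at h
    have h1 : (S.map (Int.castRingHom ℝ)).degree < (A.map (Int.castRingHom ℝ)).degree := by
      rw [degree_map_eq_of_injective (Int.cast_injective), degree_map_eq_of_injective (Int.cast_injective)]
      exact h
    have h2 := Polynomial.div_tendsto_atTop_zero_of_degree_lt _ _ h1
    have h3 : ∀ᶠ x : ℝ in Filter.atTop, |eval x (S.map (Int.castRingHom ℝ)) /
        eval x (A.map (Int.castRingHom ℝ))| < 1 := by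
      have := (h2.abs).eventually (gt_mem_nhds (show |(0:ℝ)| < 1 by simp))
      exact this
    obtain ⟨M, hM⟩ := Filter.eventually_atTop.1 h3
    obtain ⟨M2, hM2⟩ := Filter.eventually_atTop.1
      (Polynomial.eventually_atTop_not_isRoot (A.map (Int.castRingHom ℝ))
        ((Polynomial.map_ne_zero_iff (Int.cast_injective)).2 hA))
    refine ⟨max ⌈M⌉₊ ⌈M2⌉₊, fun x hx => ?_⟩
    have hx1 : M ≤ (x : ℝ) := by
      have : (⌈M⌉₊ : ℤ) ≤ x := le_trans (by exact_mod_cast le_max_left _ _) hx
      calc M ≤ (⌈M⌉₊ : ℝ) := Nat.le_ceil _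
        _ ≤ x := by exact_mod_cast this
    have hx2 : M2 ≤ (x : ℝ) := by
      have : (⌈M2⌉₊ : ℤ) ≤ x := le_trans (by exact_mod_cast le_max_right _ _) hx
      calc M2 ≤ (⌈M2⌉₊ : ℝ) := Nat.le_ceil _
        _ ≤ x := by exact_mod_cast this
    have e1 := hM _ hx1
    have e2 := hM2 _ hx2
    have c1 : ∀ P : ℤ[X], eval (x : ℝ) (P.map (Int.castRingHom ℝ)) = ((P.eval x : ℤ) : ℝ) := by
      intro P
      have := eval_intCast_map (Int.castRingHom ℝ) P x
      simpa only [eq_intCast, Int.cast_id] using this
    rw [c1, c1] at e1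
    rw [IsRoot.def, c1] at e2
    rw [abs_div, div_lt_one (abs_pos.2 e2)] at e1
    exact_mod_cast e1
  obtain ⟨x1, h1⟩ := key A S h
  have h' : (S.comp (-X)).degree < (A.comp (-X)).degree := by
    rw [degree_comp_neg_X, degree_comp_neg_X]; exact h
  obtain ⟨x2, h2⟩ := key _ _ h'
  refine ⟨max x1 x2, fun x hx => ?_⟩
  rcases le_total 0 x with h0 | h0
  · rw [abs_of_nonneg h0] at hx
    exact h1 x (le_trans (by exact_mod_cast le_max_left _ _) hx)
  · rw [abs_of_nonpos h0] at hx
    have := h2 (-x) (le_trans (by exact_mod_cast le_max_right _ _) hx)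
    simpa [eval_comp] using this

/-- pseudo-division -/
theorem pseudo_div {A : ℤ[X]} (hA : A ≠ 0) : ∀ (n : ℕ) (B : ℤ[X]), B.degree < n →
    ∃ d : ℤ, d ≠ 0 ∧ ∃ Q S : ℤ[X], S.degree < A.degree ∧ C d * B = Q * A + S := by
  intro n
  induction n with
  | zero =>
    intro B hB
    have : B = 0 := by
      rw [Nat.cast_zero] at hB
      exact degree_eq_bot.1 (Nat.WithBot.lt_zero_iff.1 hB)
    refine ⟨1, one_ne_zero, 0, 0, ?_, by rw [this]; simp⟩
    rw [degree_zero]; exact bot_lt_iff_ne_bot.2 (by rwa [Ne, degree_eq_bot])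
  | succ n ih =>
    intro B hB
    by_cases hlt : B.degree < A.degree
    · exact ⟨1, one_ne_zero, 0, B, hlt, by simp⟩
    push Not at hlt
    have hB0 : B ≠ 0 := by
      rintro rfl
      rw [degree_zero, le_bot_iff, degree_eq_bot] at hlt
      exact hA hlt
    have hnat : A.natDegree ≤ B.natDegree := natDegree_le_natDegree hlt
    set B' := C A.leadingCoeff * B - C B.leadingCoeff * X ^ (B.natDegree - A.natDegree) * A with hB'
    have hlcA : A.leadingCoeff ≠ 0 := leadingCoeff_ne_zero.2 hA
    have hlcB : B.leadingCoeff ≠ 0 := leadingCoeff_ne_zero.2 hB0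
    have d1 : (C A.leadingCoeff * B).degree = B.degree := by
      rw [degree_C_mul hlcA]
    have d2 : (C B.leadingCoeff * X ^ (B.natDegree - A.natDegree) * A).degree = B.degree := by
      rw [mul_assoc, degree_C_mul hlcB, degree_mul, degree_X_pow, degree_eq_natDegree hA,
        degree_eq_natDegree hB0]
      norm_cast
      omega
    have hdeg : B'.degree < B.degree := by
      rw [← d1]
      refine degree_sub_lt_left (d1.trans d2.symm) ?_ ?_
      · exact mul_ne_zero (C_ne_zero.2 hlcA) hB0
      · rw [leadingCoeff_mul, leadingCoeff_mul, leadingCoeff_mul, leadingCoeff_C, leadingCoeff_C,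
          leadingCoeff_X_pow]
        ring
    have hBn : B.natDegree ≤ n := by
      rw [degree_eq_natDegree hB0] at hB
      have : B.natDegree < n + 1 := by exact_mod_cast hB
      omega
    have hdeg2 : B'.degree < n := by
      refine lt_of_lt_of_le hdeg ?_
      rw [degree_eq_natDegree hB0]
      exact_mod_cast hBn
    obtain ⟨d, hd, Q, S, hS, hQ⟩ := ih B' hdeg2
    refine ⟨d * A.leadingCoeff, mul_ne_zero hd hlcA,
      Q + C d * (C B.leadingCoeff * X ^ (B.natDegree - A.natDegree)), S, hS, ?_⟩
    rw [C_mul]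
    have : C d * C A.leadingCoeff * B =
      C d * B' + C d * (C B.leadingCoeff * X ^ (B.natDegree - A.natDegree)) * A := by
      rw [hB']; ring
    rw [this, hQ]; ring

/-- The irreducible polynomials: eventually no solutions, or `d Y = Q(X)`, or degree at least
two in `Y`. -/
theorem irr_cases {G : ℤ[X][Y]} (hG : Irreducible G) :
    (∃ x0 : ℕ, ∀ x y : ℤ, (x0 : ℤ) ≤ |x| → evalEval x y G ≠ 0) ∨
    (∃ d : ℤ, d ≠ 0 ∧ ∃ Q : ℤ[X], ∀ x y : ℤ, evalEval x y G = 0 → Q.eval x = d * y) ∨
    2 ≤ G.natDegree := by
  rcases Nat.lt_or_ge G.natDegree 2 with h2 | h2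
  swap
  · exact Or.inr (Or.inr h2)
  rcases Nat.lt_or_ge G.natDegree 1 with h1 | h1
  · -- degree zero
    left
    have h0 : G.natDegree = 0 := by omega
    have hC := eq_C_of_natDegree_eq_zero h0
    have hne : G.coeff 0 ≠ 0 := by
      intro h
      rw [h, C_0] at hC
      exact hG.ne_zero hC
    obtain ⟨x0, hx0⟩ := eventually_abs_lt (A := X * G.coeff 0) (S := G.coeff 0) (by
      rw [degree_mul, degree_X, degree_eq_natDegree hne]
      norm_cast
      omega)
    refine ⟨max x0 1, fun x y hx h => ?_⟩
    rw [hC, evalEval_C] at h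
    have := hx0 x (le_trans (by exact_mod_cast le_max_left _ _) hx)
    rw [eval_mul, h, mul_zero] at this
    exact lt_irrefl _ this
  · -- degree one
    have hdeg : G.natDegree = 1 := by omega
    set A := G.coeff 1 with hA
    set B := G.coeff 0 with hB
    have hAne : A ≠ 0 := by
      rw [hA, ← hdeg]
      exact leadingCoeff_ne_zero.2 hG.ne_zero
    have hGe : G = C A * X + C B := by
      have := eq_X_add_C_of_natDegree_le_one (p := G) (by omega)
      rw [← hA, ← hB] at this
      exact this
    have hev : ∀ x y : ℤ, evalEval x y G = A.eval x * y + B.eval x := by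
      intro x y
      rw [hGe]
      simp [evalEval]
    have hnoroot : ∀ x y : ℤ, evalEval x y G = 0 → A.eval x ≠ 0 := by
      intro x y h h0
      rw [hev, h0, zero_mul, zero_add] at h
      have hd1 : (X - C x : ℤ[X]) ∣ A := dvd_iff_isRoot.2 h0
      have hd2 : (X - C x : ℤ[X]) ∣ B := dvd_iff_isRoot.2 h
      have hd : C (X - C x : ℤ[X]) ∣ G := by
        rw [hGe]
        exact dvd_add (Dvd.dvd.mul_right (_root_.map_dvd C hd1) _) (_root_.map_dvd C hd2)
      obtain ⟨H, hH⟩ := hd
      rcases hG.isUnit_or_isUnit hH with hu | hu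
      · rw [isUnit_C] at hu
        exact (X_sub_C_ne_zero x |> fun _ => not_isUnit_X_sub_C x) hu
      · have h7 : H.natDegree = 0 := natDegree_eq_zero_of_isUnit hu
        have h8 : G.natDegree ≤ 0 := by
          calc G.natDegree = (C (X - C x : ℤ[X]) * H).natDegree := by rw [← hH]
            _ ≤ (C (X - C x : ℤ[X])).natDegree + H.natDegree := natDegree_mul_le
            _ = 0 := by rw [natDegree_C, h7]
        omega
    obtain ⟨d, hd, Q, S, hS, hQ⟩ := pseudo_div hAne (B.natDegree + 1) (-B) (by
      rw [degree_neg]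
      exact lt_of_le_of_lt degree_le_natDegree (by exact_mod_cast Nat.lt_succ_self _))
    have hkey : ∀ x y : ℤ, evalEval x y G = 0 → A.eval x * (d * y - Q.eval x) = S.eval x := by
      intro x y h
      rw [hev] at h
      have h3 := congrArg (eval x) hQ
      rw [eval_mul, eval_C, eval_neg, eval_add, eval_mul] at h3
      linear_combination d * h + h3
    by_cases hS0 : S = 0
    · right; left
      refine ⟨d, hd, Q, fun x y h => ?_⟩
      have h4 := hkey x y h
      rw [hS0, eval_zero] at h4
      rcases mul_eq_zero.1 h4 with h5 | h5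
      · exact absurd h5 (hnoroot x y h)
      · linarith
    · left
      obtain ⟨x1, hx1⟩ := eventually_abs_lt hS
      obtain ⟨x2, hx2⟩ := eventually_abs_lt (A := X * S) (S := S) (by
        rw [degree_mul, degree_X, degree_eq_natDegree hS0]
        norm_cast
        omega)
      refine ⟨max x1 x2, fun x y hx h => ?_⟩
      have e1 := hx1 x (le_trans (by exact_mod_cast le_max_left _ _) hx)
      have e2 := hx2 x (le_trans (by exact_mod_cast le_max_right _ _) hx)
      have e3 := hkey x y h
      rw [← e3, abs_mul] at e1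
      have e4 : |d * y - Q.eval x| < 1 := by
        by_contra hc
        push Not at hc
        nlinarith [abs_nonneg (A.eval x)]
      have e5 : d * y - Q.eval x = 0 := Int.abs_lt_one_iff.1 e4
      rw [e5, mul_zero] at e3
      rw [eval_mul, ← e3, mul_zero] at e2
      exact lt_irrefl _ e2

end Pool.Agent.K9h7.SG
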