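import Pool.Agent.K9h7.SG.Rows

/-!
# Cells: the coprime divisors of `a + k` and the harmonic sum
-/

set_option autoImplicit false

open Finset Polynomial Polynomial.Bivariate

namespace Pool.Agent.K9h7.SG

open Pool.Agent.R60.Steiner

/-- the primes of the cell `(-k, i)` -/
def cellP (R a b k i : ℕ) : Finset ℕ :=
  (a + k).primeFactors.filter fun p =>
    R < p ^ (a + k).factorization p ∧ b % p ^ (a + k).factorization p = i

/-- the divisor of `a + k` which belongs to the cell `(-k, i)` -/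
def cellD (R a b k i : ℕ) : ℕ := ∏ p ∈ cellP R a b k i, p ^ (a + k).factorization p

theorem mem_cellP {R a b k i p : ℕ} : p ∈ cellP R a b k i ↔ (p.Prime ∧ p ∣ a + k ∧ a + k ≠ 0) ∧
    R < p ^ (a + k).factorization p ∧ b % p ^ (a + k).factorization p = i := by
  unfold cellP
  rw [mem_filter, Nat.mem_primeFactors]

theorem cellD_pos (R a b k i : ℕ) : 0 < cellD R a b k i := by
  unfold cellD
  refine Finset.prod_pos fun p hp => ?_
  rw [mem_cellP] at hp
  exact pow_pos hp.1.1.pos _

theorem cellD_dvd {R a b k i : ℕ} (h : a + k ≠ 0) : cellD R a b k i ∣ a + k := by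
  have h1 : ∏ p ∈ (a + k).primeFactors, p ^ (a + k).factorization p = a + k :=
    Nat.prod_factorization_pow_eq_self h
  have h2 : cellD R a b k i ∣ ∏ p ∈ (a + k).primeFactors, p ^ (a + k).factorization p := by
    unfold cellD
    exact Finset.prod_dvd_prod_of_subset _ _ _ (Finset.filter_subset _ _)
  rw [h1] at h2
  exact h2

theorem cellD_dvd_sub (R a b k i : ℕ) : (cellD R a b k i : ℤ) ∣ (b : ℤ) - i := by
  unfold cellD
  rw [Nat.cast_prod]
  refine Finset.prod_dvd_of_coprime ?_ ?_
  · intro p hp p' hp' hne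
    rw [mem_coe, mem_cellP] at hp hp'
    simp only [Function.onFun]
    rw [Nat.isCoprime_iff_coprime]
    exact Nat.Coprime.pow _ _ ((Nat.coprime_primes hp.1.1 hp'.1.1).2 hne)
  · intro p hp
    rw [mem_cellP] at hp
    rw [← hp.2.2, ← Nat.cast_sub (Nat.mod_le _ _)]
    exact_mod_cast Nat.dvd_sub_mod b

theorem cellD_coprime {R a b k i k' i' : ℕ} (hk : 1 ≤ k) (hkR : k ≤ R) (hk' : 1 ≤ k')
    (hkR' : k' ≤ R) (hne : (k, i) ≠ (k', i')) :
    Nat.Coprime (cellD R a b k i) (cellD R a b k' i') := by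
  unfold cellD
  refine Nat.Coprime.prod_left fun p hp => Nat.Coprime.prod_right fun p' hp' => ?_
  rw [mem_cellP] at hp hp'
  by_cases hpp : p = p'
  · exfalso
    subst hpp
    by_cases hkk : k = k'
    · subst hkk
      apply hne
      rw [← hp.2.2, ← hp'.2.2]
    · -- the smaller power divides the difference
      have d1 : p ^ (a + k).factorization p ∣ a + k := Nat.ordProj_dvd _ _
      have d2 : p ^ (a + k').factorization p ∣ a + k' := Nat.ordProj_dvd _ _
      rcases le_total ((a + k).factorization p) ((a + k').factorization p) with hle | hle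
      · have d3 := (pow_dvd_pow p hle).trans d2
        have d4 := Nat.dvd_sub d1 d3
        have d5 := Nat.dvd_sub d3 d1
        rcases Nat.lt_or_gt_of_ne hkk with h | h
        · have := Nat.le_of_dvd (by omega) d5
          have := hp.2.1
          omega
        · have := Nat.le_of_dvd (by omega) d4
          have := hp.2.1
          omega
      · have d3 := (pow_dvd_pow p hle).trans d1
        have d4 := Nat.dvd_sub d3 d2
        have d5 := Nat.dvd_sub d2 d3
        rcases Nat.lt_or_gt_of_ne hkk with h | h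
        · have := Nat.le_of_dvd (by omega) d5
          have := hp'.2.1
          omega
        · have := Nat.le_of_dvd (by omega) d4
          have := hp'.2.1
          omega
  · exact Nat.Coprime.pow _ _ ((Nat.coprime_primes hp.1.1 hp'.1.1).2 hpp)

theorem le_prod_cellD {R a b r k : ℕ} (hnc : NoCarry a b r) (hk : 1 ≤ k) (hkR : k ≤ R)
    (hRr : R ≤ r) : a + k ≤ R.factorial * ∏ i ∈ range k, cellD R a b k i := by
  have hpos : 0 < R.factorial * ∏ i ∈ range k, cellD R a b k i :=
    Nat.mul_pos (Nat.factorial_pos _) (Finset.prod_pos fun i _ => cellD_pos _ _ _ _ _)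
  refine Nat.le_of_dvd hpos ?_
  rw [Nat.dvd_iff_prime_pow_dvd_dvd]
  intro p e hp hdvd
  have hne : a + k ≠ 0 := by omega
  have hev : e ≤ (a + k).factorization p := (hp.pow_dvd_iff_le_factorization hne).1 hdvd
  rcases Nat.lt_or_ge R (p ^ (a + k).factorization p) with hlt | hge
  · have d1 : p ^ (a + k).factorization p ∣ a + k := Nat.ordProj_dvd _ _
    have hi := mod_lt_of_noCarry hnc hp hk (by omega) (by omega : k < p ^ (a + k).factorization p) d1
    refine Dvd.dvd.mul_left (Dvd.dvd.trans ?_ (Finset.dvd_prod_of_mem _ (mem_range.2 hi))) _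
    refine (pow_dvd_pow p hev).trans ?_
    unfold cellD
    refine Finset.dvd_prod_of_mem (fun p => p ^ (a + k).factorization p) ?_
    rw [mem_cellP]
    refine ⟨⟨hp, ?_, hne⟩, hlt, rfl⟩
    have hv : (a + k).factorization p ≠ 0 := by
      intro h0
      rw [h0, pow_zero] at hlt
      omega
    exact (dvd_pow_self p hv).trans d1
  · refine Dvd.dvd.mul_right ((pow_dvd_pow p hev).trans ?_) _
    exact Nat.dvd_factorial (pow_pos hp.pos _) hge

/-- the cells -/
abbrev Cell (R : ℕ) : Type := (k : Fin R) × Fin (k.1 + 1)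

/-- The harmonic sum. -/
theorem harmonic_le_cells {R a b r : ℕ} (hnc : NoCarry a b r) (hRr : R ≤ r) (ha : 2 ≤ a)
    (hR : Real.log R.factorial ≤ Real.log a) :
    (harmonic R : ℝ) * (1 - Real.log R.factorial / Real.log a) ^ 2 ≤
      ∑ c : Cell R, (Real.log (cellD R a b (c.1.1 + 1) c.2.1) / Real.log a) ^ 2 := by
  have hla : 0 < Real.log a := Real.log_pos (by exact_mod_cast ha)
  rw [Fintype.sum_sigma]
  have hH : (harmonic R : ℝ) = ∑ k : Fin R, ((k.1 : ℝ) + 1)⁻¹ := by
    rw [harmonic, Rat.cast_sum, ← Fin.sum_univ_eq_sum_range (fun i => ((((i + 1 : ℕ) : ℚ)⁻¹ : ℚ) : ℝ))]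
    refine Finset.sum_congr rfl fun i _ => ?_
    push_cast
    rfl
  rw [hH, Finset.sum_mul]
  refine Finset.sum_le_sum fun k _ => ?_
  have hcs := sq_sum_le_card_mul_sum_sq (s := (Finset.univ : Finset (Fin (k.1 + 1))))
    (f := fun i => Real.log (cellD R a b (k.1 + 1) i.1) / Real.log a)
  rw [card_univ, Fintype.card_fin] at hcs
  have hk0 : (0 : ℝ) < (k.1 : ℝ) + 1 := by positivity
  have hle := le_prod_cellD (R := R) hnc (k := k.1 + 1) (by omega) (by have := k.2; omega) hRr
  have hlog : Real.log a ≤ Real.log R.factorial +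
      ∑ i : Fin (k.1 + 1), Real.log (cellD R a b (k.1 + 1) i.1) := by
    have h1 : (a : ℝ) ≤ (R.factorial : ℝ) * ∏ i ∈ range (k.1 + 1), (cellD R a b (k.1 + 1) i : ℝ) := by
      have : a ≤ R.factorial * ∏ i ∈ range (k.1 + 1), cellD R a b (k.1 + 1) i := by omega
      exact_mod_cast this
    have h2 := Real.log_le_log (by positivity) h1
    rw [Real.log_mul (by exact_mod_cast (Nat.factorial_ne_zero R)) (by
      rw [Finset.prod_ne_zero_iff]
      intro i _
      exact_mod_cast (cellD_pos _ _ _ _ _).ne'), Real.log_prod (fun i _ => by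
        exact_mod_cast (cellD_pos _ _ _ _ _).ne')] at h2
    rw [Fin.sum_univ_eq_sum_range (fun i => Real.log (cellD R a b (k.1 + 1) i))]
    exact h2
  have hS : 1 - Real.log R.factorial / Real.log a ≤
      ∑ i : Fin (k.1 + 1), Real.log (cellD R a b (k.1 + 1) i.1) / Real.log a := by
    rw [← Finset.sum_div, one_sub_div hla.ne']
    exact div_le_div_of_nonneg_right (by linarith) hla.le
  have hS0 : 0 ≤ 1 - Real.log R.factorial / Real.log a := by
    rw [sub_nonneg, div_le_one hla]; exact hR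
  have hsq := pow_le_pow_left₀ hS0 hS 2
  rw [inv_mul_le_iff₀ hk0]
  refine hsq.trans (hcs.trans (le_of_eq ?_))
  push_cast
  ring

/-- a zero of a product of irreducible polynomials -/
theorem irreducible_family (𝓕 : Finset ℤ[X][Y]) (h0 : ∀ F ∈ 𝓕, F ≠ 0) :
    ∃ 𝓖 : Finset ℤ[X][Y], (∀ G ∈ 𝓖, Irreducible G) ∧ ∀ x y : ℤ,
      (∃ F ∈ 𝓕, evalEval x y F = 0) → ∃ G ∈ 𝓖, evalEval x y G = 0 := by
  classical
  refine ⟨𝓕.biUnion fun F => (UniqueFactorizationMonoid.factors F).toFinset, ?_, ?_⟩
  · intro G hG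
    rw [mem_biUnion] at hG
    obtain ⟨F, hF, hG⟩ := hG
    rw [Multiset.mem_toFinset] at hG
    exact UniqueFactorizationMonoid.irreducible_of_factor G hG
  · rintro x y ⟨F, hF, hxy⟩
    have h1 := UniqueFactorizationMonoid.factors_prod (h0 F hF)
    have h2 := h1.map (evalEvalRingHom x y)
    rw [coe_evalEvalRingHom, hxy, associated_zero_iff_eq_zero, ← coe_evalEvalRingHom,
      map_multiset_prod, Multiset.prod_eq_zero_iff, Multiset.mem_map] at h2
    obtain ⟨G, hG, hG0⟩ := h2
    refine ⟨G, ?_, hG0⟩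
    rw [mem_biUnion]
    exact ⟨F, hF, Multiset.mem_toFinset.2 hG⟩

/-- **Core lemma.** A finite family of irreducible polynomials contains an auxiliary polynomial
for each pair `(a, b)` with no carries in the first `R` rows and `b ≤ a ^ ν`, where `ν` is smaller
than the harmonic number of `R`. -/
theorem core (R : ℕ) (ν ε : ℝ) (hν : 0 < ν) (hε : 0 < ε) (h : ν + ε ≤ harmonic R) :
    ∃ (𝓖 : Finset ℤ[X][Y]) (a0 : ℕ), (∀ G ∈ 𝓖, Irreducible G) ∧ ∀ a b r : ℕ, a0 ≤ a → R ≤ r →
      NoCarry a b r → (b : ℝ) ≤ (a : ℝ) ^ ν → ∃ G ∈ 𝓖, evalEval (a : ℤ) (b : ℤ) G = 0 := by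
  obtain ⟨𝓕, T₀, hT0, hF0, hF⟩ := aux_family (ι := Cell R) (fun c => -((c.1.1 + 1 : ℕ) : ℤ))
    (fun c => ((c.2.1 : ℕ) : ℤ)) ν (ε / 2) 2 hν (by linarith) (by norm_num)
  obtain ⟨𝓖, hG1, hG2⟩ := irreducible_family 𝓕 hF0
  -- the logarithms
  have hev : ∀ᶠ a : ℕ in Filter.atTop, ν + ε / 2 ≤
      (harmonic R : ℝ) * (1 - Real.log R.factorial / Real.log a) ^ 2 := by
    have h1 : Filter.Tendsto (fun a : ℕ => Real.log (a : ℝ)) Filter.atTop Filter.atTop :=
      Real.tendsto_log_atTop.comp tendsto_natCast_atTop_atTop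
    have h2 : Filter.Tendsto (fun a : ℕ => Real.log R.factorial / Real.log (a : ℝ)) Filter.atTop
        (nhds 0) := h1.const_div_atTop _
    have h3 : Filter.Tendsto (fun a : ℕ => (harmonic R : ℝ) *
        (1 - Real.log R.factorial / Real.log (a : ℝ)) ^ 2) Filter.atTop
        (nhds ((harmonic R : ℝ) * (1 - 0) ^ 2)) :=
      ((tendsto_const_nhds.sub h2).pow 2).const_mul _
    have h4 : ν + ε / 2 < (harmonic R : ℝ) * (1 - 0) ^ 2 := by
      rw [sub_zero, one_pow, mul_one]; linarith
    exact (h3.eventually (lt_mem_nhds h4)).mono fun _ h => h.le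
  obtain ⟨a1, ha1⟩ := Filter.eventually_atTop.1 hev
  refine ⟨𝓖, max (max a1 ⌈T₀⌉₊) (max (R.factorial + 2) (R + 2)), hG1, ?_⟩
  intro a b r ha hRr hnc hb
  have e1 : a1 ≤ a := (le_max_left _ _).trans ((le_max_left _ _).trans ha)
  have e2 : ⌈T₀⌉₊ ≤ a := (le_max_right _ _).trans ((le_max_left _ _).trans ha)
  have e3 : R.factorial + 2 ≤ a := (le_max_left _ _).trans ((le_max_right _ _).trans ha)
  have e4 : R + 2 ≤ a := (le_max_right _ _).trans ((le_max_right _ _).trans ha)
  have hla : 0 < Real.log a := Real.log_pos (by exact_mod_cast (by omega : 1 < a))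
  apply hG2
  refine hF (a : ℝ) ((Nat.le_ceil _).trans (by exact_mod_cast e2)) (a : ℤ) (b : ℤ) ?_ ?_
    (fun c => cellD R a b (c.1.1 + 1) c.2.1) (fun c => cellD_pos _ _ _ _ _) ?_ ?_ ?_ ?_ ?_
  · simp
  · rw [Int.cast_natCast, abs_of_nonneg (Nat.cast_nonneg _)]; exact hb
  · rintro ⟨k, i⟩ ⟨k', i'⟩ hne
    refine cellD_coprime (by omega) (by have := k.2; simp only; omega) (by omega)
      (by have := k'.2; simp only; omega) ?_
    intro heq
    apply hne
    simp only [Prod.mk.injEq] at heq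
    have hkk : k = k' := Fin.ext (by omega)
    subst hkk
    congr 1
    exact Fin.ext heq.2
  · rintro ⟨k, i⟩
    simp only
    rw [sub_neg_eq_add]
    exact_mod_cast cellD_dvd (R := R) (a := a) (b := b) (k := k.1 + 1) (i := i.1) (by omega)
  · rintro ⟨k, i⟩
    exact cellD_dvd_sub _ _ _ _ _
  · rintro ⟨k, i⟩
    simp only
    have h1 : cellD R a b (k.1 + 1) i.1 ≤ a ^ 2 := by
      have h2 := Nat.le_of_dvd (by omega) (cellD_dvd (R := R) (a := a) (b := b) (k := k.1 + 1)
        (i := i.1) (by omega))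
      have := k.2
      nlinarith
    have h3 : (cellD R a b (k.1 + 1) i.1 : ℝ) ≤ (a : ℝ) ^ 2 := by exact_mod_cast h1
    have h4 := Real.log_le_log (by exact_mod_cast cellD_pos _ _ _ _ _) h3
    rw [Real.log_pow] at h4
    exact_mod_cast h4
  · refine (ha1 a e1).trans (harmonic_le_cells hnc hRr (by omega) ?_)
    exact Real.log_le_log (by exact_mod_cast Nat.factorial_pos R)
      (by exact_mod_cast (by omega : R.factorial ≤ a))

end Pool.Agent.K9h7.SG
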