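import Mathlib

/-!
# Integer points on plane curves, I: points in one residue class modulo `p`
-/

set_option autoImplicit false

open Finset Polynomial

namespace Pool.Agent.K9h7.SG

open scoped Polynomial.Bivariate

theorem evalEval_congr (p : ℤ) (G : ℤ[X][Y]) {x y x0 y0 : ℤ} (hx : p ∣ x - x0) (hy : p ∣ y - y0) :
    p ∣ evalEval x y G - evalEval x0 y0 G := by
  have h1 : p ∣ evalEval x y G - evalEval x0 y G := by
    unfold evalEval
    exact hx.trans (sub_dvd_eval_sub _ _ _)
  have h2 : p ∣ evalEval x0 y G - evalEval x0 y0 G := by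
    rw [← map_evalRingHom_eval, ← map_evalRingHom_eval]
    exact hy.trans (sub_dvd_eval_sub _ _ _)
  have := dvd_add h1 h2
  rwa [sub_add_sub_cancel] at this

theorem eval_evalPoly (G : ℤ[X][Y]) (T : ℤ[X]) (x : ℤ) :
    (G.eval T).eval x = evalEval x (T.eval x) G := by
  rw [← map_evalRingHom_eval, ← coe_evalRingHom x]
  conv_lhs => rw [← eval₂_id, hom_eval₂]
  rw [eval_map]
  rfl

/-- Hensel's lemma: the integer points of the curve `G = 0` in a residue class modulo `p` without
singularity satisfy `y ≡ T(x)` modulo `p^(k+1)`, with a polynomial `T` of degree at most `k`. -/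
theorem hensel_poly (p : ℕ) (hp : p.Prime) (G : ℤ[X][Y]) (x0 y0 : ℤ)
    (h1 : ¬ (p : ℤ) ∣ evalEval x0 y0 (derivative G)) (k : ℕ) :
    ∃ T : ℤ[X], T.natDegree ≤ k ∧ ∀ x y : ℤ, (p : ℤ) ∣ x - x0 → (p : ℤ) ∣ y - y0 →
      evalEval x y G = 0 → (p : ℤ) ^ (k + 1) ∣ y - T.eval x := by
  have hpZ : Prime (p : ℤ) := Nat.prime_iff_prime_int.1 hp
  -- an inverse
  obtain ⟨u, v, huv⟩ : ∃ u v : ℤ, u * evalEval x0 y0 (derivative G) + v * p = 1 := by
    have : IsCoprime (evalEval x0 y0 (derivative G)) (p : ℤ) :=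
      ((Prime.coprime_iff_not_dvd hpZ).2 h1).symm
    exact this
  induction k with
  | zero =>
    refine ⟨C y0, by simp, fun x y _ hy _ => ?_⟩
    simpa using hy
  | succ k ih =>
    obtain ⟨T, hT, hTx⟩ := ih
    set E : ℤ[X] := G.eval T with hE
    have hmonic : ((X - C x0) ^ (k + 2) : ℤ[X]).Monic := (monic_X_sub_C x0).pow _
    refine ⟨(T - C u * E) %ₘ (X - C x0) ^ (k + 2), ?_, fun x y hx hy hG => ?_⟩
    · have := natDegree_modByMonic_lt (T - C u * E) hmonic (by
        intro h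
        have := congrArg natDegree h
        rw [natDegree_pow, natDegree_X_sub_C, natDegree_one] at this
        omega)
      rw [natDegree_pow, natDegree_X_sub_C, mul_one] at this
      omega
    · obtain ⟨s, hs⟩ := hTx x y hx hy hG
      set δ := y - T.eval x with hδ
      have hbin := (binomExpansion (G.map (evalRingHom x)) (T.eval x) δ)
      obtain ⟨κ, hκ⟩ := hbin
      have hy' : T.eval x + δ = y := by rw [hδ]; ring
      rw [hy', map_evalRingHom_eval, hG, map_evalRingHom_eval, ← eval_evalPoly, ← hE,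
        derivative_map, map_evalRingHom_eval] at hκ
      -- congruence of the derivative
      have hpδ : (p : ℤ) ∣ δ := by
        rw [hs]; exact (dvd_pow_self _ (by omega)).mul_right _
      have hTy : (p : ℤ) ∣ T.eval x - y0 := by
        have : T.eval x - y0 = (y - y0) - δ := by rw [hδ]; ring
        rw [this]; exact dvd_sub hy hpδ
      obtain ⟨w, hw⟩ := evalEval_congr (p : ℤ) (derivative G) hx hTy
      have hmod := modByMonic_add_div (T - C u * E) ((X - C x0) ^ (k + 2))
      have hev := congrArg (eval x) hmod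
      rw [eval_add, eval_mul, eval_pow, eval_sub, eval_X, eval_C, eval_sub, eval_mul, eval_C] at hev
      obtain ⟨z, hz⟩ := hx
      rw [hz] at hev
      set M := ((T - C u * E) %ₘ (X - C x0) ^ (k + 2)).eval x with hM
      set Dv := ((T - C u * E) /ₘ (X - C x0) ^ (k + 2)).eval x with hDv
      set g1 := evalEval x (T.eval x) (derivative G) with hg1
      set g0 := evalEval x0 y0 (derivative G) with hg0
      -- y - M = δ + T - M
      have e1 : y - M = δ + u * eval x E + ((p : ℤ) * z) ^ (k + 2) * Dv := by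
        have : T.eval x = y - δ := by rw [hδ]; ring
        rw [this] at hev
        linarith
      have e2 : eval x E = -(g1 * δ) - κ * δ ^ 2 := by linarith
      have e3 : g1 = g0 + p * w := by linarith
      rw [e1, e2, e3]
      have e4 : δ + u * (-((g0 + p * w) * δ) - κ * δ ^ 2) =
          (p : ℤ) ^ (k + 2) * (s * (v - u * w) - u * κ * s ^ 2 * (p : ℤ) ^ k) := by
        have h5 : δ * (1 - u * g0) = δ * (v * p) := by rw [← huv]; ring
        have : δ + u * (-((g0 + p * w) * δ) - κ * δ ^ 2) =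
            δ * (1 - u * g0) - u * p * w * δ - u * κ * δ ^ 2 := by ring
        rw [this, h5, hs]
        ring
      rw [e4, mul_pow]
      refine dvd_add (dvd_mul_right _ _) ?_
      have e5 : (p : ℤ) ^ (k + 2) * z ^ (k + 2) * Dv = (p : ℤ) ^ (k + 1 + 1) * (z ^ (k + 2) * Dv) := by
        ring
      rw [e5]
      exact dvd_mul_right _ _

/-- weights of the Lagrange interpolation -/
noncomputable def wt (s : Finset ℤ) (i : ℤ) : ℤ := ∏ l ∈ s.erase i, (i - l)

theorem wt_ne_zero (s : Finset ℤ) (i : ℤ) : wt s i ≠ 0 := by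
  unfold wt
  rw [Finset.prod_ne_zero_iff]
  intro l hl
  rw [mem_erase] at hl
  exact sub_ne_zero.2 (Ne.symm hl.1)

/-- the polynomial of the Lagrange interpolation, without denominators -/
noncomputable def lagr (s : Finset ℤ) (y : ℤ → ℤ) : ℤ[X] :=
  ∑ i ∈ s, C (y i * ∏ j ∈ s.erase i, wt s j) * ∏ l ∈ s.erase i, (X - C l)

theorem lagr_natDegree (s : Finset ℤ) (y : ℤ → ℤ) {k : ℕ} (hk : s.card = k + 1) :
    (lagr s y).natDegree ≤ k := by
  unfold lagr
  refine natDegree_sum_le_of_forall_le _ _ fun i hi => ?_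
  refine (natDegree_C_mul_le _ _).trans ?_
  refine (natDegree_prod_le _ _).trans ?_
  simp only [natDegree_X_sub_C, Finset.sum_const, smul_eq_mul, mul_one]
  rw [card_erase_of_mem hi, hk]
  simp

theorem lagr_eval_mem (s : Finset ℤ) (y : ℤ → ℤ) {i : ℤ} (hi : i ∈ s) :
    (lagr s y).eval i = (∏ j ∈ s, wt s j) * y i := by
  unfold lagr
  rw [eval_finsetSum, Finset.sum_eq_single i]
  · rw [eval_mul, eval_C, eval_prod]
    simp only [eval_sub, eval_X, eval_C]
    have : ∏ l ∈ s.erase i, (i - l) = wt s i := rfl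
    rw [this, ← Finset.mul_prod_erase s (wt s) hi]
    ring
  · intro j hj hji
    rw [eval_mul, eval_prod]
    simp only [eval_sub, eval_X, eval_C]
    rw [Finset.prod_eq_zero (i := i) (mem_erase.2 ⟨fun h => hji h.symm, hi⟩) (sub_self i), mul_zero]
  · intro h; exact absurd hi h

theorem lagr_poly (s : Finset ℤ) (T : ℤ[X]) {k : ℕ} (hk : s.card = k + 1) (hT : T.natDegree ≤ k) :
    lagr s (fun i => T.eval i) = C (∏ j ∈ s, wt s j) * T := by
  apply eq_of_degrees_lt_of_eval_finset_eq s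
  · refine lt_of_le_of_lt (degree_le_natDegree) ?_
    rw [hk]
    have := lagr_natDegree s (fun i => T.eval i) hk
    exact_mod_cast Nat.lt_succ_of_le this
  · refine lt_of_le_of_lt (degree_le_natDegree) ?_
    rw [hk]
    have : (C (∏ j ∈ s, wt s j) * T).natDegree ≤ k := (natDegree_C_mul_le _ _).trans hT
    exact_mod_cast Nat.lt_succ_of_le this
  · intro x hx
    rw [lagr_eval_mem s _ hx, eval_mul, eval_C]

theorem lagr_sub (s : Finset ℤ) (y z : ℤ → ℤ) : lagr s y - lagr s z = lagr s (fun i => y i - z i) := by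
  unfold lagr
  rw [← Finset.sum_sub_distrib]
  refine Finset.sum_congr rfl fun i _ => ?_
  rw [← sub_mul, ← C_sub, ← sub_mul]

/-- The points of a residue class lie on the graph of a polynomial of degree at most `k`. -/
theorem class_poly (p : ℕ) (k : ℕ) (T : ℤ[X]) (hT : T.natDegree ≤ k) (Q : Set ℤ) (y : ℤ → ℤ)
    (hQ : ∀ a ∈ Q, ∀ b ∈ Q, (p : ℤ) ∣ a - b) (hy : ∀ a ∈ Q, (p : ℤ) ^ (k + 1) ∣ y a - T.eval a)
    (A B : ℝ) (hA : ∀ a ∈ Q, |(a : ℝ)| ≤ A) (hB : ∀ a ∈ Q, |(y a : ℝ)| ≤ B) (hA1 : 1 ≤ 2 * A)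
    (hsize : (k + 2) * B * (2 * A) ^ (k * (k + 1)) < (p : ℝ) ^ ((k + 1) * (k + 1)))
    (s : Finset ℤ) (hs : (s : Set ℤ) ⊆ Q) (hk : s.card = k + 1) (q : ℤ) (hq : q ∈ Q) :
    (∏ j ∈ s, wt s j) * y q = (lagr s y).eval q := by
  classical
  set W := ∏ j ∈ s, wt s j with hW
  -- each weight is divisible by `p^k`
  have hwt : ∀ j ∈ s, (p : ℤ) ^ k ∣ wt s j := by
    intro j hj
    unfold wt
    have h1 : (p : ℤ) ^ (s.erase j).card ∣ ∏ l ∈ s.erase j, (j - l) := by
      rw [← Finset.prod_const]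
      exact Finset.prod_dvd_prod_of_dvd _ _ fun l hl =>
        hQ j (hs hj) l (hs (mem_of_mem_erase hl))
    rwa [card_erase_of_mem hj, hk, Nat.add_sub_cancel] at h1
  have hWdvd : (p : ℤ) ^ (k * (k + 1)) ∣ W := by
    have h1 : ((p : ℤ) ^ k) ^ s.card ∣ W := by
      rw [← Finset.prod_const]
      exact Finset.prod_dvd_prod_of_dvd _ _ hwt
    rwa [hk, ← pow_mul] at h1
  have hWi : ∀ i ∈ s, (p : ℤ) ^ (k * (k + 1)) ∣
      (∏ j ∈ s.erase i, wt s j) * ∏ l ∈ s.erase i, (q - l) := by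
    intro i hi
    have h1 : ((p : ℤ) ^ k) ^ (s.erase i).card ∣ ∏ j ∈ s.erase i, wt s j := by
      rw [← Finset.prod_const]
      exact Finset.prod_dvd_prod_of_dvd _ _ fun j hj => hwt j (mem_of_mem_erase hj)
    have h2 : (p : ℤ) ^ (s.erase i).card ∣ ∏ l ∈ s.erase i, (q - l) := by
      rw [← Finset.prod_const]
      exact Finset.prod_dvd_prod_of_dvd _ _ fun l hl => hQ q hq l (hs (mem_of_mem_erase hl))
    rw [card_erase_of_mem hi, hk, Nat.add_sub_cancel] at h1 h2
    have h3 := mul_dvd_mul h1 h2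
    have e : ((p : ℤ) ^ k) ^ k * (p : ℤ) ^ k = (p : ℤ) ^ (k * (k + 1)) := by
      rw [← pow_mul, ← pow_add]; ring_nf
    rwa [e] at h3
  have hdvd : (p : ℤ) ^ ((k + 1) * (k + 1)) ∣ W * y q - (lagr s y).eval q := by
    have e1 : W * y q - (lagr s y).eval q =
        W * (y q - T.eval q) - (lagr s (fun i => y i - T.eval i)).eval q := by
      have h1 := lagr_sub s y (fun i => T.eval i)
      rw [lagr_poly s T hk hT] at h1
      have h2 := congrArg (eval q) h1
      rw [eval_sub, eval_mul, eval_C] at h2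
      rw [← h2]; ring
    rw [e1]
    have e2 : (p : ℤ) ^ ((k + 1) * (k + 1)) = (p : ℤ) ^ (k * (k + 1)) * (p : ℤ) ^ (k + 1) := by
      rw [← pow_add]; ring_nf
    rw [e2]
    refine dvd_sub (mul_dvd_mul hWdvd (hy q hq)) ?_
    unfold lagr
    rw [eval_finsetSum]
    refine Finset.dvd_sum fun i hi => ?_
    rw [eval_mul, eval_C, eval_prod]
    simp only [eval_sub, eval_X, eval_C]
    have h3 := mul_dvd_mul (hWi i hi) (hy i (hs hi))
    have e3 : (y i - eval i T) * (∏ j ∈ s.erase i, wt s j) * ∏ l ∈ s.erase i, (q - l) =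
        ((∏ j ∈ s.erase i, wt s j) * ∏ l ∈ s.erase i, (q - l)) * (y i - eval i T) := by ring
    rw [e3]
    exact h3
  -- size
  have hA0 : 0 ≤ 2 * A := by linarith
  have hdiff : ∀ a ∈ Q, ∀ b ∈ Q, |((a - b : ℤ) : ℝ)| ≤ 2 * A := by
    intro a ha b hb
    push_cast
    refine (abs_sub _ _).trans ?_
    linarith [hA a ha, hA b hb]
  have hwtle : ∀ j ∈ s, |((wt s j : ℤ) : ℝ)| ≤ (2 * A) ^ k := by
    intro j hj
    unfold wt
    rw [Int.cast_prod, Finset.abs_prod]
    refine (Finset.prod_le_prod (fun _ _ => abs_nonneg _) fun l hl =>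
      hdiff j (hs hj) l (hs (mem_of_mem_erase hl))).trans ?_
    rw [Finset.prod_const, card_erase_of_mem hj, hk, Nat.add_sub_cancel]
  have hWle : |((W : ℤ) : ℝ)| ≤ (2 * A) ^ (k * (k + 1)) := by
    rw [hW, Int.cast_prod, Finset.abs_prod]
    refine (Finset.prod_le_prod (fun _ _ => abs_nonneg _) hwtle).trans ?_
    rw [Finset.prod_const, hk, ← pow_mul]
  have hB0 : 0 ≤ B := le_trans (abs_nonneg _) (hB q hq)
  have hlagr : |(((lagr s y).eval q : ℤ) : ℝ)| ≤ (k + 1) * B * (2 * A) ^ (k * (k + 1)) := by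
    unfold lagr
    rw [eval_finsetSum]
    push_cast
    refine (Finset.abs_sum_le_sum_abs _ _).trans ?_
    have hterm : ∀ i ∈ s, |(((C (y i * ∏ j ∈ s.erase i, wt s j) * ∏ l ∈ s.erase i, (X - C l)).eval q : ℤ) : ℝ)|
        ≤ B * (2 * A) ^ (k * (k + 1)) := by
      intro i hi
      rw [eval_mul, eval_C, eval_prod]
      simp only [eval_sub, eval_X, eval_C]
      rw [Int.cast_mul, Int.cast_mul, abs_mul, abs_mul, Int.cast_prod, Int.cast_prod,
        Finset.abs_prod, Finset.abs_prod]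
      have h1 : ∏ j ∈ s.erase i, |((wt s j : ℤ) : ℝ)| ≤ (2 * A) ^ (k * k) := by
        refine (Finset.prod_le_prod (fun _ _ => abs_nonneg _) fun j hj =>
          hwtle j (mem_of_mem_erase hj)).trans ?_
        rw [Finset.prod_const, card_erase_of_mem hi, hk, Nat.add_sub_cancel, ← pow_mul]
      have h2 : ∏ l ∈ s.erase i, |((q - l : ℤ) : ℝ)| ≤ (2 * A) ^ k := by
        refine (Finset.prod_le_prod (fun _ _ => abs_nonneg _) fun l hl =>
          hdiff q hq l (hs (mem_of_mem_erase hl))).trans ?_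
        rw [Finset.prod_const, card_erase_of_mem hi, hk, Nat.add_sub_cancel]
      have e : (2 * A) ^ (k * (k + 1)) = (2 * A) ^ (k * k) * (2 * A) ^ k := by
        rw [← pow_add]; ring_nf
      rw [e, ← mul_assoc]
      apply mul_le_mul _ h2 (Finset.prod_nonneg fun _ _ => abs_nonneg _) (by positivity)
      exact mul_le_mul (hB i (hs hi)) h1 (Finset.prod_nonneg fun _ _ => abs_nonneg _) hB0
    refine (Finset.sum_le_sum hterm).trans ?_
    rw [Finset.sum_const, hk, nsmul_eq_mul]
    push_cast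
    rw [mul_assoc]
  have hfin : |((W * y q - (lagr s y).eval q : ℤ) : ℝ)| < (((p : ℤ) ^ ((k + 1) * (k + 1)) : ℤ) : ℝ) := by
    push_cast
    refine lt_of_le_of_lt ?_ hsize
    refine (abs_sub _ _).trans ?_
    rw [abs_mul]
    have h1 : |((W : ℤ) : ℝ)| * |(y q : ℝ)| ≤ (2 * A) ^ (k * (k + 1)) * B :=
      mul_le_mul hWle (hB q hq) (abs_nonneg _) (by positivity)
    nlinarith [h1, hlagr]
  have hfin' : |W * y q - (lagr s y).eval q| < (p : ℤ) ^ ((k + 1) * (k + 1)) := by
    rw [← Int.cast_abs] at hfin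
    exact_mod_cast hfin
  have := Int.eq_zero_of_abs_lt_dvd hdvd hfin'
  linarith

end Pool.Agent.K9h7.SG
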