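import Pool.Agent.K9h7.SG.Curve1

/-!
# Integer points on plane curves, II: irreducible polynomials
-/

set_option autoImplicit false

open Finset Polynomial

namespace Pool.Agent.K9h7.SG

open scoped Polynomial.Bivariate

/-- `G(X, g(X) / W)` without denominators -/
noncomputable def comb (G : ℤ[X][Y]) (W : ℤ) (g : ℤ[X]) : ℤ[X] :=
  ∑ j ∈ range (G.natDegree + 1), G.coeff j * g ^ j * (C W) ^ (G.natDegree - j)

theorem evalEval_sum_range (G : ℤ[X][Y]) (x y : ℤ) :
    evalEval x y G = ∑ j ∈ range (G.natDegree + 1), (G.coeff j).eval x * y ^ j := by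
  unfold evalEval
  rw [eval_eq_sum_range (p := G), eval_finsetSum]
  refine Finset.sum_congr rfl fun j _ => ?_
  rw [eval_mul, eval_pow, eval_C]

theorem comb_eval (G : ℤ[X][Y]) (W : ℤ) (g : ℤ[X]) (x y : ℤ) (h : W * y = g.eval x) :
    (comb G W g).eval x = W ^ G.natDegree * evalEval x y G := by
  rw [evalEval_sum_range, Finset.mul_sum]
  unfold comb
  rw [eval_finsetSum]
  refine Finset.sum_congr rfl fun j hj => ?_
  rw [mem_range] at hj
  rw [eval_mul, eval_mul, eval_pow, eval_pow, eval_C, ← h]
  obtain ⟨e, he⟩ : ∃ e, G.natDegree = j + e := ⟨G.natDegree - j, by omega⟩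
  rw [he, Nat.add_sub_cancel_left]
  ring

theorem comb_natDegree (G : ℤ[X][Y]) (W : ℤ) (g : ℤ[X]) (d k : ℕ)
    (hd : ∀ j, (G.coeff j).natDegree ≤ d) (hg : g.natDegree ≤ k) :
    (comb G W g).natDegree ≤ d + G.natDegree * k := by
  unfold comb
  refine natDegree_sum_le_of_forall_le _ _ fun j hj => ?_
  rw [mem_range] at hj
  refine (natDegree_mul_le).trans ?_
  have h1 : (G.coeff j * g ^ j).natDegree ≤ d + j * k := by
    refine (natDegree_mul_le).trans ?_
    have := natDegree_pow_le (p := g) (n := j)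
    have h2 : j * g.natDegree ≤ j * k := Nat.mul_le_mul_left _ hg
    have := hd j
    omega
  have h2 : ((C W : ℤ[X]) ^ (G.natDegree - j)).natDegree = 0 := by
    rw [← C_pow, natDegree_C]
  rw [h2, add_zero]
  have h3 : j * k ≤ G.natDegree * k := Nat.mul_le_mul_right _ (by omega)
  omega

theorem exists_coeff_bound (G : ℤ[X][Y]) : ∃ d : ℕ, ∀ j, (G.coeff j).natDegree ≤ d := by
  refine ⟨∑ j ∈ range (G.natDegree + 1), (G.coeff j).natDegree, fun j => ?_⟩
  by_cases hj : j ∈ range (G.natDegree + 1)
  · exact Finset.single_le_sum (f := fun j => (G.coeff j).natDegree) (fun _ _ => Nat.zero_le _) hj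
  · rw [mem_range, not_lt] at hj
    rw [coeff_eq_zero_of_natDegree_lt (by omega), natDegree_zero]
    exact Nat.zero_le _

theorem map_irred {G : ℤ[X][Y]} (hG : Irreducible G) (hb : G.natDegree ≠ 0) :
    Irreducible (G.map (algebraMap ℤ[X] (FractionRing ℤ[X]))) :=
  ((hG.isPrimitive hb).irreducible_iff_irreducible_map_fraction_map).1 hG

theorem comb_ne_zero {G : ℤ[X][Y]} (hG : Irreducible G) (hb : 2 ≤ G.natDegree) {W : ℤ}
    (hW : W ≠ 0) (g : ℤ[X]) : comb G W g ≠ 0 := by
  intro h
  set K := FractionRing ℤ[X]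
  set φ := algebraMap ℤ[X] K with hφ
  have hinj : Function.Injective φ := IsFractionRing.injective _ _
  have hirr := map_irred hG (by omega)
  have hW' : φ (C W) ≠ 0 := by
    intro h0
    have := hinj (h0.trans (map_zero φ).symm)
    exact hW (C_injective (this.trans C_0.symm))
  have hroot : (G.map φ).IsRoot (φ g / φ (C W)) := by
    rw [IsRoot.def, eval_map, eval₂_eq_sum_range]
    have h1 : φ (comb G W g) = 0 := by rw [h, map_zero]
    unfold comb at h1
    rw [map_sum] at h1
    have h2 : (∑ j ∈ range (G.natDegree + 1), φ (G.coeff j) * (φ g / φ (C W)) ^ j) *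
        φ (C W) ^ G.natDegree = 0 := by
      rw [← h1, Finset.sum_mul]
      refine Finset.sum_congr rfl fun j hj => ?_
      rw [mem_range] at hj
      obtain ⟨e, he⟩ : ∃ e, G.natDegree = j + e := ⟨G.natDegree - j, by omega⟩
      rw [he, Nat.add_sub_cancel_left, map_mul, map_mul, map_pow, map_pow, div_pow, pow_add]
      have hWj : φ (C W) ^ j ≠ 0 := pow_ne_zero _ hW'
      calc φ (G.coeff j) * (φ g ^ j / φ (C W) ^ j) * (φ (C W) ^ j * φ (C W) ^ e)
          = φ (G.coeff j) * φ g ^ j * (φ (C W) ^ j / φ (C W) ^ j) * φ (C W) ^ e := by ring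
        _ = φ (G.coeff j) * φ g ^ j * φ (C W) ^ e := by rw [div_self hWj, mul_one]
    rcases mul_eq_zero.1 h2 with h3 | h3
    · exact h3
    · exact absurd h3 (pow_ne_zero _ hW')
  have hdeg := degree_eq_one_of_irreducible_of_root hirr hroot
  have h3 : (G.map φ).natDegree = G.natDegree := natDegree_map_eq_of_injective hinj G
  have h4 : (G.map φ).natDegree = 1 := natDegree_eq_of_degree_eq_some (by rw [hdeg]; rfl)
  omega

/-- For irreducible `G` there are `U`, `V` with `U G + V G' = R(x) ≠ 0`. -/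
theorem exists_bezout {G : ℤ[X][Y]} (hG : Irreducible G) (hb : G.natDegree ≠ 0) :
    ∃ (U V : ℤ[X][Y]) (R : ℤ[X]), R ≠ 0 ∧ U * G + V * derivative G = C R := by
  set K := FractionRing ℤ[X]
  set φ := algebraMap ℤ[X] K with hφ
  have hinj : Function.Injective φ := IsFractionRing.injective _ _
  have hirr := map_irred hG hb
  obtain ⟨a, b, hab⟩ := hirr.separable
  obtain ⟨c, hc, hc'⟩ := IsLocalization.integerNormalization_spec (nonZeroDivisors ℤ[X]) a
  obtain ⟨d, hd, hd'⟩ := IsLocalization.integerNormalization_spec (nonZeroDivisors ℤ[X]) b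
  set U := IsLocalization.integerNormalization (nonZeroDivisors ℤ[X]) a
  set V := IsLocalization.integerNormalization (nonZeroDivisors ℤ[X]) b
  refine ⟨C d * U, C c * V, c * d, ?_, ?_⟩
  · exact mul_ne_zero (nonZeroDivisors.ne_zero hc) (nonZeroDivisors.ne_zero hd)
  · apply map_injective φ hinj
    rw [Polynomial.map_add, Polynomial.map_mul, Polynomial.map_mul, Polynomial.map_mul,
      Polynomial.map_mul, map_C, map_C, map_C, ← derivative_map, hc', hd']
    have e1 : c • a = C (φ c) * a := by
      rw [← algebraMap_smul K c a, smul_eq_C_mul]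
    have e2 : d • b = C (φ d) * b := by
      rw [← algebraMap_smul K d b, smul_eq_C_mul]
    rw [e1, e2, map_mul, C_mul]
    have : C (φ d) * (C (φ c) * a) * map φ G + C (φ c) * (C (φ d) * b) * derivative (map φ G)
        = C (φ c) * C (φ d) * (a * map φ G + b * derivative (map φ G)) := by ring
    rw [this, hab, mul_one]

end Pool.Agent.K9h7.SG
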