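import Pool.Agent.K9h7.SG.Curve2

/-!
# Integer points on plane curves, III: counting
-/

set_option autoImplicit false

open Finset Polynomial

namespace Pool.Agent.K9h7.SG

open scoped Polynomial.Bivariate

theorem class_card {G : ℤ[X][Y]} (hG : Irreducible G) (hb : 2 ≤ G.natDegree) (d : ℕ)
    (hd : ∀ j, (G.coeff j).natDegree ≤ d) (k p : ℕ) (hp : p.Prime) (A B : ℝ) (hA1 : 1 ≤ 2 * A)
    (hsize : (k + 2) * B * (2 * A) ^ (k * (k + 1)) < (p : ℝ) ^ ((k + 1) * (k + 1)))
    (Q : Finset ℤ) (y : ℤ → ℤ) (hGQ : ∀ a ∈ Q, evalEval a (y a) G = 0)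
    (hmod : ∀ a ∈ Q, ∀ b ∈ Q, (p : ℤ) ∣ a - b ∧ (p : ℤ) ∣ y a - y b)
    (hder : ∀ a ∈ Q, ¬ (p : ℤ) ∣ evalEval a (y a) (derivative G))
    (hA : ∀ a ∈ Q, |(a : ℝ)| ≤ A) (hB : ∀ a ∈ Q, |(y a : ℝ)| ≤ B) :
    Q.card ≤ d + G.natDegree * k + k + 1 := by
  classical
  by_contra hcon
  push Not at hcon
  obtain ⟨s, hsQ, hsk⟩ := exists_subset_card_eq (s := Q) (n := k + 1) (by omega)
  have hne : Q.Nonempty := by
    rw [← Finset.card_pos]; omega
  obtain ⟨x0, hx0⟩ := hne
  obtain ⟨T, hT, hTy⟩ := hensel_poly p hp G x0 (y x0) (hder x0 hx0) k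
  have hcl : ∀ q ∈ Q, (∏ j ∈ s, wt s j) * y q = (lagr s y).eval q := by
    intro q hq
    exact class_poly p k T hT (Q : Set ℤ) y (fun a ha b hb => (hmod a ha b hb).1)
      (fun a ha => hTy a (y a) (hmod a ha x0 hx0).1 (hmod a ha x0 hx0).2 (hGQ a ha)) A B hA hB hA1
      hsize s (by exact_mod_cast hsQ) hsk q hq
  set W := ∏ j ∈ s, wt s j with hW
  have hW0 : W ≠ 0 := Finset.prod_ne_zero_iff.2 fun j _ => wt_ne_zero s j
  have hne0 := comb_ne_zero hG hb hW0 (lagr s y)
  have hdeg := comb_natDegree G W (lagr s y) d k hd (lagr_natDegree s y hsk)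
  have hsub : Q ⊆ (comb G W (lagr s y)).roots.toFinset := by
    intro q hq
    rw [Multiset.mem_toFinset, mem_roots hne0, IsRoot.def, comb_eval G W _ q (y q) (hcl q hq),
      hGQ q hq, mul_zero]
  have h1 := Finset.card_le_card hsub
  have h2 := Multiset.toFinset_card_le (comb G W (lagr s y)).roots
  have h3 := card_roots' (comb G W (lagr s y))
  omega

theorem residue_count (p : ℕ) (hp : 0 < p) (N : ℕ) (S : Finset ℤ) (hS : ∀ x ∈ S, |x| ≤ N)
    (hmod : ∀ a ∈ S, ∀ b ∈ S, (p : ℤ) ∣ a - b) : S.card ≤ 2 * N / p + 1 := by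
  have hpZ : (0 : ℤ) < p := by exact_mod_cast hp
  rw [← card_range (2 * N / p + 1)]
  apply Finset.card_le_card_of_injOn (fun x : ℤ => ((x + (N : ℤ)) / (p : ℤ)).toNat)
  · intro x hx
    have h1 := abs_le.1 (hS x hx)
    rw [Finset.coe_range, Set.mem_Iio]
    have h2 : 0 ≤ (x + N) / (p : ℤ) := Int.ediv_nonneg (by linarith) hpZ.le
    have h3 : (x + N) / (p : ℤ) ≤ ((2 * N / p : ℕ) : ℤ) := by
      push_cast
      exact Int.ediv_le_ediv hpZ (by linarith)
    have h4 : ((x + (N : ℤ)) / (p : ℤ)).toNat < 2 * N / p + 1 := by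
      rw [Int.toNat_lt h2]
      push_cast at h3 ⊢
      linarith
    exact h4
  · intro a ha b hb hab
    simp only at hab
    have h1 := abs_le.1 (hS a ha)
    have h2 := abs_le.1 (hS b hb)
    have h3 : 0 ≤ (a + N) / (p : ℤ) := Int.ediv_nonneg (by linarith) hpZ.le
    have h4 : 0 ≤ (b + N) / (p : ℤ) := Int.ediv_nonneg (by linarith) hpZ.le
    have h5 : (a + N) / (p : ℤ) = (b + N) / (p : ℤ) := by omega
    have h6 : (a + N) % (p : ℤ) = (b + N) % (p : ℤ) :=
      (Int.modEq_iff_dvd.2 (hmod b hb a ha)).add_right _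
    have h7 := Int.emod_add_mul_ediv (a + N) p
    have h8 := Int.emod_add_mul_ediv (b + N) p
    rw [h5, h6] at h7
    linarith

/-- the number of second coordinates of the points over a given class is at most the degree -/
theorem second_coord {G : ℤ[X][Y]} (p : ℕ) [Fact p.Prime] (x0 : ℤ) (S : Finset (ZMod p))
    (hne : (G.map (evalRingHom x0)).map (Int.castRingHom (ZMod p)) ≠ 0)
    (hS : ∀ c ∈ S, ∃ y : ℤ, (y : ZMod p) = c ∧ (p : ℤ) ∣ evalEval x0 y G) :
    S.card ≤ G.natDegree := by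
  classical
  set g := (G.map (evalRingHom x0)).map (Int.castRingHom (ZMod p)) with hg
  have hsub : S ⊆ g.roots.toFinset := by
    intro c hc
    obtain ⟨y, hy, hdvd⟩ := hS c hc
    rw [Multiset.mem_toFinset, mem_roots hne, IsRoot.def, ← hy, hg]
    have h1 : eval ((y : ℤ) : ZMod p) ((G.map (evalRingHom x0)).map (Int.castRingHom (ZMod p)))
        = (Int.castRingHom (ZMod p)) (eval y (G.map (evalRingHom x0))) := by
      rw [eval_intCast_map]
      simp
    rw [h1, map_evalRingHom_eval]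
    simpa using (ZMod.intCast_zmod_eq_zero_iff_dvd _ _).2 hdvd
  have h1 := Finset.card_le_card hsub
  have h2 := Multiset.toFinset_card_le g.roots
  have h3 := card_roots' g
  have h4 : g.natDegree ≤ G.natDegree := (natDegree_map_le).trans natDegree_map_le
  omega

end Pool.Agent.K9h7.SG
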