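import Pool.Agent.K9h7.SG.Curve3

/-!
# Integer points on plane curves, IV: the power saving
-/

set_option autoImplicit false

open Finset Polynomial

namespace Pool.Agent.K9h7.SG

open scoped Polynomial.Bivariate

theorem bad_card (p : ℕ) (hp : p.Prime) (R : ℤ[X]) (hlc : ¬ (p : ℤ) ∣ R.leadingCoeff) (N : ℕ)
    (S : Finset ℤ) (hS : ∀ x ∈ S, |x| ≤ N) (hR : ∀ x ∈ S, (p : ℤ) ∣ R.eval x) :
    S.card ≤ (2 * N / p + 1) * R.natDegree := by
  classical
  haveI : Fact p.Prime := ⟨hp⟩
  have h1 : S.card ≤ (2 * N / p + 1) * (S.image (fun x : ℤ => (x : ZMod p))).card := by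
    apply Finset.card_le_mul_card_image
    intro c _
    apply residue_count p hp.pos
    · intro x hx
      exact hS x (mem_filter.1 hx).1
    · intro a ha b hb
      have h2 := (mem_filter.1 ha).2
      have h3 := (mem_filter.1 hb).2
      rw [← h3] at h2
      have h4 := (ZMod.intCast_eq_intCast_iff_dvd_sub _ _ _).1 h2.symm
      exact h4
  have hne : R.map (Int.castRingHom (ZMod p)) ≠ 0 := by
    intro h0
    have := congrArg (fun q => q.coeff R.natDegree) h0
    simp only [coeff_map, coeff_zero] at this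
    apply hlc
    rw [← ZMod.intCast_zmod_eq_zero_iff_dvd]
    simpa using this
  have h2 : (S.image (fun x : ℤ => (x : ZMod p))).card ≤ R.natDegree := by
    have hsub : S.image (fun x : ℤ => (x : ZMod p)) ⊆
        (R.map (Int.castRingHom (ZMod p))).roots.toFinset := by
      intro c hc
      obtain ⟨x, hx, rfl⟩ := mem_image.1 hc
      rw [Multiset.mem_toFinset, mem_roots hne, IsRoot.def, eval_intCast_map]
      simpa using (ZMod.intCast_zmod_eq_zero_iff_dvd _ _).2 (hR x hx)
    have h3 := Finset.card_le_card hsub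
    have h4 := Multiset.toFinset_card_le (R.map (Int.castRingHom (ZMod p))).roots
    have h5 := card_roots' (R.map (Int.castRingHom (ZMod p)))
    have h6 : (R.map (Int.castRingHom (ZMod p))).natDegree ≤ R.natDegree := natDegree_map_le
    omega
  exact h1.trans (Nat.mul_le_mul_left _ h2)

theorem good_card {G : ℤ[X][Y]} (hG : Irreducible G) (hb : 2 ≤ G.natDegree) (d : ℕ)
    (hd : ∀ j, (G.coeff j).natDegree ≤ d) (U V : ℤ[X][Y]) (R : ℤ[X])
    (hUV : U * G + V * derivative G = C R) (k p : ℕ) (hp : p.Prime) (A B : ℝ) (hA1 : 1 ≤ 2 * A)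
    (hsize : (k + 2) * B * (2 * A) ^ (k * (k + 1)) < (p : ℝ) ^ ((k + 1) * (k + 1)))
    (S : Finset ℤ) (y : ℤ → ℤ) (hGS : ∀ a ∈ S, evalEval a (y a) G = 0)
    (hR : ∀ a ∈ S, ¬ (p : ℤ) ∣ R.eval a)
    (hA : ∀ a ∈ S, |(a : ℝ)| ≤ A) (hB : ∀ a ∈ S, |(y a : ℝ)| ≤ B) :
    S.card ≤ (d + G.natDegree * k + k + 1) * (G.natDegree * p) := by
  classical
  haveI : Fact p.Prime := ⟨hp⟩
  have hbez : ∀ x y : ℤ, evalEval x y U * evalEval x y G +
      evalEval x y V * evalEval x y (derivative G) = R.eval x := by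
    intro x y
    have := congrArg (evalEval x y) hUV
    rwa [evalEval_add, evalEval_mul, evalEval_mul, evalEval_C] at this
  have h1 : S.card ≤ (d + G.natDegree * k + k + 1) *
      (S.image (fun x : ℤ => ((x : ZMod p), ((y x : ℤ) : ZMod p)))).card := by
    apply Finset.card_le_mul_card_image
    intro c _
    have hmem : ∀ a ∈ S.filter (fun x : ℤ => ((x : ZMod p), ((y x : ℤ) : ZMod p)) = c), a ∈ S :=
      fun a ha => (mem_filter.1 ha).1
    apply class_card hG hb d hd k p hp A B hA1 hsize _ y (fun a ha => hGS a (hmem a ha))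
    · intro a ha b hb
      have h2 := (mem_filter.1 ha).2
      have h3 := (mem_filter.1 hb).2
      rw [← h3] at h2
      rw [Prod.mk.injEq] at h2
      exact ⟨(ZMod.intCast_eq_intCast_iff_dvd_sub _ _ _).1 h2.1.symm,
        (ZMod.intCast_eq_intCast_iff_dvd_sub _ _ _).1 h2.2.symm⟩
    · intro a ha hdvd
      apply hR a (hmem a ha)
      rw [← hbez a (y a), hGS a (hmem a ha), mul_zero, zero_add]
      exact hdvd.mul_left _
    · exact fun a ha => hA a (hmem a ha)
    · exact fun a ha => hB a (hmem a ha)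
  refine h1.trans (Nat.mul_le_mul_left _ ?_)
  set I := S.image (fun x : ℤ => ((x : ZMod p), ((y x : ℤ) : ZMod p))) with hI
  have h2 : I.card ≤ G.natDegree * (I.image Prod.fst).card := by
    apply Finset.card_le_mul_card_image
    intro c hc
    obtain ⟨z, hz, rfl⟩ := mem_image.1 hc
    obtain ⟨x0, hx0, rfl⟩ := mem_image.1 hz
    have hcard : (I.filter (fun a => a.1 = (x0 : ZMod p))).card =
        ((I.filter (fun a => a.1 = (x0 : ZMod p))).image Prod.snd).card := by
      symm
      apply Finset.card_image_of_injOn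
      intro a ha b hb hab
      have h3 := (mem_filter.1 ha).2
      have h4 := (mem_filter.1 hb).2
      exact Prod.ext (h3.trans h4.symm) hab
    rw [hcard]
    apply second_coord p x0
    · intro h0
      apply hR x0 hx0
      -- everything vanishes modulo `p`
      have e1 : (p : ℤ) ∣ evalEval x0 (y x0) G := by
        rw [← ZMod.intCast_zmod_eq_zero_iff_dvd, ← map_evalRingHom_eval]
        have := eval_intCast_map (Int.castRingHom (ZMod p)) (G.map (evalRingHom x0)) (y x0)
        rw [h0, eval_zero] at this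
        simpa using this.symm
      have e2 : (p : ℤ) ∣ evalEval x0 (y x0) (derivative G) := by
        rw [← ZMod.intCast_zmod_eq_zero_iff_dvd, ← map_evalRingHom_eval]
        have := eval_intCast_map (Int.castRingHom (ZMod p)) ((derivative G).map (evalRingHom x0)) (y x0)
        rw [← derivative_map, ← derivative_map, h0, derivative_zero, eval_zero] at this
        rw [← derivative_map]
        simpa using this.symm
      rw [← hbez x0 (y x0)]
      exact dvd_add (e1.mul_left _) (e2.mul_left _)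
    · intro c hc
      obtain ⟨z, hz, rfl⟩ := mem_image.1 hc
      obtain ⟨hzI, hz1⟩ := mem_filter.1 hz
      obtain ⟨x, hx, rfl⟩ := mem_image.1 hzI
      refine ⟨y x, rfl, ?_⟩
      simp only at hz1
      have h5 : (p : ℤ) ∣ x0 - x := (ZMod.intCast_eq_intCast_iff_dvd_sub _ _ _).1 hz1
      have h6 := evalEval_congr (p : ℤ) G h5 (y := y x) (y0 := y x) (by simp)
      rwa [hGS x hx, sub_zero] at h6
  refine h2.trans (Nat.mul_le_mul_left _ ?_)
  refine (Finset.card_le_univ _).trans ?_
  rw [ZMod.card]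

/-- **Integer points on a curve.** If `G` is irreducible of degree at least two in `y`, then only
few integers `|x| ≤ N` have an integer `|y| ≤ N^ν` with `G(x,y) = 0`. -/
theorem curve_count {G : ℤ[X][Y]} (hG : Irreducible G) (hb : 2 ≤ G.natDegree) (k : ℕ) (hk : 1 ≤ k) :
    ∃ C c : ℝ, 0 < C ∧ 0 < c ∧ c < 1 ∧ ∀ N : ℕ, 1 ≤ N → ∀ S : Finset ℤ,
      (∀ x ∈ S, |x| ≤ N ∧ ∃ y : ℤ, |y| ≤ (N : ℤ) ^ k ∧ evalEval x y G = 0) →
      (S.card : ℝ) ≤ C * (N : ℝ) ^ (1 - c) := by
  classical
  obtain ⟨U, V, R, hR0, hUV⟩ := exists_bezout hG (by omega)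
  obtain ⟨d, hd⟩ := exists_coeff_bound G
  set K : ℕ := (k + 2) * 2 ^ (k * (k + 1)) with hK
  set N0 : ℕ := K ^ 2 + R.leadingCoeff.natAbs ^ 2 + 2 with hN0
  set η : ℝ := 1 / (2 * ((k : ℝ) + 1) ^ 2) with hη
  have hk' : (1 : ℝ) ≤ k := by exact_mod_cast hk
  have hη0 : 0 < η := by positivity
  have hη1 : η ≤ 1 / 8 := by
    rw [hη]
    apply one_div_le_one_div_of_le (by norm_num)
    nlinarith
  set E : ℕ := d + G.natDegree * k + k + 1 with hE
  refine ⟨3 * N0 + 3 * R.natDegree + 4 * (E * G.natDegree) + 1, η, by positivity, hη0,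
    by linarith, ?_⟩
  intro N hN S hS
  have hN' : (1 : ℝ) ≤ N := by exact_mod_cast hN
  have hL1 : (1 : ℝ) ≤ (N : ℝ) ^ (1 - η) := Real.one_le_rpow hN' (by linarith)
  rcases lt_or_ge N N0 with hNN | hNN
  · have h1 : S.card ≤ 2 * N + 1 := by
      have hsub : S ⊆ Finset.Icc (-(N : ℤ)) N := by
        intro x hx
        rw [Finset.mem_Icc]
        exact abs_le.1 (hS x hx).1
      have := Finset.card_le_card hsub
      rw [Int.card_Icc] at this
      omega
    have h2 : (S.card : ℝ) ≤ 3 * N0 := by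
      have : S.card ≤ 3 * N0 := by omega
      exact_mod_cast this
    have h3 : (0 : ℝ) ≤ 3 * R.natDegree + 4 * (E * G.natDegree) + 1 := by positivity
    have h4 : (0 : ℝ) ≤ 3 * (N0 : ℝ) := by positivity
    nlinarith
  · set L : ℝ := (N : ℝ) ^ (1 - η) with hL
    obtain ⟨p, hp, hp1, hp2⟩ := Nat.exists_prime_lt_and_le_two_mul ⌈L⌉₊ (by
      have : 0 < ⌈L⌉₊ := Nat.ceil_pos.2 (by linarith)
      omega)
    have hpL : L < p := lt_of_le_of_lt (Nat.le_ceil L) (by exact_mod_cast hp1)
    have hpL2 : (p : ℝ) ≤ 4 * L := by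
      have h1 : (p : ℝ) ≤ 2 * (⌈L⌉₊ : ℝ) := by exact_mod_cast hp2
      have h2 : (⌈L⌉₊ : ℝ) < L + 1 := Nat.ceil_lt_add_one (by linarith)
      linarith
    have hN0' : (N0 : ℝ) ≤ N := by exact_mod_cast hNN
    have hNpos : (0 : ℝ) < N := by linarith
    have hsqrt : (N : ℝ) ^ (1 / 2 : ℝ) * (N : ℝ) ^ (1 / 2 : ℝ) = N := by
      rw [← Real.rpow_add hNpos]; norm_num
    have hsq0 : 0 < (N : ℝ) ^ (1 / 2 : ℝ) := Real.rpow_pos_of_pos hNpos _
    have hKN : (K : ℝ) < (N : ℝ) ^ (1 / 2 : ℝ) := by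
      by_contra hcon
      push Not at hcon
      have : (N : ℝ) ≤ (K : ℝ) ^ 2 := by
        rw [← hsqrt, sq]; exact mul_le_mul hcon hcon hsq0.le (by positivity)
      have h2 : (K : ℝ) ^ 2 < N0 := by
        have : K ^ 2 < N0 := by omega
        exact_mod_cast this
      linarith
    have hlcN : (R.leadingCoeff.natAbs : ℝ) < (N : ℝ) ^ (1 / 2 : ℝ) := by
      by_contra hcon
      push Not at hcon
      have : (N : ℝ) ≤ (R.leadingCoeff.natAbs : ℝ) ^ 2 := by
        rw [← hsqrt, sq]; exact mul_le_mul hcon hcon hsq0.le (by positivity)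
      have h2 : (R.leadingCoeff.natAbs : ℝ) ^ 2 < N0 := by
        have : R.leadingCoeff.natAbs ^ 2 < N0 := by omega
        exact_mod_cast this
      linarith
    have hhalf : (N : ℝ) ^ (1 / 2 : ℝ) ≤ L :=
      Real.rpow_le_rpow_of_exponent_le hN' (by linarith)
    have hlc : ¬ (p : ℤ) ∣ R.leadingCoeff := by
      intro hdvd
      have h1 : p ∣ R.leadingCoeff.natAbs := Int.natCast_dvd.1 hdvd
      have h2 : 0 < R.leadingCoeff.natAbs := Int.natAbs_pos.2 (leadingCoeff_ne_zero.2 hR0)
      have h3 := Nat.le_of_dvd h2 h1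
      have h4 : (p : ℝ) ≤ R.leadingCoeff.natAbs := by exact_mod_cast h3
      linarith
    have hsize : ((k : ℝ) + 2) * (N : ℝ) ^ k * (2 * (N : ℝ)) ^ (k * (k + 1)) <
        (p : ℝ) ^ ((k + 1) * (k + 1)) := by
      have h1 : ((k : ℝ) + 2) * (N : ℝ) ^ k * (2 * (N : ℝ)) ^ (k * (k + 1)) =
          K * ((N : ℝ) ^ (k + k * (k + 1))) := by
        rw [hK]; push_cast; rw [mul_pow, pow_add]; ring
      have h2 : L ^ ((k + 1) * (k + 1)) ≤ (p : ℝ) ^ ((k + 1) * (k + 1)) :=
        pow_le_pow_left₀ (by linarith) hpL.le _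
      have h3 : L ^ ((k + 1) * (k + 1)) = (N : ℝ) ^ (1 / 2 : ℝ) * ((N : ℝ) ^ (k + k * (k + 1))) := by
        rw [hL, ← Real.rpow_natCast, ← Real.rpow_mul hNpos.le, ← Real.rpow_natCast,
          ← Real.rpow_add hNpos]
        congr 1
        rw [hη]
        push_cast
        field_simp
        ring
      rw [h1]
      refine lt_of_lt_of_le ?_ h2
      rw [h3]
      exact mul_lt_mul_of_pos_right hKN (by positivity)
    -- choose `y`
    have hex : ∀ x : ℤ, ∃ y : ℤ, x ∈ S → |y| ≤ (N : ℤ) ^ k ∧ evalEval x y G = 0 := by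
      intro x
      by_cases hx : x ∈ S
      · obtain ⟨y, hy⟩ := (hS x hx).2
        exact ⟨y, fun _ => hy⟩
      · exact ⟨0, fun h => absurd h hx⟩
    choose y hy using hex
    have hbad := bad_card p hp R hlc N (S.filter fun x => (p : ℤ) ∣ R.eval x)
      (fun x hx => (hS x (mem_filter.1 hx).1).1) (fun x hx => (mem_filter.1 hx).2)
    have hgood := good_card hG hb d hd U V R hUV k p hp N ((N : ℝ) ^ k) (by linarith) hsize
      (S.filter fun x => ¬ (p : ℤ) ∣ R.eval x) y
      (fun x hx => (hy x (mem_filter.1 hx).1).2) (fun x hx => (mem_filter.1 hx).2)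
      (fun x hx => by
        have := (hS x (mem_filter.1 hx).1).1
        rw [← Int.cast_abs]
        exact_mod_cast this)
      (fun x hx => by
        have := (hy x (mem_filter.1 hx).1).1
        rw [← Int.cast_abs]
        exact_mod_cast this)
    have hsum := Finset.card_filter_add_card_filter_not (s := S) (fun x => (p : ℤ) ∣ R.eval x)
    have h1 : (S.card : ℝ) ≤ ((2 * N / p : ℕ) + 1) * R.natDegree + (E * (G.natDegree * p)) := by
      rw [← hsum]
      push_cast
      have h2 : ((S.filter fun x => (p : ℤ) ∣ R.eval x).card : ℝ) ≤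
          ((2 * N / p : ℕ) + 1) * R.natDegree := by exact_mod_cast hbad
      have h3 : ((S.filter fun x => ¬ (p : ℤ) ∣ R.eval x).card : ℝ) ≤ E * (G.natDegree * p) := by
        exact_mod_cast hgood
      exact add_le_add h2 h3
    have h2 : ((2 * N / p : ℕ) : ℝ) ≤ 2 * L := by
      refine Nat.cast_div_le.trans ?_
      push_cast
      rw [div_le_iff₀ (by linarith)]
      have h3 : (N : ℝ) ≤ L * L := by
        calc (N : ℝ) = (N : ℝ) ^ (1 / 2 : ℝ) * (N : ℝ) ^ (1 / 2 : ℝ) := hsqrt.symm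
          _ ≤ L * L := mul_le_mul hhalf hhalf hsq0.le (by linarith)
      nlinarith
    have h3 : (0 : ℝ) ≤ R.natDegree := Nat.cast_nonneg _
    have h4 : (0 : ℝ) ≤ (E : ℝ) * G.natDegree := by positivity
    have h5 : (((2 * N / p : ℕ) : ℝ) + 1) * R.natDegree ≤ 3 * R.natDegree * L := by
      calc (((2 * N / p : ℕ) : ℝ) + 1) * R.natDegree ≤ (2 * L + 1) * R.natDegree :=
            mul_le_mul_of_nonneg_right (by linarith) h3
        _ ≤ (3 * L) * R.natDegree := mul_le_mul_of_nonneg_right (by linarith) h3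
        _ = 3 * R.natDegree * L := by ring
    have h6 : (E : ℝ) * (G.natDegree * p) ≤ 4 * (E * G.natDegree) * L := by
      calc (E : ℝ) * (G.natDegree * p) = (E * G.natDegree) * p := by ring
        _ ≤ (E * G.natDegree) * (4 * L) := mul_le_mul_of_nonneg_left hpL2 h4
        _ = 4 * (E * G.natDegree) * L := by ring
    have h7 : (0 : ℝ) ≤ (3 * (N0 : ℝ) + 1) * L := by positivity
    calc (S.card : ℝ) ≤ 3 * R.natDegree * L + 4 * (E * G.natDegree) * L := by linarith
      _ ≤ (3 * N0 + 3 * R.natDegree + 4 * (E * G.natDegree) + 1) * L := by linarith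

end Pool.Agent.K9h7.SG
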