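import Pool.Agent.K9h7.SG.Omega
import Pool.Agent.R60.Steiner.Bounds

/-!
# Fixed strength: the exponent `H_R` for all but `O(X ^ (1 - c))` values of `q - r`
-/

set_option autoImplicit false

open Finset Polynomial Polynomial.Bivariate

namespace Pool.Agent.K9h7.SG

open Pool.Agent.R60.Steiner

theorem harmonic_le (R : ℕ) (hR : 5 ≤ R) : (harmonic R : ℝ) ≤ ((R : ℝ) + 2) / 3 := by
  induction R, hR using Nat.le_induction with
  | base =>
    have : harmonic 5 = 137 / 60 := by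
      rw [harmonic]
      simp only [Finset.sum_range_succ, Finset.sum_range_zero]
      norm_num
    rw [this]; norm_num
  | succ n hn ih =>
    rw [harmonic_succ]
    push_cast
    have h1 : ((n : ℝ) + 1)⁻¹ ≤ 1 / 3 := by
      rw [inv_eq_one_div]
      apply one_div_le_one_div_of_le (by norm_num)
      have : (5 : ℝ) ≤ n := by exact_mod_cast hn
      linarith
    linarith

theorem harmonic_four : harmonic 4 = 25 / 12 := by
  rw [harmonic]
  simp only [Finset.sum_range_succ, Finset.sum_range_zero]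
  norm_num

/-- growth of the values of a polynomial -/
theorem growth {d : ℤ} (Q : ℤ[X]) (ν : ℝ) (hν : 0 ≤ ν) (h : ν < Q.natDegree) :
    ∃ x0 : ℕ, ∀ a b : ℕ, x0 ≤ a → Q.eval (a : ℤ) = d * b → (a : ℝ) ^ ν < b := by
  set δ := Q.natDegree with hδ
  have hδ1 : 1 ≤ δ := by
    have : (0 : ℝ) < (δ : ℝ) := by linarith
    exact_mod_cast this
  obtain ⟨M, hM⟩ : ∃ M : ℕ, 1 < M * ((δ : ℝ) - ν) := by
    obtain ⟨M, hM⟩ := exists_nat_gt (1 / ((δ : ℝ) - ν))
    refine ⟨M, ?_⟩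
    rwa [div_lt_iff₀ (by linarith)] at hM
  have hM0 : M ≠ 0 := by
    rintro rfl
    simp at hM
    linarith
  have hQ0 : Q ≠ 0 := by
    intro h0
    rw [h0, natDegree_zero] at hδ
    omega
  have hdM : 1 ≤ δ * M := Nat.mul_pos hδ1 (Nat.pos_of_ne_zero hM0)
  obtain ⟨x0, hx0⟩ := eventually_abs_lt (A := Q ^ M) (S := C (d ^ M) * X ^ (δ * M - 1)) (by
    rw [degree_pow, degree_eq_natDegree hQ0]
    refine lt_of_le_of_lt (degree_C_mul_X_pow_le _ _) ?_
    rw [nsmul_eq_mul]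
    have : ((M : WithBot ℕ) * ((Q.natDegree : ℕ) : WithBot ℕ)) = ((M * Q.natDegree : ℕ) : WithBot ℕ) := by
      push_cast; rfl
    rw [this, ← hδ]
    norm_cast
    rw [mul_comm M δ]
    omega)
  refine ⟨max x0 1, fun a b ha hab => ?_⟩
  have ha0 : x0 ≤ a := (le_max_left _ _).trans ha
  have ha1 : 1 ≤ a := (le_max_right _ _).trans ha
  have h1 := hx0 a (by rw [Nat.abs_cast]; exact_mod_cast ha0)
  rw [eval_pow, hab, eval_mul, eval_C, eval_pow, eval_X, mul_pow, abs_mul, abs_mul] at h1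
  have hd : 0 < |d ^ M| := by
    rcases (abs_nonneg (d ^ M)).lt_or_eq with h | h
    · exact h
    · rw [← h, zero_mul, zero_mul] at h1
      exact absurd h1 (lt_irrefl _)
  have h2 := lt_of_mul_lt_mul_left h1 hd.le
  rw [abs_of_nonneg (by positivity), abs_of_nonneg (by positivity)] at h2
  have h3 : (a : ℝ) ^ (δ * M - 1) < (b : ℝ) ^ M := by exact_mod_cast h2
  have ha' : (1 : ℝ) ≤ a := by exact_mod_cast ha1
  have h4 : ((a : ℝ) ^ ν) ^ M ≤ (a : ℝ) ^ (δ * M - 1) := by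
    rw [← Real.rpow_natCast, ← Real.rpow_mul (by positivity), ← Real.rpow_natCast (a : ℝ)]
    apply Real.rpow_le_rpow_of_exponent_le ha'
    rw [Nat.cast_sub hdM, Nat.cast_mul, Nat.cast_one]
    nlinarith
  exact lt_of_pow_lt_pow_left₀ M (Nat.cast_nonneg _) (lt_of_le_of_lt h4 h3)

/-- the case `R = 4` -/
theorem class4 {d : ℤ} (hd : d ≠ 0) (Q : ℤ[X])
    (hrow : ∀ k : ℕ, 1 ≤ k → k ≤ 4 → ∃ i : ℕ, i < k ∧ Q.eval (-(k : ℤ)) = d * i)
    (hdeg : Q.natDegree ≤ 2) {a b : ℕ} (hab : Q.eval (a : ℤ) = d * b) (hb : 0 < b) :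
    2 * b = (a + 1) * (a + 2) := by
  have hQ : ∀ x : ℤ, Q.eval x = Q.coeff 0 + Q.coeff 1 * x + Q.coeff 2 * x ^ 2 := by
    intro x
    rw [eval_eq_sum_range' (n := 3) (by omega)]
    simp only [Finset.sum_range_succ, Finset.sum_range_zero]
    ring
  obtain ⟨i1, hi1, h1⟩ := hrow 1 (by norm_num) (by norm_num)
  obtain ⟨u, hu, h2⟩ := hrow 2 (by norm_num) (by norm_num)
  obtain ⟨v, hv, h3⟩ := hrow 3 (by norm_num) (by norm_num)
  obtain ⟨w, hw, h4⟩ := hrow 4 (by norm_num) (by norm_num)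
  have hi : i1 = 0 := by omega
  subst hi
  rw [hQ] at h1 h2 h3 h4 hab
  push_cast at h1 h2 h3 h4 hab
  set α := Q.coeff 2
  set β := Q.coeff 1
  set γ := Q.coeff 0
  have hw3 : (w : ℤ) = 3 * v - 3 * u := by
    have : d * ((w : ℤ) - (3 * v - 3 * u)) = 0 := by linear_combination h1 - 3 * h2 + 3 * h3 - h4
    have := (mul_eq_zero.1 this).resolve_left hd
    linarith
  have key : d * (2 * (b : ℤ)) = d * ((u : ℤ) * (-(a + 1) * 2) + (v - 2 * u) * ((a + 1) * (a + 2))) := by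
    linear_combination (-2) * hab + ((a : ℤ) + 2) * (a + 3) * h1 + (-2 * (a + 1) * (a + 3)) * h2 +
      ((a : ℤ) + 1) * (a + 2) * h3
  have key2 := mul_left_cancel₀ hd key
  have hcases : (u = 0 ∧ v = 0) ∨ (u = 0 ∧ v = 1) ∨ (u = 1 ∧ v = 1) ∨ (u = 1 ∧ v = 2) := by omega
  rcases hcases with ⟨rfl, rfl⟩ | ⟨rfl, rfl⟩ | ⟨rfl, rfl⟩ | ⟨rfl, rfl⟩
  · exfalso
    push_cast at key2
    omega
  · push_cast at key2
    have : (2 * (b : ℤ)) = (a + 1) * (a + 2) := by linarith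
    exact_mod_cast this
  · exfalso
    push_cast at key2
    nlinarith
  · exfalso
    push_cast at key2
    nlinarith

/-- polynomials of degree at most one in `Y` and at least four rows -/
theorem kill2 {G : ℤ[X][Y]} (hG : Irreducible G) {R : ℕ} (hR : 4 ≤ R) {ν : ℝ} (hν0 : 0 ≤ ν)
    (hν : ν < harmonic R) (h2 : G.natDegree < 2) :
    ∃ N : ℕ, ∀ a b r : ℕ, N ≤ a → R ≤ r → NoCarry a b r → (a + 1) ^ 2 ≤ b →
      (b : ℝ) ≤ (a : ℝ) ^ ν → evalEval (a : ℤ) (b : ℤ) G ≠ 0 := by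
  by_cases hrows : ∃ k : ℕ, 1 ≤ k ∧ k ≤ R ∧ ∀ i : ℕ, i < k → evalEval (-(k : ℤ)) (i : ℤ) G ≠ 0
  · obtain ⟨k, hk, hkR, hrow⟩ := hrows
    refine ⟨1 + k.factorial * ∏ i ∈ range k, (evalEval (-(k : ℤ)) (i : ℤ) G).natAbs, ?_⟩
    intro a b r ha hr hnc _ _ h0
    have := row_bound hnc hk (by omega) h0 hrow
    omega
  · rcases irr_cases hG with ⟨x0, hx0⟩ | ⟨d, hd, Q, hQ⟩ | h3
    · refine ⟨x0, fun a b r ha hr hnc hb _ => hx0 a b ?_⟩
      rw [Nat.abs_cast]; exact_mod_cast ha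
    · push Not at hrows
      rcases lt_or_ge ν (Q.natDegree : ℝ) with hlt | hge
      · obtain ⟨x0, hx0⟩ := growth (d := d) Q ν hν0 hlt
        refine ⟨x0, fun a b r ha hr hnc hb hbν h0 => ?_⟩
        exact absurd (hx0 a b ha (hQ _ _ h0)) (not_lt.2 hbν)
      · have hlt : (Q.natDegree : ℝ) < harmonic R := lt_of_le_of_lt hge hν
        refine ⟨1, fun a b r ha hr hnc hb _ h0 => ?_⟩
        have hb0 : 0 < b := lt_of_lt_of_le (by positivity) hb
        rcases Nat.lt_or_ge R 5 with h5 | h5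
        · have hR4 : R = 4 := by omega
          subst hR4
          rw [harmonic_four] at hlt
          have hdeg : Q.natDegree ≤ 2 := by
            have : (Q.natDegree : ℝ) < 3 := by
              refine hlt.trans ?_
              norm_num
            have : Q.natDegree < 3 := by exact_mod_cast this
            omega
          have := class4 hd Q (fun k hk hkR => by
            obtain ⟨i, hi, h0⟩ := hrows k hk hkR
            exact ⟨i, hi, hQ _ _ h0⟩) hdeg (hQ _ _ h0) hb0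
          nlinarith
        · refine linear_contra hd (R := R) (by omega) hQ (Or.inr ?_) hrows hb0 h0
          have h6 := hlt.trans_le (harmonic_le R h5)
          have h7 : 3 * (Q.natDegree : ℝ) < (R : ℝ) + 2 := by linarith
          have h8 : 3 * Q.natDegree < R + 2 := by exact_mod_cast h7
          omega
    · exact absurd h3 (by omega)

open Classical in
/-- the `a ≤ N` with a lattice point `(a, b)`, `b ≤ N ^ k`, on one of the curves -/
noncomputable def curvePts (𝓖 : Finset ℤ[X][Y]) (k N : ℕ) : Finset ℕ :=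
  (Icc 1 N).filter fun a : ℕ => ∃ G ∈ 𝓖, ∃ b : ℕ, b ≤ N ^ k ∧ evalEval (a : ℤ) (b : ℤ) G = 0

open Classical in
/-- the points on finitely many nonlinear curves -/
theorem count_family (k : ℕ) (hk : 1 ≤ k) (𝓖 : Finset ℤ[X][Y])
    (hG : ∀ G ∈ 𝓖, Irreducible G ∧ 2 ≤ G.natDegree) :
    ∃ C c : ℝ, 0 < C ∧ 0 < c ∧ c < 1 ∧ ∀ N : ℕ, 1 ≤ N →
      ((curvePts 𝓖 k N).card : ℝ) ≤ C * (N : ℝ) ^ (1 - c) := by
  induction 𝓖 using Finset.induction_on with
  | empty =>
    refine ⟨1, 1 / 2, one_pos, by norm_num, by norm_num, fun N hN => ?_⟩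
    unfold curvePts
    rw [Finset.filter_false_of_mem (by simp)]
    rw [card_empty, Nat.cast_zero]
    positivity
  | insert G 𝓖 hGn ih =>
    obtain ⟨C1, c1, hC1, hc1, hc11, h1⟩ := ih fun G' h => hG G' (mem_insert_of_mem h)
    obtain ⟨hGi, hG2⟩ := hG G (mem_insert_self _ _)
    obtain ⟨C2, c2, hC2, hc2, hc21, h2⟩ := curve_count hGi hG2 k hk
    refine ⟨C1 + C2, min c1 c2, by positivity, lt_min hc1 hc2, lt_of_le_of_lt (min_le_left _ _) hc11,
      fun N hN => ?_⟩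
    have hN1 : (1 : ℝ) ≤ N := by exact_mod_cast hN
    have e1 := h1 N hN
    have e2 := h2 N hN (((Icc 1 N).filter fun a : ℕ => ∃ b : ℕ, b ≤ N ^ k ∧
      evalEval (a : ℤ) (b : ℤ) G = 0).image fun a : ℕ => (a : ℤ)) (by
      intro x hx
      rw [mem_image] at hx
      obtain ⟨a, ha, rfl⟩ := hx
      rw [mem_filter, mem_Icc] at ha
      obtain ⟨⟨ha1, ha2⟩, b, hb, hb0⟩ := ha
      refine ⟨by rw [Nat.abs_cast]; exact_mod_cast ha2, b, ?_, hb0⟩
      rw [Nat.abs_cast]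
      exact_mod_cast hb)
    rw [card_image_of_injective _ Nat.cast_injective] at e2
    have hsub : curvePts (insert G 𝓖) k N ⊆ curvePts 𝓖 k N ∪
        ((Icc 1 N).filter fun a : ℕ => ∃ b : ℕ, b ≤ N ^ k ∧ evalEval (a : ℤ) (b : ℤ) G = 0) := by
      intro a ha
      unfold curvePts at ha ⊢
      rw [mem_filter] at ha
      obtain ⟨ha1, G', hG', b, hb, hb0⟩ := ha
      rw [mem_insert] at hG'
      rw [mem_union, mem_filter, mem_filter]
      rcases hG' with rfl | hG'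
      · exact Or.inr ⟨ha1, b, hb, hb0⟩
      · exact Or.inl ⟨ha1, G', hG', b, hb, hb0⟩
    have e3 := (card_le_card hsub).trans (card_union_le _ _)
    have e4 : (N : ℝ) ^ (1 - c1) ≤ (N : ℝ) ^ (1 - min c1 c2) :=
      Real.rpow_le_rpow_of_exponent_le hN1 (by linarith [min_le_left c1 c2])
    have e5 : (N : ℝ) ^ (1 - c2) ≤ (N : ℝ) ^ (1 - min c1 c2) :=
      Real.rpow_le_rpow_of_exponent_le hN1 (by linarith [min_le_right c1 c2])
    refine le_trans (by exact_mod_cast e3) ((add_le_add e1 e2).trans ?_)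
    rw [add_mul]
    exact add_le_add (mul_le_mul_of_nonneg_left e4 hC1.le) (mul_le_mul_of_nonneg_left e5 hC2.le)

/-- the values of `q - r` up to `X` for which there is a nontrivial Steiner system `S(n,q,r)` with
`r ≥ R` and `n ≤ (q - r) ^ ν` -/
def bad (R : ℕ) (ν : ℝ) : Set ℕ :=
  {a | ∃ n r : ℕ, R ≤ r ∧ r + a < n ∧ (n : ℝ) ≤ (a : ℝ) ^ ν ∧
    ∃ B : Finset (Finset (Fin n)), IsSteiner n (r + a) r B}

open Classical in
theorem density_main (R : ℕ) (hR : 4 ≤ R) (ν : ℝ) (hν : ν < harmonic R) :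
    ∃ C c : ℝ, 0 < c ∧ ∀ N : ℕ, 1 ≤ N → (#{a ∈ Icc 1 N | a ∈ bad R ν} : ℝ) ≤
      C * (N : ℝ) ^ (1 - c) := by
  have hH1 : (1 : ℝ) < harmonic R := by
    rcases Nat.lt_or_ge R 5 with h5 | h5
    · have hR4 : R = 4 := by omega
      rw [hR4, harmonic_four]; norm_num
    · refine lt_of_lt_of_le ?_ (log_add_one_le_harmonic R)
      rw [Real.lt_log_iff_exp_lt (by positivity)]
      have h1 := Real.exp_one_lt_d9
      have h2 : (5 : ℝ) ≤ R := by exact_mod_cast h5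
      push_cast
      linarith
  -- replace `ν` by a larger number
  set ν' := max ν 1 with hν'
  have hν'1 : 1 ≤ ν' := le_max_right _ _
  have hν'2 : ν' < harmonic R := max_lt hν hH1
  obtain ⟨𝓖, a0, hG, hcore⟩ := core R ν' ((harmonic R : ℝ) - ν') (by linarith) (by linarith)
    (by linarith)
  have hk : ∀ G : ℤ[X][Y], ∃ N : ℕ, G ∈ 𝓖 → G.natDegree < 2 → ∀ a b r : ℕ, N ≤ a → R ≤ r →
      NoCarry a b r → (a + 1) ^ 2 ≤ b → (b : ℝ) ≤ (a : ℝ) ^ ν' →
      evalEval (a : ℤ) (b : ℤ) G ≠ 0 := by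
    intro G
    by_cases h : G ∈ 𝓖 ∧ G.natDegree < 2
    · obtain ⟨N, hN⟩ := kill2 (hG G h.1) hR (by linarith) hν'2 h.2
      exact ⟨N, fun _ _ => hN⟩
    · exact ⟨0, fun h1 h2 => absurd ⟨h1, h2⟩ h⟩
  choose Nf hNf using hk
  obtain ⟨C, c, hC, hc, hc1, hcount⟩ := count_family ⌈ν'⌉₊ (Nat.one_le_ceil_iff.2 (by linarith))
    (𝓖.filter fun G => 2 ≤ G.natDegree) (by
      intro G h
      rw [mem_filter] at h
      exact ⟨hG G h.1, h.2⟩)
  set N0 := max (max a0 2) (𝓖.sup Nf) with hN0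
  refine ⟨C + N0, c, hc, fun N hN => ?_⟩
  have hsub : ({a ∈ Icc 1 N | a ∈ bad R ν}) ⊆ range N0 ∪
      curvePts (𝓖.filter fun G => 2 ≤ G.natDegree) ⌈ν'⌉₊ N := by
    intro a ha
    unfold curvePts
    rw [mem_filter, mem_Icc] at ha
    obtain ⟨⟨ha1, haN⟩, n, r, hr, hn, hnν, B, hB⟩ := ha
    rw [mem_union, mem_range, mem_filter, mem_Icc]
    rcases Nat.lt_or_ge a N0 with hlt | hge
    · exact Or.inl hlt
    right
    refine ⟨⟨ha1, haN⟩, ?_⟩
    have e1 : a0 ≤ a := ((le_max_left _ _).trans (le_max_left _ _)).trans hge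
    have e3 : 𝓖.sup Nf ≤ a := (le_max_right _ _).trans hge
    have ha1' : (1 : ℝ) ≤ a := by exact_mod_cast ha1
    have hnc := noCarry_of_steiner (n := n) (q := r + a) (r := r) (by omega) hn.le ⟨B, hB⟩
    rw [Nat.add_sub_cancel_left] at hnc
    have hb1 : ((n - (r + a) : ℕ) : ℝ) ≤ (a : ℝ) ^ ν' := by
      calc ((n - (r + a) : ℕ) : ℝ) ≤ n := by exact_mod_cast Nat.sub_le _ _
        _ ≤ (a : ℝ) ^ ν := hnν
        _ ≤ (a : ℝ) ^ ν' := Real.rpow_le_rpow_of_exponent_le ha1' (le_max_left _ _)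
    have hfish : (a + 1) ^ 2 ≤ n - (r + a) := by
      have := fisher hB (by omega) (by omega) hn
      rw [Nat.add_sub_cancel_left] at this
      have e : (a + 1) * (a + 2) = (a + 1) ^ 2 + (a + 1) := by ring
      omega
    obtain ⟨G, hGm, hG0⟩ := hcore a (n - (r + a)) r e1 hr hnc hb1
    refine ⟨G, ?_, n - (r + a), ?_, hG0⟩
    · rw [mem_filter]
      refine ⟨hGm, ?_⟩
      by_contra hcon
      push Not at hcon
      exact hNf G hGm hcon a _ r ((Finset.le_sup hGm).trans e3) hr hnc hfish hb1 hG0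
    · have h1 : ((n - (r + a) : ℕ) : ℝ) ≤ ((N ^ ⌈ν'⌉₊ : ℕ) : ℝ) := by
        refine hb1.trans ?_
        calc (a : ℝ) ^ ν' ≤ (a : ℝ) ^ (⌈ν'⌉₊ : ℝ) :=
              Real.rpow_le_rpow_of_exponent_le ha1' (Nat.le_ceil _)
          _ = (a : ℝ) ^ ⌈ν'⌉₊ := Real.rpow_natCast _ _
          _ ≤ (N : ℝ) ^ ⌈ν'⌉₊ := pow_le_pow_left₀ (by positivity) (by exact_mod_cast haN) _
          _ = _ := by push_cast; rfl
      exact_mod_cast h1
  have h1 := (card_le_card hsub).trans (card_union_le _ _)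
  rw [card_range] at h1
  have h2 := hcount N hN
  have hN1 : (1 : ℝ) ≤ N := by exact_mod_cast hN
  have h3 : (1 : ℝ) ≤ (N : ℝ) ^ (1 - c) := Real.one_le_rpow hN1 (by linarith)
  have h4 : (N0 : ℝ) ≤ N0 * (N : ℝ) ^ (1 - c) := by
    nlinarith [(Nat.cast_nonneg N0 : (0 : ℝ) ≤ N0)]
  have h5 : (#{a ∈ Icc 1 N | a ∈ bad R ν} : ℝ) ≤
      (N0 : ℝ) + ((curvePts (𝓖.filter fun G => 2 ≤ G.natDegree) ⌈ν'⌉₊ N).card : ℝ) := by
    exact_mod_cast h1
  rw [add_mul]
  linarith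

end Pool.Agent.K9h7.SG
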