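import Pool.Agent.K9h7.SG.Cells
import Pool.Agent.R60.Steiner.Bounds

/-!
# Strength at least four: an explicit auxiliary polynomial

The polynomial
`Q = y (x + y + 1) (2 y - (x + 1) (x + 2)) ^ 2 (2 y + (x + 1) (x + 4)) ^ 2
  (9 y ^ 2 + 9 (x + 1) y + (x + 1) ^ 2 (x + 2) (x + 3)) ^ 3`
has the multiplicities `12, 6, 4, 3` at the points `(-k, i)`, `0 ≤ i < k`, for `k = 1, 2, 3, 4`, and
`Q(a,b) = O(b ^ 12)` for `b ≥ (a + 1) ^ 2`. As `12 + 6 + 4 + 3 = 25` this gives `a ^ 25 = O(b ^ 12)`.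
-/

set_option autoImplicit false

open Finset

namespace Pool.Agent.K9h7.SG

open Pool.Agent.R60.Steiner

/-- `a + k` divides `gcd(a + k, 12)` times the product of the cells. -/
theorem dvd_gcd_mul_cells {a b r k : ℕ} (hnc : NoCarry a b r) (hk : 1 ≤ k) (hkR : k ≤ 4)
    (hRr : 4 ≤ r) : a + k ∣ (a + k).gcd 12 * ∏ i ∈ range k, cellD 4 a b k i := by
  rw [Nat.dvd_iff_prime_pow_dvd_dvd]
  intro p e hp hdvd
  have hne : a + k ≠ 0 := by omega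
  have hev : e ≤ (a + k).factorization p := (hp.pow_dvd_iff_le_factorization hne).1 hdvd
  have d1 : p ^ (a + k).factorization p ∣ a + k := Nat.ordProj_dvd _ _
  rcases Nat.lt_or_ge 4 (p ^ (a + k).factorization p) with hlt | hge
  · have hi := mod_lt_of_noCarry hnc hp hk (by omega) (by omega : k < p ^ (a + k).factorization p) d1
    refine Dvd.dvd.mul_left (Dvd.dvd.trans ?_ (Finset.dvd_prod_of_mem _ (mem_range.2 hi))) _
    refine (pow_dvd_pow p hev).trans ?_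
    unfold cellD
    refine Finset.dvd_prod_of_mem (fun p => p ^ (a + k).factorization p) ?_
    rw [mem_cellP]
    refine ⟨⟨hp, ?_, hne⟩, hlt, rfl⟩
    have hv : (a + k).factorization p ≠ 0 := by
      intro h0
      rw [h0, pow_zero] at hlt
      omega
    exact (dvd_pow_self p hv).trans d1
  · refine Dvd.dvd.mul_right ((pow_dvd_pow p hev).trans (Nat.dvd_gcd d1 ?_)) _
    have hpos : 0 < p ^ (a + k).factorization p := pow_pos hp.pos _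
    generalize p ^ (a + k).factorization p = m at hge hpos
    interval_cases m <;> norm_num

theorem gcd_bound (a : ℕ) : (a + 1).gcd 12 ^ 12 * (a + 2).gcd 12 ^ 6 * (a + 3).gcd 12 ^ 4 *
    (a + 4).gcd 12 ^ 3 ≤ 12 ^ 12 * 2 ^ 4 * 3 ^ 3 := by
  have key : ∀ c < 12, (c + 1).gcd 12 ^ 12 * (c + 2).gcd 12 ^ 6 * (c + 3).gcd 12 ^ 4 *
      (c + 4).gcd 12 ^ 3 ≤ 12 ^ 12 * 2 ^ 4 * 3 ^ 3 := by
    intro c hc
    interval_cases c <;> norm_num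
  have h1 : ∀ k, (a + k).gcd 12 = (a % 12 + k).gcd 12 := by
    intro k
    conv_lhs => rw [← Nat.mod_add_div a 12]
    rw [show a % 12 + 12 * (a / 12) + k = (a % 12 + k) + 12 * (a / 12) by ring,
      Nat.gcd_add_mul_left_left]
  rw [h1, h1, h1, h1]
  exact key _ (Nat.mod_lt _ (by norm_num))

/-- the divisibilities of the factors of the auxiliary polynomial -/
theorem factors_dvd {a b : ℕ} {d10 d20 d21 d30 d31 d32 d40 d41 d42 d43 : ℤ}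
    (h10 : d10 ∣ (a : ℤ) + 1) (g10 : d10 ∣ (b : ℤ))
    (h20 : d20 ∣ (a : ℤ) + 2) (g20 : d20 ∣ (b : ℤ)) (h21 : d21 ∣ (a : ℤ) + 2)
    (g21 : d21 ∣ (b : ℤ) - 1)
    (h30 : d30 ∣ (a : ℤ) + 3) (g30 : d30 ∣ (b : ℤ)) (h31 : d31 ∣ (a : ℤ) + 3)
    (g31 : d31 ∣ (b : ℤ) - 1) (h32 : d32 ∣ (a : ℤ) + 3) (g32 : d32 ∣ (b : ℤ) - 2)
    (h40 : d40 ∣ (a : ℤ) + 4) (g40 : d40 ∣ (b : ℤ)) (h41 : d41 ∣ (a : ℤ) + 4)
    (g41 : d41 ∣ (b : ℤ) - 1) (h42 : d42 ∣ (a : ℤ) + 4) (g42 : d42 ∣ (b : ℤ) - 2)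
    (h43 : d43 ∣ (a : ℤ) + 4) (g43 : d43 ∣ (b : ℤ) - 3) :
    (d10 ∣ (a : ℤ) + b + 1 ∧ d21 ∣ (a : ℤ) + b + 1 ∧ d32 ∣ (a : ℤ) + b + 1 ∧
      d43 ∣ (a : ℤ) + b + 1) ∧
    (d10 ∣ 2 * (b : ℤ) - (a + 1) * (a + 2) ∧ d20 ∣ 2 * (b : ℤ) - (a + 1) * (a + 2) ∧
      d31 ∣ 2 * (b : ℤ) - (a + 1) * (a + 2) ∧ d43 ∣ 2 * (b : ℤ) - (a + 1) * (a + 2)) ∧
    (d10 ∣ 2 * (b : ℤ) + (a + 1) * (a + 4) ∧ d21 ∣ 2 * (b : ℤ) + (a + 1) * (a + 4) ∧
      d31 ∣ 2 * (b : ℤ) + (a + 1) * (a + 4) ∧ d40 ∣ 2 * (b : ℤ) + (a + 1) * (a + 4)) ∧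
    (d10 ^ 2 ∣ 9 * (b : ℤ) ^ 2 + 9 * (a + 1) * b + (a + 1) ^ 2 * ((a + 2) * (a + 3)) ∧
      d20 ∣ 9 * (b : ℤ) ^ 2 + 9 * (a + 1) * b + (a + 1) ^ 2 * ((a + 2) * (a + 3)) ∧
      d21 ∣ 9 * (b : ℤ) ^ 2 + 9 * (a + 1) * b + (a + 1) ^ 2 * ((a + 2) * (a + 3)) ∧
      d30 ∣ 9 * (b : ℤ) ^ 2 + 9 * (a + 1) * b + (a + 1) ^ 2 * ((a + 2) * (a + 3)) ∧
      d32 ∣ 9 * (b : ℤ) ^ 2 + 9 * (a + 1) * b + (a + 1) ^ 2 * ((a + 2) * (a + 3)) ∧
      d41 ∣ 9 * (b : ℤ) ^ 2 + 9 * (a + 1) * b + (a + 1) ^ 2 * ((a + 2) * (a + 3)) ∧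
      d42 ∣ 9 * (b : ℤ) ^ 2 + 9 * (a + 1) * b + (a + 1) ^ 2 * ((a + 2) * (a + 3))) := by
  -- general facts
  have key : ∀ (d k i : ℤ) (P : ℤ → ℤ → ℤ), d ∣ (a : ℤ) + k → d ∣ (b : ℤ) - i →
      (∀ x y : ℤ, ∃ u v : ℤ, P x y = u * (x + k) + v * (y - i)) → d ∣ P a b := by
    intro d k i P h1 h2 h3
    obtain ⟨u, v, h⟩ := h3 a b
    rw [h]
    exact dvd_add (Dvd.dvd.mul_left h1 _) (Dvd.dvd.mul_left h2 _)
  refine ⟨⟨?_, ?_, ?_, ?_⟩, ⟨?_, ?_, ?_, ?_⟩, ⟨?_, ?_, ?_, ?_⟩, ⟨?_, ?_, ?_, ?_, ?_, ?_, ?_⟩⟩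
  · exact key d10 1 0 (fun x y => x + y + 1) h10 (by simpa using g10)
      (fun x y => ⟨1, 1, by ring⟩)
  · exact key d21 2 1 (fun x y => x + y + 1) h21 g21 (fun x y => ⟨1, 1, by ring⟩)
  · exact key d32 3 2 (fun x y => x + y + 1) h32 g32 (fun x y => ⟨1, 1, by ring⟩)
  · exact key d43 4 3 (fun x y => x + y + 1) h43 g43 (fun x y => ⟨1, 1, by ring⟩)
  · exact key d10 1 0 (fun x y => 2 * y - (x + 1) * (x + 2)) h10 (by simpa using g10)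
      (fun x y => ⟨-(x + 2), 2, by ring⟩)
  · exact key d20 2 0 (fun x y => 2 * y - (x + 1) * (x + 2)) h20 (by simpa using g20)
      (fun x y => ⟨-(x + 1), 2, by ring⟩)
  · exact key d31 3 1 (fun x y => 2 * y - (x + 1) * (x + 2)) h31 g31
      (fun x y => ⟨-x, 2, by ring⟩)
  · exact key d43 4 3 (fun x y => 2 * y - (x + 1) * (x + 2)) h43 g43
      (fun x y => ⟨-(x - 1), 2, by ring⟩)
  · exact key d10 1 0 (fun x y => 2 * y + (x + 1) * (x + 4)) h10 (by simpa using g10)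
      (fun x y => ⟨x + 4, 2, by ring⟩)
  · exact key d21 2 1 (fun x y => 2 * y + (x + 1) * (x + 4)) h21 g21
      (fun x y => ⟨x + 3, 2, by ring⟩)
  · exact key d31 3 1 (fun x y => 2 * y + (x + 1) * (x + 4)) h31 g31
      (fun x y => ⟨x + 2, 2, by ring⟩)
  · exact key d40 4 0 (fun x y => 2 * y + (x + 1) * (x + 4)) h40 (by simpa using g40)
      (fun x y => ⟨x + 1, 2, by ring⟩)
  · obtain ⟨s, hs⟩ := h10
    obtain ⟨t, ht⟩ := g10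
    rw [ht, hs]
    exact ⟨9 * t ^ 2 + 9 * s * t + s ^ 2 * ((a + 2) * (a + 3)), by ring⟩
  · exact key d20 2 0 (fun x y => 9 * y ^ 2 + 9 * (x + 1) * y + (x + 1) ^ 2 * ((x + 2) * (x + 3)))
      h20 (by simpa using g20) (fun x y => ⟨(x + 1) ^ 2 * (x + 3), 9 * y + 9 * (x + 1), by ring⟩)
  · exact key d21 2 1 (fun x y => 9 * y ^ 2 + 9 * (x + 1) * y + (x + 1) ^ 2 * ((x + 2) * (x + 3)))
      h21 g21 (fun x y => ⟨(x + 1) ^ 2 * (x + 3) + 9 * y, 9 * y, by ring⟩)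
  · exact key d30 3 0 (fun x y => 9 * y ^ 2 + 9 * (x + 1) * y + (x + 1) ^ 2 * ((x + 2) * (x + 3)))
      h30 (by simpa using g30) (fun x y => ⟨(x + 1) ^ 2 * (x + 2), 9 * y + 9 * (x + 1), by ring⟩)
  · exact key d32 3 2 (fun x y => 9 * y ^ 2 + 9 * (x + 1) * y + (x + 1) ^ 2 * ((x + 2) * (x + 3)))
      h32 g32 (fun x y => ⟨(x + 1) ^ 2 * (x + 2) + 9 * y, 9 * y, by ring⟩)
  · exact key d41 4 1 (fun x y => 9 * y ^ 2 + 9 * (x + 1) * y + (x + 1) ^ 2 * ((x + 2) * (x + 3)))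
      h41 g41 (fun x y => ⟨x ^ 3 + 3 * x ^ 2 + 5 * x + 6, 9 * y + 9 * x + 18, by ring⟩)
  · exact key d42 4 2 (fun x y => 9 * y ^ 2 + 9 * (x + 1) * y + (x + 1) ^ 2 * ((x + 2) * (x + 3)))
      h42 g42 (fun x y => ⟨x ^ 3 + 3 * x ^ 2 + 5 * x + 15, 9 * y + 9 * x + 27, by ring⟩)

/-- the product of the divisibilities -/
theorem prod_dvd {N0 N1 P1 P2 C : ℤ} {d10 d20 d21 d30 d31 d32 d40 d41 d42 d43 : ℤ}
    (h0 : d10 * (d20 * (d30 * d40)) ∣ N0) (h1 : d10 * (d21 * (d32 * d43)) ∣ N1)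
    (h2 : d10 * (d20 * (d31 * d43)) ∣ P1) (h3 : d10 * (d21 * (d31 * d40)) ∣ P2)
    (h4 : d10 ^ 2 * (d20 * (d21 * (d30 * (d32 * (d41 * d42))))) ∣ C) :
    d10 ^ 12 * (d20 * d21) ^ 6 * (d30 * d31 * d32) ^ 4 * (d40 * d41 * d42 * d43) ^ 3 ∣
      N0 * N1 * P1 ^ 2 * P2 ^ 2 * C ^ 3 := by
  have h := mul_dvd_mul (mul_dvd_mul (mul_dvd_mul (mul_dvd_mul h0 h1) (pow_dvd_pow_of_dvd h2 2))
    (pow_dvd_pow_of_dvd h3 2)) (pow_dvd_pow_of_dvd h4 3)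
  refine Dvd.dvd.trans (dvd_of_eq ?_) h
  ring

theorem mul_dvd4 {x1 x2 x3 x4 N : ℤ} (h12 : IsCoprime x1 x2) (h13 : IsCoprime x1 x3)
    (h14 : IsCoprime x1 x4) (h23 : IsCoprime x2 x3) (h24 : IsCoprime x2 x4)
    (h34 : IsCoprime x3 x4) (g1 : x1 ∣ N) (g2 : x2 ∣ N) (g3 : x3 ∣ N) (g4 : x4 ∣ N) :
    x1 * (x2 * (x3 * x4)) ∣ N :=
  (h12.mul_right (h13.mul_right h14)).mul_dvd g1
    ((h23.mul_right h24).mul_dvd g2 (h34.mul_dvd g3 g4))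

/-- the size of the auxiliary number -/
theorem size_bound {A b n1 p1 p2 c : ℝ} (hA : 2 ≤ A) (hb : A ^ 2 ≤ b)
    (e1 : n1 = A + b) (e2 : p1 = 2 * b - A * (A + 1)) (e3 : p2 = 2 * b + A * (A + 3))
    (e4 : c = 9 * b ^ 2 + 9 * A * b + A ^ 2 * ((A + 1) * (A + 2))) :
    0 < n1 ∧ 0 < p1 ∧ 0 < p2 ∧ 0 < c ∧
      b * n1 * p1 ^ 2 * p2 ^ 2 * c ^ 3 ≤ 545794 * b ^ 12 := by
  have hb0 : 0 < b := by nlinarith
  have hAb : 2 * A ≤ b := by nlinarith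
  have f1 : n1 ≤ 3 / 2 * b := by rw [e1]; linarith
  have f2 : p1 ≤ 2 * b := by rw [e2]; nlinarith
  have f3 : p2 ≤ 9 / 2 * b := by rw [e3]; nlinarith
  have f4 : c ≤ 33 / 2 * b ^ 2 := by
    have h1 : A ^ 2 * ((A + 1) * (A + 2)) ≤ b * (3 * b) := by
      refine mul_le_mul hb ?_ (by positivity) hb0.le
      nlinarith
    have h2 : 9 * A * b ≤ 9 / 2 * b * b := by nlinarith
    rw [e4]
    nlinarith
  have g1 : 0 < n1 := by rw [e1]; linarith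
  have g2 : 0 < p1 := by rw [e2]; nlinarith
  have g3 : 0 < p2 := by rw [e3]; nlinarith
  have g4 : 0 < c := by rw [e4]; positivity
  refine ⟨g1, g2, g3, g4, ?_⟩
  calc b * n1 * p1 ^ 2 * p2 ^ 2 * c ^ 3 ≤
      b * (3 / 2 * b) * (2 * b) ^ 2 * (9 / 2 * b) ^ 2 * (33 / 2 * b ^ 2) ^ 3 := by
        gcongr
    _ = 545793.1875 * b ^ 12 := by ring
    _ ≤ 545794 * b ^ 12 := by
        have : 0 < b ^ 12 := by positivity
        nlinarith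

theorem pow_rearr (g1 g2 g3 g4 x y z w : ℕ) :
    (g1 * x) ^ 12 * (g2 * y) ^ 6 * (g3 * z) ^ 4 * (g4 * w) ^ 3 =
      (g1 ^ 12 * g2 ^ 6 * g3 ^ 4 * g4 ^ 3) * (x ^ 12 * y ^ 6 * z ^ 4 * w ^ 3) := by
  ring

/-- **The main inequality.** -/
theorem four_main {a b r : ℕ} (hnc : NoCarry a b r) (hr : 4 ≤ r) (ha : 1 ≤ a)
    (hb : (a + 1) ^ 2 ≤ b) : (a : ℝ) ^ 25 ≤ 12 ^ 12 * 2 ^ 4 * 3 ^ 3 * 545794 * (b : ℝ) ^ 12 := by
  set D : ℕ → ℕ → ℕ := fun k i => cellD 4 a b k i with hD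
  have hcop : ∀ k i k' i', 1 ≤ k → k ≤ 4 → 1 ≤ k' → k' ≤ 4 → (k, i) ≠ (k', i') →
      IsCoprime (D k i : ℤ) (D k' i' : ℤ) := by
    intro k i k' i' h1 h2 h3 h4 h5
    exact Nat.isCoprime_iff_coprime.2 (cellD_coprime h1 h2 h3 h4 h5)
  have hda : ∀ k i, 1 ≤ k → (D k i : ℤ) ∣ (a : ℤ) + k := by
    intro k i hk
    exact_mod_cast cellD_dvd (R := 4) (a := a) (b := b) (k := k) (i := i) (by omega)
  have hdb : ∀ k i, (D k i : ℤ) ∣ (b : ℤ) - i := fun k i => cellD_dvd_sub 4 a b k i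
  obtain ⟨⟨a1, a2, a3, a4⟩, ⟨b1, b2, b3, b4⟩, ⟨c1, c2, c3, c4⟩, ⟨e1, e2, e3, e4, e5, e6, e7⟩⟩ :=
    factors_dvd (a := a) (b := b) (d10 := D 1 0) (d20 := D 2 0) (d21 := D 2 1) (d30 := D 3 0)
      (d31 := D 3 1) (d32 := D 3 2) (d40 := D 4 0) (d41 := D 4 1) (d42 := D 4 2) (d43 := D 4 3)
      (by simpa using hda 1 0 (by norm_num)) (by simpa using hdb 1 0)
      (by simpa using hda 2 0 (by norm_num)) (by simpa using hdb 2 0)
      (by simpa using hda 2 1 (by norm_num)) (by simpa using hdb 2 1)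
      (by simpa using hda 3 0 (by norm_num)) (by simpa using hdb 3 0)
      (by simpa using hda 3 1 (by norm_num)) (by simpa using hdb 3 1)
      (by simpa using hda 3 2 (by norm_num)) (by simpa using hdb 3 2)
      (by simpa using hda 4 0 (by norm_num)) (by simpa using hdb 4 0)
      (by simpa using hda 4 1 (by norm_num)) (by simpa using hdb 4 1)
      (by simpa using hda 4 2 (by norm_num)) (by simpa using hdb 4 2)
      (by simpa using hda 4 3 (by norm_num)) (by simpa using hdb 4 3)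
  have q0 := mul_dvd4 (N := (b : ℤ)) (hcop 1 0 2 0 (by norm_num) (by norm_num) (by norm_num) (by norm_num) (by simp))
    (hcop 1 0 3 0 (by norm_num) (by norm_num) (by norm_num) (by norm_num) (by simp))
    (hcop 1 0 4 0 (by norm_num) (by norm_num) (by norm_num) (by norm_num) (by simp))
    (hcop 2 0 3 0 (by norm_num) (by norm_num) (by norm_num) (by norm_num) (by simp))
    (hcop 2 0 4 0 (by norm_num) (by norm_num) (by norm_num) (by norm_num) (by simp))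
    (hcop 3 0 4 0 (by norm_num) (by norm_num) (by norm_num) (by norm_num) (by simp))
    (by simpa using hdb 1 0) (by simpa using hdb 2 0) (by simpa using hdb 3 0)
    (by simpa using hdb 4 0)
  have q1 := mul_dvd4 (hcop 1 0 2 1 (by norm_num) (by norm_num) (by norm_num) (by norm_num) (by simp))
    (hcop 1 0 3 2 (by norm_num) (by norm_num) (by norm_num) (by norm_num) (by simp))
    (hcop 1 0 4 3 (by norm_num) (by norm_num) (by norm_num) (by norm_num) (by simp))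
    (hcop 2 1 3 2 (by norm_num) (by norm_num) (by norm_num) (by norm_num) (by simp))
    (hcop 2 1 4 3 (by norm_num) (by norm_num) (by norm_num) (by norm_num) (by simp))
    (hcop 3 2 4 3 (by norm_num) (by norm_num) (by norm_num) (by norm_num) (by simp))
    a1 a2 a3 a4
  have q2 := mul_dvd4 (hcop 1 0 2 0 (by norm_num) (by norm_num) (by norm_num) (by norm_num) (by simp))
    (hcop 1 0 3 1 (by norm_num) (by norm_num) (by norm_num) (by norm_num) (by simp))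
    (hcop 1 0 4 3 (by norm_num) (by norm_num) (by norm_num) (by norm_num) (by simp))
    (hcop 2 0 3 1 (by norm_num) (by norm_num) (by norm_num) (by norm_num) (by simp))
    (hcop 2 0 4 3 (by norm_num) (by norm_num) (by norm_num) (by norm_num) (by simp))
    (hcop 3 1 4 3 (by norm_num) (by norm_num) (by norm_num) (by norm_num) (by simp))
    b1 b2 b3 b4
  have q3 := mul_dvd4 (hcop 1 0 2 1 (by norm_num) (by norm_num) (by norm_num) (by norm_num) (by simp))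
    (hcop 1 0 3 1 (by norm_num) (by norm_num) (by norm_num) (by norm_num) (by simp))
    (hcop 1 0 4 0 (by norm_num) (by norm_num) (by norm_num) (by norm_num) (by simp))
    (hcop 2 1 3 1 (by norm_num) (by norm_num) (by norm_num) (by norm_num) (by simp))
    (hcop 2 1 4 0 (by norm_num) (by norm_num) (by norm_num) (by norm_num) (by simp))
    (hcop 3 1 4 0 (by norm_num) (by norm_num) (by norm_num) (by norm_num) (by simp))
    c1 c2 c3 c4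
  have cc : ∀ k i k' i', 1 ≤ k → k ≤ 4 → 1 ≤ k' → k' ≤ 4 → (k, i) ≠ (k', i') →
      IsCoprime ((D k i : ℤ) ^ 2) (D k' i' : ℤ) := fun k i k' i' h1 h2 h3 h4 h5 =>
    (hcop k i k' i' h1 h2 h3 h4 h5).pow_left
  have q4 : (D 1 0 : ℤ) ^ 2 * (D 2 0 * (D 2 1 * (D 3 0 * (D 3 2 * (D 4 1 * D 4 2))))) ∣
      9 * (b : ℤ) ^ 2 + 9 * (a + 1) * b + (a + 1) ^ 2 * ((a + 2) * (a + 3)) := by
    have t : ∀ k i k' i', 1 ≤ k ∧ k ≤ 4 ∧ 1 ≤ k' ∧ k' ≤ 4 ∧ (k, i) ≠ (k', i') →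
      IsCoprime (D k i : ℤ) (D k' i' : ℤ) := fun k i k' i' h =>
      hcop k i k' i' h.1 h.2.1 h.2.2.1 h.2.2.2.1 h.2.2.2.2
    have t' : ∀ k i k' i', 1 ≤ k ∧ k ≤ 4 ∧ 1 ≤ k' ∧ k' ≤ 4 ∧ (k, i) ≠ (k', i') →
      IsCoprime ((D k i : ℤ) ^ 2) (D k' i' : ℤ) := fun k i k' i' h =>
      cc k i k' i' h.1 h.2.1 h.2.2.1 h.2.2.2.1 h.2.2.2.2
    refine ((t' 1 0 2 0 (by simp)).mul_right ((t' 1 0 2 1 (by simp)).mul_right
      ((t' 1 0 3 0 (by simp)).mul_right ((t' 1 0 3 2 (by simp)).mul_right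
      ((t' 1 0 4 1 (by simp)).mul_right (t' 1 0 4 2 (by simp))))))).mul_dvd e1 ?_
    refine ((t 2 0 2 1 (by simp)).mul_right ((t 2 0 3 0 (by simp)).mul_right
      ((t 2 0 3 2 (by simp)).mul_right ((t 2 0 4 1 (by simp)).mul_right
      (t 2 0 4 2 (by simp)))))).mul_dvd e2 ?_
    refine ((t 2 1 3 0 (by simp)).mul_right ((t 2 1 3 2 (by simp)).mul_right
      ((t 2 1 4 1 (by simp)).mul_right (t 2 1 4 2 (by simp))))).mul_dvd e3 ?_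
    refine ((t 3 0 3 2 (by simp)).mul_right ((t 3 0 4 1 (by simp)).mul_right
      (t 3 0 4 2 (by simp)))).mul_dvd e4 ?_
    refine ((t 3 2 4 1 (by simp)).mul_right (t 3 2 4 2 (by simp))).mul_dvd e5 ?_
    exact (t 4 1 4 2 (by simp)).mul_dvd e6 e7
  have hdvd := prod_dvd q0 q1 q2 q3 q4
  have hbR : ((a : ℝ) + 1) ^ 2 ≤ b := by exact_mod_cast hb
  have haR : (1 : ℝ) ≤ a := by exact_mod_cast ha
  obtain ⟨z1, z2, z3, z4, hsize⟩ := size_bound (A := (a : ℝ) + 1) (b := b) (by linarith) hbR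
    rfl rfl rfl rfl
  -- the size of the product of the cells
  set L : ℕ := D 1 0 ^ 12 * (D 2 0 * D 2 1) ^ 6 * (D 3 0 * D 3 1 * D 3 2) ^ 4 *
    (D 4 0 * D 4 1 * D 4 2 * D 4 3) ^ 3 with hL
  set T : ℤ := (b : ℤ) * ((a : ℤ) + b + 1) * (2 * (b : ℤ) - (a + 1) * (a + 2)) ^ 2 *
    (2 * (b : ℤ) + (a + 1) * (a + 4)) ^ 2 *
    (9 * (b : ℤ) ^ 2 + 9 * (a + 1) * b + (a + 1) ^ 2 * ((a + 2) * (a + 3))) ^ 3 with hT
  have hTR : (T : ℝ) = (b : ℝ) * ((a : ℝ) + 1 + b) *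
      (2 * (b : ℝ) - ((a : ℝ) + 1) * ((a : ℝ) + 1 + 1)) ^ 2 *
      (2 * (b : ℝ) + ((a : ℝ) + 1) * ((a : ℝ) + 1 + 3)) ^ 2 *
      (9 * (b : ℝ) ^ 2 + 9 * ((a : ℝ) + 1) * b +
        ((a : ℝ) + 1) ^ 2 * (((a : ℝ) + 1 + 1) * ((a : ℝ) + 1 + 2))) ^ 3 := by
    rw [hT]
    push_cast
    ring
  have hb0 : (0 : ℝ) < b := by nlinarith
  have hTpos : (0 : ℝ) < T := by
    rw [hTR]
    positivity
  have hLT : (L : ℝ) ≤ T := by
    have h1 : (L : ℤ) ∣ T := by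
      rw [hL]
      push_cast
      exact hdvd
    have h2 := Int.le_of_dvd (by exact_mod_cast hTpos) h1
    exact_mod_cast h2
  -- the product of the `a + k`
  have hcell : (a + 1) ^ 12 * (a + 2) ^ 6 * (a + 3) ^ 4 * (a + 4) ^ 3 ≤
      (12 ^ 12 * 2 ^ 4 * 3 ^ 3) * L := by
    have k1 := dvd_gcd_mul_cells hnc (k := 1) (by norm_num) (by norm_num) hr
    have k2 := dvd_gcd_mul_cells hnc (k := 2) (by norm_num) (by norm_num) hr
    have k3 := dvd_gcd_mul_cells hnc (k := 3) (by norm_num) (by norm_num) hr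
    have k4 := dvd_gcd_mul_cells hnc (k := 4) (by norm_num) (by norm_num) hr
    simp only [Finset.prod_range_succ, Finset.prod_range_zero, one_mul] at k1 k2 k3 k4
    have h := mul_dvd_mul (mul_dvd_mul (mul_dvd_mul (pow_dvd_pow_of_dvd k1 12)
      (pow_dvd_pow_of_dvd k2 6)) (pow_dvd_pow_of_dvd k3 4)) (pow_dvd_pow_of_dvd k4 3)
    have hpos : ∀ k i, 0 < D k i := fun k i => cellD_pos _ _ _ _ _
    have hLpos : 0 < L := by
      rw [hL]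
      have := hpos 1 0
      have := hpos 2 0
      have := hpos 2 1
      have := hpos 3 0
      have := hpos 3 1
      have := hpos 3 2
      have := hpos 4 0
      have := hpos 4 1
      have := hpos 4 2
      have := hpos 4 3
      positivity
    have hg : ∀ k, 0 < (a + k).gcd 12 := fun k => Nat.gcd_pos_of_pos_right _ (by norm_num)
    have heq : ((a + 1).gcd 12 * cellD 4 a b 1 0) ^ 12 *
        ((a + 2).gcd 12 * (cellD 4 a b 2 0 * cellD 4 a b 2 1)) ^ 6 *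
        ((a + 3).gcd 12 * (cellD 4 a b 3 0 * cellD 4 a b 3 1 * cellD 4 a b 3 2)) ^ 4 *
        ((a + 4).gcd 12 * (cellD 4 a b 4 0 * cellD 4 a b 4 1 * cellD 4 a b 4 2 *
          cellD 4 a b 4 3)) ^ 3 =
        ((a + 1).gcd 12 ^ 12 * (a + 2).gcd 12 ^ 6 * (a + 3).gcd 12 ^ 4 * (a + 4).gcd 12 ^ 3) * L :=
      pow_rearr _ _ _ _ _ _ _ _
    rw [heq] at h
    have hp : 0 < ((a + 1).gcd 12 ^ 12 * (a + 2).gcd 12 ^ 6 * (a + 3).gcd 12 ^ 4 *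
        (a + 4).gcd 12 ^ 3) * L := by
      have := hg 1
      have := hg 2
      have := hg 3
      have := hg 4
      positivity
    exact (Nat.le_of_dvd hp h).trans (Nat.mul_le_mul_right _ (gcd_bound a))
  have hcellR : ((a : ℝ) + 1) ^ 12 * ((a : ℝ) + 2) ^ 6 * ((a : ℝ) + 3) ^ 4 * ((a : ℝ) + 4) ^ 3 ≤
      (12 ^ 12 * 2 ^ 4 * 3 ^ 3) * (L : ℝ) := by exact_mod_cast hcell
  have hlow : (a : ℝ) ^ 25 ≤
      ((a : ℝ) + 1) ^ 12 * ((a : ℝ) + 2) ^ 6 * ((a : ℝ) + 3) ^ 4 * ((a : ℝ) + 4) ^ 3 := by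
    have ha0 : (0 : ℝ) ≤ a := by linarith
    calc (a : ℝ) ^ 25 = (a : ℝ) ^ 12 * (a : ℝ) ^ 6 * (a : ℝ) ^ 4 * (a : ℝ) ^ 3 := by ring
      _ ≤ _ := by
        gcongr <;> linarith
  have hfin : (L : ℝ) ≤ 545794 * (b : ℝ) ^ 12 := by
    refine hLT.trans ?_
    rw [hTR]
    exact hsize
  calc (a : ℝ) ^ 25 ≤ (12 ^ 12 * 2 ^ 4 * 3 ^ 3) * (L : ℝ) := hlow.trans hcellR
    _ ≤ (12 ^ 12 * 2 ^ 4 * 3 ^ 3) * (545794 * (b : ℝ) ^ 12) := by gcongr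
    _ = _ := by ring

end Pool.Agent.K9h7.SG
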