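import Mathlib

/-!
# Extreme monomials of a polynomial in two variables
-/

set_option autoImplicit false

open Finset Polynomial Polynomial.Bivariate

namespace Pool.Agent.K9h7.SG

/-- the coefficient of `x^i y^j` -/
noncomputable def cf (F : ℤ[X][Y]) (i j : ℕ) : ℤ := (F.coeff j).coeff i

theorem cf_mul (F Q : ℤ[X][Y]) (i j : ℕ) : cf (F * Q) i j =
    ∑ y ∈ antidiagonal j, ∑ x ∈ antidiagonal i, cf F x.1 y.1 * cf Q x.2 y.2 := by
  unfold cf
  rw [coeff_mul, finsetSum_coeff]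
  refine Finset.sum_congr rfl fun y _ => ?_
  rw [coeff_mul]

theorem cf_ext {F Q : ℤ[X][Y]} (h : ∀ i j, cf F i j = cf Q i j) : F = Q := by
  ext j i
  exact h i j

theorem exists_cf_ne {F : ℤ[X][Y]} (h : F ≠ 0) : ∃ i j, cf F i j ≠ 0 := by
  by_contra hcon
  push Not at hcon
  apply h
  apply cf_ext
  intro i j
  rw [hcon i j]
  simp [cf]

/-- `(i0,j0)` is the extreme monomial for the weight `α i + β j`, ties broken by `j` -/
def IsLead (α β : ℝ) (F : ℤ[X][Y]) (i0 j0 : ℕ) : Prop :=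
  cf F i0 j0 ≠ 0 ∧ ∀ i j, cf F i j ≠ 0 → α * i + β * j < α * i0 + β * j0 ∨
    (α * i + β * j = α * i0 + β * j0 ∧ j ≤ j0)

theorem IsLead.le {α β : ℝ} {F : ℤ[X][Y]} {i0 j0 : ℕ} (h : IsLead α β F i0 j0) {i j : ℕ}
    (hij : cf F i j ≠ 0) : α * i + β * j ≤ α * i0 + β * j0 := by
  rcases h.2 i j hij with h | ⟨h, -⟩
  · exact h.le
  · exact h.le

theorem exists_lead (α β : ℝ) {F : ℤ[X][Y]} (hF : F ≠ 0) : ∃ i0 j0, IsLead α β F i0 j0 := by
  classical
  let s : Finset (ℕ × ℕ) := F.support.biUnion fun j => (F.coeff j).support.image fun i => (i, j)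
  have hs : ∀ i j, (i, j) ∈ s ↔ cf F i j ≠ 0 := by
    intro i j
    simp only [s, mem_biUnion, mem_image, mem_support_iff, Prod.mk.injEq, cf]
    constructor
    · rintro ⟨j', -, i', h, rfl, rfl⟩
      exact h
    · intro h
      refine ⟨j, fun h0 => h ?_, i, h, rfl, rfl⟩
      rw [h0, coeff_zero]
  obtain ⟨i, j, hij⟩ := exists_cf_ne hF
  obtain ⟨⟨i0, j0⟩, h0, hmax⟩ := Finset.exists_max_image s
    (fun p : ℕ × ℕ => (toLex ((α * p.1 + β * p.2 : ℝ), p.2) : ℝ ×ₗ ℕ)) ⟨(i, j), (hs i j).2 hij⟩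
  refine ⟨i0, j0, (hs _ _).1 h0, fun i j h => ?_⟩
  have := hmax (i, j) ((hs i j).2 h)
  rw [Prod.Lex.le_iff] at this
  simpa using this

theorem lead_mul {α β : ℝ} (hα : α ≠ 0) {F Q : ℤ[X][Y]} {i0 j0 i1 j1 : ℕ}
    (hF : IsLead α β F i0 j0) (hQ : IsLead α β Q i1 j1) :
    cf (F * Q) (i0 + i1) (j0 + j1) = cf F i0 j0 * cf Q i1 j1 := by
  have key : ∀ i j i' j' : ℕ, i + i' = i0 + i1 → j + j' = j0 + j1 →
      cf F i j * cf Q i' j' ≠ 0 → i = i0 ∧ j = j0 := by
    intro i j i' j' h1 h2 h3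
    have hi : (i : ℝ) + i' = i0 + i1 := by exact_mod_cast h1
    have hj : (j : ℝ) + j' = j0 + j1 := by exact_mod_cast h2
    have a1 := hF.2 i j (left_ne_zero_of_mul h3)
    have a2 := hQ.2 i' j' (right_ne_zero_of_mul h3)
    have a3 : α * i + β * j + (α * i' + β * j') = α * i0 + β * j0 + (α * i1 + β * j1) := by
      calc α * i + β * j + (α * i' + β * j') = α * ((i : ℝ) + i') + β * ((j : ℝ) + j') := by ring
        _ = _ := by rw [hi, hj]; ring
    have a4 : α * i + β * j = α * i0 + β * j0 ∧ j ≤ j0 := by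
      rcases a1 with a1 | a1
      · exfalso
        rcases a2 with a2 | ⟨a2, -⟩ <;> linarith
      · exact a1
    have a5 : α * i' + β * j' = α * i1 + β * j1 ∧ j' ≤ j1 := by
      rcases a2 with a2 | a2
      · exfalso
        linarith [a4.1]
      · exact a2
    have hjj : j = j0 := by omega
    refine ⟨?_, hjj⟩
    have h6 := a4.1
    rw [hjj] at h6
    have h7 : α * i = α * i0 := by linarith
    exact_mod_cast mul_left_cancel₀ hα h7
  rw [cf_mul, Finset.sum_eq_single (j0, j1)]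
  · rw [Finset.sum_eq_single (i0, i1)]
    · rintro ⟨i, i'⟩ hi hne
      rw [HasAntidiagonal.mem_antidiagonal] at hi
      by_contra hcon
      have := (key i j0 i' j1 hi rfl hcon).1
      apply hne
      simp only at hi
      rw [Prod.mk.injEq]
      omega
    · intro h
      exact absurd (HasAntidiagonal.mem_antidiagonal.2 (by rfl)) h
  · rintro ⟨j, j'⟩ hj hne
    rw [HasAntidiagonal.mem_antidiagonal] at hj
    refine Finset.sum_eq_zero ?_
    rintro ⟨i, i'⟩ hi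
    rw [HasAntidiagonal.mem_antidiagonal] at hi
    by_contra hcon
    have := (key i j i' j' hi hj hcon).2
    apply hne
    simp only at hj
    rw [Prod.mk.injEq]
    omega
  · intro h
    exact absurd (HasAntidiagonal.mem_antidiagonal.2 (by rfl)) h

theorem IsLead.mul {α β : ℝ} (hα : α ≠ 0) {F Q : ℤ[X][Y]} {i0 j0 i1 j1 : ℕ}
    (hF : IsLead α β F i0 j0) (hQ : IsLead α β Q i1 j1) :
    cf (F * Q) (i0 + i1) (j0 + j1) ≠ 0 := by
  rw [lead_mul hα hF hQ]
  exact mul_ne_zero hF.1 hQ.1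

/-- A nonzero polynomial without monomials divisible by the extreme monomial of `G` is not a
multiple of `G`. -/
theorem not_dvd_of_support {α β : ℝ} (hα : α ≠ 0) {G P : ℤ[X][Y]} {i0 j0 : ℕ}
    (hG : IsLead α β G i0 j0) (hP : P ≠ 0) (h : ∀ i j, i0 ≤ i → j0 ≤ j → cf P i j = 0) :
    ¬ G ∣ P := by
  rintro ⟨Q, rfl⟩
  have hQ : Q ≠ 0 := right_ne_zero_of_mul hP
  obtain ⟨i1, j1, hQ1⟩ := exists_lead α β hQ
  exact IsLead.mul hα hG hQ1 (h _ _ (Nat.le_add_right _ _) (Nat.le_add_right _ _))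

end Pool.Agent.K9h7.SG
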