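import Pool.Agent.K9h7.SG.Harm1
import Pool.Agent.K9h7.SG.Curve2
import Pool.Agent.K9h7.SG.Aux1

/-!
# Multiplicity at a point, and polynomials which vanish to high order along a curve
-/

set_option autoImplicit false

open Finset Polynomial Polynomial.Bivariate

namespace Pool.Agent.K9h7.SG

/-- the shift `F(X + x0, Y + y0)` -/
noncomputable def sh (x0 y0 : ℤ) : ℤ[X][Y] →+* ℤ[X][Y] :=
  (compRingHom (X + C (C y0 : ℤ[X]))).comp (mapRingHom (compRingHom (X + C x0)))

theorem sh_apply (x0 y0 : ℤ) (F : ℤ[X][Y]) :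
    sh x0 y0 F = taylor (C y0) (F.map (compRingHom (X + C x0))) := rfl

theorem sh_injective (x0 y0 : ℤ) : Function.Injective (sh x0 y0) := by
  intro F Q h
  rw [sh_apply, sh_apply] at h
  have h1 := taylor_injective _ h
  refine Polynomial.map_injective _ ?_ h1
  exact taylor_injective x0

theorem sh_ne_zero {x0 y0 : ℤ} {F : ℤ[X][Y]} (h : F ≠ 0) : sh x0 y0 F ≠ 0 := by
  intro h0
  exact h (sh_injective x0 y0 (h0.trans (map_zero _).symm))

theorem sh_CX (x0 y0 : ℤ) : sh x0 y0 (C X) = C (X + C x0) := by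
  simp [sh]

theorem sh_X (x0 y0 : ℤ) : sh x0 y0 X = X + C (C y0) := by
  simp [sh]

theorem sh_eval (x0 y0 a b : ℤ) (F : ℤ[X][Y]) :
    evalEval (a - x0) (b - y0) (sh x0 y0 F) = evalEval a b F := by
  have h : (evalEvalRingHom (a - x0) (b - y0)).comp (sh x0 y0) = evalEvalRingHom a b := by
    apply Polynomial.ringHom_ext'
    · apply Polynomial.ringHom_ext'
      · exact RingHom.ext_int _ _
      · show evalEval (a - x0) (b - y0) (sh x0 y0 (C X)) = evalEval a b (C X)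
        rw [sh_CX, evalEval_C, evalEval_C]
        simp
    · show evalEval (a - x0) (b - y0) (sh x0 y0 X) = evalEval a b X
      rw [sh_X]
      simp
  exact congrFun (congrArg DFunLike.coe h) F

theorem evalEval_eq (F : ℤ[X][Y]) (u v : ℤ) : evalEval u v F =
    ∑ j ∈ range (F.natDegree + 1), ∑ i ∈ range ((F.coeff j).natDegree + 1),
      cf F i j * u ^ i * v ^ j := by
  rw [evalEval_sum_range]
  refine Finset.sum_congr rfl fun j _ => ?_
  rw [eval_eq_sum_range, Finset.sum_mul]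
  rfl

theorem dvd_evalEval {F : ℤ[X][Y]} {m : ℕ} (h : ∀ i j, i + j < m → cf F i j = 0) {D u v : ℤ}
    (hu : D ∣ u) (hv : D ∣ v) : D ^ m ∣ evalEval u v F := by
  rw [evalEval_eq]
  refine Finset.dvd_sum fun j _ => Finset.dvd_sum fun i _ => ?_
  by_cases hij : i + j < m
  · rw [h i j hij]
    simp
  · have h1 : D ^ (i + j) ∣ u ^ i * v ^ j := by
      rw [pow_add]
      exact mul_dvd_mul (pow_dvd_pow_of_dvd hu i) (pow_dvd_pow_of_dvd hv j)
    rw [mul_assoc]
    exact Dvd.dvd.mul_left ((pow_dvd_pow D (by omega)).trans h1) _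

/-- the multiplicity of `F` at `(x0,y0)` -/
noncomputable def mult (x0 y0 : ℤ) (F : ℤ[X][Y]) : ℕ :=
  sInf {n | ∃ i j, i + j = n ∧ cf (sh x0 y0 F) i j ≠ 0}

theorem mult_le {x0 y0 : ℤ} {F : ℤ[X][Y]} {i j : ℕ} (h : cf (sh x0 y0 F) i j ≠ 0) :
    mult x0 y0 F ≤ i + j := Nat.sInf_le ⟨i, j, rfl, h⟩

theorem cf_of_lt_mult {x0 y0 : ℤ} {F : ℤ[X][Y]} {i j : ℕ} (h : i + j < mult x0 y0 F) :
    cf (sh x0 y0 F) i j = 0 := by
  by_contra hcon
  exact absurd (mult_le hcon) (by omega)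

theorem exists_mult {x0 y0 : ℤ} {F : ℤ[X][Y]} (hF : F ≠ 0) :
    ∃ i j, i + j = mult x0 y0 F ∧ cf (sh x0 y0 F) i j ≠ 0 := by
  obtain ⟨i, j, h⟩ := exists_cf_ne (sh_ne_zero (x0 := x0) (y0 := y0) hF)
  exact Nat.sInf_mem (s := {n | ∃ i j, i + j = n ∧ cf (sh x0 y0 F) i j ≠ 0}) ⟨i + j, i, j, rfl, h⟩

/-- the exponents of total degree less than `n` -/
def Tri (n : ℕ) : Finset (ℕ × ℕ) := (range n).biUnion fun k => antidiagonal k

theorem mem_Tri {n : ℕ} {p : ℕ × ℕ} : p ∈ Tri n ↔ p.1 + p.2 < n := by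
  unfold Tri
  simp only [mem_biUnion, mem_range, HasAntidiagonal.mem_antidiagonal]
  constructor
  · rintro ⟨k, hk, rfl⟩
    exact hk
  · intro h
    exact ⟨_, h, rfl⟩

theorem card_Tri (n : ℕ) : 2 * (Tri n).card = n * (n + 1) := by
  unfold Tri
  rw [Finset.card_biUnion]
  · have h : ∀ m : ℕ, 2 * ∑ k ∈ range m, (antidiagonal k).card = m * (m + 1) := by
      intro m
      induction m with
      | zero => simp
      | succ m ih =>
        rw [sum_range_succ, mul_add, ih, Finset.Nat.card_antidiagonal]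
        ring
    exact h n
  · intro k _ k' _ hne
    rw [Function.onFun, Finset.disjoint_left]
    intro p hp hp'
    rw [HasAntidiagonal.mem_antidiagonal] at hp hp'
    exact hne (hp.symm.trans hp')

theorem cf_add (F Q : ℤ[X][Y]) (i j : ℕ) : cf (F + Q) i j = cf F i j + cf Q i j := by
  simp [cf]

theorem cf_sum {ι : Type} (s : Finset ι) (f : ι → ℤ[X][Y]) (i j : ℕ) :
    cf (∑ x ∈ s, f x) i j = ∑ x ∈ s, cf (f x) i j := by
  simp [cf, finsetSum_coeff]

theorem cf_bip_of_notMem {S : Finset (ℕ × ℕ)} {c : S → ℤ} {i j : ℕ} (h : (i, j) ∉ S) :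
    cf (bip S c) i j = 0 := by
  unfold bip
  rw [cf_sum]
  refine Finset.sum_eq_zero fun s _ => ?_
  unfold cf
  rw [coeff_monomial]
  split_ifs with h1
  · rw [coeff_monomial, if_neg]
    intro h2
    apply h
    have : (i, j) = s.1 := Prod.ext h2.symm h1.symm
    rw [this]
    exact s.2
  · simp

/-- the monomial `x^i y^j` -/
noncomputable def mon (p : ℕ × ℕ) : ℤ[X][Y] := monomial p.2 (monomial p.1 1)

theorem bip_eq_sum (S : Finset (ℕ × ℕ)) (c : S → ℤ) :
    bip S c = ∑ s : S, (c s : ℤ[X][Y]) * mon s.1 := by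
  unfold bip mon
  refine Finset.sum_congr rfl fun s _ => ?_
  have h1 : ((c s : ℤ) : ℤ[X][Y]) = C (C (c s)) := by
    rw [← Polynomial.C_eq_intCast, ← Polynomial.C_eq_intCast]
    rfl
  rw [h1, C_mul_monomial, C_mul_monomial, mul_one]

theorem cf_intCast_mul (c : ℤ) (F : ℤ[X][Y]) (i j : ℕ) : cf ((c : ℤ[X][Y]) * F) i j = c * cf F i j := by
  have h1 : ((c : ℤ) : ℤ[X][Y]) = C (C c) := by
    rw [← Polynomial.C_eq_intCast, ← Polynomial.C_eq_intCast]
    rfl
  unfold cf
  rw [h1, coeff_C_mul, coeff_C_mul]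

/-- The auxiliary polynomial for one point: a nonzero polynomial `P` with given exponents which
vanishes to the order `m` at `(x0,y0)` along the curve `G = 0`. -/
theorem exists_aux {G : ℤ[X][Y]} (hG : G ≠ 0) (x0 y0 : ℤ) (m : ℕ) (hm : 1 ≤ m)
    (S : Finset (ℕ × ℕ)) (hS : m * mult x0 y0 G < S.card) :
    ∃ c : S → ℤ, c ≠ 0 ∧ ∃ H : ℤ[X][Y], ∀ i j, i + j < m →
      cf (sh x0 y0 (bip S c) + sh x0 y0 G * H) i j = 0 := by
  classical
  set μ := mult x0 y0 G with hμ
  let T := Tri (m - μ)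
  let E := Tri m
  let A : Matrix E (S ⊕ T) ℤ := fun e σ =>
    Sum.elim (fun s : S => cf (sh x0 y0 (mon s.1)) e.1.1 e.1.2)
      (fun t : T => cf (sh x0 y0 G * mon t.1) e.1.1 e.1.2) σ
  have hE0 : 0 < Fintype.card E := by
    rw [Fintype.card_coe]
    refine Finset.card_pos.2 ⟨(0, 0), mem_Tri.2 (by show 0 + 0 < m; omega)⟩
  have hcard : Fintype.card E < Fintype.card (S ⊕ T) := by
    rw [Fintype.card_sum, Fintype.card_coe, Fintype.card_coe, Fintype.card_coe]
    have h1 := card_Tri m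
    have h2 := card_Tri (m - μ)
    show (Tri m).card < S.card + (Tri (m - μ)).card
    rcases le_or_gt μ m with h | h
    · obtain ⟨d, hd⟩ : ∃ d, m = μ + d := ⟨m - μ, by omega⟩
      have h3 : m - μ = d := by omega
      rw [h3] at h2 ⊢
      rw [hd] at h1 hS ⊢
      nlinarith [Nat.le_mul_self μ]
    · nlinarith
  obtain ⟨v, hv, hAv, -⟩ := Int.Matrix.exists_ne_zero_int_vec_norm_le A hcard hE0
  have hlin : ∀ i j, i + j < m → cf (sh x0 y0 (bip S (fun s => v (Sum.inl s))) +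
      sh x0 y0 G * bip T (fun t => v (Sum.inr t))) i j = 0 := by
    intro i j hij
    have h1 := congrFun hAv ⟨(i, j), mem_Tri.2 hij⟩
    rw [Matrix.mulVec, dotProduct, Fintype.sum_sum_type] at h1
    rw [cf_add, bip_eq_sum, bip_eq_sum, map_sum, cf_sum, Finset.mul_sum, cf_sum]
    have e1 : ∀ s : S, cf (sh x0 y0 (((v (Sum.inl s) : ℤ) : ℤ[X][Y]) * mon s.1)) i j =
        A ⟨(i, j), mem_Tri.2 hij⟩ (Sum.inl s) * v (Sum.inl s) := by
      intro s
      rw [map_mul, map_intCast, cf_intCast_mul, mul_comm]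
      rfl
    have e2 : ∀ t : T, cf (sh x0 y0 G * (((v (Sum.inr t) : ℤ) : ℤ[X][Y]) * mon t.1)) i j =
        A ⟨(i, j), mem_Tri.2 hij⟩ (Sum.inr t) * v (Sum.inr t) := by
      intro t
      rw [mul_left_comm, cf_intCast_mul, mul_comm]
      rfl
    rw [Finset.sum_congr rfl fun s _ => e1 s, Finset.sum_congr rfl fun t _ => e2 t]
    exact h1
  refine ⟨fun s => v (Sum.inl s), ?_, bip T (fun t => v (Sum.inr t)), hlin⟩
  intro hc0
  have hh : (fun t : T => v (Sum.inr t)) ≠ 0 := by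
    intro h0
    apply hv
    funext σ
    rcases σ with s | t
    · exact congrFun hc0 s
    · exact congrFun h0 t
  have hH := bip_ne_zero hh
  obtain ⟨i0, j0, h0⟩ := exists_lead (-1) (-1) (sh_ne_zero (x0 := x0) (y0 := y0) hG)
  obtain ⟨i1, j1, h1⟩ := exists_lead (-1) (-1) hH
  have h2 := IsLead.mul (by norm_num) h0 h1
  have h3 : i0 + j0 = μ := by
    obtain ⟨i, j, hij, hne⟩ := exists_mult (x0 := x0) (y0 := y0) hG
    have a1 := h0.le hne
    have a2 := mult_le h0.1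
    have a3 : (i : ℝ) + j = μ := by exact_mod_cast hij
    have a4 : (μ : ℝ) ≤ (i0 : ℝ) + j0 := by exact_mod_cast a2
    have a5 : ((i0 + j0 : ℕ) : ℝ) = μ := by push_cast; linarith
    exact_mod_cast a5
  have h4 : i1 + j1 < m - μ := by
    by_contra hcon
    apply h1.1
    refine cf_bip_of_notMem fun hmem => ?_
    have := mem_Tri.1 hmem
    simp only at this
    omega
  have h5 := hlin (i0 + i1) (j0 + j1) (by omega)
  have hz : bip S (fun s => v (Sum.inl s)) = 0 := by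
    rw [hc0, bip_eq_sum]
    simp
  rw [hz, map_zero, zero_add] at h5
  exact h2 h5

end Pool.Agent.K9h7.SG
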