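import Pool.Agent.K9h7.SG.Harm2
import Pool.Agent.K9h7.SG.Cases

/-!
# The bound for one cell
-/

set_option autoImplicit false

open Finset Polynomial Polynomial.Bivariate

namespace Pool.Agent.K9h7.SG

/-- For irreducible `G` and `P` not divisible by `G` there are `U`, `V` with
`U G + V P = R(x) ≠ 0`. -/
theorem exists_bezout' {G P : ℤ[X][Y]} (hG : Irreducible G) (hb : G.natDegree ≠ 0)
    (hP : ¬ G ∣ P) : ∃ (U V : ℤ[X][Y]) (R : ℤ[X]), R ≠ 0 ∧ U * G + V * P = C R := by
  set K := FractionRing ℤ[X]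
  set φ := algebraMap ℤ[X] K with hφ
  have hinj : Function.Injective φ := IsFractionRing.injective _ _
  have hirr := map_irred hG hb
  have hnd : ¬ G.map φ ∣ P.map φ := by
    rintro ⟨q, hq⟩
    obtain ⟨d, hd, hd'⟩ := IsLocalization.integerNormalization_spec (nonZeroDivisors ℤ[X]) q
    set Q := IsLocalization.integerNormalization (nonZeroDivisors ℤ[X]) q
    have h1 : C d * P = G * Q := by
      apply map_injective φ hinj
      rw [Polynomial.map_mul, Polynomial.map_mul, map_C, hd', hq]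
      have e2 : d • q = C (φ d) * q := by
        rw [← algebraMap_smul K d q, smul_eq_C_mul]
      rw [e2]; ring
    rcases hG.prime.dvd_or_dvd (Dvd.intro _ h1.symm : G ∣ C d * P) with h2 | h2
    · have hd0 : (C d : ℤ[X][Y]) ≠ 0 := by
        rw [Ne, C_eq_zero]
        exact nonZeroDivisors.ne_zero hd
      have := natDegree_le_of_dvd h2 hd0
      rw [natDegree_C] at this
      omega
    · exact hP h2
  obtain ⟨a, b, hab⟩ := hirr.coprime_iff_not_dvd.2 hnd
  obtain ⟨c, hc, hc'⟩ := IsLocalization.integerNormalization_spec (nonZeroDivisors ℤ[X]) a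
  obtain ⟨d, hd, hd'⟩ := IsLocalization.integerNormalization_spec (nonZeroDivisors ℤ[X]) b
  set U := IsLocalization.integerNormalization (nonZeroDivisors ℤ[X]) a
  set V := IsLocalization.integerNormalization (nonZeroDivisors ℤ[X]) b
  refine ⟨C d * U, C c * V, c * d, ?_, ?_⟩
  · exact mul_ne_zero (nonZeroDivisors.ne_zero hc) (nonZeroDivisors.ne_zero hd)
  · apply map_injective φ hinj
    rw [Polynomial.map_add, Polynomial.map_mul, Polynomial.map_mul, Polynomial.map_mul,
      Polynomial.map_mul, map_C, map_C, map_C, hc', hd']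
    have e1 : c • a = C (φ c) * a := by
      rw [← algebraMap_smul K c a, smul_eq_C_mul]
    have e2 : d • b = C (φ d) * b := by
      rw [← algebraMap_smul K d b, smul_eq_C_mul]
    rw [e1, e2, map_mul, C_mul]
    have : C (φ d) * (C (φ c) * a) * map φ G + C (φ c) * (C (φ d) * b) * (map φ P)
        = C (φ c) * C (φ d) * (a * map φ G + b * map φ P) := by ring
    rw [this, hab, mul_one]

/-- Two curves without common component meet only over a bounded set of `x`. -/
theorem ne_zero_of_not_dvd {G P : ℤ[X][Y]} (hG : Irreducible G) (hb : G.natDegree ≠ 0)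
    (hP : ¬ G ∣ P) : ∃ N : ℕ, ∀ a b : ℤ, (N : ℤ) ≤ |a| → evalEval a b G = 0 →
      evalEval a b P ≠ 0 := by
  obtain ⟨U, V, R, hR, h⟩ := exists_bezout' hG hb hP
  obtain ⟨x0, hx0⟩ := eventually_abs_lt (S := 0) (A := R) (by
    rw [degree_zero]
    exact bot_lt_iff_ne_bot.2 (by rwa [Ne, degree_eq_bot]))
  refine ⟨x0, fun a b ha h1 h2 => ?_⟩
  have h3 := congrArg (evalEval a b) h
  rw [evalEval_add, evalEval_mul, evalEval_mul, h1, h2, mul_zero, mul_zero, add_zero,
    evalEval_C] at h3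
  have h4 := hx0 a ha
  rw [← h3] at h4
  simp at h4

/-- growth of a polynomial -/
theorem growth_bound (P : ℤ[X][Y]) {ν τ : ℝ} (h : ∀ i j, cf P i j ≠ 0 → (i : ℝ) + ν * j ≤ τ) :
    ∃ K : ℝ, 1 ≤ K ∧ ∀ a b : ℕ, 1 ≤ a → (b : ℝ) ≤ (a : ℝ) ^ ν →
      |((evalEval (a : ℤ) (b : ℤ) P : ℤ) : ℝ)| ≤ K * (a : ℝ) ^ τ := by
  refine ⟨1 + ∑ j ∈ range (P.natDegree + 1), ∑ i ∈ range ((P.coeff j).natDegree + 1),
      |(cf P i j : ℝ)|, ?_, fun a b ha hb => ?_⟩
  · have : 0 ≤ ∑ j ∈ range (P.natDegree + 1), ∑ i ∈ range ((P.coeff j).natDegree + 1),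
      |(cf P i j : ℝ)| := Finset.sum_nonneg fun _ _ => Finset.sum_nonneg fun _ _ => abs_nonneg _
    linarith
  · have ha1 : (1 : ℝ) ≤ a := by exact_mod_cast ha
    have ha0 : (0 : ℝ) < a := by linarith
    rw [evalEval_eq]
    push_cast
    have h1 : |∑ j ∈ range (P.natDegree + 1), ∑ i ∈ range ((P.coeff j).natDegree + 1),
        (cf P i j : ℝ) * (a : ℝ) ^ i * (b : ℝ) ^ j| ≤
        (∑ j ∈ range (P.natDegree + 1), ∑ i ∈ range ((P.coeff j).natDegree + 1),
        |(cf P i j : ℝ)|) * (a : ℝ) ^ τ := by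
      rw [Finset.sum_mul]
      refine (Finset.abs_sum_le_sum_abs _ _).trans (Finset.sum_le_sum fun j _ => ?_)
      rw [Finset.sum_mul]
      refine (Finset.abs_sum_le_sum_abs _ _).trans (Finset.sum_le_sum fun i _ => ?_)
      by_cases hc : cf P i j = 0
      · rw [hc]; simp
      · rw [mul_assoc, abs_mul]
        refine mul_le_mul_of_nonneg_left ?_ (abs_nonneg _)
        rw [abs_of_nonneg (by positivity)]
        calc (a : ℝ) ^ i * (b : ℝ) ^ j ≤ (a : ℝ) ^ i * ((a : ℝ) ^ ν) ^ j := by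
              refine mul_le_mul_of_nonneg_left ?_ (by positivity)
              exact pow_le_pow_left₀ (Nat.cast_nonneg b) hb j
          _ = (a : ℝ) ^ ((i : ℝ) + ν * j) := by
              rw [Real.rpow_add ha0, Real.rpow_natCast, Real.rpow_mul ha0.le, Real.rpow_natCast]
          _ ≤ (a : ℝ) ^ τ := Real.rpow_le_rpow_of_exponent_le ha1 (h i j hc)
    have h2 : 0 ≤ (a : ℝ) ^ τ := by positivity
    nlinarith [h1, h2]

theorem lead_weight_pos {G : ℤ[X][Y]} (h0 : G.natDegree ≠ 0) {ν : ℝ} {i0 j0 : ℕ}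
    (hl : IsLead 1 ν G i0 j0) : ν * G.natDegree ≤ (i0 : ℝ) + ν * j0 := by
  have hlc : G.leadingCoeff ≠ 0 := by
    intro h
    rw [leadingCoeff_eq_zero] at h
    apply h0
    rw [h, natDegree_zero]
  have h1 : cf G G.leadingCoeff.natDegree G.natDegree ≠ 0 := by
    unfold cf
    rw [← leadingCoeff]
    exact leadingCoeff_ne_zero.2 hlc
  have h2 := hl.le h1
  have h3 : (0 : ℝ) ≤ (G.leadingCoeff.natDegree : ℝ) := Nat.cast_nonneg _
  linarith

/-- **The bound for one cell.** -/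
theorem cell_bound {G : ℤ[X][Y]} (hG : Irreducible G) (h0 : G.natDegree ≠ 0) {ν : ℝ}
    (hν : 0 < ν) {i0 j0 : ℕ} (hl : IsLead 1 ν G i0 j0) (x0 y0 : ℤ) {ε : ℝ} (hε : 0 < ε) :
    ∃ N : ℕ, ∀ a b D : ℕ, N ≤ a → (b : ℝ) ≤ (a : ℝ) ^ ν → evalEval (a : ℤ) (b : ℤ) G = 0 →
      0 < D → (D : ℤ) ∣ (a : ℤ) - x0 → (D : ℤ) ∣ (b : ℤ) - y0 →
      ((i0 : ℝ) + ν * j0) * Real.log D ≤ (ν * mult x0 y0 G + ε) * Real.log a := by
  classical
  set μ := mult x0 y0 G with hμ
  set w : ℝ := (i0 : ℝ) + ν * j0 with hw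
  have hw0 : 0 < w := by
    have h1 := lead_weight_pos h0 hl
    have h2 : (0 : ℝ) < G.natDegree := by exact_mod_cast Nat.pos_of_ne_zero h0
    have h3 : 0 < ν * G.natDegree := by positivity
    linarith
  set K : ℝ := ν * j0 ^ 2 + j0 + i0 ^ 2 / ν + i0 + i0 * j0 + 1 + w ^ 2 / ν with hK
  have hK0 : 0 < K := by positivity
  obtain ⟨m, hm⟩ := exists_nat_gt (2 * (ν * K) / ε)
  have hm0 : (0 : ℝ) < m := lt_of_le_of_lt (by positivity) hm
  have hm1 : 1 ≤ m := by
    have : 0 < m := by exact_mod_cast hm0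
    omega
  set τ : ℝ := ν * (m * μ + K) / w with hτ
  have hτw : w ≤ τ := by
    rw [hτ, le_div_iff₀ hw0]
    have h1 : (0 : ℝ) ≤ m * μ := by positivity
    have h2 : w ^ 2 / ν ≤ m * μ + K := by
      have : 0 ≤ ν * (j0 : ℝ) ^ 2 + j0 + i0 ^ 2 / ν + i0 + i0 * j0 + 1 := by positivity
      linarith
    rw [div_le_iff₀ hν] at h2
    nlinarith
  set L1 := ⌊τ - ν * j0⌋₊ with hL1
  set L2 := ⌊(τ - i0) / ν⌋₊ with hL2
  have hj0' : (j0 : ℝ) ≤ (τ - i0) / ν := by
    rw [le_div_iff₀ hν]; linarith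
  have hL2j : j0 ≤ L2 := Nat.le_floor hj0'
  have hL1a : (L1 : ℝ) ≤ τ - ν * j0 := Nat.floor_le (by
    have : (0 : ℝ) ≤ i0 := Nat.cast_nonneg _
    linarith)
  have hL1b : τ - ν * j0 - 1 < L1 := Nat.sub_one_lt_floor _
  have hL2a : (L2 : ℝ) ≤ (τ - i0) / ν := Nat.floor_le (by
    have : (0 : ℝ) ≤ j0 := Nat.cast_nonneg _
    linarith)
  have hL2b : (τ - i0) / ν - 1 < L2 := Nat.sub_one_lt_floor _
  set S : Finset (ℕ × ℕ) := (range L1 ×ˢ range j0) ∪ (range i0 ×ˢ Ico j0 L2) with hS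
  have hSw : ∀ i j, (i, j) ∈ S → (i : ℝ) + ν * j ≤ τ := by
    intro i j hij
    rw [hS, mem_union, mem_product, mem_product, mem_range, mem_range, mem_range, mem_Ico] at hij
    rcases hij with ⟨h1, h2⟩ | ⟨h1, -, h2⟩
    · have a1 : (i : ℝ) ≤ L1 := by exact_mod_cast h1.le
      have a2 : (j : ℝ) ≤ j0 := by exact_mod_cast h2.le
      nlinarith
    · have a1 : (i : ℝ) ≤ i0 := by exact_mod_cast h1.le
      have a2 : (j : ℝ) ≤ L2 := by exact_mod_cast h2.le
      have a3 : ν * L2 ≤ τ - i0 := by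
        have := mul_le_mul_of_nonneg_left hL2a hν.le
        rwa [mul_div_cancel₀ _ hν.ne'] at this
      nlinarith
  have hScard : (m * μ : ℕ) < S.card := by
    rw [hS, card_union_of_disjoint, card_product, card_product, card_range, card_range, card_range,
      Nat.card_Ico]
    · have h1 : ((m * μ : ℕ) : ℝ) < ((L1 * j0 + i0 * (L2 - j0) : ℕ) : ℝ) := by
        push_cast [Nat.cast_sub hL2j]
        have h2 : τ * w = ν * (m * μ + K) := by
          rw [hτ, div_mul_cancel₀ _ hw0.ne']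
        have h3 : (τ - ν * j0 - 1) * j0 ≤ L1 * j0 :=
          mul_le_mul_of_nonneg_right hL1b.le (Nat.cast_nonneg _)
        have h4 : (i0 : ℝ) * ((τ - i0) / ν - 1 - j0) ≤ i0 * (L2 - j0) :=
          mul_le_mul_of_nonneg_left (by linarith) (Nat.cast_nonneg _)
        have h5 : (τ - ν * j0 - 1) * j0 + (i0 : ℝ) * ((τ - i0) / ν - 1 - j0) =
            τ * w / ν - (ν * j0 ^ 2 + j0 + i0 ^ 2 / ν + i0 + i0 * j0) := by
          rw [hw]
          field_simp
          ring
        have h6 : τ * w / ν = m * μ + K := by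
          rw [h2, mul_comm ν, mul_div_assoc, div_self hν.ne', mul_one]
        have h7 : 0 ≤ w ^ 2 / ν := by positivity
        linarith
      exact_mod_cast h1
    · rw [Finset.disjoint_left]
      rintro ⟨i, j⟩ h1 h2
      rw [mem_product, mem_range, mem_range] at h1
      rw [mem_product, mem_Ico] at h2
      simp only at h1 h2
      omega
  obtain ⟨c, hc, H, hH⟩ := exists_aux hG.ne_zero x0 y0 m hm1 S hScard
  have hP0 := bip_ne_zero hc
  have hPd : ¬ G ∣ bip S c := by
    refine not_dvd_of_support (by norm_num) hl hP0 fun i j hi hj => ?_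
    refine cf_bip_of_notMem fun hmem => ?_
    rw [hS, mem_union, mem_product, mem_product, mem_range, mem_range, mem_range, mem_Ico] at hmem
    simp only at hmem
    omega
  obtain ⟨N1, hN1⟩ := ne_zero_of_not_dvd hG h0 hPd
  obtain ⟨B, hB1, hB⟩ := growth_bound (bip S c) (ν := ν) (τ := τ) (by
    intro i j hij
    refine hSw i j ?_
    by_contra hn
    exact hij (cf_bip_of_notMem hn))
  obtain ⟨N2, hN2⟩ := exists_nat_gt (Real.exp (2 * (w * Real.log B) / ε))
  refine ⟨max (max N1 N2) 1, fun a b D ha hb hab hD h1 h2 => ?_⟩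
  have ha1 : N1 ≤ a := le_trans (le_trans (le_max_left _ _) (le_max_left _ _)) ha
  have ha2 : N2 ≤ a := le_trans (le_trans (le_max_right _ _) (le_max_left _ _)) ha
  have ha3 : 1 ≤ a := le_trans (le_max_right _ _) ha
  have haR : (0 : ℝ) < a := by exact_mod_cast ha3
  have hne := hN1 (a : ℤ) (b : ℤ) (by rw [Nat.abs_cast]; exact_mod_cast ha1) hab
  have hdvd : (D : ℤ) ^ m ∣ evalEval (a : ℤ) (b : ℤ) (bip S c) := by
    have h3 := dvd_evalEval hH h1 h2
    rwa [evalEval_add, evalEval_mul, sh_eval, sh_eval, hab, zero_mul, add_zero] at h3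
  have hle : ((D : ℝ)) ^ m ≤ |((evalEval (a : ℤ) (b : ℤ) (bip S c) : ℤ) : ℝ)| := by
    have h3 := Int.le_of_dvd (abs_pos.2 hne) ((dvd_abs _ _).2 hdvd)
    exact_mod_cast h3
  have hD' : (0 : ℝ) < D := by exact_mod_cast hD
  have hle2 : ((D : ℝ)) ^ m ≤ B * (a : ℝ) ^ τ := hle.trans (hB a b ha3 hb)
  have hlog := Real.log_le_log (by positivity) hle2
  rw [Real.log_pow, Real.log_mul (by linarith) (by positivity), Real.log_rpow haR] at hlog
  have hla : 2 * (w * Real.log B) / ε ≤ Real.log a := by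
    rw [Real.le_log_iff_exp_le haR]
    have : (N2 : ℝ) ≤ a := by exact_mod_cast ha2
    linarith
  have hla0 : 0 ≤ Real.log a := Real.log_nonneg (by exact_mod_cast ha3)
  have hlB : 0 ≤ Real.log B := Real.log_nonneg hB1
  -- multiply by `w / m`
  have h5 : m * (w * Real.log D) ≤ w * Real.log B + ν * (m * μ + K) * Real.log a := by
    have h6 := mul_le_mul_of_nonneg_left hlog hw0.le
    have h7 : w * τ = ν * (m * μ + K) := by
      rw [hτ, mul_div_cancel₀ _ hw0.ne']
    calc m * (w * Real.log D) = w * (m * Real.log D) := by ring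
      _ ≤ w * (Real.log B + τ * Real.log a) := h6
      _ = w * Real.log B + (w * τ) * Real.log a := by ring
      _ = _ := by rw [h7]
  have h8 : w * Real.log B ≤ m * (ε / 2 * Real.log a) := by
    rw [div_le_iff₀ hε] at hla
    have h9 : ε / 2 * Real.log a ≤ m * (ε / 2 * Real.log a) :=
      le_mul_of_one_le_left (by positivity) (by exact_mod_cast hm1)
    linarith
  have h11 : ν * K ≤ m * (ε / 2) := by
    rw [div_lt_iff₀ hε] at hm
    linarith
  have h12 : ν * K * Real.log a ≤ m * (ε / 2) * Real.log a :=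
    mul_le_mul_of_nonneg_right h11 hla0
  have h13 : m * (w * Real.log D) ≤ m * ((ν * μ + ε) * Real.log a) := by
    have e1 : ν * (m * μ + K) * Real.log a = m * (ν * μ * Real.log a) + ν * K * Real.log a := by
      ring
    have e2 : m * ((ν * μ + ε) * Real.log a) = m * (ν * μ * Real.log a) +
        m * (ε / 2) * Real.log a + m * (ε / 2 * Real.log a) := by ring
    rw [e2]
    rw [e1] at h5
    linarith
  exact le_of_mul_le_mul_left h13 hm0

end Pool.Agent.K9h7.SG
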