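import Pool.Agent.K9h7.SG.Cells

/-!
# Steiner systems with large strength and large `q - r` have more than `(q - r) ^ K` points
-/

set_option autoImplicit false

open Finset Polynomial Polynomial.Bivariate

namespace Pool.Agent.K9h7.SG

open Pool.Agent.R60.Steiner

theorem noCarry_of_steiner {n q r : ℕ} (hrq : r ≤ q) (hqn : q ≤ n)
    (h : ∃ B : Finset (Finset (Fin n)), IsSteiner n q r B) : NoCarry (q - r) (n - q) r := by
  obtain ⟨B, hB⟩ := h
  exact noCarry_of_red ((divCond_iff_red hrq hqn).1 (divCond_of_isSteiner (hrq.trans hqn) hB))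

/-- An irreducible polynomial of degree at least two in `Y` misses the lattice points of some
row. -/
theorem misses_row {G : ℤ[X][Y]} (hG : Irreducible G) (h2 : 2 ≤ G.natDegree) :
    ∃ k : ℕ, 1 ≤ k ∧ ∀ i : ℕ, i < k → evalEval (-(k : ℤ)) (i : ℤ) G ≠ 0 := by
  by_contra hcon
  push Not at hcon
  obtain ⟨C, c, hC, hc, hc1, hcount⟩ := curve_count hG h2 1 le_rfl
  have h1 : Filter.Tendsto (fun n : ℕ => ((n : ℝ)) ^ c) Filter.atTop Filter.atTop :=
    (tendsto_rpow_atTop hc).comp tendsto_natCast_atTop_atTop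
  obtain ⟨N, hN, hN1⟩ := ((h1.eventually_gt_atTop C).and (Filter.eventually_ge_atTop 1)).exists
  have h3 := hcount N hN1 ((Icc 1 N).image fun k : ℕ => -(k : ℤ)) (by
    intro x hx
    rw [mem_image] at hx
    obtain ⟨k, hk, rfl⟩ := hx
    rw [mem_Icc] at hk
    refine ⟨by rw [abs_neg, Nat.abs_cast]; exact_mod_cast hk.2, ?_⟩
    obtain ⟨i, hi, hi0⟩ := hcon k hk.1
    refine ⟨i, ?_, hi0⟩
    rw [Nat.abs_cast, pow_one]
    exact_mod_cast (by omega : i ≤ N))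
  rw [card_image_of_injective _ (by intro a b h; simpa using h), Nat.card_Icc,
    Nat.add_sub_cancel] at h3
  have hN0 : (0 : ℝ) < N := by exact_mod_cast hN1
  have h4 : (N : ℝ) = (N : ℝ) ^ (1 - c) * (N : ℝ) ^ c := by
    rw [← Real.rpow_add hN0]; simp
  have h5 : (0 : ℝ) < (N : ℝ) ^ (1 - c) := Real.rpow_pos_of_pos hN0 _
  have h6 : C * (N : ℝ) ^ (1 - c) < (N : ℝ) ^ (1 - c) * (N : ℝ) ^ c := by
    rw [mul_comm C]
    exact mul_lt_mul_of_pos_left hN h5
  linarith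

/-- The linear case of the classification. -/
theorem linear_contra {G : ℤ[X][Y]} {d : ℤ} (hd : d ≠ 0) {Q : ℤ[X]} {R : ℕ} (hR : 2 ≤ R)
    (hQ : ∀ x y : ℤ, evalEval x y G = 0 → Q.eval x = d * y)
    (hdeg : Q.natDegree ≤ 1 ∨ 3 * (Q.natDegree - 1) + 2 ≤ R)
    (hrow : ∀ k : ℕ, 1 ≤ k → k ≤ R → ∃ i : ℕ, i < k ∧ evalEval (-(k : ℤ)) (i : ℤ) G = 0)
    {a b : ℕ} (hb : 0 < b) (hab : evalEval (a : ℤ) (b : ℤ) G = 0) : False := by
  have h1 := class_small hd Q R hR (fun k hk hkR => by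
    obtain ⟨i, hi, h0⟩ := hrow k hk hkR
    exact ⟨i, hi, hQ _ _ h0⟩) hdeg
  have h2 := hQ _ _ hab
  rcases h1 with h | h
  · rw [h, eval_zero] at h2
    have := (mul_eq_zero.1 h2.symm).resolve_left hd
    have : b = 0 := by exact_mod_cast this
    omega
  · rw [h] at h2
    simp only [eval_mul, eval_neg, eval_C, eval_add, eval_X, eval_one] at h2
    have h3 : d * ((b : ℤ) + (a + 1)) = 0 := by linarith
    have := (mul_eq_zero.1 h3).resolve_left hd
    omega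

/-- A fixed irreducible polynomial does not vanish at `(a, b)` if `a` and the number of rows
are large. -/
theorem kill {G : ℤ[X][Y]} (hG : Irreducible G) : ∃ N : ℕ, ∀ a b r : ℕ, N ≤ a → N ≤ r →
    NoCarry a b r → 0 < b → evalEval (a : ℤ) (b : ℤ) G ≠ 0 := by
  by_cases hrows : ∃ k : ℕ, 1 ≤ k ∧ ∀ i : ℕ, i < k → evalEval (-(k : ℤ)) (i : ℤ) G ≠ 0
  · obtain ⟨k, hk, hrow⟩ := hrows
    refine ⟨k + k.factorial * ∏ i ∈ range k, (evalEval (-(k : ℤ)) (i : ℤ) G).natAbs, ?_⟩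
    intro a b r ha hr hnc hb h0
    have := row_bound hnc hk (by omega) h0 hrow
    omega
  · rcases irr_cases hG with ⟨x0, hx0⟩ | ⟨d, hd, Q, hQ⟩ | h2
    · refine ⟨x0, fun a b r ha hr hnc hb => hx0 a b ?_⟩
      rw [Nat.abs_cast]; exact_mod_cast ha
    · push Not at hrows
      refine ⟨0, fun a b r ha hr hnc hb h0 => ?_⟩
      exact linear_contra hd (R := 3 * (Q.natDegree - 1) + 2) (by omega) hQ (Or.inr le_rfl)
        (fun k hk _ => hrows k hk) hb h0
    · exact absurd (misses_row hG h2) hrows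

theorem noCarry_of_div {n q r : ℕ} (hrq : r ≤ q) (hqn : q ≤ n) (h : DivCond n q r) :
    NoCarry (q - r) (n - q) r :=
  noCarry_of_red ((divCond_iff_red hrq hqn).1 h)

theorem omega_div (K : ℕ) : ∃ N : ℕ, ∀ n q r : ℕ, N ≤ r → r + N ≤ q → q < n →
    DivCond n q r → (q - r) ^ K < n := by
  obtain ⟨R, hR⟩ : ∃ R : ℕ, (K : ℝ) + 2 ≤ harmonic R := by
    refine ⟨⌈Real.exp (K + 2)⌉₊, ?_⟩
    refine le_trans ?_ (log_add_one_le_harmonic _)
    rw [← Real.log_exp ((K : ℝ) + 2)]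
    refine Real.log_le_log (Real.exp_pos _) ?_
    rw [Real.log_exp]
    have := Nat.le_ceil (Real.exp ((K : ℝ) + 2))
    push_cast
    linarith
  obtain ⟨𝓖, a0, hG, hcore⟩ := core R ((K : ℝ) + 1) 1 (by positivity) one_pos (by linarith)
  have hk : ∀ G : ℤ[X][Y], ∃ N : ℕ, G ∈ 𝓖 → ∀ a b r : ℕ, N ≤ a → N ≤ r →
      NoCarry a b r → 0 < b → evalEval (a : ℤ) (b : ℤ) G ≠ 0 := by
    intro G
    by_cases h : G ∈ 𝓖
    · obtain ⟨N, hN⟩ := kill (hG G h)
      exact ⟨N, fun _ => hN⟩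
    · exact ⟨0, fun h' => absurd h' h⟩
  choose Nf hNf using hk
  refine ⟨max (max a0 R) (max 1 (𝓖.sup Nf)), ?_⟩
  intro n q r hr hq hqn hS
  by_contra hcon
  push Not at hcon
  have hnc := noCarry_of_div (by omega) hqn.le hS
  have e1 : a0 ≤ q - r := by
    have : a0 ≤ max (max a0 R) (max 1 (𝓖.sup Nf)) := (le_max_left _ _).trans (le_max_left _ _)
    omega
  have e2 : R ≤ r := ((le_max_right _ _).trans (le_max_left _ _)).trans hr
  have e3 : 1 ≤ q - r := by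
    have : 1 ≤ max (max a0 R) (max 1 (𝓖.sup Nf)) := (le_max_left _ _).trans (le_max_right _ _)
    omega
  have hb : ((n - q : ℕ) : ℝ) ≤ ((q - r : ℕ) : ℝ) ^ ((K : ℝ) + 1) := by
    have h1 : n - q ≤ (q - r) ^ (K + 1) := by
      calc n - q ≤ n := Nat.sub_le _ _
        _ ≤ (q - r) ^ K := hcon
        _ ≤ (q - r) ^ (K + 1) := Nat.pow_le_pow_right e3 (by omega)
    calc ((n - q : ℕ) : ℝ) ≤ (((q - r) ^ (K + 1) : ℕ) : ℝ) := by exact_mod_cast h1
      _ = ((q - r : ℕ) : ℝ) ^ ((K : ℝ) + 1) := by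
        rw [Nat.cast_pow]
        have : ((K : ℝ) + 1) = ((K + 1 : ℕ) : ℝ) := by push_cast; rfl
        rw [this, Real.rpow_natCast]
  obtain ⟨G, hGm, hG0⟩ := hcore (q - r) (n - q) r e1 e2 hnc hb
  have e4 : Nf G ≤ 𝓖.sup Nf := Finset.le_sup hGm
  have e5 : 𝓖.sup Nf ≤ max (max a0 R) (max 1 (𝓖.sup Nf)) :=
    (le_max_right _ _).trans (le_max_right _ _)
  exact hNf G hGm (q - r) (n - q) r (by omega) (by omega) hnc (by omega) hG0

end Pool.Agent.K9h7.SG
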