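import Pool.Agent.K9h7.SG.Harm3
import Pool.Agent.K9h7.SG.Omega

/-!
# The rows of an extremal curve
-/

set_option autoImplicit false

open Finset Polynomial Polynomial.Bivariate

namespace Pool.Agent.K9h7.SG

open Pool.Agent.R60.Steiner

/-- the polynomial `F(x0, Y)` -/
noncomputable def rowp (x0 : ℤ) (F : ℤ[X][Y]) : ℤ[X] := F.map (evalRingHom x0)

theorem rowp_coeff (x0 : ℤ) (F : ℤ[X][Y]) (j : ℕ) : (rowp x0 F).coeff j = (F.coeff j).eval x0 := by
  unfold rowp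
  rw [coeff_map, coe_evalRingHom]

theorem rowp_natDegree_le (x0 : ℤ) (F : ℤ[X][Y]) : (rowp x0 F).natDegree ≤ F.natDegree :=
  natDegree_map_le

theorem sh_row (x0 y0 : ℤ) (F : ℤ[X][Y]) :
    (sh x0 y0 F).map (evalRingHom 0) = taylor y0 (rowp x0 F) := by
  rw [sh_apply, taylor_apply, taylor_apply, Polynomial.map_comp, Polynomial.map_map]
  congr 1
  · unfold rowp
    congr 1
    apply Polynomial.ringHom_ext'
    · exact RingHom.ext_int _ _
    · simp
  · simp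

theorem pow_mult_dvd_rowp (x0 y0 : ℤ) (F : ℤ[X][Y]) :
    (X - C y0) ^ mult x0 y0 F ∣ rowp x0 F := by
  have h1 : X ^ mult x0 y0 F ∣ taylor y0 (rowp x0 F) := by
    rw [X_pow_dvd_iff]
    intro d hd
    rw [← sh_row, coeff_map, coe_evalRingHom, ← coeff_zero_eq_eval_zero]
    exact cf_of_lt_mult (by omega)
  obtain ⟨Q, hQ⟩ := h1
  refine ⟨taylor (-y0) Q, ?_⟩
  have h2 := congrArg (taylor (-y0)) hQ
  rw [taylor_taylor, neg_add_cancel, taylor_zero, taylor_mul, taylor_X_pow] at h2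
  rw [h2, C_neg, sub_eq_add_neg]

theorem rowp_ne_zero {G : ℤ[X][Y]} (hG : Irreducible G) (h0 : G.natDegree ≠ 0) (x0 : ℤ) :
    rowp x0 G ≠ 0 := by
  intro h
  have h1 : C (X - C x0) ∣ G := by
    rw [C_dvd_iff_dvd_coeff]
    intro j
    rw [dvd_iff_isRoot, IsRoot.def, ← rowp_coeff, h, coeff_zero]
  have h2 : IsUnit (X - C x0 : ℤ[X]) := (hG.isPrimitive h0) _ h1
  have h3 := natDegree_eq_zero_of_isUnit h2
  rw [natDegree_X_sub_C] at h3
  omega

/-- the row polynomial over the rational numbers -/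
noncomputable def rowq (x0 : ℤ) (F : ℤ[X][Y]) : ℚ[X] := (rowp x0 F).map (Int.castRingHom ℚ)

theorem rowq_ne_zero {G : ℤ[X][Y]} (hG : Irreducible G) (h0 : G.natDegree ≠ 0) (x0 : ℤ) :
    rowq x0 G ≠ 0 := by
  unfold rowq
  rw [Ne, Polynomial.map_eq_zero_iff Int.cast_injective]
  exact rowp_ne_zero hG h0 x0

/-- the product of the known factors of the row polynomial -/
noncomputable def rprod (k : ℕ) (μ : ℕ → ℕ) : ℚ[X] := ∏ i ∈ range k, (X - C (i : ℚ)) ^ μ i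

theorem rprod_monic (k : ℕ) (μ : ℕ → ℕ) : (rprod k μ).Monic :=
  monic_prod_of_monic _ _ fun _ _ => (monic_X_sub_C _).pow _

theorem rprod_natDegree (k : ℕ) (μ : ℕ → ℕ) : (rprod k μ).natDegree = ∑ i ∈ range k, μ i := by
  unfold rprod
  rw [natDegree_prod_of_monic _ _ fun _ _ => (monic_X_sub_C _).pow _]
  refine Finset.sum_congr rfl fun i _ => ?_
  rw [natDegree_pow, natDegree_X_sub_C, mul_one]

theorem rprod_dvd (x0 : ℤ) (F : ℤ[X][Y]) (k : ℕ) :
    rprod k (fun i => mult x0 i F) ∣ rowq x0 F := by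
  unfold rprod
  refine Finset.prod_dvd_of_coprime ?_ ?_
  · intro i _ j _ hij
    refine IsCoprime.pow ?_
    exact pairwise_coprime_X_sub_C (s := fun i : ℕ => (i : ℚ)) Nat.cast_injective hij
  · intro i _
    have h1 := Polynomial.map_dvd (Int.castRingHom ℚ) (pow_mult_dvd_rowp x0 (i : ℤ) F)
    rw [Polynomial.map_pow, Polynomial.map_sub, map_X, map_C] at h1
    unfold rowq
    simpa using h1

theorem sum_mult_le {G : ℤ[X][Y]} (hG : Irreducible G) (h0 : G.natDegree ≠ 0) (x0 : ℤ) (k : ℕ) :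
    ∑ i ∈ range k, mult x0 i G ≤ G.natDegree := by
  have h1 := natDegree_le_of_dvd (rprod_dvd x0 G k) (rowq_ne_zero hG h0 x0)
  rw [rprod_natDegree] at h1
  refine h1.trans ?_
  unfold rowq
  exact natDegree_map_le.trans (rowp_natDegree_le _ _)

theorem rowq_eq {G : ℤ[X][Y]} (hG : Irreducible G) (h0 : G.natDegree ≠ 0) (x0 : ℤ) (k : ℕ)
    (h : ∑ i ∈ range k, mult x0 i G = G.natDegree) :
    rowq x0 G = C ((G.leadingCoeff.eval x0 : ℤ) : ℚ) * rprod k (fun i => mult x0 i G) := by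
  obtain ⟨Q, hQ⟩ := rprod_dvd x0 G k
  have hne := rowq_ne_zero hG h0 x0
  have hQ0 : Q ≠ 0 := by
    rintro rfl
    rw [mul_zero] at hQ
    exact hne hQ
  have h1 : (rowq x0 G).natDegree ≤ G.natDegree := by
    unfold rowq
    exact natDegree_map_le.trans (rowp_natDegree_le _ _)
  have h2 := congrArg natDegree hQ
  rw [(rprod_monic _ _).natDegree_mul' hQ0, rprod_natDegree, h] at h2
  have h3 : Q.natDegree = 0 := by omega
  rw [eq_C_of_natDegree_eq_zero h3] at hQ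
  have h4 : (rowq x0 G).coeff G.natDegree =
      (rprod k (fun i => mult x0 i G) * C (Q.coeff 0)).coeff G.natDegree := by rw [← hQ]
  rw [coeff_mul_C] at h4
  have h5 : (rprod k fun i => mult x0 (i : ℤ) G).coeff G.natDegree = 1 := by
    have := (rprod_monic k fun i => mult x0 (i : ℤ) G).coeff_natDegree
    rwa [rprod_natDegree, h] at this
  rw [h5, one_mul] at h4
  rw [hQ, mul_comm, ← h4]
  congr 2
  unfold rowq
  rw [coeff_map, rowp_coeff]
  rfl

/-- There are points on the curve with arbitrarily large `a`. -/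
def Rich (R : ℕ) (ν : ℝ) (G : ℤ[X][Y]) : Prop := ∀ N : ℕ, ∃ a b r : ℕ, N ≤ a ∧ R ≤ r ∧
  NoCarry a b r ∧ 0 < b ∧ (b : ℝ) ≤ (a : ℝ) ^ ν ∧ evalEval (a : ℤ) (b : ℤ) G = 0

/-- the bounds for all cells together -/
theorem cells_bound {G : ℤ[X][Y]} (hG : Irreducible G) (h0 : G.natDegree ≠ 0) {ν : ℝ}
    (hν : 0 < ν) {i0 j0 : ℕ} (hl : IsLead 1 ν G i0 j0) (R : ℕ) {ε : ℝ} (hε : 0 < ε) :
    ∃ N : ℕ, ∀ a b : ℕ, N ≤ a → (b : ℝ) ≤ (a : ℝ) ^ ν → evalEval (a : ℤ) (b : ℤ) G = 0 →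
      ∀ k i : ℕ, 1 ≤ k → k ≤ R → i < k →
      ((i0 : ℝ) + ν * j0) * Real.log (cellD R a b k i) ≤
        (ν * mult (-(k : ℤ)) i G + ε) * Real.log a := by
  have h : ∀ k i : ℕ, ∃ N : ℕ, ∀ a b D : ℕ, N ≤ a → (b : ℝ) ≤ (a : ℝ) ^ ν →
      evalEval (a : ℤ) (b : ℤ) G = 0 → 0 < D → (D : ℤ) ∣ (a : ℤ) - (-(k : ℤ)) →
      (D : ℤ) ∣ (b : ℤ) - i →
      ((i0 : ℝ) + ν * j0) * Real.log D ≤ (ν * mult (-(k : ℤ)) i G + ε) * Real.log a :=
    fun k i => cell_bound hG h0 hν hl _ _ hε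
  choose N hN using h
  refine ⟨∑ k ∈ range (R + 1), ∑ i ∈ range R, N k i, fun a b ha hb hab k i hk hkR hi => ?_⟩
  refine hN k i a b (cellD R a b k i) ?_ hb hab (cellD_pos _ _ _ _ _) ?_ (cellD_dvd_sub _ _ _ _ _)
  · refine le_trans ?_ ha
    have h1 : N k i ≤ ∑ i ∈ range R, N k i :=
      Finset.single_le_sum (f := fun i => N k i) (fun _ _ => Nat.zero_le _)
        (mem_range.2 (by omega : i < R))
    exact h1.trans (Finset.single_le_sum (f := fun k => ∑ i ∈ range R, N k i)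
      (fun _ _ => Nat.zero_le _) (mem_range.2 (by omega : k < R + 1)))
  · rw [sub_neg_eq_add]
    exact_mod_cast cellD_dvd (R := R) (a := a) (b := b) (k := k) (i := i) (by omega)

theorem log_le_cells {R a b r k : ℕ} (hnc : NoCarry a b r) (hk : 1 ≤ k) (hkR : k ≤ R)
    (hRr : R ≤ r) (ha : 1 ≤ a) : Real.log a ≤ Real.log R.factorial +
      ∑ i ∈ range k, Real.log (cellD R a b k i) := by
  have hle := le_prod_cellD hnc hk hkR hRr
  have h1 : (a : ℝ) ≤ (R.factorial : ℝ) * ∏ i ∈ range k, (cellD R a b k i : ℝ) := by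
    have : a ≤ R.factorial * ∏ i ∈ range k, cellD R a b k i := by omega
    exact_mod_cast this
  have h2 := Real.log_le_log (by positivity) h1
  rwa [Real.log_mul (by exact_mod_cast (Nat.factorial_ne_zero R)) (by
    rw [Finset.prod_ne_zero_iff]
    intro i _
    exact_mod_cast (cellD_pos _ _ _ _ _).ne'), Real.log_prod (fun i _ => by
      exact_mod_cast (cellD_pos _ _ _ _ _).ne')] at h2

end Pool.Agent.K9h7.SG
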