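import Pool.Agent.K9h7.SG.Harm4

/-!
# The structure of an extremal curve
-/

set_option autoImplicit false

open Finset Polynomial Polynomial.Bivariate

namespace Pool.Agent.K9h7.SG

open Pool.Agent.R60.Steiner

/-- points with all bounds -/
theorem rich_point {G : ℤ[X][Y]} (hG : Irreducible G) (h0 : G.natDegree ≠ 0) {ν : ℝ}
    (hν : 0 < ν) {R : ℕ} (hr : Rich R ν G) {i0 j0 : ℕ} (hl : IsLead 1 ν G i0 j0)
    {η : ℝ} (hη : 0 < η) (N : ℕ) :
    ∃ a b : ℕ, N ≤ a ∧ 2 ≤ a ∧ 0 < b ∧ (b : ℝ) ≤ (a : ℝ) ^ ν ∧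
      evalEval (a : ℤ) (b : ℤ) G = 0 ∧ ∀ k : ℕ, 1 ≤ k → k ≤ R →
      (1 - η) * Real.log a ≤ ∑ i ∈ range k, Real.log (cellD R a b k i) ∧
      ∀ i : ℕ, i < k → ((i0 : ℝ) + ν * j0) * Real.log (cellD R a b k i) ≤
        (ν * mult (-(k : ℤ)) i G + η) * Real.log a := by
  obtain ⟨N1, hN1⟩ := cells_bound hG h0 hν hl R hη
  obtain ⟨N2, hN2⟩ := exists_nat_gt (Real.exp (Real.log R.factorial / η))
  obtain ⟨a, b, r, ha, hRr, hnc, hb0, hb, hab⟩ := hr (max (max N N1) (max N2 2))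
  have e1 : N ≤ a := (le_max_left _ _).trans ((le_max_left _ _).trans ha)
  have e2 : N1 ≤ a := (le_max_right _ _).trans ((le_max_left _ _).trans ha)
  have e3 : N2 ≤ a := (le_max_left _ _).trans ((le_max_right _ _).trans ha)
  have e4 : 2 ≤ a := (le_max_right _ _).trans ((le_max_right _ _).trans ha)
  have haR : (0 : ℝ) < a := by exact_mod_cast (by omega : 0 < a)
  refine ⟨a, b, e1, e4, hb0, hb, hab, fun k hk hkR => ⟨?_, fun i hi => hN1 a b e2 hb hab k i hk hkR hi⟩⟩
  have h1 := log_le_cells hnc hk hkR hRr (by omega)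
  have h2 : Real.log R.factorial / η ≤ Real.log a := by
    rw [Real.le_log_iff_exp_le haR]
    have : (N2 : ℝ) ≤ a := by exact_mod_cast e3
    linarith
  rw [div_le_iff₀ hη] at h2
  linarith

theorem rich_ineq {G : ℤ[X][Y]} (hG : Irreducible G) (h0 : G.natDegree ≠ 0) {ν : ℝ}
    (hν : 0 < ν) {R : ℕ} (hr : Rich R ν G) {i0 j0 : ℕ} (hl : IsLead 1 ν G i0 j0)
    {k : ℕ} (hk : 1 ≤ k) (hkR : k ≤ R) {η : ℝ} (hη : 0 < η) :
    (i0 : ℝ) + ν * j0 ≤ ν * (∑ i ∈ range k, mult (-(k : ℤ)) i G : ℕ) +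
      ((i0 : ℝ) + ν * j0 + R) * η := by
  obtain ⟨a, b, -, ha, -, -, -, h⟩ := rich_point hG h0 hν hr hl hη 0
  obtain ⟨h1, h2⟩ := h k hk hkR
  set w := (i0 : ℝ) + ν * j0 with hw
  have hw0 : 0 ≤ w := by positivity
  have hL : 0 < Real.log a := Real.log_pos (by exact_mod_cast (by omega : 1 < a))
  have h3 : w * ((1 - η) * Real.log a) ≤ (ν * (∑ i ∈ range k, mult (-(k : ℤ)) i G : ℕ) + k * η) *
      Real.log a := by
    refine (mul_le_mul_of_nonneg_left h1 hw0).trans ?_
    rw [Finset.mul_sum]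
    refine (Finset.sum_le_sum fun i hi => h2 i (mem_range.1 hi)).trans (le_of_eq ?_)
    rw [← Finset.sum_mul, Finset.sum_add_distrib, ← Finset.mul_sum, Finset.sum_const, card_range]
    push_cast
    ring
  have h4 : w * (1 - η) ≤ ν * (∑ i ∈ range k, mult (-(k : ℤ)) i G : ℕ) + k * η := by
    rw [← mul_assoc] at h3
    exact le_of_mul_le_mul_right h3 hL
  have h5 : (k : ℝ) * η ≤ R * η := mul_le_mul_of_nonneg_right (by exact_mod_cast hkR) hη.le
  linarith

theorem rich_weight {G : ℤ[X][Y]} (hG : Irreducible G) (h0 : G.natDegree ≠ 0) {ν : ℝ}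
    (hν : 0 < ν) {R : ℕ} (hr : Rich R ν G) {i0 j0 : ℕ} (hl : IsLead 1 ν G i0 j0)
    {k : ℕ} (hk : 1 ≤ k) (hkR : k ≤ R) :
    (i0 : ℝ) + ν * j0 = ν * G.natDegree ∧ ∑ i ∈ range k, mult (-(k : ℤ)) i G = G.natDegree := by
  set w := (i0 : ℝ) + ν * j0 with hw
  have hw0 : 0 ≤ w := by positivity
  have hwR : 0 < w + R := by
    have : (1 : ℝ) ≤ R := by exact_mod_cast (by omega : 1 ≤ R)
    linarith
  have h1 : w ≤ ν * (∑ i ∈ range k, mult (-(k : ℤ)) i G : ℕ) := by
    refine le_of_forall_pos_le_add fun e he => ?_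
    have h2 := rich_ineq hG h0 hν hr hl hk hkR (η := e / (w + R)) (by positivity)
    rwa [mul_div_cancel₀ _ hwR.ne'] at h2
  have h2 := sum_mult_le hG h0 (-(k : ℤ)) k
  have h3 := lead_weight_pos h0 hl
  have h4 : (((∑ i ∈ range k, mult (-(k : ℤ)) i G : ℕ)) : ℝ) ≤ G.natDegree := by exact_mod_cast h2
  have h5 : ν * (∑ i ∈ range k, mult (-(k : ℤ)) i G : ℕ) ≤ ν * G.natDegree :=
    mul_le_mul_of_nonneg_left h4 hν.le
  refine ⟨by linarith, ?_⟩
  have h6 : ν * (G.natDegree : ℝ) ≤ ν * (∑ i ∈ range k, mult (-(k : ℤ)) i G : ℕ) := by linarith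
  have h7 := le_of_mul_le_mul_left h6 hν
  have h8 : G.natDegree ≤ ∑ i ∈ range k, mult (-(k : ℤ)) i G := by exact_mod_cast h7
  omega

/-- **The structure of a curve with points for arbitrarily large `a`.** -/
theorem rich_structure {G : ℤ[X][Y]} (hG : Irreducible G) (h0 : G.natDegree ≠ 0) {ν : ℝ}
    (hν : 0 < ν) {R : ℕ} (hR : 1 ≤ R) (hr : Rich R ν G) :
    (∀ i j, cf G i j ≠ 0 → (i : ℝ) + ν * j ≤ ν * G.natDegree) ∧
    (∀ k : ℕ, 1 ≤ k → k ≤ R → ∑ i ∈ range k, mult (-(k : ℤ)) i G = G.natDegree) ∧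
    (∀ ε : ℝ, 0 < ε → ∀ N : ℕ, ∃ a b : ℕ, N ≤ a ∧ 2 ≤ a ∧ 0 < b ∧ (b : ℝ) ≤ (a : ℝ) ^ ν ∧
      evalEval (a : ℤ) (b : ℤ) G = 0 ∧ ∀ k i : ℕ, 1 ≤ k → k ≤ R → i < k →
      ((mult (-(k : ℤ)) i G : ℝ) / G.natDegree - ε) * Real.log a ≤
        Real.log (cellD R a b k i)) := by
  obtain ⟨i0, j0, hl⟩ := exists_lead 1 ν hG.ne_zero
  have hδ : (0 : ℝ) < G.natDegree := by exact_mod_cast Nat.pos_of_ne_zero h0
  refine ⟨?_, fun k hk hkR => (rich_weight hG h0 hν hr hl hk hkR).2, ?_⟩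
  · intro i j hij
    have h1 := hl.le hij
    have h2 := (rich_weight hG h0 hν hr hl hR le_rfl).1
    linarith
  · intro ε hε N
    set w := (i0 : ℝ) + ν * j0 with hw
    have hww : w = ν * G.natDegree := (rich_weight hG h0 hν hr hl hR le_rfl).1
    have hw0 : 0 < w := by rw [hww]; positivity
    have hwR : 0 < w + R := by positivity
    obtain ⟨a, b, e1, e2, e3, e4, e5, h⟩ := rich_point hG h0 hν hr hl
      (η := ε * w / (w + R)) (by positivity) N
    set η := ε * w / (w + R) with hη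
    have hηpos : 0 < η := by positivity
    refine ⟨a, b, e1, e2, e3, e4, e5, fun k i hk hkR hi => ?_⟩
    obtain ⟨h1, h2⟩ := h k hk hkR
    have hL : 0 < Real.log a := Real.log_pos (by exact_mod_cast (by omega : 1 < a))
    have hsum := (rich_weight hG h0 hν hr hl hk hkR).2
    have h3 : ∑ i' ∈ (range k).erase i, Real.log (cellD R a b k i') * w ≤
        ∑ i' ∈ (range k).erase i, (ν * mult (-(k : ℤ)) i' G + η) * Real.log a := by
      refine Finset.sum_le_sum fun i' hi' => ?_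
      rw [mul_comm]
      exact h2 i' (mem_range.1 (mem_of_mem_erase hi'))
    have h4 : ∑ i' ∈ range k, (ν * mult (-(k : ℤ)) i' G + η) * Real.log a =
        (ν * G.natDegree + k * η) * Real.log a := by
      rw [← Finset.sum_mul, Finset.sum_add_distrib, ← Finset.mul_sum, Finset.sum_const, card_range,
        ← hsum]
      push_cast
      ring
    have h5 := Finset.add_sum_erase (range k)
      (fun i' => (ν * mult (-(k : ℤ)) i' G + η) * Real.log a) (mem_range.2 hi)
    have h6 := Finset.add_sum_erase (range k)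
      (fun i' => Real.log (cellD R a b k i') * w) (mem_range.2 hi)
    have h6' : Real.log (cellD R a b k i) * w +
        ∑ i' ∈ (range k).erase i, Real.log (cellD R a b k i') * w =
        (∑ i ∈ range k, Real.log (cellD R a b k i)) * w := by
      rw [Finset.sum_mul]
      exact h6
    have h7 : (1 - η) * Real.log a * w ≤ (∑ i ∈ range k, Real.log (cellD R a b k i)) * w :=
      mul_le_mul_of_nonneg_right h1 hw0.le
    have h8 : (k : ℝ) * η ≤ R * η := mul_le_mul_of_nonneg_right (by exact_mod_cast hkR) hηpos.le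
    have h9 : (k : ℝ) * η * Real.log a ≤ R * η * Real.log a :=
      mul_le_mul_of_nonneg_right h8 hL.le
    have h10 : (w + R) * η = ε * w := by
      rw [hη, mul_div_cancel₀ _ hwR.ne']
    have h11 : (ν * mult (-(k : ℤ)) i G - ε * w) * Real.log a ≤
        Real.log (cellD R a b k i) * w := by
      have e6 : (ν * mult (-(k : ℤ)) i G - ε * w) * Real.log a =
          (1 - η) * Real.log a * w - ((ν * G.natDegree + k * η) * Real.log a -
          (ν * mult (-(k : ℤ)) i G + η) * Real.log a) + (k * η * Real.log a - R * η * Real.log a)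
          - η * Real.log a := by
        rw [← h10, ← hww]
        ring
      have e7 : 0 < η * Real.log a := by positivity
      linarith
    have h12 : (ν * mult (-(k : ℤ)) i G - ε * w) * Real.log a =
        ((mult (-(k : ℤ)) i G : ℝ) / G.natDegree - ε) * Real.log a * w := by
      have : (mult (-(k : ℤ)) i G : ℝ) / G.natDegree * w = ν * mult (-(k : ℤ)) i G := by
        rw [hww]
        field_simp
      rw [← this]
      ring
    rw [h12] at h11
    exact le_of_mul_le_mul_right h11 hw0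

end Pool.Agent.K9h7.SG
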