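import Pool.Agent.K9h7.SG.Harm5

/-!
# The two lines `y = 0` and `x + y + 1 = 0`
-/

set_option autoImplicit false

open Finset Polynomial Polynomial.Bivariate

namespace Pool.Agent.K9h7.SG

open Pool.Agent.R60.Steiner

/-- An auxiliary number `z` which is divisible by one cell of each row. -/
theorem line_gen {G : ℤ[X][Y]} (hG : Irreducible G) (h0 : G.natDegree ≠ 0) {ν : ℝ}
    (hν : 0 < ν) {R : ℕ} (hR : 1 ≤ R) (hr : Rich R ν G) (i : ℕ → ℕ)
    (hi : ∀ k, 1 ≤ k → k ≤ R → i k < k) (z : ℕ → ℕ → ℕ)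
    (hz : ∀ a b k, 1 ≤ k → k ≤ R → cellD R a b k (i k) ∣ z a b)
    (hz0 : ∀ a b, 0 < b → 0 < z a b)
    (hzle : ∀ a b : ℕ, 1 ≤ a → (b : ℝ) ≤ (a : ℝ) ^ ν → (z a b : ℝ) ≤ 3 * (a : ℝ) ^ ν) :
    ∑ k ∈ Icc 1 R, (mult (-(k : ℤ)) (i k) G : ℝ) ≤ ν * G.natDegree := by
  obtain ⟨-, -, h⟩ := rich_structure hG h0 hν hR hr
  have hδ : (0 : ℝ) < G.natDegree := by exact_mod_cast Nat.pos_of_ne_zero h0
  suffices hs : ∑ k ∈ Icc 1 R, (mult (-(k : ℤ)) (i k) G : ℝ) / G.natDegree ≤ ν by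
    rw [← Finset.sum_div, div_le_iff₀ hδ] at hs
    exact hs
  refine le_of_forall_pos_le_add fun e he => ?_
  have hR0 : (0 : ℝ) < R := by exact_mod_cast hR
  obtain ⟨N, hN⟩ := exists_nat_gt (Real.exp (Real.log 3 / (e / 2)))
  obtain ⟨a, b, ha, ha2, hb0, hb, hab, hc⟩ := h (e / 2 / R) (by positivity) N
  have haR : (0 : ℝ) < a := by exact_mod_cast (by omega : 0 < a)
  have hL : 0 < Real.log a := Real.log_pos (by exact_mod_cast (by omega : 1 < a))
  have h3 : Real.log 3 ≤ e / 2 * Real.log a := by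
    have : Real.log 3 / (e / 2) ≤ Real.log a := by
      rw [Real.le_log_iff_exp_le haR]
      have : (N : ℝ) ≤ a := by exact_mod_cast ha
      linarith
    rw [div_le_iff₀ (by positivity)] at this
    linarith
  have hdvd : (∏ k ∈ Icc 1 R, (cellD R a b k (i k) : ℤ)) ∣ (z a b : ℤ) := by
    refine Finset.prod_dvd_of_coprime ?_ ?_
    · intro k hk k' hk' hne
      rw [Finset.mem_coe, mem_Icc] at hk hk'
      refine Nat.isCoprime_iff_coprime.2 (cellD_coprime hk.1 hk.2 hk'.1 hk'.2 ?_)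
      intro heq
      exact hne (Prod.mk.inj heq).1
    · intro k hk
      rw [mem_Icc] at hk
      exact_mod_cast hz a b k hk.1 hk.2
  have hle : (∏ k ∈ Icc 1 R, (cellD R a b k (i k) : ℝ)) ≤ (z a b : ℝ) := by
    have h1 := Int.le_of_dvd (by exact_mod_cast hz0 a b hb0) hdvd
    exact_mod_cast h1
  have hpos : ∀ k, (cellD R a b k (i k) : ℝ) ≠ 0 := fun k => by
    exact_mod_cast (cellD_pos _ _ _ _ _).ne'
  have hlog := Real.log_le_log (Finset.prod_pos fun k _ => by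
    exact_mod_cast (cellD_pos _ _ _ _ _)) (hle.trans (hzle a b (by omega) hb))
  rw [Real.log_prod fun k _ => hpos k, Real.log_mul (by norm_num) (by positivity),
    Real.log_rpow haR] at hlog
  have hsum : ∑ k ∈ Icc 1 R, ((mult (-(k : ℤ)) (i k) G : ℝ) / G.natDegree - e / 2 / R) *
      Real.log a ≤ ∑ k ∈ Icc 1 R, Real.log (cellD R a b k (i k)) := by
    refine Finset.sum_le_sum fun k hk => ?_
    rw [mem_Icc] at hk
    exact hc k (i k) hk.1 hk.2 (hi k hk.1 hk.2)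
  rw [← Finset.sum_mul, Finset.sum_sub_distrib, Finset.sum_const, Nat.card_Icc] at hsum
  have h4 : (R + 1 - 1 : ℕ) • (e / 2 / (R : ℝ)) = e / 2 := by
    rw [Nat.add_sub_cancel, nsmul_eq_mul, mul_div_cancel₀ _ hR0.ne']
  rw [h4] at hsum
  have h5 : (∑ k ∈ Icc 1 R, (mult (-(k : ℤ)) (i k) G : ℝ) / G.natDegree - e / 2) * Real.log a ≤
      (ν + e / 2) * Real.log a := by
    linarith
  have h6 := le_of_mul_le_mul_right h5 hL
  linarith

theorem line_zero {G : ℤ[X][Y]} (hG : Irreducible G) (h0 : G.natDegree ≠ 0) {ν : ℝ}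
    (hν : 0 < ν) {R : ℕ} (hR : 1 ≤ R) (hr : Rich R ν G) :
    ∑ k ∈ Icc 1 R, (mult (-(k : ℤ)) ((0 : ℕ) : ℤ) G : ℝ) ≤ ν * G.natDegree := by
  refine line_gen hG h0 hν hR hr (fun _ => 0) (fun k hk _ => by omega) (fun _ b => b) ?_
    (fun _ _ h => h) ?_
  · intro a b k _ _
    have h1 := cellD_dvd_sub R a b k 0
    simp only [Nat.cast_zero, sub_zero] at h1
    exact_mod_cast h1
  · intro a b _ hb
    have : 0 ≤ (a : ℝ) ^ ν := by positivity
    linarith

theorem line_one {G : ℤ[X][Y]} (hG : Irreducible G) (h0 : G.natDegree ≠ 0) {ν : ℝ}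
    (hν : 1 ≤ ν) {R : ℕ} (hR : 1 ≤ R) (hr : Rich R ν G) :
    ∑ k ∈ Icc 1 R, (mult (-(k : ℤ)) ((k - 1 : ℕ) : ℤ) G : ℝ) ≤ ν * G.natDegree := by
  refine line_gen hG h0 (by linarith) hR hr (fun k => k - 1) (fun k hk _ => by omega)
    (fun a b => a + b + 1) ?_ (fun _ _ _ => by omega) ?_
  · intro a b k hk _
    have h1 := cellD_dvd_sub R a b k (k - 1)
    have h2 : (cellD R a b k (k - 1) : ℤ) ∣ ((a + k : ℕ) : ℤ) := by
      exact_mod_cast cellD_dvd (R := R) (a := a) (b := b) (k := k) (i := k - 1) (by omega)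
    have h3 := dvd_add h1 h2
    have h4 : (b : ℤ) - ((k - 1 : ℕ) : ℤ) + ((a + k : ℕ) : ℤ) = ((a + b + 1 : ℕ) : ℤ) := by
      push_cast [Nat.cast_sub hk]
      ring
    rw [h4] at h3
    exact_mod_cast h3
  · intro a b ha hb
    have ha1 : (1 : ℝ) ≤ a := by exact_mod_cast ha
    have h1 : (a : ℝ) ≤ (a : ℝ) ^ ν := by
      calc (a : ℝ) = (a : ℝ) ^ (1 : ℝ) := (Real.rpow_one _).symm
        _ ≤ _ := Real.rpow_le_rpow_of_exponent_le ha1 hν
    push_cast
    linarith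

end Pool.Agent.K9h7.SG
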