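import Mathlib

/-!
# Polynomials which are bounded at the points `0, 1, 4, 9, …, D²`
-/

set_option autoImplicit false

open Finset Polynomial

namespace Pool.Agent.K9h7.SG

theorem prod_range_nodes (j : ℕ) (hj : 1 ≤ j) :
    2 * ∏ i ∈ range j, |(j : ℚ) ^ 2 - (i : ℚ) ^ 2| = ((2 * j).factorial : ℚ) := by
  have h1 : ∏ i ∈ range j, |(j : ℚ) ^ 2 - (i : ℚ) ^ 2| =
      (∏ i ∈ range j, ((j - i : ℕ) : ℚ)) * ∏ i ∈ range j, ((j + i : ℕ) : ℚ) := by
    rw [← Finset.prod_mul_distrib]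
    refine Finset.prod_congr rfl fun i hi => ?_
    rw [mem_range] at hi
    rw [Nat.cast_sub hi.le, Nat.cast_add]
    have h2 : (i : ℚ) < j := by exact_mod_cast hi
    have h3 : (0 : ℚ) ≤ i := Nat.cast_nonneg i
    rw [abs_of_nonneg (by nlinarith)]
    ring
  have h2 : ∏ i ∈ range j, (j - i) = j.factorial := by
    rw [← Finset.prod_range_reflect, ← Finset.prod_range_add_one_eq_factorial]
    refine Finset.prod_congr rfl fun i hi => ?_
    rw [mem_range] at hi
    omega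
  have h3 : (j - 1).factorial * ∏ i ∈ range j, (j + i) = (2 * j - 1).factorial := by
    rw [← Nat.ascFactorial_eq_prod_range, Nat.factorial_mul_ascFactorial' j j (by omega)]
    congr 1
    omega
  have h4 : j.factorial = j * (j - 1).factorial := (Nat.mul_factorial_pred (by omega)).symm
  have h5 : (2 * j).factorial = (2 * j) * (2 * j - 1).factorial :=
    (Nat.mul_factorial_pred (by omega)).symm
  rw [h1, ← Nat.cast_prod, ← Nat.cast_prod, h2]
  have h6 : 2 * (j.factorial * ∏ i ∈ range j, (j + i)) = (2 * j).factorial := by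
    rw [h5, ← h3, h4]
    ring
  exact_mod_cast h6

theorem prod_nodes (j : ℕ) (hj : 1 ≤ j) (D : ℕ) (hD : j ≤ D) :
    2 * ∏ i ∈ (range (D + 1)).erase j, |(j : ℚ) ^ 2 - (i : ℚ) ^ 2| =
      ((D - j).factorial : ℚ) * ((D + j).factorial : ℚ) := by
  induction D, hD using Nat.le_induction with
  | base =>
    have h1 : (range (j + 1)).erase j = range j := by
      ext x
      rw [mem_erase, mem_range, mem_range]
      omega
    rw [h1, prod_range_nodes j hj, Nat.sub_self, Nat.factorial_zero, Nat.cast_one, one_mul,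
      two_mul]
  | succ D hD ih =>
    have h1 : (range (D + 1 + 1)).erase j = insert (D + 1) ((range (D + 1)).erase j) := by
      ext x
      rw [mem_erase, mem_range, mem_insert, mem_erase, mem_range]
      omega
    rw [h1, Finset.prod_insert (by
      rw [mem_erase, mem_range]
      omega), mul_left_comm, ih]
    have h2 : |(j : ℚ) ^ 2 - ((D + 1 : ℕ) : ℚ) ^ 2| = ((D + 1 - j : ℕ) : ℚ) * ((D + 1 + j : ℕ) : ℚ) := by
      rw [Nat.cast_sub (by omega)]
      have h3 : (j : ℚ) ≤ ((D + 1 : ℕ) : ℚ) := by exact_mod_cast (by omega : j ≤ D + 1)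
      have h4 : (0 : ℚ) ≤ j := Nat.cast_nonneg j
      rw [abs_of_nonpos (by nlinarith)]
      push_cast
      ring
    rw [h2]
    have h5 : (D + 1 - j).factorial = (D + 1 - j) * (D - j).factorial := by
      rw [← Nat.mul_factorial_pred (by omega : D + 1 - j ≠ 0)]
      congr 2
      omega
    have h6 : (D + 1 + j).factorial = (D + 1 + j) * (D + j).factorial := by
      rw [← Nat.mul_factorial_pred (by omega : D + 1 + j ≠ 0)]
      congr 2
      omega
    rw [h5, h6]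
    push_cast
    ring

theorem fact_sq_le (D : ℕ) : ∀ j, j ≤ D → D.factorial ^ 2 ≤ (D - j).factorial * (D + j).factorial := by
  intro j
  induction j with
  | zero => intro _; simp [sq]
  | succ j ih =>
    intro hj
    refine (ih (by omega)).trans ?_
    have h5 : (D - j).factorial = (D - j) * (D - (j + 1)).factorial := by
      rw [← Nat.mul_factorial_pred (by omega : D - j ≠ 0)]
      congr 2
    have h6 : (D + (j + 1)).factorial = (D + (j + 1)) * (D + j).factorial := by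
      rw [← Nat.mul_factorial_pred (by omega : D + (j + 1) ≠ 0)]
      congr 2
    rw [h5, h6]
    have h7 : D - j ≤ D + (j + 1) := by omega
    calc (D - j) * (D - (j + 1)).factorial * (D + j).factorial
        = (D - j) * ((D - (j + 1)).factorial * (D + j).factorial) := by ring
      _ ≤ (D + (j + 1)) * ((D - (j + 1)).factorial * (D + j).factorial) :=
          Nat.mul_le_mul_right _ h7
      _ = _ := by ring

theorem prod_num {j : ℕ} (hj : 1 ≤ j) {D : ℕ} (hD : j ≤ D) {y : ℚ} (hy0 : 0 ≤ y) (hy1 : y ≤ 1) :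
    (∏ i ∈ (range (D + 1)).erase j, |y - (i : ℚ) ^ 2|) * (j : ℚ) ^ 2 ≤
      y * (D.factorial : ℚ) ^ 2 := by
  have h1 : (range (D + 1)).erase j = insert 0 ((Icc 1 D).erase j) := by
    ext x
    rw [mem_erase, mem_range, mem_insert, mem_erase, mem_Icc]
    omega
  rw [h1, Finset.prod_insert (by
    rw [mem_erase, mem_Icc]
    omega)]
  have h2 : |y - ((0 : ℕ) : ℚ) ^ 2| = y := by
    rw [Nat.cast_zero, zero_pow (by norm_num), sub_zero, abs_of_nonneg hy0]
  have h3 : ∏ i ∈ (Icc 1 D).erase j, |y - (i : ℚ) ^ 2| ≤ ∏ i ∈ (Icc 1 D).erase j, (i : ℚ) ^ 2 := by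
    refine Finset.prod_le_prod (fun _ _ => abs_nonneg _) fun i hi => ?_
    rw [mem_erase, mem_Icc] at hi
    have h4 : (1 : ℚ) ≤ i := by exact_mod_cast hi.2.1
    rw [abs_of_nonpos (by nlinarith)]
    linarith
  have h5 : Icc 1 D = Ico 1 (D + 1) := by
    ext x
    rw [mem_Icc, mem_Ico]
    omega
  have h4 : (∏ i ∈ (Icc 1 D).erase j, (i : ℚ) ^ 2) * (j : ℚ) ^ 2 = (D.factorial : ℚ) ^ 2 := by
    rw [Finset.prod_erase_mul _ _ (mem_Icc.2 ⟨hj, hD⟩), Finset.prod_pow, ← Nat.cast_prod,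
      h5, Finset.prod_Ico_id_eq_factorial]
  rw [h2]
  calc y * (∏ i ∈ (Icc 1 D).erase j, |y - (i : ℚ) ^ 2|) * (j : ℚ) ^ 2
      ≤ y * (∏ i ∈ (Icc 1 D).erase j, (i : ℚ) ^ 2) * (j : ℚ) ^ 2 := by
        refine mul_le_mul_of_nonneg_right (mul_le_mul_of_nonneg_left h3 hy0) (by positivity)
    _ = y * (D.factorial : ℚ) ^ 2 := by rw [mul_assoc, h4]

theorem basis_bound {j : ℕ} (hj : 1 ≤ j) {D : ℕ} (hD : j ≤ D) {y : ℚ} (hy0 : 0 ≤ y)
    (hy1 : y ≤ 1) :
    |(Lagrange.basis (range (D + 1)) (fun i : ℕ => (i : ℚ) ^ 2) j).eval y| ≤ 2 * y / (j : ℚ) ^ 2 := by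
  have hj0 : (0 : ℚ) < j := by exact_mod_cast hj
  unfold Lagrange.basis
  rw [eval_prod, Finset.abs_prod]
  have h1 : ∀ i ∈ (range (D + 1)).erase j, |(Lagrange.basisDivisor ((j : ℚ) ^ 2) ((i : ℚ) ^ 2)).eval y| =
      |(j : ℚ) ^ 2 - (i : ℚ) ^ 2|⁻¹ * |y - (i : ℚ) ^ 2| := by
    intro i _
    unfold Lagrange.basisDivisor
    rw [eval_mul, eval_C, eval_sub, eval_X, eval_C, abs_mul, abs_inv]
  rw [Finset.prod_congr rfl h1, Finset.prod_mul_distrib, Finset.prod_inv_distrib]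
  have h2 := prod_nodes j hj D hD
  have h3 := prod_num hj hD hy0 hy1
  set B := ∏ i ∈ (range (D + 1)).erase j, |(j : ℚ) ^ 2 - (i : ℚ) ^ 2|
  set A := ∏ i ∈ (range (D + 1)).erase j, |y - (i : ℚ) ^ 2|
  have h4 : (D.factorial : ℚ) ^ 2 ≤ 2 * B := by
    rw [h2]
    exact_mod_cast fact_sq_le D j hD
  have hB : 0 < B := by
    have : (0 : ℚ) < (D.factorial : ℚ) ^ 2 := by
      have := Nat.factorial_pos D
      positivity
    linarith
  rw [inv_mul_eq_div, div_le_div_iff₀ hB (by positivity)]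
  have h5 : y * (D.factorial : ℚ) ^ 2 ≤ y * (2 * B) := mul_le_mul_of_nonneg_left h4 hy0
  linarith

theorem sum_inv_sq (D : ℕ) : ∑ j ∈ Icc 1 D, 1 / (j : ℚ) ^ 2 ≤ 2 := by
  have h : ∀ D : ℕ, 1 ≤ D → ∑ j ∈ Icc 1 D, 1 / (j : ℚ) ^ 2 ≤ 2 - 1 / (D : ℚ) := by
    intro D hD
    induction D, hD using Nat.le_induction with
    | base => norm_num
    | succ D hD ih =>
      rw [Finset.sum_Icc_succ_top (by omega)]
      have hD0 : (0 : ℚ) < D := by exact_mod_cast hD
      have h2 : 1 / ((D + 1 : ℕ) : ℚ) ^ 2 ≤ 1 / (D : ℚ) - 1 / ((D + 1 : ℕ) : ℚ) := by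
        push_cast
        rw [div_sub_div _ _ hD0.ne' (by positivity), div_le_div_iff₀ (by positivity) (by positivity)]
        nlinarith
      linarith
  rcases Nat.eq_zero_or_pos D with rfl | hD
  · simp
  · have h1 := h D hD
    have h2 : (0 : ℚ) ≤ 1 / (D : ℚ) := by positivity
    linarith

/-- **Markov's inequality for the nodes `0, 1, 4, 9, …, D²`.** -/
theorem square_nodes (Q : ℚ[X]) (D : ℕ) (hQ : Q.natDegree ≤ D) (h0 : Q.eval 0 = 0)
    (h1 : ∀ j : ℕ, 1 ≤ j → j ≤ D → |Q.eval ((j : ℚ) ^ 2)| ≤ 1) {y : ℚ} (hy0 : 0 ≤ y)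
    (hy1 : y ≤ 1) : |Q.eval y| ≤ 4 * y := by
  have hinj : Set.InjOn (fun i : ℕ => (i : ℚ) ^ 2) (range (D + 1) : Finset ℕ) := by
    intro i _ i' _ h
    have h2 : (i : ℚ) ^ 2 = (i' : ℚ) ^ 2 := h
    have h3 : i ^ 2 = i' ^ 2 := by exact_mod_cast h2
    exact Nat.pow_left_injective (by norm_num : 2 ≠ 0) h3
  have hdeg : Q.degree < (range (D + 1)).card := by
    rw [card_range]
    refine lt_of_le_of_lt (degree_le_of_natDegree_le hQ) ?_
    exact_mod_cast Nat.lt_succ_self D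
  have h2 := Lagrange.eq_interpolate hinj hdeg
  have h3 : Q.eval y = ∑ j ∈ range (D + 1), Q.eval ((j : ℚ) ^ 2) *
      (Lagrange.basis (range (D + 1)) (fun i : ℕ => (i : ℚ) ^ 2) j).eval y := by
    conv_lhs => rw [h2]
    rw [Lagrange.interpolate_apply, eval_finsetSum]
    refine Finset.sum_congr rfl fun j _ => ?_
    rw [eval_mul, eval_C]
  have h4 : range (D + 1) = insert 0 (Icc 1 D) := by
    ext x
    rw [mem_range, mem_insert, mem_Icc]
    omega
  rw [h3, h4, Finset.sum_insert (by rw [mem_Icc]; omega), ← h4]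
  have h5 : Q.eval (((0 : ℕ) : ℚ) ^ 2) = 0 := by
    rw [Nat.cast_zero, zero_pow (by norm_num)]
    exact h0
  rw [h5, zero_mul, zero_add]
  refine (Finset.abs_sum_le_sum_abs _ _).trans ?_
  have h6 : ∀ j ∈ Icc 1 D, |Q.eval ((j : ℚ) ^ 2) *
      (Lagrange.basis (range (D + 1)) (fun i : ℕ => (i : ℚ) ^ 2) j).eval y| ≤
      2 * y * (1 / (j : ℚ) ^ 2) := by
    intro j hj
    rw [mem_Icc] at hj
    rw [abs_mul]
    have h7 := basis_bound hj.1 hj.2 hy0 hy1
    have h8 := h1 j hj.1 hj.2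
    calc _ ≤ 1 * |(Lagrange.basis (range (D + 1)) (fun i : ℕ => (i : ℚ) ^ 2) j).eval y| :=
          mul_le_mul_of_nonneg_right h8 (abs_nonneg _)
      _ ≤ 2 * y / (j : ℚ) ^ 2 := by rw [one_mul]; exact h7
      _ = _ := by ring
  refine (Finset.sum_le_sum h6).trans ?_
  rw [← Finset.mul_sum]
  have h9 := mul_le_mul_of_nonneg_left (sum_inv_sq D) (by positivity : 0 ≤ 2 * y)
  linarith

end Pool.Agent.K9h7.SG
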