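import Pool.Agent.K9h7.SG.Harm6
import Pool.Agent.K9h7.SG.Harm7

/-!
# The second power sum of a row is a polynomial of small degree
-/

set_option autoImplicit false

open Finset Polynomial Polynomial.Bivariate

namespace Pool.Agent.K9h7.SG

open Pool.Agent.R60.Steiner

/-- the three top coefficients -/
def TopC (p : ℚ[X]) (n : ℕ) (t1 t2 : ℚ) : Prop :=
  p.coeff (n + 2) = 1 ∧ p.coeff (n + 1) = -t1 ∧ p.coeff n = (t1 ^ 2 - t2) / 2 ∧
    p.coeff (n + 3) = 0 ∧ ∀ m, n + 3 ≤ m → p.coeff m = 0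

theorem TopC.mul {p : ℚ[X]} {n : ℕ} {t1 t2 : ℚ} (h : TopC p n t1 t2) (r : ℚ) :
    TopC (p * (X - C r)) (n + 1) (t1 + r) (t2 + r ^ 2) := by
  obtain ⟨h1, h2, h3, h4, h5⟩ := h
  refine ⟨?_, ?_, ?_, ?_, ?_⟩
  · rw [show n + 1 + 2 = (n + 2) + 1 by ring, coeff_mul_X_sub_C, h1, h4]
    ring
  · rw [show n + 1 + 1 = (n + 1) + 1 by ring, coeff_mul_X_sub_C, h2, h1]
    ring
  · rw [coeff_mul_X_sub_C, h3, h2]
    ring
  · rw [show n + 1 + 3 = (n + 3) + 1 by ring, coeff_mul_X_sub_C, h4, h5 (n + 3 + 1) (by omega)]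
    ring
  · intro m hm
    obtain ⟨m', rfl⟩ : ∃ m', m = m' + 1 := ⟨m - 1, by omega⟩
    rw [coeff_mul_X_sub_C, h5 m' (by omega), h5 (m' + 1) (by omega)]
    ring

theorem TopC.mul_pow {p : ℚ[X]} {n : ℕ} {t1 t2 : ℚ} (h : TopC p n t1 t2) (r : ℚ) (m : ℕ) :
    TopC (p * (X - C r) ^ m) (n + m) (t1 + m * r) (t2 + m * r ^ 2) := by
  induction m with
  | zero => simpa using h
  | succ m ih =>
    have h1 := ih.mul r
    rw [pow_succ, ← mul_assoc]
    have e1 : t1 + ((m + 1 : ℕ) : ℚ) * r = t1 + m * r + r := by push_cast; ring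
    have e2 : t2 + ((m + 1 : ℕ) : ℚ) * r ^ 2 = t2 + m * r ^ 2 + r ^ 2 := by push_cast; ring
    rw [e1, e2]
    exact h1

theorem topC_rprod (k : ℕ) (μ : ℕ → ℕ) :
    TopC (X ^ 2 * rprod k μ) (∑ i ∈ range k, μ i) (∑ i ∈ range k, (μ i : ℚ) * i)
      (∑ i ∈ range k, (μ i : ℚ) * (i : ℚ) ^ 2) := by
  induction k with
  | zero =>
    unfold rprod TopC
    simp only [range_zero, prod_empty, sum_empty, mul_one, coeff_X_pow]
    norm_num
    intro m hm h
    omega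
  | succ k ih =>
    have h1 := ih.mul_pow (k : ℚ) (μ k)
    rw [sum_range_succ, sum_range_succ, sum_range_succ]
    unfold rprod at h1 ⊢
    rw [prod_range_succ, ← mul_assoc]
    exact h1

/-- the weights of an extremal curve -/
def Wt (ν : ℝ) (G : ℤ[X][Y]) : Prop :=
  ∀ i j, cf G i j ≠ 0 → (i : ℝ) + ν * j ≤ ν * G.natDegree

theorem leading_const {ν : ℝ} {G : ℤ[X][Y]} (h0 : G.natDegree ≠ 0) (hw : Wt ν G) :
    ∃ c : ℤ, c ≠ 0 ∧ G.leadingCoeff = C c := by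
  have hG0 : G ≠ 0 := by
    rintro rfl
    exact h0 natDegree_zero
  have h1 : G.leadingCoeff.natDegree = 0 := by
    by_contra h
    have h2 : cf G G.leadingCoeff.natDegree G.natDegree ≠ 0 := by
      unfold cf
      rw [← leadingCoeff]
      exact leadingCoeff_ne_zero.2 (leadingCoeff_ne_zero.2 hG0)
    have h3 := hw _ _ h2
    have h4 : (0 : ℝ) < (G.leadingCoeff.natDegree : ℝ) := by exact_mod_cast Nat.pos_of_ne_zero h
    linarith
  refine ⟨G.leadingCoeff.coeff 0, ?_, eq_C_of_natDegree_eq_zero h1⟩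
  intro h
  have := eq_C_of_natDegree_eq_zero h1
  rw [h, C_0] at this
  exact leadingCoeff_ne_zero.2 hG0 this

theorem row_sums {G : ℤ[X][Y]} (hG : Irreducible G) (h0 : G.natDegree ≠ 0) {c : ℤ}
    (hc : G.leadingCoeff = C c) (x0 : ℤ) (k : ℕ)
    (h : ∑ i ∈ range k, mult x0 i G = G.natDegree) :
    ((((X ^ 2 * G).coeff (G.natDegree + 1)).eval x0 : ℤ) : ℚ) =
      -(c * ∑ i ∈ range k, (mult x0 i G : ℚ) * i) ∧
    ((((X ^ 2 * G).coeff G.natDegree).eval x0 : ℤ) : ℚ) =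
      c * (((∑ i ∈ range k, (mult x0 i G : ℚ) * i) ^ 2 -
        ∑ i ∈ range k, (mult x0 i G : ℚ) * (i : ℚ) ^ 2) / 2) := by
  have h1 := rowq_eq hG h0 x0 k h
  rw [hc, eval_C] at h1
  have h2 : rowq x0 (X ^ 2 * G) = C (c : ℚ) * (X ^ 2 * rprod k (fun i => mult x0 i G)) := by
    rw [mul_left_comm, ← h1]
    unfold rowq rowp
    simp
  have h3 : ∀ j, ((((X ^ 2 * G).coeff j).eval x0 : ℤ) : ℚ) = (rowq x0 (X ^ 2 * G)).coeff j := by
    intro j
    unfold rowq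
    rw [coeff_map, rowp_coeff]
    rfl
  obtain ⟨t1, t2, t3, -, -⟩ := topC_rprod k (fun i => mult x0 i G)
  rw [h] at t2 t3
  rw [h3, h3, h2, coeff_C_mul, coeff_C_mul, t2, t3]
  constructor <;> ring

theorem pow_dvd_coeff {G : ℤ[X][Y]} (j : ℕ) (h : mult (-1) 0 G = G.natDegree) :
    (X + 1 : ℤ[X]) ^ (G.natDegree - j) ∣ G.coeff j := by
  have h1 : X ^ (G.natDegree - j) ∣ taylor (-1 : ℤ) (G.coeff j) := by
    rw [X_pow_dvd_iff]
    intro d hd
    have h2 : cf (sh (-1) 0 G) d j = 0 := cf_of_lt_mult (by rw [h]; omega)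
    unfold cf at h2
    rw [sh_apply, C_0, taylor_zero, coeff_map] at h2
    exact h2
  obtain ⟨Q, hQ⟩ := h1
  refine ⟨taylor 1 Q, ?_⟩
  have h2 := congrArg (taylor 1) hQ
  rw [taylor_taylor, add_neg_cancel, taylor_zero, taylor_mul, taylor_X_pow] at h2
  rw [h2, C_1]

/-- **The polynomial `W`.** -/
theorem exists_W {G : ℤ[X][Y]} (hG : Irreducible G) (h0 : G.natDegree ≠ 0) {ν : ℝ}
    (hν : 1 ≤ ν) (hw : Wt ν G) {R : ℕ} (hR : 1 ≤ R)
    (hsum : ∀ k : ℕ, 1 ≤ k → k ≤ R → ∑ i ∈ range k, mult (-(k : ℤ)) i G = G.natDegree) :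
    ∃ (W : ℚ[X]) (D : ℕ), W.natDegree ≤ D ∧ (D : ℝ) ≤ 2 * ν - 2 ∧ ∀ k : ℕ, 1 ≤ k → k ≤ R →
      ((k : ℚ) - 1) ^ 2 * W.eval (-(k : ℚ)) =
        ∑ i ∈ range k, (mult (-(k : ℤ)) i G : ℚ) * (i * ((k : ℚ) - 1 - i)) := by
  obtain ⟨c, hc0, hc⟩ := leading_const h0 hw
  have hcq : (c : ℚ) ≠ 0 := by exact_mod_cast hc0
  have hm1 : mult (-1) 0 G = G.natDegree := by
    have := hsum 1 le_rfl hR
    simpa using this
  have hX1 : (X + 1 : ℤ[X]) ≠ 0 := by
    have := X_add_C_ne_zero (1 : ℤ)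
    rwa [C_1] at this
  have hX1d : (X + 1 : ℤ[X]).natDegree = 1 := by
    have := natDegree_X_add_C (1 : ℤ)
    rwa [C_1] at this
  -- the two coefficients
  obtain ⟨g1, hg1⟩ : ∃ g1, (X ^ 2 * G).coeff (G.natDegree + 1) = (X + 1) * g1 := by
    obtain ⟨e, he⟩ : ∃ e, G.natDegree = e + 1 := ⟨G.natDegree - 1, by omega⟩
    have h1 : (X ^ 2 * G).coeff (G.natDegree + 1) = G.coeff e := by
      rw [he, show e + 1 + 1 = e + 2 by ring, coeff_X_pow_mul]
    rw [h1]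
    have h2 := pow_dvd_coeff e hm1
    rw [he, Nat.add_sub_cancel_left, pow_one] at h2
    obtain ⟨g, hg⟩ := h2
    exact ⟨g, hg⟩
  obtain ⟨g2, hg2⟩ : ∃ g2, (X ^ 2 * G).coeff G.natDegree = (X + 1) ^ 2 * g2 := by
    rcases Nat.lt_or_ge G.natDegree 2 with h | h
    · refine ⟨0, ?_⟩
      rw [mul_zero, coeff_X_pow_mul', if_neg (by omega)]
    · obtain ⟨e, he⟩ : ∃ e, G.natDegree = e + 2 := ⟨G.natDegree - 2, by omega⟩
      have h1 : (X ^ 2 * G).coeff G.natDegree = G.coeff e := by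
        rw [he, coeff_X_pow_mul]
      rw [h1]
      have h2 := pow_dvd_coeff e hm1
      rw [he, Nat.add_sub_cancel_left] at h2
      exact h2
  -- the degrees
  have hwt : ∀ j i : ℕ, ((X ^ 2 * G).coeff j).coeff i ≠ 0 → (i : ℝ) + ν * j ≤ ν * G.natDegree + 2 * ν := by
    intro j i hij
    rw [coeff_X_pow_mul'] at hij
    split_ifs at hij with h
    · have h1 := hw i (j - 2) hij
      rw [Nat.cast_sub h] at h1
      push_cast at h1
      linarith
    · simp at hij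
  have hd : ∀ (j e : ℕ) (g : ℤ[X]), (X ^ 2 * G).coeff j = (X + 1) ^ e * g → g ≠ 0 →
      ((e : ℝ) + g.natDegree) + ν * j ≤ ν * G.natDegree + 2 * ν := by
    intro j e g hg hg0
    have h1 : ((X + 1 : ℤ[X]) ^ e * g).natDegree = e + g.natDegree := by
      rw [natDegree_mul (pow_ne_zero _ hX1) hg0, natDegree_pow, hX1d, mul_one]
    have h2 : ((X ^ 2 * G).coeff j).coeff (e + g.natDegree) ≠ 0 := by
      rw [hg, ← h1]
      exact leadingCoeff_ne_zero.2 (mul_ne_zero (pow_ne_zero _ hX1) hg0)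
    have h3 := hwt j _ h2
    push_cast at h3
    exact h3
  have hd1 : (g1.natDegree : ℝ) ≤ ν - 1 := by
    by_cases h : g1 = 0
    · rw [h, natDegree_zero, Nat.cast_zero]; linarith
    · have h1 := hd (G.natDegree + 1) 1 g1 (by rw [pow_one]; exact hg1) h
      push_cast at h1
      linarith
  have hd2 : (g2.natDegree : ℝ) ≤ 2 * ν - 2 := by
    by_cases h : g2 = 0
    · rw [h, natDegree_zero, Nat.cast_zero]; linarith
    · have h1 := hd G.natDegree 2 g2 hg2 h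
      push_cast at h1
      linarith
  set f1 : ℚ[X] := g1.map (Int.castRingHom ℚ) with hf1
  set f2 : ℚ[X] := g2.map (Int.castRingHom ℚ) with hf2
  have hf1d : f1.natDegree ≤ g1.natDegree := natDegree_map_le
  have hf2d : f2.natDegree ≤ g2.natDegree := natDegree_map_le
  refine ⟨C (1 / (c : ℚ)) * f1 - C (1 / (c : ℚ) ^ 2) * f1 ^ 2 + C (2 / (c : ℚ)) * f2,
    max (2 * g1.natDegree) g2.natDegree, ?_, ?_, ?_⟩
  · refine (natDegree_add_le _ _).trans (max_le ((natDegree_sub_le _ _).trans (max_le ?_ ?_)) ?_)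
    · refine (natDegree_C_mul_le _ _).trans (le_trans ?_ (le_max_left _ _))
      omega
    · refine (natDegree_C_mul_le _ _).trans (le_trans natDegree_pow_le (le_trans ?_ (le_max_left _ _)))
      exact Nat.mul_le_mul_left 2 hf1d
    · exact (natDegree_C_mul_le _ _).trans (hf2d.trans (le_max_right _ _))
  · rw [Nat.cast_max]
    refine max_le ?_ hd2
    push_cast
    linarith
  · intro k hk hkR
    obtain ⟨r1, r2⟩ := row_sums hG h0 hc (-(k : ℤ)) k (hsum k hk hkR)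
    rw [hg1] at r1
    rw [hg2] at r2
    have ev : ∀ g : ℤ[X], (g.map (Int.castRingHom ℚ)).eval (-(k : ℚ)) = ((g.eval (-(k : ℤ)) : ℤ) : ℚ) := by
      intro g
      have h1 : (-(k : ℚ)) = (Int.castRingHom ℚ) (-(k : ℤ)) := by simp
      rw [h1, eval_map_apply]
      rfl
    rw [eval_mul, eval_add, eval_X, eval_one] at r1
    rw [eval_mul, eval_pow, eval_add, eval_X, eval_one] at r2
    push_cast at r1 r2
    rw [eval_add, eval_sub, eval_mul, eval_mul, eval_mul, eval_C, eval_C, eval_C, eval_pow, hf1,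
      hf2, ev, ev]
    set G1 : ℚ := ((g1.eval (-(k : ℤ)) : ℤ) : ℚ)
    set G2 : ℚ := ((g2.eval (-(k : ℤ)) : ℤ) : ℚ)
    set t1 : ℚ := ∑ i ∈ range k, (mult (-(k : ℤ)) i G : ℚ) * i
    set t2 : ℚ := ∑ i ∈ range k, (mult (-(k : ℤ)) i G : ℚ) * (i : ℚ) ^ 2
    have hS : ∑ i ∈ range k, (mult (-(k : ℤ)) i G : ℚ) * (i * ((k : ℚ) - 1 - i)) =
        ((k : ℚ) - 1) * t1 - t2 := by
      simp only [t1, t2]
      rw [Finset.mul_sum, ← Finset.sum_sub_distrib]
      refine Finset.sum_congr rfl fun i _ => ?_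
      ring
    rw [hS]
    have e1 : ((k : ℚ) - 1) * G1 = c * t1 := by linarith
    have e2 : ((k : ℚ) - 1) ^ 2 * G2 = c * ((t1 ^ 2 - t2) / 2) := by
      rw [← r2]; ring
    have e3 : ((k : ℚ) - 1) ^ 2 * (1 / (c : ℚ) * G1 - 1 / (c : ℚ) ^ 2 * G1 ^ 2 + 2 / (c : ℚ) * G2) =
        ((k : ℚ) - 1) * (((k : ℚ) - 1) * G1) / c - (((k : ℚ) - 1) * G1) ^ 2 / c ^ 2 +
          2 * (((k : ℚ) - 1) ^ 2 * G2) / c := by
      field_simp
    rw [e3, e1, e2]
    field_simp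
    ring

end Pool.Agent.K9h7.SG
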