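import Pool.Agent.K9h7.SG.Harm8

/-!
# There is no extremal curve if the number of rows is large
-/

set_option autoImplicit false

open Finset Polynomial Polynomial.Bivariate

namespace Pool.Agent.K9h7.SG

open Pool.Agent.R60.Steiner

/-- In the first rows at least half of the mass is at the two ends. -/
theorem ends_large {δ R K s D : ℕ} (hδ : 1 ≤ δ) (M : ℕ → ℕ → ℕ) (W : ℚ[X]) (hW : W.natDegree ≤ D)
    (hsum : ∀ k : ℕ, 1 ≤ k → k ≤ R → ∑ i ∈ range k, M k i = δ)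
    (hWk : ∀ k : ℕ, 1 ≤ k → k ≤ R → ((k : ℚ) - 1) ^ 2 * W.eval (-(k : ℚ)) =
        ∑ i ∈ range k, (M k i : ℚ) * (i * ((k : ℚ) - 1 - i)))
    (hs0 : 1 ≤ s) (hs : 2 * (K - 1) ^ 2 ≤ s) (hKs : K ≤ 2 + s) (hsR : s * D ^ 2 + 2 ≤ R)
    (hKR : K ≤ R) {k : ℕ} (hk : 2 ≤ k) (hkK : k ≤ K) :
    (δ : ℚ) / 2 ≤ (M k 0 : ℚ) + M k (k - 1) := by
  have hδ0 : (0 : ℚ) < δ := by exact_mod_cast hδ
  have hs0' : (0 : ℚ) < s := by exact_mod_cast hs0
  -- bounds for `W`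
  have hWb : ∀ k : ℕ, 2 ≤ k → k ≤ R → 0 ≤ W.eval (-(k : ℚ)) ∧ W.eval (-(k : ℚ)) ≤ δ / 4 := by
    intro k hk hkR
    have h1 := hWk k (by omega) hkR
    have hk1 : (0 : ℚ) < ((k : ℚ) - 1) ^ 2 := by
      have : (2 : ℚ) ≤ k := by exact_mod_cast hk
      have : (0 : ℚ) < (k : ℚ) - 1 := by linarith
      positivity
    have h2 : (0 : ℚ) ≤ ((k : ℚ) - 1) ^ 2 * W.eval (-(k : ℚ)) := by
      rw [h1]
      refine Finset.sum_nonneg fun i hi => ?_
      rw [mem_range] at hi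
      have h3 : (i : ℚ) + 1 ≤ k := by exact_mod_cast hi
      have h4 : (0 : ℚ) ≤ i := Nat.cast_nonneg i
      have h5 : (0 : ℚ) ≤ M k i := Nat.cast_nonneg _
      have h6 : (0 : ℚ) ≤ (k : ℚ) - 1 - i := by linarith
      positivity
    have h3 : ((k : ℚ) - 1) ^ 2 * W.eval (-(k : ℚ)) ≤ ((k : ℚ) - 1) ^ 2 * (δ / 4) := by
      rw [h1, ← hsum k (by omega) hkR]
      push_cast
      rw [Finset.sum_div, Finset.mul_sum]
      refine Finset.sum_le_sum fun i _ => ?_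
      have h5 : (0 : ℚ) ≤ M k i := Nat.cast_nonneg _
      have h6 : (i : ℚ) * ((k : ℚ) - 1 - i) ≤ ((k : ℚ) - 1) ^ 2 / 4 := by
        nlinarith [sq_nonneg ((k : ℚ) - 1 - 2 * i)]
      calc (M k i : ℚ) * (i * ((k : ℚ) - 1 - i)) ≤ (M k i : ℚ) * (((k : ℚ) - 1) ^ 2 / 4) :=
            mul_le_mul_of_nonneg_left h6 h5
        _ = _ := by ring
    exact ⟨nonneg_of_mul_nonneg_right h2 hk1, le_of_mul_le_mul_left h3 hk1⟩
  have hW2 : W.eval (-((2 : ℕ) : ℚ)) = 0 := by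
    have h1 := hWk 2 (by norm_num) (by omega)
    rw [sum_range_succ, sum_range_succ, sum_range_zero] at h1
    push_cast at h1 ⊢
    linarith
  -- the rescaled polynomial
  set Q : ℚ[X] := C (4 / (δ : ℚ)) * W.comp (C (-2) - C (s : ℚ) * X) with hQ
  have hQd : Q.natDegree ≤ D := by
    refine (natDegree_C_mul_le _ _).trans (natDegree_comp_le.trans ?_)
    have h1 : (C (-2 : ℚ) - C (s : ℚ) * X).natDegree ≤ 1 := by
      refine (natDegree_sub_le _ _).trans (max_le ?_ ?_)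
      · rw [natDegree_C]; omega
      · exact (natDegree_C_mul_le _ _).trans natDegree_X_le
    calc W.natDegree * (C (-2 : ℚ) - C (s : ℚ) * X).natDegree ≤ W.natDegree * 1 :=
          Nat.mul_le_mul_left _ h1
      _ ≤ D := by omega
  have hQe : ∀ y : ℚ, Q.eval y = 4 / δ * W.eval (-(2 + s * y)) := by
    intro y
    rw [hQ, eval_mul, eval_C, eval_comp, eval_sub, eval_C, eval_mul, eval_C, eval_X]
    congr 2
    ring
  have hQ0 : Q.eval 0 = 0 := by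
    rw [hQe, mul_zero, add_zero]
    have : (-(2 : ℚ)) = -((2 : ℕ) : ℚ) := by norm_num
    rw [this, hW2, mul_zero]
  have hQ1 : ∀ j : ℕ, 1 ≤ j → j ≤ D → |Q.eval ((j : ℚ) ^ 2)| ≤ 1 := by
    intro j _ hj
    have hjR : 2 + s * j ^ 2 ≤ R := by
      have : s * j ^ 2 ≤ s * D ^ 2 := Nat.mul_le_mul_left _ (Nat.pow_le_pow_left hj 2)
      omega
    obtain ⟨h1, h2⟩ := hWb (2 + s * j ^ 2) (by omega) hjR
    have h3 : (-(((2 + s * j ^ 2 : ℕ)) : ℚ)) = -(2 + s * (j : ℚ) ^ 2) := by push_cast; ring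
    rw [h3] at h1 h2
    rw [hQe, abs_of_nonneg (by positivity)]
    calc 4 / (δ : ℚ) * eval (-(2 + ↑s * (j : ℚ) ^ 2)) W ≤ 4 / δ * (δ / 4) :=
          mul_le_mul_of_nonneg_left h2 (by positivity)
      _ = 1 := by field_simp
  have hkR : k ≤ R := by omega
  have hk2 : (2 : ℚ) ≤ k := by exact_mod_cast hk
  have hy0 : (0 : ℚ) ≤ ((k : ℚ) - 2) / s := by
    have : (0 : ℚ) ≤ (k : ℚ) - 2 := by linarith
    positivity
  have hy1 : ((k : ℚ) - 2) / s ≤ 1 := by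
    rw [div_le_one hs0']
    have : (k : ℚ) ≤ 2 + s := by exact_mod_cast (by omega : k ≤ 2 + s)
    linarith
  have hmain := square_nodes Q D hQd hQ0 hQ1 hy0 hy1
  rw [hQe, show -(2 + (s : ℚ) * (((k : ℚ) - 2) / s)) = -(k : ℚ) by
    rw [mul_div_cancel₀ _ hs0'.ne']; ring] at hmain
  have hmain' := (le_abs_self _).trans hmain
  have hWup : W.eval (-(k : ℚ)) ≤ δ * (((k : ℚ) - 2) / s) := by
    have h1 : δ / 4 * (4 / (δ : ℚ) * W.eval (-(k : ℚ))) = W.eval (-(k : ℚ)) := by field_simp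
    rw [← h1]
    calc δ / 4 * (4 / (δ : ℚ) * W.eval (-(k : ℚ))) ≤ δ / 4 * (4 * (((k : ℚ) - 2) / s)) :=
          mul_le_mul_of_nonneg_left hmain' (by positivity)
      _ = _ := by ring
  -- the mass in the interior
  have hsk := hsum k (by omega) hkR
  rcases Nat.lt_or_ge 2 k with hk3 | hk3
  · have hk3' : (0 : ℚ) < (k : ℚ) - 2 := by
      have : (3 : ℚ) ≤ k := by exact_mod_cast hk3
      linarith
    have hsplit : ∀ f : ℕ → ℚ, ∑ i ∈ range k, f i = f 0 + ∑ i ∈ Ico 1 (k - 1), f i + f (k - 1) := by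
      intro f
      obtain ⟨e, rfl⟩ : ∃ e, k = e + 2 := ⟨k - 2, by omega⟩
      rw [show e + 2 - 1 = e + 1 by omega, sum_range_succ, Finset.range_eq_Ico,
        Finset.sum_eq_sum_Ico_succ_bot (by omega)]
    have h1 : (∑ i ∈ Ico 1 (k - 1), (M k i : ℚ)) * ((k : ℚ) - 2) ≤
        ((k : ℚ) - 1) ^ 2 * W.eval (-(k : ℚ)) := by
      rw [hWk k (by omega) hkR, hsplit, Finset.sum_mul]
      have h2 : ∑ i ∈ Ico 1 (k - 1), (M k i : ℚ) * ((k : ℚ) - 2) ≤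
          ∑ i ∈ Ico 1 (k - 1), (M k i : ℚ) * (i * ((k : ℚ) - 1 - i)) := by
        refine Finset.sum_le_sum fun i hi => ?_
        rw [mem_Ico] at hi
        refine mul_le_mul_of_nonneg_left ?_ (Nat.cast_nonneg _)
        have a1 : (1 : ℚ) ≤ i := by exact_mod_cast hi.1
        have a2 : (i : ℚ) + 2 ≤ k := by exact_mod_cast (by omega : i + 2 ≤ k)
        nlinarith
      have h3 : (M k 0 : ℚ) * (((0 : ℕ) : ℚ) * ((k : ℚ) - 1 - ((0 : ℕ) : ℚ))) = 0 := by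
        push_cast; ring
      have h4 : (M k (k - 1) : ℚ) * (((k - 1 : ℕ) : ℚ) * ((k : ℚ) - 1 - ((k - 1 : ℕ) : ℚ))) = 0 := by
        rw [Nat.cast_sub (by omega)]
        push_cast; ring
      rw [h3, h4]
      linarith
    have h2 : (∑ i ∈ Ico 1 (k - 1), (M k i : ℚ)) ≤ δ / 2 := by
      have h3 : ((k : ℚ) - 1) ^ 2 ≤ s / 2 := by
        have a1 : 2 * (k - 1) ^ 2 ≤ s :=
          le_trans (Nat.mul_le_mul_left 2 (Nat.pow_le_pow_left (by omega) 2)) hs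
        have a2 : (((2 * (k - 1) ^ 2 : ℕ)) : ℚ) ≤ s := by exact_mod_cast a1
        push_cast [Nat.cast_sub (by omega : 1 ≤ k)] at a2
        linarith
      have h4 : (∑ i ∈ Ico 1 (k - 1), (M k i : ℚ)) * ((k : ℚ) - 2) ≤ δ / 2 * ((k : ℚ) - 2) := by
        calc (∑ i ∈ Ico 1 (k - 1), (M k i : ℚ)) * ((k : ℚ) - 2) ≤
              ((k : ℚ) - 1) ^ 2 * W.eval (-(k : ℚ)) := h1
          _ ≤ (s / 2) * W.eval (-(k : ℚ)) :=
              mul_le_mul_of_nonneg_right h3 (hWb k hk hkR).1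
          _ ≤ (s / 2) * (δ * (((k : ℚ) - 2) / s)) := mul_le_mul_of_nonneg_left hWup (by positivity)
          _ = _ := by field_simp
      exact le_of_mul_le_mul_right h4 hk3'
    have h5 : (∑ i ∈ range k, (M k i : ℚ)) = δ := by exact_mod_cast hsk
    rw [hsplit] at h5
    linarith
  · have hk2' : k = 2 := by omega
    subst hk2'
    rw [sum_range_succ, sum_range_succ, sum_range_zero, zero_add] at hsk
    have h5 : (M 2 0 : ℚ) + M 2 1 = δ := by exact_mod_cast hsk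
    show (δ : ℚ) / 2 ≤ (M 2 0 : ℚ) + M 2 1
    linarith

/-- **There is no extremal curve with exponent `ν` in `R ≥ 128 ν⁴ + 2` rows.** -/
theorem not_rich {G : ℤ[X][Y]} (hG : Irreducible G) (h0 : G.natDegree ≠ 0) {ν : ℝ}
    (hν : 1 ≤ ν) {R : ℕ} (hR : 128 * ν ^ 4 + 2 ≤ R) : ¬ Rich R ν G := by
  intro hr
  have hR1 : 1 ≤ R := by
    have : (1 : ℝ) ≤ R := by
      have : 0 ≤ ν ^ 4 := by positivity
      linarith
    exact_mod_cast this
  have hν0 : 0 < ν := by linarith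
  obtain ⟨hw, hsum, -⟩ := rich_structure hG h0 hν0 hR1 hr
  obtain ⟨W, D, hWd, hD, hWk⟩ := exists_W hG h0 hν hw hR1 hsum
  have l0 := line_zero hG h0 hν0 hR1 hr
  have l1 := line_one hG h0 hν hR1 hr
  set δ := G.natDegree with hδ
  have hδ1 : 1 ≤ δ := Nat.pos_of_ne_zero h0
  have hδR : (0 : ℝ) < δ := by exact_mod_cast hδ1
  set K := ⌈4 * ν⌉₊ with hK
  have hK1 : 4 * ν ≤ K := Nat.le_ceil _
  have hK2 : (K : ℝ) < 4 * ν + 1 := Nat.ceil_lt_add_one (by linarith)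
  have hK4 : 4 ≤ K := by
    have : (4 : ℝ) ≤ K := by linarith
    exact_mod_cast this
  have hKsub : ((K - 1 : ℕ) : ℝ) = K - 1 := by
    rw [Nat.cast_sub (by omega)]; norm_num
  have hR' : 2 * (K - 1) ^ 2 * D ^ 2 + 2 ≤ R := by
    have h1 : ((2 * (K - 1) ^ 2 * D ^ 2 + 2 : ℕ) : ℝ) ≤ R := by
      push_cast
      rw [hKsub]
      have a1 : ((K : ℝ) - 1) ^ 2 ≤ (4 * ν) ^ 2 := by
        refine pow_le_pow_left₀ ?_ (by linarith) 2
        linarith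
      have a2 : (D : ℝ) ^ 2 ≤ (2 * ν) ^ 2 :=
        pow_le_pow_left₀ (Nat.cast_nonneg _) (by linarith) 2
      have a3 : ((K : ℝ) - 1) ^ 2 * (D : ℝ) ^ 2 ≤ (4 * ν) ^ 2 * (2 * ν) ^ 2 :=
        mul_le_mul a1 a2 (by positivity) (by positivity)
      nlinarith
    exact_mod_cast h1
  have hKR : K ≤ R := by
    have h1 : (K : ℝ) ≤ R := by
      have a1 : 1 ≤ ν ^ 3 := one_le_pow₀ hν
      have a2 : ν ≤ ν ^ 4 := by nlinarith
      linarith
    exact_mod_cast h1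
  have hK1s : 1 ≤ 2 * (K - 1) ^ 2 := by
    have : 0 < (K - 1) ^ 2 := pow_pos (by omega) 2
    omega
  have hKs : K ≤ 2 + 2 * (K - 1) ^ 2 := by
    have : K - 1 ≤ (K - 1) ^ 2 := by nlinarith [Nat.sub_add_cancel (by omega : 1 ≤ K)]
    omega
  have hends : ∀ k, 2 ≤ k → k ≤ K →
      (δ : ℝ) / 2 ≤ (mult (-(k : ℤ)) ((0 : ℕ) : ℤ) G : ℝ) + mult (-(k : ℤ)) ((k - 1 : ℕ) : ℤ) G := by
    intro k hk hkK
    have h1 := ends_large (K := K) (s := 2 * (K - 1) ^ 2) hδ1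
      (fun k i => mult (-(k : ℤ)) (i : ℤ) G) W hWd hsum hWk hK1s le_rfl hKs hR' hKR hk hkK
    have h2 : (((δ : ℚ) / 2 : ℚ) : ℝ) ≤ (((mult (-(k : ℤ)) ((0 : ℕ) : ℤ) G : ℚ) +
        mult (-(k : ℤ)) ((k - 1 : ℕ) : ℤ) G : ℚ) : ℝ) := by exact_mod_cast h1
    push_cast at h2
    push_cast
    exact h2
  have hm1 : (mult (-((1 : ℕ) : ℤ)) ((0 : ℕ) : ℤ) G : ℝ) = δ := by
    have := hsum 1 le_rfl hR1
    rw [sum_range_succ, sum_range_zero, zero_add] at this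
    exact_mod_cast this
  have hsum2 : (δ : ℝ) + δ + (K - 1) * (δ / 2) ≤ ν * δ + ν * δ := by
    refine le_trans ?_ (add_le_add l0 l1)
    rw [← Finset.sum_add_distrib]
    have h1 : ∑ k ∈ Icc 1 K, ((mult (-(k : ℤ)) ((0 : ℕ) : ℤ) G : ℝ) +
        mult (-(k : ℤ)) ((k - 1 : ℕ) : ℤ) G) ≤ ∑ k ∈ Icc 1 R,
        ((mult (-(k : ℤ)) ((0 : ℕ) : ℤ) G : ℝ) + mult (-(k : ℤ)) ((k - 1 : ℕ) : ℤ) G) := by
      refine Finset.sum_le_sum_of_subset_of_nonneg (Finset.Icc_subset_Icc_right hKR) ?_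
      intro k _ _
      positivity
    refine le_trans ?_ h1
    have h2 : Icc 1 K = insert 1 (Icc 2 K) := by
      ext x
      rw [mem_Icc, mem_insert, mem_Icc]
      omega
    rw [h2, Finset.sum_insert (by rw [mem_Icc]; omega)]
    have h3 : ∑ k ∈ Icc 2 K, ((δ : ℝ) / 2) ≤ ∑ k ∈ Icc 2 K,
        ((mult (-(k : ℤ)) ((0 : ℕ) : ℤ) G : ℝ) + mult (-(k : ℤ)) ((k - 1 : ℕ) : ℤ) G) :=
      Finset.sum_le_sum fun k hk => hends k (mem_Icc.1 hk).1 (mem_Icc.1 hk).2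
    rw [Finset.sum_const, Nat.card_Icc, nsmul_eq_mul, show K + 1 - 2 = K - 1 by omega, hKsub] at h3
    rw [show 1 - 1 = 0 from rfl, hm1]
    linarith
  have h4 : ((K : ℝ) + 3) * δ ≤ (4 * ν) * δ := by nlinarith
  have h5 := le_of_mul_le_mul_right h4 hδR
  linarith

/-- A fixed irreducible polynomial does not vanish at `(a, b)` if `a` is large. -/
theorem kill_all {G : ℤ[X][Y]} (hG : Irreducible G) {ν : ℝ} (hν : 1 ≤ ν) {R : ℕ}
    (hR : 128 * ν ^ 4 + 2 ≤ R) : ∃ N : ℕ, ∀ a b r : ℕ, N ≤ a → R ≤ r → NoCarry a b r → 0 < b →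
      (b : ℝ) ≤ (a : ℝ) ^ ν → evalEval (a : ℤ) (b : ℤ) G ≠ 0 := by
  by_cases h0 : G.natDegree = 0
  · have h1 : G = C (G.coeff 0) := eq_C_of_natDegree_eq_zero h0
    have h2 : G.coeff 0 ≠ 0 := by
      intro h
      rw [h, C_0] at h1
      exact hG.ne_zero h1
    obtain ⟨x0, hx0⟩ := eventually_abs_lt (S := 0) (A := G.coeff 0) (by
      rw [degree_zero]
      exact bot_lt_iff_ne_bot.2 (by rwa [Ne, degree_eq_bot]))
    refine ⟨x0, fun a b r ha _ _ _ _ h => ?_⟩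
    rw [h1, evalEval_C] at h
    have h4 := hx0 (a : ℤ) (by rw [Nat.abs_cast]; exact_mod_cast ha)
    rw [h] at h4
    simp at h4
  · have h1 := not_rich hG h0 hν hR
    unfold Rich at h1
    push Not at h1
    obtain ⟨N, hN⟩ := h1
    exact ⟨N, fun a b r ha hr hnc hb hb' => hN a b r ha hr hnc hb hb'⟩

/-- **Main theorem.** -/
theorem harmonic_main (R : ℕ) (ν : ℝ) (hν : ν < harmonic R) (hR : 128 * ν ^ 4 + 2 ≤ R) :
    ∃ A : ℕ, ∀ n q r : ℕ, R ≤ r → r + A ≤ q → q < n → DivCond n q r →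
      ((q - r : ℕ) : ℝ) ^ ν < n := by
  rcases le_or_gt ν 1 with h1 | h1
  · refine ⟨1, fun n q r _ hq hqn _ => ?_⟩
    have e1 : (1 : ℝ) ≤ ((q - r : ℕ) : ℝ) := by exact_mod_cast (by omega : 1 ≤ q - r)
    calc ((q - r : ℕ) : ℝ) ^ ν ≤ ((q - r : ℕ) : ℝ) ^ (1 : ℝ) :=
          Real.rpow_le_rpow_of_exponent_le e1 h1
      _ = ((q - r : ℕ) : ℝ) := Real.rpow_one _
      _ < n := by exact_mod_cast (by omega : q - r < n)
  · obtain ⟨𝓖, a0, hG, hcore⟩ := core R ν (harmonic R - ν) (by linarith) (by linarith) (by linarith)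
    have hk : ∀ G : ℤ[X][Y], ∃ N : ℕ, G ∈ 𝓖 → ∀ a b r : ℕ, N ≤ a → R ≤ r →
        NoCarry a b r → 0 < b → (b : ℝ) ≤ (a : ℝ) ^ ν → evalEval (a : ℤ) (b : ℤ) G ≠ 0 := by
      intro G
      by_cases h : G ∈ 𝓖
      · obtain ⟨N, hN⟩ := kill_all (hG G h) h1.le hR
        exact ⟨N, fun _ => hN⟩
      · exact ⟨0, fun h' => absurd h' h⟩
    choose Nf hNf using hk
    refine ⟨max a0 (max 1 (𝓖.sup Nf)), ?_⟩
    intro n q r hr hq hqn hS
    by_contra hcon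
    push Not at hcon
    have hnc := noCarry_of_div (by omega) hqn.le hS
    have e1 : a0 ≤ q - r := by
      have : a0 ≤ max a0 (max 1 (𝓖.sup Nf)) := le_max_left _ _
      omega
    have hb : ((n - q : ℕ) : ℝ) ≤ ((q - r : ℕ) : ℝ) ^ ν := by
      refine le_trans ?_ hcon
      exact_mod_cast Nat.sub_le _ _
    obtain ⟨G, hGm, hG0⟩ := hcore (q - r) (n - q) r e1 hr hnc hb
    have e4 : Nf G ≤ 𝓖.sup Nf := Finset.le_sup hGm
    have e5 : 𝓖.sup Nf ≤ max a0 (max 1 (𝓖.sup Nf)) :=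
      (le_max_right _ _).trans (le_max_right _ _)
    exact hNf G hGm (q - r) (n - q) r (by omega) hr hnc (by omega) hb hG0

theorem pow_two_large : ∀ t : ℕ, 24 ≤ t → 128 * (1 + 0.6932 * ((t : ℝ) + 1)) ^ 4 + 2 ≤ 2 ^ t := by
  intro t ht
  induction t, ht using Nat.le_induction with
  | base => norm_num
  | succ t ht ih =>
    have h1 : (24 : ℝ) ≤ t := by exact_mod_cast ht
    set u : ℝ := 1 + 0.6932 * ((t : ℝ) + 1) with hu
    have hu18 : 18 ≤ u := by rw [hu]; linarith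
    have h2 : 1 + 0.6932 * (((t + 1 : ℕ) : ℝ) + 1) ≤ 1.04 * u := by
      push_cast
      rw [hu]
      linarith
    have h3 : (1 + 0.6932 * (((t + 1 : ℕ) : ℝ) + 1)) ^ 4 ≤ (1.04 * u) ^ 4 := by
      refine pow_le_pow_left₀ (by positivity) h2 4
    have h4 : (0 : ℝ) ≤ u ^ 4 := by positivity
    have h6 : (2 : ℝ) ^ (t + 1) = 2 ^ t * 2 := pow_succ _ _
    rw [h6]
    have h5 : (1.04 * u) ^ 4 ≤ 2 * u ^ 4 := by
      rw [mul_pow]
      nlinarith
    linarith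

/-- for `R ≥ 2 ^ 24` the second hypothesis of the main theorem follows from the first one -/
theorem large_cond {R : ℕ} (hR : 2 ^ 24 ≤ R) {ν : ℝ} (hν0 : 0 ≤ ν) (hν : ν < harmonic R) :
    128 * ν ^ 4 + 2 ≤ R := by
  have hR0 : R ≠ 0 := by
    have : 0 < 2 ^ 24 := by norm_num
    omega
  set t := Nat.log 2 R with ht
  have h1 : 24 ≤ t := by
    rw [ht]
    exact Nat.le_log_of_pow_le (by norm_num) hR
  have h2 : 2 ^ t ≤ R := Nat.pow_log_le_self 2 hR0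
  have h3 : R < 2 ^ (t + 1) := Nat.lt_pow_succ_log_self (by norm_num) R
  have hlog : Real.log R ≤ 0.6932 * ((t : ℝ) + 1) := by
    have h4 : Real.log R ≤ Real.log ((2 : ℝ) ^ (t + 1)) := by
      refine Real.log_le_log (by exact_mod_cast Nat.pos_of_ne_zero hR0) ?_
      exact_mod_cast h3.le
    rw [Real.log_pow] at h4
    have h5 := Real.log_two_lt_d9
    push_cast at h4
    have h6 : (0 : ℝ) ≤ t := Nat.cast_nonneg t
    nlinarith
  have h5 : (harmonic R : ℝ) ≤ 1 + Real.log R := harmonic_le_one_add_log R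
  have h6 : ν ≤ 1 + 0.6932 * ((t : ℝ) + 1) := by linarith
  have h7 : ν ^ 4 ≤ (1 + 0.6932 * ((t : ℝ) + 1)) ^ 4 := pow_le_pow_left₀ hν0 h6 4
  have h8 := pow_two_large t h1
  have h9 : (2 : ℝ) ^ t ≤ R := by exact_mod_cast h2
  linarith

end Pool.Agent.K9h7.SG
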