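import Pool.Agent.K9h7.SG.Density

/-!
# The classification for degree `δ`, `5 δ + 1 ≤ 2 R`, and the core lemma for most `a`
-/

set_option autoImplicit false

open Finset Polynomial Polynomial.Bivariate

namespace Pool.Agent.K9h7.SG

open Pool.Agent.R60.Steiner

theorem three_pow_gt (t : ℕ) (ht : 1 ≤ t) : t * 2 ^ t < 3 ^ t := by
  rcases Nat.lt_or_ge t 2 with h | h
  · have : t = 1 := by omega
    subst this; norm_num
  · induction t, h using Nat.le_induction with
    | base => norm_num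
    | succ n hn ih =>
      have := ih (by omega)
      rw [pow_succ, pow_succ]
      have h2 : 1 ≤ 2 ^ n := Nat.one_le_two_pow
      nlinarith

theorem class_large {d : ℤ} (hd : d ≠ 0) (Q : ℤ[X]) (R : ℕ)
    (hrow : ∀ k : ℕ, 1 ≤ k → k ≤ R → ∃ i : ℕ, i < k ∧ Q.eval (-(k : ℤ)) = d * i)
    (hdeg : 5 * Q.natDegree + 1 ≤ 2 * R) (h2 : 2 ≤ Q.natDegree) : False := by
  obtain ⟨m, hm⟩ : ∃ m, Q.natDegree = m + 2 := ⟨Q.natDegree - 2, by omega⟩
  -- number of threes
  obtain ⟨t, ht⟩ : ∃ t, t = (m + 1) / 2 := ⟨_, rfl⟩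
  have htm : t ≤ m := by omega
  have hcl := classify hd Q R hrow 3 (List.replicate t 3 ++ List.replicate (m - t) 2)
    (by rw [List.length_append, List.length_replicate, List.length_replicate, hm]; omega)
    (by rw [List.sum_append, List.sum_replicate, List.sum_replicate, smul_eq_mul, smul_eq_mul]
        omega) (by omega)
  rw [List.prod_append, List.prod_replicate, List.prod_replicate, List.length_append,
    List.length_replicate, List.length_replicate, hm, Nat.add_sub_cancel' htm] at hcl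
  have h3 := three_pow_gt (t + 1) (by omega)
  have h4 : m + 2 ≤ 2 * (t + 1) := by omega
  have h5 : 2 ^ m = 2 ^ t * 2 ^ (m - t) := by rw [← pow_add]; congr 1; omega
  rw [h5] at hcl
  have h6 : 0 < 2 ^ (m - t) := by positivity
  have h7 : (3 * 3 ^ t) * 2 ^ (m - t) ≤ ((m + 2) * 2 ^ t) * 2 ^ (m - t) := by
    calc (3 * 3 ^ t) * 2 ^ (m - t) = 3 * (3 ^ t * 2 ^ (m - t)) := by ring
      _ ≤ (m + 2) * (2 ^ t * 2 ^ (m - t)) := hcl
      _ = _ := by ring
  have h8 := Nat.le_of_mul_le_mul_right h7 h6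
  have h9 : (m + 2) * 2 ^ t ≤ (2 * (t + 1)) * 2 ^ t := Nat.mul_le_mul_right _ h4
  rw [pow_succ, pow_succ] at h3
  nlinarith

/-- Polynomials of degree at most one in `Y`, `R` rows, and `8 ν < 3 R`. -/
theorem kill3 {G : ℤ[X][Y]} (hG : Irreducible G) {R : ℕ} (hR : 2 ≤ R) {ν : ℝ} (hν0 : 0 ≤ ν)
    (hν : 8 * ν < 3 * R) (h2 : G.natDegree < 2) :
    ∃ N : ℕ, ∀ a b r : ℕ, N ≤ a → R ≤ r → NoCarry a b r → 0 < b →
      (b : ℝ) ≤ (a : ℝ) ^ ν → evalEval (a : ℤ) (b : ℤ) G ≠ 0 := by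
  by_cases hrows : ∃ k : ℕ, 1 ≤ k ∧ k ≤ R ∧ ∀ i : ℕ, i < k → evalEval (-(k : ℤ)) (i : ℤ) G ≠ 0
  · obtain ⟨k, hk, hkR, hrow⟩ := hrows
    refine ⟨1 + k.factorial * ∏ i ∈ range k, (evalEval (-(k : ℤ)) (i : ℤ) G).natAbs, ?_⟩
    intro a b r ha hr hnc _ _ h0
    have := row_bound hnc hk (by omega) h0 hrow
    omega
  · rcases irr_cases hG with ⟨x0, hx0⟩ | ⟨d, hd, Q, hQ⟩ | h3
    · refine ⟨x0, fun a b r ha hr hnc hb _ => hx0 a b ?_⟩
      rw [Nat.abs_cast]; exact_mod_cast ha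
    · push Not at hrows
      rcases lt_or_ge ν (Q.natDegree : ℝ) with hlt | hge
      · obtain ⟨x0, hx0⟩ := growth (d := d) Q ν hν0 hlt
        refine ⟨x0, fun a b r ha hr hnc hb hbν h0 => ?_⟩
        exact absurd (hx0 a b ha (hQ _ _ h0)) (not_lt.2 hbν)
      · refine ⟨1, fun a b r ha hr hnc hb _ h0 => ?_⟩
        rcases Nat.lt_or_ge Q.natDegree 2 with h5 | h5
        · exact linear_contra hd (R := R) hR hQ (Or.inl (by omega)) hrows hb h0
        · refine class_large hd Q R (fun k hk hkR => ?_) ?_ h5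
          · obtain ⟨i, hi, h0⟩ := hrows k hk hkR
            exact ⟨i, hi, hQ _ _ h0⟩
          · have h6 : 8 * (Q.natDegree : ℝ) < 3 * R := by linarith
            have h7 : 8 * Q.natDegree < 3 * R := by exact_mod_cast h6
            omega
    · exact absurd h3 (by omega)

/-- the primes `p > R` which divide `a + k` -/
def bigP (R a k : ℕ) : Finset ℕ := (a + k).primeFactors.filter fun p => R < p

theorem mem_bigP {R a k p : ℕ} : p ∈ bigP R a k ↔ (p.Prime ∧ p ∣ a + k ∧ a + k ≠ 0) ∧ R < p := by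
  unfold bigP
  rw [mem_filter, Nat.mem_primeFactors]

theorem sum_sq_le_sq_sum' {ι : Type} (s : Finset ι) (f : ι → ℝ) (h : ∀ i ∈ s, 0 ≤ f i) :
    ∑ i ∈ s, f i ^ 2 ≤ (∑ i ∈ s, f i) ^ 2 := by
  classical
  rw [sq, Finset.sum_mul]
  refine Finset.sum_le_sum fun i hi => ?_
  rw [sq]
  exact mul_le_mul_of_nonneg_left (Finset.single_le_sum h hi) (h i hi)

theorem log_cellD (R a b k i : ℕ) : Real.log (cellD R a b k i) =
    ∑ p ∈ cellP R a b k i, ((a + k).factorization p : ℝ) * Real.log p := by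
  unfold cellD
  rw [Nat.cast_prod, Real.log_prod]
  · refine Finset.sum_congr rfl fun p _ => ?_
    rw [Nat.cast_pow, Real.log_pow]
  · intro p hp
    rw [mem_cellP] at hp
    exact_mod_cast (pow_pos hp.1.1.pos _).ne'

theorem row_squares {R a b r k : ℕ} (hnc : NoCarry a b r) (hk : 1 ≤ k) (hkR : k ≤ R)
    (hRr : R ≤ r) : ∑ p ∈ bigP R a k, Real.log p ^ 2 ≤
      ∑ i ∈ range k, Real.log (cellD R a b k i) ^ 2 := by
  have hv : ∀ p ∈ bigP R a k, p ≤ p ^ (a + k).factorization p := by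
    intro p hp
    rw [mem_bigP] at hp
    have h1 : (a + k).factorization p ≠ 0 := by
      have := (hp.1.1.dvd_iff_one_le_factorization hp.1.2.2).1 hp.1.2.1
      omega
    exact Nat.le_self_pow h1 p
  have hmaps : ∀ p ∈ bigP R a k, b % p ^ (a + k).factorization p ∈ range k := by
    intro p hp
    have h2 := hv p hp
    rw [mem_bigP] at hp
    rw [mem_range]
    exact mod_lt_of_noCarry hnc hp.1.1 hk (by omega) (by omega) (Nat.ordProj_dvd _ _)
  rw [← Finset.sum_fiberwise_of_maps_to hmaps]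
  refine Finset.sum_le_sum fun i _ => ?_
  rw [log_cellD]
  refine le_trans ?_ (sum_sq_le_sq_sum' _ _ fun p hp => ?_)
  · have hsub : (bigP R a k).filter (fun p => b % p ^ (a + k).factorization p = i) ⊆
        cellP R a b k i := by
      intro p hp
      rw [mem_filter] at hp
      have h2 := hv p hp.1
      rw [mem_bigP] at hp
      rw [mem_cellP]
      exact ⟨hp.1.1, by omega, hp.2⟩
    refine le_trans ?_ (Finset.sum_le_sum_of_subset_of_nonneg hsub fun p _ _ => sq_nonneg _)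
    refine Finset.sum_le_sum fun p hp => ?_
    rw [mem_filter, mem_bigP] at hp
    have h1 : 1 ≤ (a + k).factorization p :=
      (hp.1.1.1.dvd_iff_one_le_factorization hp.1.1.2.2).1 hp.1.1.2.1
    have h2 : (1 : ℝ) ≤ ((a + k).factorization p : ℝ) := by exact_mod_cast h1
    have h3 : 0 ≤ Real.log p := Real.log_natCast_nonneg p
    exact pow_le_pow_left₀ h3 (by nlinarith) 2
  · exact mul_nonneg (Nat.cast_nonneg _) (Real.log_natCast_nonneg p)

/-- **Core lemma**, second form. -/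
theorem core2 (R : ℕ) (ν ε : ℝ) (hν : 0 < ν) (hε : 0 < ε) :
    ∃ (𝓖 : Finset ℤ[X][Y]) (X0 : ℕ), (∀ G ∈ 𝓖, Irreducible G) ∧ ∀ X a b r : ℕ, X0 ≤ X → a ≤ X →
      1 ≤ a → R ≤ r → NoCarry a b r → (b : ℝ) ≤ (X : ℝ) ^ ν →
      ν + ε ≤ ∑ k ∈ range R, ∑ p ∈ bigP R a (k + 1), (Real.log p / Real.log X) ^ 2 →
      ∃ G ∈ 𝓖, evalEval (a : ℤ) (b : ℤ) G = 0 := by
  obtain ⟨𝓕, T₀, hT0, hF0, hF⟩ := aux_family (ι := Cell R) (fun c => -((c.1.1 + 1 : ℕ) : ℤ))
    (fun c => ((c.2.1 : ℕ) : ℤ)) ν ε 2 hν hε (by norm_num)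
  obtain ⟨𝓖, hG1, hG2⟩ := irreducible_family 𝓕 hF0
  refine ⟨𝓖, max ⌈T₀⌉₊ (R + 2), hG1, ?_⟩
  intro X a b r hX haX ha1 hRr hnc hb hsum
  have e2 : ⌈T₀⌉₊ ≤ X := (le_max_left _ _).trans hX
  have e4 : R + 2 ≤ X := (le_max_right _ _).trans hX
  have hla : 0 < Real.log X := Real.log_pos (by exact_mod_cast (by omega : 1 < X))
  apply hG2
  refine hF (X : ℝ) ((Nat.le_ceil _).trans (by exact_mod_cast e2)) (a : ℤ) (b : ℤ) ?_ ?_
    (fun c => cellD R a b (c.1.1 + 1) c.2.1) (fun c => cellD_pos _ _ _ _ _) ?_ ?_ ?_ ?_ ?_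
  · rw [Int.cast_natCast, abs_of_nonneg (Nat.cast_nonneg _)]; exact_mod_cast haX
  · rw [Int.cast_natCast, abs_of_nonneg (Nat.cast_nonneg _)]; exact hb
  · rintro ⟨k, i⟩ ⟨k', i'⟩ hne
    refine cellD_coprime (by omega) (by have := k.2; simp only; omega) (by omega)
      (by have := k'.2; simp only; omega) ?_
    intro heq
    apply hne
    simp only [Prod.mk.injEq] at heq
    have hkk : k = k' := Fin.ext (by omega)
    subst hkk
    congr 1
    exact Fin.ext heq.2
  · rintro ⟨k, i⟩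
    simp only
    rw [sub_neg_eq_add]
    exact_mod_cast cellD_dvd (R := R) (a := a) (b := b) (k := k.1 + 1) (i := i.1) (by omega)
  · rintro ⟨k, i⟩
    exact cellD_dvd_sub _ _ _ _ _
  · rintro ⟨k, i⟩
    simp only
    have h1 : cellD R a b (k.1 + 1) i.1 ≤ X ^ 2 := by
      have h2 := Nat.le_of_dvd (by omega) (cellD_dvd (R := R) (a := a) (b := b) (k := k.1 + 1)
        (i := i.1) (by omega))
      have := k.2
      nlinarith
    have h3 : (cellD R a b (k.1 + 1) i.1 : ℝ) ≤ (X : ℝ) ^ 2 := by exact_mod_cast h1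
    have h4 := Real.log_le_log (by exact_mod_cast cellD_pos _ _ _ _ _) h3
    rw [Real.log_pow] at h4
    exact_mod_cast h4
  · refine hsum.trans ?_
    rw [Fintype.sum_sigma]
    have h1 : ∀ k : Fin R, ∑ p ∈ bigP R a (k.1 + 1), (Real.log p / Real.log X) ^ 2 ≤
        ∑ i : Fin (k.1 + 1), (Real.log (cellD R a b (k.1 + 1) i.1) / Real.log X) ^ 2 := by
      intro k
      have h2 := row_squares (R := R) hnc (k := k.1 + 1) (by omega) (by have := k.2; omega) hRr
      rw [Fin.sum_univ_eq_sum_range (fun i => (Real.log (cellD R a b (k.1 + 1) i) / Real.log X) ^ 2)]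
      simp only [div_pow]
      rw [← Finset.sum_div, ← Finset.sum_div]
      exact div_le_div_of_nonneg_right h2 (by positivity)
    refine le_trans (le_of_eq ?_) (Finset.sum_le_sum fun k _ => h1 k)
    rw [Fin.sum_univ_eq_sum_range (fun k => ∑ p ∈ bigP R a (k + 1), (Real.log p / Real.log X) ^ 2)]

end Pool.Agent.K9h7.SG
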