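import Pool.Agent.K9h7.SG.Second

/-!
# Two mean values over primes
-/

set_option autoImplicit false

open Finset

namespace Pool.Agent.K9h7.SG

open Pool.Agent.Erdos456.Mert

/-- the part of `log m` which does not come from primes `p > R` (to the first power) -/
noncomputable def defect (R m : ℕ) : ℝ :=
  Real.log m - ∑ p ∈ m.primeFactors.filter (fun p => R < p), Real.log p

theorem defect_nonneg (R : ℕ) {m : ℕ} (hm : 0 < m) : 0 ≤ defect R m := by
  unfold defect
  rw [sub_nonneg, ← Real.log_prod]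
  · refine Real.log_le_log ?_ ?_
    · refine Finset.prod_pos fun p hp => ?_
      rw [mem_filter, Nat.mem_primeFactors] at hp
      exact_mod_cast hp.1.1.pos
    · rw [← Nat.cast_prod]
      refine Nat.cast_le.2 (Nat.le_of_dvd hm ?_)
      exact (Finset.prod_dvd_prod_of_subset _ _ (fun p => p) (Finset.filter_subset _ _)).trans
        (Nat.prod_primeFactors_dvd m)
  · intro p hp
    rw [mem_filter, Nat.mem_primeFactors] at hp
    exact_mod_cast hp.1.1.pos.ne'

theorem sum_defect (R : ℕ) : ∃ C : ℝ, 0 ≤ C ∧ ∀ N : ℕ, 1 ≤ N →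
    ∑ m ∈ Icc 1 N, defect R m ≤ C * N := by
  obtain ⟨C, hC⟩ := mertens_log
  have hC0 : 0 ≤ C := (abs_nonneg _).trans (hC 1 le_rfl)
  set CR := ∑ p ∈ PP R, Real.log p / p with hCR
  have hCR0 : 0 ≤ CR := Finset.sum_nonneg fun p _ =>
    div_nonneg (Real.log_natCast_nonneg p) (Nat.cast_nonneg _)
  refine ⟨C + CR + 2, by positivity, fun N hN => ?_⟩
  have hN0 : (0 : ℝ) < N := by exact_mod_cast hN
  have h1 : ∑ m ∈ Icc 1 N, Real.log m ≤ N * Real.log N := by
    calc ∑ m ∈ Icc 1 N, Real.log m ≤ ∑ m ∈ Icc 1 N, Real.log N := by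
          refine Finset.sum_le_sum fun m hm => ?_
          rw [mem_Icc] at hm
          exact Real.log_le_log (by exact_mod_cast hm.1) (by exact_mod_cast hm.2)
      _ = N * Real.log N := by
          rw [Finset.sum_const, Nat.card_Icc, nsmul_eq_mul, Nat.add_sub_cancel]
  have h2 : ∑ m ∈ Icc 1 N, ∑ p ∈ m.primeFactors.filter (fun p => R < p), Real.log p =
      ∑ p ∈ (PP N).filter (fun p => R < p), Real.log p * (#{a ∈ Icc 1 N | p ∣ a + 0} : ℝ) := by
    have h3 : ∀ m ∈ Icc 1 N, ∑ p ∈ m.primeFactors.filter (fun p => R < p), Real.log p =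
        ∑ p ∈ (PP N).filter (fun p => R < p), if p ∣ m then Real.log p else 0 := by
      intro m hm
      rw [mem_Icc] at hm
      rw [← Finset.sum_filter]
      refine Finset.sum_congr ?_ fun _ _ => rfl
      ext p
      simp only [mem_filter, Nat.mem_primeFactors, mem_Icc]
      constructor
      · rintro ⟨⟨h1, h2, h3⟩, h4⟩
        exact ⟨⟨⟨⟨h1.one_lt.le, (Nat.le_of_dvd (by omega) h2).trans hm.2⟩, h1⟩, h4⟩, h2⟩
      · rintro ⟨⟨⟨_, h1⟩, h4⟩, h2⟩
        exact ⟨⟨h1, h2, by omega⟩, h4⟩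
    rw [Finset.sum_congr rfl h3, Finset.sum_comm]
    refine Finset.sum_congr rfl fun p _ => ?_
    rw [← Finset.sum_filter, Finset.sum_const, nsmul_eq_mul, mul_comm]
    rfl
  have h3 : ∑ p ∈ (PP N).filter (fun p => R < p), Real.log p * ((N : ℝ) / p - 1) ≤
      ∑ p ∈ (PP N).filter (fun p => R < p), Real.log p * (#{a ∈ Icc 1 N | p ∣ a + 0} : ℝ) := by
    refine Finset.sum_le_sum fun p hp => ?_
    rw [mem_filter, mem_filter] at hp
    exact mul_le_mul_of_nonneg_left (le_count_one hp.1.2.pos) (Real.log_natCast_nonneg p)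
  have h4 : ∑ p ∈ (PP N).filter (fun p => R < p), Real.log p * ((N : ℝ) / p - 1) =
      N * ∑ p ∈ (PP N).filter (fun p => R < p), Real.log p / p -
        ∑ p ∈ (PP N).filter (fun p => R < p), Real.log p := by
    rw [Finset.mul_sum, ← Finset.sum_sub_distrib]
    refine Finset.sum_congr rfl fun p _ => ?_
    ring
  have h5 : ∑ p ∈ PP N, Real.log p / p - CR ≤
      ∑ p ∈ (PP N).filter (fun p => R < p), Real.log p / p := by
    rw [sub_le_iff_le_add, hCR]
    have hsub : PP N ⊆ (PP N).filter (fun p => R < p) ∪ PP R := by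
      intro p hp
      rw [mem_union, mem_filter]
      rcases Nat.lt_or_ge R p with h | h
      · exact Or.inl ⟨hp, h⟩
      · right
        rw [mem_filter, mem_Icc] at hp ⊢
        exact ⟨⟨hp.1.1, h⟩, hp.2⟩
    have hnn : ∀ p : ℕ, 0 ≤ Real.log p / p := fun p =>
      div_nonneg (Real.log_natCast_nonneg p) (Nat.cast_nonneg _)
    refine (Finset.sum_le_sum_of_subset_of_nonneg hsub fun p _ _ => hnn p).trans ?_
    rw [← Finset.sum_union_inter]
    exact le_add_of_nonneg_right (Finset.sum_nonneg fun p _ => hnn p)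
  have h6 := (abs_le.1 (hC N hN)).1
  have h7 : ∑ p ∈ (PP N).filter (fun p => R < p), Real.log p ≤ 2 * N :=
    (Finset.sum_le_sum_of_subset_of_nonneg (Finset.filter_subset _ _) fun p _ _ =>
      Real.log_natCast_nonneg p).trans (theta_le N)
  have h8 : Real.log N - C - CR ≤ ∑ p ∈ (PP N).filter (fun p => R < p), Real.log p / p := by
    have : ∑ p ∈ PP N, Real.log p / p = ∑ p ∈ (Finset.Icc 1 N).filter Nat.Prime, Real.log p / p := rfl
    linarith
  have h9 := mul_le_mul_of_nonneg_left h8 hN0.le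
  unfold defect
  rw [Finset.sum_sub_distrib, h2]
  nlinarith

/-- the primes `R < p ≤ X ^ θ` -/
noncomputable def PX (R X : ℕ) (θ : ℝ) : Finset ℕ :=
  (PP ⌊(X : ℝ) ^ θ⌋₊).filter fun p => R < p

/-- the weight `u (θ - u)`, `u = log p / log X` -/
noncomputable def gX (X : ℕ) (θ : ℝ) (p : ℕ) : ℝ :=
  Real.log p / Real.log X * (θ - Real.log p / Real.log X)

theorem mem_PX {R X p : ℕ} {θ : ℝ} (hX : 2 ≤ X) : p ∈ PX R X θ ↔
    p.Prime ∧ R < p ∧ Real.log p / Real.log X ≤ θ := by
  have hX0 : (0 : ℝ) < X := by exact_mod_cast (by omega : 0 < X)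
  have hL : 0 < Real.log X := Real.log_pos (by exact_mod_cast hX)
  unfold PX
  rw [mem_filter, mem_filter, mem_Icc]
  have key : p.Prime → (p ≤ ⌊(X : ℝ) ^ θ⌋₊ ↔ Real.log p / Real.log X ≤ θ) := by
    intro hp
    have hp0 : (0 : ℝ) < p := by exact_mod_cast hp.pos
    rw [Nat.le_floor_iff (Real.rpow_nonneg hX0.le _), div_le_iff₀ hL, ← Real.log_rpow hX0,
      Real.log_le_log_iff hp0 (Real.rpow_pos_of_pos hX0 _)]
  constructor
  · rintro ⟨⟨⟨_, h1⟩, h2⟩, h3⟩
    exact ⟨h2, h3, (key h2).1 h1⟩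
  · rintro ⟨h1, h2, h3⟩
    exact ⟨⟨⟨h1.one_lt.le, (key h1).2 h3⟩, h1⟩, h2⟩

theorem gX_nonneg {R X p : ℕ} {θ : ℝ} (hX : 2 ≤ X) (hp : p ∈ PX R X θ) : 0 ≤ gX X θ p := by
  have hL : 0 < Real.log X := Real.log_pos (by exact_mod_cast hX)
  rw [mem_PX hX] at hp
  unfold gX
  exact mul_nonneg (div_nonneg (Real.log_natCast_nonneg p) hL.le) (by linarith [hp.2.2])

theorem gX_le (X p : ℕ) {θ : ℝ} : gX X θ p ≤ θ ^ 2 / 4 := by
  unfold gX
  nlinarith [sq_nonneg (θ - 2 * (Real.log p / Real.log X))]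

theorem step_bound {θ u : ℝ} (hθ : 0 < θ) (hu0 : 0 ≤ u) (_huθ : u ≤ θ) (M : ℕ) (hM : 1 ≤ M) :
    θ - u ≤ θ / M * (((range M).filter fun j : ℕ => u ≤ (j + 1) * θ / M).card : ℝ) := by
  have hM0 : (0 : ℝ) < M := by exact_mod_cast hM
  set x := u * M / θ with hx
  have hx0 : 0 ≤ x := by positivity
  have h1 : ((range M).filter fun j : ℕ => ¬ u ≤ (j + 1) * θ / M).card ≤ ⌊x⌋₊ := by
    rw [← card_range ⌊x⌋₊]
    refine card_le_card ?_
    intro j hj
    rw [mem_filter, mem_range] at hj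
    rw [mem_range, ← Nat.succ_le_iff, Nat.le_floor_iff hx0]
    obtain ⟨_, h2⟩ := hj
    push Not at h2
    rw [hx, le_div_iff₀ hθ]
    rw [div_lt_iff₀ hM0] at h2
    push_cast
    linarith
  have h2 := Finset.card_filter_add_card_filter_not (s := range M) (fun j : ℕ => u ≤ (j + 1) * θ / M)
  rw [card_range] at h2
  have h3 : (M : ℝ) - x ≤ (((range M).filter fun j : ℕ => u ≤ (j + 1) * θ / M).card : ℝ) := by
    have h4 : (((range M).filter fun j : ℕ => ¬ u ≤ (j + 1) * θ / M).card : ℝ) ≤ x :=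
      le_trans (by exact_mod_cast h1) (Nat.floor_le hx0)
    have h5 : (((range M).filter fun j : ℕ => u ≤ (j + 1) * θ / M).card : ℝ) +
        (((range M).filter fun j : ℕ => ¬ u ≤ (j + 1) * θ / M).card : ℝ) = M := by exact_mod_cast h2
    linarith
  calc θ - u = θ / M * (M - x) := by rw [hx]; field_simp
    _ ≤ _ := mul_le_mul_of_nonneg_left h3 (by positivity)

theorem sum_gX_le (R : ℕ) {θ η : ℝ} (hθ : 0 < θ) (hη : 0 < η) : ∃ X0 : ℕ, ∀ X : ℕ, X0 ≤ X →
    ∑ p ∈ PX R X θ, gX X θ p / p ≤ θ ^ 2 / 2 + η := by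
  obtain ⟨C, hC⟩ := mertens_log
  have hC0 : 0 ≤ C := (abs_nonneg _).trans (hC 1 le_rfl)
  obtain ⟨M, hM⟩ := exists_nat_gt (θ ^ 2 / η)
  have hM0 : (0 : ℝ) < M := lt_of_le_of_lt (by positivity) hM
  have hM1 : 1 ≤ M := by exact_mod_cast hM0
  have hev : ∀ᶠ X : ℕ in Filter.atTop, 2 * (θ * C / η) ≤ Real.log X :=
    (Real.tendsto_log_atTop.comp tendsto_natCast_atTop_atTop).eventually_ge_atTop _
  obtain ⟨X1, hX1⟩ := Filter.eventually_atTop.1 hev
  refine ⟨max X1 2, fun X hX => ?_⟩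
  have hX2 : 2 ≤ X := (le_max_right _ _).trans hX
  have hlogC := hX1 X ((le_max_left _ _).trans hX)
  have hX0 : (0 : ℝ) < X := by exact_mod_cast (by omega : 0 < X)
  have hL : 0 < Real.log X := Real.log_pos (by exact_mod_cast hX2)
  have h1 : ∀ p ∈ PX R X θ, gX X θ p / p ≤ θ / (M * Real.log X) *
      ∑ j ∈ range M, if Real.log p / Real.log X ≤ (j + 1) * θ / M then Real.log p / p else 0 := by
    intro p hp
    rw [mem_PX hX2] at hp
    have hp0 : (0 : ℝ) < p := by exact_mod_cast hp.1.pos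
    have hlp : 0 ≤ Real.log p := Real.log_natCast_nonneg p
    have h2 := step_bound hθ (div_nonneg hlp hL.le) hp.2.2 M hM1
    rw [← Finset.sum_filter, Finset.sum_const, nsmul_eq_mul]
    unfold gX
    calc Real.log p / Real.log X * (θ - Real.log p / Real.log X) / p
        = (Real.log p / Real.log X / p) * (θ - Real.log p / Real.log X) := by ring
      _ ≤ (Real.log p / Real.log X / p) * (θ / M *
          (((range M).filter fun j : ℕ => Real.log p / Real.log X ≤ (j + 1) * θ / M).card : ℝ)) :=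
          mul_le_mul_of_nonneg_left h2 (by positivity)
      _ = _ := by field_simp
  have h2 : ∑ p ∈ PX R X θ, ∑ j ∈ range M,
      (if Real.log p / Real.log X ≤ (j + 1) * θ / M then Real.log p / p else 0) ≤
      ∑ j ∈ range M, ((j + 1) * θ / M * Real.log X + C) := by
    rw [Finset.sum_comm]
    refine Finset.sum_le_sum fun j _ => ?_
    rw [← Finset.sum_filter]
    set t : ℝ := (j + 1) * θ / M with ht
    have ht0 : 0 < t := by positivity
    have hone : (1 : ℝ) ≤ (X : ℝ) ^ t := Real.one_le_rpow (by exact_mod_cast (by omega : 1 ≤ X)) ht0.le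
    have hfl : 1 ≤ ⌊(X : ℝ) ^ t⌋₊ := (Nat.le_floor_iff (by positivity)).2 (by exact_mod_cast hone)
    have hsub : (PX R X θ).filter (fun p : ℕ => Real.log p / Real.log X ≤ t) ⊆ PP ⌊(X : ℝ) ^ t⌋₊ := by
      intro p hp
      rw [mem_filter, mem_PX hX2] at hp
      have : p ∈ PX R X t := (mem_PX hX2).2 ⟨hp.1.1, hp.1.2.1, hp.2⟩
      exact (mem_filter.1 this).1
    have h3 := (abs_le.1 (hC _ hfl)).2
    have h4 : Real.log (⌊(X : ℝ) ^ t⌋₊ : ℝ) ≤ t * Real.log X := by
      rw [← Real.log_rpow hX0]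
      exact Real.log_le_log (by exact_mod_cast hfl) (Nat.floor_le (by positivity))
    refine (Finset.sum_le_sum_of_subset_of_nonneg hsub fun p _ _ =>
      div_nonneg (Real.log_natCast_nonneg p) (Nat.cast_nonneg _)).trans ?_
    have h5 : ∑ p ∈ PP ⌊(X : ℝ) ^ t⌋₊, Real.log p / p =
      ∑ p ∈ (Finset.Icc 1 ⌊(X : ℝ) ^ t⌋₊).filter Nat.Prime, Real.log p / p := rfl
    linarith
  have h3 : ∑ j ∈ range M, (((j : ℝ) + 1) * θ / M * Real.log X + C) =
      θ * Real.log X * ((M : ℝ) + 1) / 2 + M * C := by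
    rw [Finset.sum_add_distrib, Finset.sum_const, card_range, nsmul_eq_mul]
    congr 1
    have h4 : ∑ j ∈ range M, ((j : ℝ) + 1) = M * (M + 1) / 2 := by
      have : ∀ n : ℕ, ∑ j ∈ range n, ((j : ℝ) + 1) = n * (n + 1) / 2 := by
        intro n
        induction n with
        | zero => simp
        | succ n ih => rw [Finset.sum_range_succ, ih]; push_cast; ring
      exact this M
    have h5 : ∀ j ∈ range M, ((j : ℝ) + 1) * θ / M * Real.log X =
        (θ / M * Real.log X) * ((j : ℝ) + 1) := by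
      intro j _; ring
    rw [Finset.sum_congr rfl h5, ← Finset.mul_sum, h4]
    field_simp
  calc ∑ p ∈ PX R X θ, gX X θ p / p ≤ ∑ p ∈ PX R X θ, θ / (M * Real.log X) *
      ∑ j ∈ range M, (if Real.log p / Real.log X ≤ (j + 1) * θ / M then Real.log p / p else 0) :=
        Finset.sum_le_sum h1
    _ = θ / (M * Real.log X) * ∑ p ∈ PX R X θ, ∑ j ∈ range M,
        (if Real.log p / Real.log X ≤ (j + 1) * θ / M then Real.log p / p else 0) := by
        rw [Finset.mul_sum]
    _ ≤ θ / (M * Real.log X) * (θ * Real.log X * ((M : ℝ) + 1) / 2 + M * C) := by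
        rw [← h3]
        exact mul_le_mul_of_nonneg_left h2 (by positivity)
    _ = θ ^ 2 / 2 + (θ ^ 2 / M / 2 + θ * C / Real.log X) := by field_simp; ring
    _ ≤ θ ^ 2 / 2 + η := by
        have e1 : θ ^ 2 / M ≤ η := by
          rw [div_le_iff₀ hM0]
          rw [div_lt_iff₀ hη] at hM
          linarith
        have e2 : θ * C / Real.log X ≤ η / 2 := by
          rw [div_le_iff₀ hL]
          have : 2 * (θ * C / η) * η ≤ Real.log X * η := mul_le_mul_of_nonneg_right hlogC hη.le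
          have e3 : 2 * (θ * C / η) * η = 2 * (θ * C) := by field_simp
          linarith
        linarith

end Pool.Agent.K9h7.SG
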