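import Pool.Agent.K9h7.SG.Linear1
import Pool.Agent.K9h7.SG.Means

/-!
# A linear exponent for most values of `q - r`
-/

set_option autoImplicit false

open Finset Polynomial Polynomial.Bivariate

namespace Pool.Agent.K9h7.SG

open Pool.Agent.R60.Steiner

theorem sum_lower {R X a : ℕ} {θ h : ℝ} (hX : 2 ≤ X) (hθ : 0 < θ)
    (ha : (X : ℝ) ^ (1 - h) ≤ a)
    (hdef : ∀ k ∈ range R, defect R (a + (k + 1)) ≤ h * Real.log X) :
    θ * (R * (1 - 2 * h)) - YY R (PX R X θ) (gX X θ) a ≤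
      ∑ k ∈ range R, ∑ p ∈ bigP R a (k + 1), (Real.log p / Real.log X) ^ 2 := by
  have hX0 : (0 : ℝ) < X := by exact_mod_cast (by omega : 0 < X)
  have hL : 0 < Real.log X := Real.log_pos (by exact_mod_cast hX)
  have h1 : θ * (R * (1 - 2 * h)) = ∑ k ∈ range R, θ * (1 - 2 * h) := by
    rw [Finset.sum_const, card_range, nsmul_eq_mul]; ring
  rw [h1]
  unfold YY
  rw [← Finset.sum_sub_distrib]
  refine Finset.sum_le_sum fun k hk => ?_
  -- the linear sum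
  have h2 : 1 - 2 * h ≤ ∑ p ∈ bigP R a (k + 1), Real.log p / Real.log X := by
    rw [← Finset.sum_div, le_div_iff₀ hL]
    have h3 := hdef k hk
    unfold defect at h3
    have h4 : (1 - h) * Real.log X ≤ Real.log ((a + (k + 1) : ℕ) : ℝ) := by
      rw [← Real.log_rpow hX0]
      refine Real.log_le_log (Real.rpow_pos_of_pos hX0 _) (ha.trans ?_)
      exact_mod_cast (by omega : a ≤ a + (k + 1))
    have h5 : ∑ p ∈ bigP R a (k + 1), Real.log p =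
      ∑ p ∈ (a + (k + 1)).primeFactors.filter (fun p => R < p), Real.log p := rfl
    rw [h5]
    linarith
  have h3 : ∑ p ∈ PX R X θ, (if p ∣ a + (k + 1) then gX X θ p else 0) =
      ∑ p ∈ bigP R a (k + 1), if Real.log p / Real.log X ≤ θ then gX X θ p else 0 := by
    rw [← Finset.sum_filter, ← Finset.sum_filter]
    refine Finset.sum_congr ?_ fun _ _ => rfl
    ext p
    rw [mem_filter, mem_filter, mem_PX hX, mem_bigP]
    constructor
    · rintro ⟨⟨h1, h2, h3⟩, h4⟩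
      exact ⟨⟨⟨h1, h4, by omega⟩, h2⟩, h3⟩
    · rintro ⟨⟨⟨h1, h4, _⟩, h2⟩, h3⟩
      exact ⟨⟨h1, h2, h3⟩, h4⟩
  rw [h3]
  have h4 : θ * ∑ p ∈ bigP R a (k + 1), Real.log p / Real.log X -
      ∑ p ∈ bigP R a (k + 1), (if Real.log p / Real.log X ≤ θ then gX X θ p else 0) ≤
      ∑ p ∈ bigP R a (k + 1), (Real.log p / Real.log X) ^ 2 := by
    rw [Finset.mul_sum, ← Finset.sum_sub_distrib]
    refine Finset.sum_le_sum fun p _ => ?_
    have h0 : 0 ≤ Real.log p / Real.log X := div_nonneg (Real.log_natCast_nonneg p) hL.le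
    split_ifs with h5
    · unfold gX
      nlinarith
    · push Not at h5
      nlinarith
  have h5 := mul_le_mul_of_nonneg_left h2 hθ.le
  linarith

/-- Chebyshev's inequality for `YY`. -/
theorem card_YY (R X : ℕ) (P : Finset ℕ) (g : ℕ → ℝ) (hP : ∀ p ∈ P, p.Prime ∧ R < p)
    (hg : ∀ p ∈ P, 0 ≤ g p) {s lam : ℝ} (hlam : 0 < lam) (hR : 1 ≤ R)
    (hs : ∑ p ∈ P, g p / p ≤ s) (hs1 : s ≤ 1) (hg1 : ∀ p ∈ P, g p ≤ 1) :
    (((Icc 1 X).filter fun a => R * s + R * lam ≤ YY R P g a).card : ℝ) ≤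
      X / (R * lam ^ 2) + 4 * (P.card + 1) ^ 2 / lam ^ 2 := by
  have hR0 : (1 : ℝ) ≤ R := by exact_mod_cast hR
  have h1 := second_moment R X P g hP hg
  set S1 := ∑ p ∈ P, g p / p with hS1
  have hS10 : 0 ≤ S1 := Finset.sum_nonneg fun p hp => div_nonneg (hg p hp) (Nat.cast_nonneg _)
  have hG0 : 0 ≤ ∑ p ∈ P, g p := Finset.sum_nonneg hg
  have hG : ∑ p ∈ P, g p ≤ P.card := by
    calc ∑ p ∈ P, g p ≤ ∑ p ∈ P, (1 : ℝ) := Finset.sum_le_sum hg1
      _ = P.card := by simp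
  have hG2 : ∑ p ∈ P, g p ^ 2 ≤ P.card := by
    calc ∑ p ∈ P, g p ^ 2 ≤ ∑ p ∈ P, (1 : ℝ) := Finset.sum_le_sum fun p hp => by
          nlinarith [hg p hp, hg1 p hp]
      _ = P.card := by simp
  have hS2 : ∑ p ∈ P, g p ^ 2 / p ≤ 1 := by
    refine le_trans (Finset.sum_le_sum fun p hp => ?_) (hs.trans hs1)
    refine div_le_div_of_nonneg_right ?_ (Nat.cast_nonneg _)
    nlinarith [hg p hp, hg1 p hp]
  have hC0 : (0 : ℝ) ≤ P.card := Nat.cast_nonneg _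
  have hS1' : S1 ≤ 1 := hs.trans hs1
  -- the right hand side
  have h2 : R * X * (∑ p ∈ P, g p ^ 2 / p) + R ^ 2 * (∑ p ∈ P, g p) ^ 2 +
      R * (∑ p ∈ P, g p ^ 2) + 2 * R ^ 2 * S1 * (∑ p ∈ P, g p) ≤
      R * X + 4 * R ^ 2 * ((P.card : ℝ) + 1) ^ 2 := by
    have e1 : R * X * (∑ p ∈ P, g p ^ 2 / p) ≤ R * X * 1 :=
      mul_le_mul_of_nonneg_left hS2 (by positivity)
    have e2 : (∑ p ∈ P, g p) ^ 2 ≤ (P.card : ℝ) ^ 2 := pow_le_pow_left₀ hG0 hG 2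
    have e3 : (R : ℝ) ^ 2 * (∑ p ∈ P, g p) ^ 2 ≤ R ^ 2 * (P.card : ℝ) ^ 2 :=
      mul_le_mul_of_nonneg_left e2 (by positivity)
    have e4 : (R : ℝ) * (∑ p ∈ P, g p ^ 2) ≤ R ^ 2 * P.card := by
      calc (R : ℝ) * (∑ p ∈ P, g p ^ 2) ≤ R * P.card := mul_le_mul_of_nonneg_left hG2 (by positivity)
        _ ≤ R ^ 2 * P.card := mul_le_mul_of_nonneg_right (by nlinarith) hC0
    have e5 : 2 * (R : ℝ) ^ 2 * S1 * (∑ p ∈ P, g p) ≤ 2 * R ^ 2 * P.card := by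
      have : S1 * (∑ p ∈ P, g p) ≤ 1 * P.card := mul_le_mul hS1' hG hG0 zero_le_one
      nlinarith [sq_nonneg (R : ℝ)]
    have e6 : (R : ℝ) ^ 2 * (P.card : ℝ) ^ 2 + R ^ 2 * P.card + 2 * R ^ 2 * P.card ≤
        4 * R ^ 2 * ((P.card : ℝ) + 1) ^ 2 := by
      have : 0 ≤ (R : ℝ) ^ 2 * (P.card : ℝ) := by positivity
      have : 0 ≤ (R : ℝ) ^ 2 * (P.card : ℝ) ^ 2 := by positivity
      nlinarith [sq_nonneg (R : ℝ)]
    linarith
  -- Chebyshev
  set A := (Icc 1 X).filter fun a => R * s + R * lam ≤ YY R P g a with hA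
  have h3 : (A.card : ℝ) * (R * lam) ^ 2 ≤ ∑ a ∈ Icc 1 X, (YY R P g a - R * S1) ^ 2 := by
    calc (A.card : ℝ) * (R * lam) ^ 2 = ∑ a ∈ A, (R * lam) ^ 2 := by
          rw [Finset.sum_const, nsmul_eq_mul]
      _ ≤ ∑ a ∈ A, (YY R P g a - R * S1) ^ 2 := by
          refine Finset.sum_le_sum fun a ha => ?_
          rw [hA, mem_filter] at ha
          refine pow_le_pow_left₀ (by positivity) ?_ 2
          have : R * S1 ≤ R * s := mul_le_mul_of_nonneg_left hs (by positivity)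
          linarith [ha.2]
      _ ≤ _ := Finset.sum_le_sum_of_subset_of_nonneg (Finset.filter_subset _ _) fun a _ _ => sq_nonneg _
  have h4 : (A.card : ℝ) * (R * lam) ^ 2 ≤ R * X + 4 * R ^ 2 * ((P.card : ℝ) + 1) ^ 2 :=
    h3.trans (h1.trans h2)
  have hpos : (0 : ℝ) < (R * lam) ^ 2 := by positivity
  rw [← le_div_iff₀ hpos] at h4
  refine h4.trans (le_of_eq ?_)
  field_simp

theorem card_PX (R X : ℕ) (θ : ℝ) (hX : 1 ≤ X) : ((PX R X θ).card : ℝ) ≤ (X : ℝ) ^ θ := by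
  unfold PX
  have h1 : ((Pool.Agent.Erdos456.Mert.PP ⌊(X : ℝ) ^ θ⌋₊).filter fun p => R < p).card ≤
      ⌊(X : ℝ) ^ θ⌋₊ := by
    refine (Finset.card_filter_le _ _).trans ((Finset.card_filter_le _ _).trans ?_)
    rw [Nat.card_Icc, Nat.add_sub_cancel]
  refine le_trans (by exact_mod_cast h1) (Nat.floor_le (by positivity))

end Pool.Agent.K9h7.SG
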