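import Pool.Agent.K9h7.SG.Linear2

/-!
# A linear exponent for most values of `q - r`: the main theorem
-/

set_option autoImplicit false

open Finset Polynomial Polynomial.Bivariate

namespace Pool.Agent.K9h7.SG

open Pool.Agent.R60.Steiner

/-- the values `a` of `q - r` for which there are `n`, `r` with `r ≥ R`, `q < n ≤ a ^ ν` and with
the divisibility condition for `(n, q, r)` -/
def excL (R : ℕ) (ν : ℝ) (a : ℕ) : Prop :=
  ∃ n r : ℕ, R ≤ r ∧ r + a < n ∧ (n : ℝ) ≤ (a : ℝ) ^ ν ∧ DivCond n (r + a) r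

theorem rpow_small {s κ : ℝ} (hs : s < 1) (hκ : 0 < κ) :
    ∀ᶠ X : ℕ in Filter.atTop, (X : ℝ) ^ s ≤ κ * X := by
  have h1 : Filter.Tendsto (fun X : ℕ => ((X : ℝ)) ^ (1 - s)) Filter.atTop Filter.atTop :=
    (tendsto_rpow_atTop (by linarith)).comp tendsto_natCast_atTop_atTop
  filter_upwards [h1.eventually_ge_atTop (1 / κ), Filter.eventually_ge_atTop 1] with X h2 h3
  have hX : (0 : ℝ) < X := by exact_mod_cast h3
  have h4 : (X : ℝ) = (X : ℝ) ^ (1 - s) * (X : ℝ) ^ s := by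
    rw [← Real.rpow_add hX]; simp
  have h5 : (0 : ℝ) < (X : ℝ) ^ s := Real.rpow_pos_of_pos hX s
  calc (X : ℝ) ^ s = κ * (1 / κ * (X : ℝ) ^ s) := by field_simp
    _ ≤ κ * ((X : ℝ) ^ (1 - s) * (X : ℝ) ^ s) :=
        mul_le_mul_of_nonneg_left (mul_le_mul_of_nonneg_right h2 h5.le) hκ.le
    _ = κ * X := by rw [← h4]

open Classical in
theorem linear_fixed {ε : ℝ} (hε : 0 < ε) (hε4 : ε ≤ 1 / 4) (R : ℕ) (hR : 2 ≤ R) :
    ∃ X0 : ℕ, ∀ X : ℕ, X0 ≤ X →
      (((Icc 1 X).filter fun a => excL R ((3 / 8 - ε) * R) a).card : ℝ) ≤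
        3 / (R * (ε / 16) ^ 2) * X := by
  have hR0 : (0 : ℝ) < R := by exact_mod_cast (by omega : 0 < R)
  have hR1 : (1 : ℝ) ≤ R := by exact_mod_cast (by omega : 1 ≤ R)
  set θ : ℝ := 1 / 2 - ε / 8 with hθ
  set h : ℝ := ε / 16 with hh
  set ν : ℝ := (3 / 8 - ε) * R with hν
  have hθ0 : 0 < θ := by rw [hθ]; linarith
  have hh0 : 0 < h := by positivity
  have hν0 : 0 < ν := mul_pos (by linarith) hR0
  set B : ℝ := 1 / (R * h ^ 2) with hB
  have hB0 : 0 < B := by positivity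
  obtain ⟨𝓖, X1, hG, hcore⟩ := core2 R ν (ε / 2 * R) hν0 (by positivity)
  have hk : ∀ G : ℤ[X][Y], ∃ N : ℕ, G ∈ 𝓖 → G.natDegree < 2 → ∀ a b r : ℕ, N ≤ a → R ≤ r →
      NoCarry a b r → 0 < b → (b : ℝ) ≤ (a : ℝ) ^ ν →
      evalEval (a : ℤ) (b : ℤ) G ≠ 0 := by
    intro G
    by_cases h : G ∈ 𝓖 ∧ G.natDegree < 2
    · obtain ⟨N, hN⟩ := kill3 (hG G h.1) hR hν0.le (by rw [hν]; nlinarith) h.2
      exact ⟨N, fun _ _ => hN⟩
    · exact ⟨0, fun h1 h2 => absurd ⟨h1, h2⟩ h⟩
  choose Nf hNf using hk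
  obtain ⟨C1, c1, hC1, hc1, hc11, hcount⟩ := count_family ⌈ν⌉₊ (Nat.one_le_ceil_iff.2 hν0)
    (𝓖.filter fun G => 2 ≤ G.natDegree) (by
      intro G h
      rw [mem_filter] at h
      exact ⟨hG G h.1, h.2⟩)
  obtain ⟨C2, hC20, hC2⟩ := sum_defect R
  obtain ⟨X2, hX2⟩ := sum_gX_le R (θ := θ) (η := h) hθ0 hh0
  set N0 := 𝓖.sup Nf with hN0
  -- the small terms
  have hlogX : Filter.Tendsto (fun X : ℕ => Real.log (X : ℝ)) Filter.atTop Filter.atTop :=
    Real.tendsto_log_atTop.comp tendsto_natCast_atTop_atTop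
  have ev1 := rpow_small (s := 1 - h) (κ := B / 8) (by linarith) (by positivity)
  have ev2 := rpow_small (s := 2 * θ) (κ := B * h ^ 2 / 128) (by rw [hθ]; linarith) (by positivity)
  have ev3 := rpow_small (s := 1 - c1) (κ := B / (8 * C1)) (by linarith) (by positivity)
  have ev4 : ∀ᶠ X : ℕ in Filter.atTop, 16 * R * C2 / (B * h) ≤ Real.log X :=
    hlogX.eventually_ge_atTop _
  have ev5 : ∀ᶠ X : ℕ in Filter.atTop, 8 * (N0 : ℝ) / B ≤ X :=
    tendsto_natCast_atTop_atTop.eventually_ge_atTop _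
  obtain ⟨X3, hX3⟩ := Filter.eventually_atTop.1 (ev1.and (ev2.and (ev3.and (ev4.and ev5))))
  refine ⟨max (max X1 X2) (max X3 (R + 2)), fun X hX => ?_⟩
  have hXX1 : X1 ≤ X := ((le_max_left _ _).trans (le_max_left _ _)).trans hX
  have hXX2 : X2 ≤ X := ((le_max_right _ _).trans (le_max_left _ _)).trans hX
  have hXX3 : X3 ≤ X := ((le_max_left _ _).trans (le_max_right _ _)).trans hX
  have hXR : R + 2 ≤ X := ((le_max_right _ _).trans (le_max_right _ _)).trans hX
  obtain ⟨t1, t2, t3, t4, t5⟩ := hX3 X hXX3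
  have hX0 : (0 : ℝ) < X := by exact_mod_cast (by omega : 0 < X)
  have hX1' : (1 : ℝ) ≤ X := by exact_mod_cast (by omega : 1 ≤ X)
  have hL : 0 < Real.log X := Real.log_pos (by exact_mod_cast (by omega : 1 < X))
  -- the exceptional sets
  set S1 := range N0 with hS1
  set S2 := range ⌈(X : ℝ) ^ (1 - h)⌉₊ with hS2
  set S3 := (range R).biUnion fun k => (Icc 1 X).filter fun a =>
    h * Real.log X < defect R (a + (k + 1)) with hS3
  set S4 := (Icc 1 X).filter fun a => R * (θ ^ 2 / 2 + h) + R * h ≤ YY R (PX R X θ) (gX X θ) a with hS4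
  set S5 := curvePts (𝓖.filter fun G => 2 ≤ G.natDegree) ⌈ν⌉₊ X with hS5
  have hsub : ((Icc 1 X).filter fun a => excL R ν a) ⊆ S1 ∪ (S2 ∪ (S3 ∪ (S4 ∪ S5))) := by
    intro a ha
    rw [mem_filter, mem_Icc] at ha
    obtain ⟨⟨ha1, haX⟩, n, r, hr, hn, hnν, hD⟩ := ha
    rw [mem_union, mem_union, mem_union, mem_union]
    by_contra hcon
    push Not at hcon
    obtain ⟨n1, n2, n3, n4, n5⟩ := hcon
    rw [hS1, mem_range] at n1
    rw [hS2, mem_range] at n2
    push Not at n1 n2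
    have e2 : (X : ℝ) ^ (1 - h) ≤ a := (Nat.le_ceil _).trans (by exact_mod_cast n2)
    have e3 : ∀ k ∈ range R, defect R (a + (k + 1)) ≤ h * Real.log X := by
      intro k hk
      by_contra hc
      push Not at hc
      apply n3
      rw [hS3, mem_biUnion]
      exact ⟨k, hk, mem_filter.2 ⟨mem_Icc.2 ⟨ha1, haX⟩, hc⟩⟩
    have e4 : YY R (PX R X θ) (gX X θ) a < R * (θ ^ 2 / 2 + h) + R * h := by
      by_contra hc
      push Not at hc
      exact n4 (mem_filter.2 ⟨mem_Icc.2 ⟨ha1, haX⟩, hc⟩)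
    have e5 := sum_lower (R := R) (by omega : 2 ≤ X) hθ0 e2 e3
    have ha1' : (1 : ℝ) ≤ a := by exact_mod_cast ha1
    have haX' : (a : ℝ) ≤ X := by exact_mod_cast haX
    have hnc := noCarry_of_div (n := n) (q := r + a) (r := r) (by omega) hn.le hD
    rw [Nat.add_sub_cancel_left] at hnc
    have hb1 : ((n - (r + a) : ℕ) : ℝ) ≤ (a : ℝ) ^ ν :=
      le_trans (by exact_mod_cast Nat.sub_le _ _) hnν
    have hb2 : ((n - (r + a) : ℕ) : ℝ) ≤ (X : ℝ) ^ ν :=
      hb1.trans (Real.rpow_le_rpow (by positivity) haX' hν0.le)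
    have hsum : ν + ε / 2 * R ≤
        ∑ k ∈ range R, ∑ p ∈ bigP R a (k + 1), (Real.log p / Real.log X) ^ 2 := by
      refine le_trans ?_ e5
      have e6 : ν + ε / 2 * R ≤ R * (θ * (1 - 2 * h) - (θ ^ 2 / 2 + h) - h) := by
        have : ν + ε / 2 * R = R * (3 / 8 - ε / 2) := by rw [hν]; ring
        rw [this]
        refine mul_le_mul_of_nonneg_left ?_ hR0.le
        rw [hθ, hh]
        nlinarith
      nlinarith
    obtain ⟨G, hGm, hG0⟩ := hcore X a (n - (r + a)) r hXX1 haX ha1 hr hnc hb2 hsum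
    apply n5
    rw [hS5]
    unfold curvePts
    rw [mem_filter, mem_Icc]
    refine ⟨⟨ha1, haX⟩, G, ?_, n - (r + a), ?_, hG0⟩
    · rw [mem_filter]
      refine ⟨hGm, ?_⟩
      by_contra hcon
      push Not at hcon
      exact hNf G hGm hcon a _ r ((Finset.le_sup hGm).trans n1) hr hnc (by omega) hb1 hG0
    · have h1 : ((n - (r + a) : ℕ) : ℝ) ≤ ((X ^ ⌈ν⌉₊ : ℕ) : ℝ) := by
        refine hb2.trans ?_
        calc (X : ℝ) ^ ν ≤ (X : ℝ) ^ (⌈ν⌉₊ : ℝ) :=
              Real.rpow_le_rpow_of_exponent_le hX1' (Nat.le_ceil _)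
          _ = (X : ℝ) ^ ⌈ν⌉₊ := Real.rpow_natCast _ _
          _ = _ := by push_cast; rfl
      exact_mod_cast h1
  -- the cardinalities
  have b1 : (S1.card : ℝ) ≤ B / 8 * X := by
    rw [hS1, card_range]
    rw [div_le_iff₀ hB0] at t5
    linarith
  have b2 : (S2.card : ℝ) ≤ B / 4 * X := by
    rw [hS2, card_range]
    have h1 := (Nat.ceil_lt_add_one (Real.rpow_nonneg hX0.le (1 - h))).le
    have h2 : (1 : ℝ) ≤ (X : ℝ) ^ (1 - h) := Real.one_le_rpow hX1' (by rw [hh]; linarith)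
    linarith
  have b3 : (S3.card : ℝ) ≤ B / 4 * X := by
    have h1 : ∀ k ∈ range R, (((Icc 1 X).filter fun a =>
        h * Real.log X < defect R (a + (k + 1))).card : ℝ) ≤ C2 * (X + R) / (h * Real.log X) := by
      intro k hk
      rw [mem_range] at hk
      have hpos : 0 < h * Real.log X := by positivity
      rw [le_div_iff₀ hpos]
      calc (((Icc 1 X).filter fun a => h * Real.log X < defect R (a + (k + 1))).card : ℝ) *
            (h * Real.log X)
          = ∑ a ∈ (Icc 1 X).filter fun a => h * Real.log X < defect R (a + (k + 1)),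
              h * Real.log X := by rw [Finset.sum_const, nsmul_eq_mul]
        _ ≤ ∑ a ∈ (Icc 1 X).filter fun a => h * Real.log X < defect R (a + (k + 1)),
              defect R (a + (k + 1)) :=
            Finset.sum_le_sum fun a ha => (mem_filter.1 ha).2.le
        _ ≤ ∑ a ∈ Icc 1 X, defect R (a + (k + 1)) :=
            Finset.sum_le_sum_of_subset_of_nonneg (Finset.filter_subset _ _) fun a _ _ =>
              defect_nonneg R (by omega)
        _ = ∑ m ∈ (Icc 1 X).image (fun a => a + (k + 1)), defect R m := by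
            rw [Finset.sum_image (by intro a _ b _ hab; exact Nat.add_right_cancel hab)]
        _ ≤ ∑ m ∈ Icc 1 (X + R), defect R m := by
            refine Finset.sum_le_sum_of_subset_of_nonneg ?_ fun m hm _ => ?_
            · intro m hm
              rw [mem_image] at hm
              obtain ⟨a, ha, rfl⟩ := hm
              rw [mem_Icc] at ha ⊢
              omega
            · rw [mem_Icc] at hm
              exact defect_nonneg R (by omega)
        _ ≤ C2 * ((X + R : ℕ) : ℝ) := hC2 (X + R) (by omega)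
        _ = C2 * (X + R) := by push_cast; rfl
    have h2 : (S3.card : ℝ) ≤ R * (C2 * (X + R) / (h * Real.log X)) := by
      calc (S3.card : ℝ) ≤ ∑ k ∈ range R, (((Icc 1 X).filter fun a =>
            h * Real.log X < defect R (a + (k + 1))).card : ℝ) := by
            rw [hS3]
            exact_mod_cast Finset.card_biUnion_le
        _ ≤ ∑ k ∈ range R, C2 * (X + R) / (h * Real.log X) := Finset.sum_le_sum h1
        _ = R * (C2 * (X + R) / (h * Real.log X)) := by
            rw [Finset.sum_const, card_range, nsmul_eq_mul]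
    refine h2.trans ?_
    have h3 : (X : ℝ) + R ≤ 2 * X := by
      have : (R : ℝ) ≤ X := by exact_mod_cast (by omega : R ≤ X)
      linarith
    rw [div_le_iff₀ (by positivity)] at t4
    calc (R : ℝ) * (C2 * (X + R) / (h * Real.log X)) ≤ R * (C2 * (2 * X) / (h * Real.log X)) := by
          refine mul_le_mul_of_nonneg_left ?_ hR0.le
          exact div_le_div_of_nonneg_right (mul_le_mul_of_nonneg_left h3 hC20) (by positivity)
      _ = (16 * R * C2) * (X / (8 * (h * Real.log X))) := by field_simp; ring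
      _ ≤ (Real.log X * (B * h)) * (X / (8 * (h * Real.log X))) :=
          mul_le_mul_of_nonneg_right t4 (by positivity)
      _ = B / 8 * X := by field_simp
      _ ≤ B / 4 * X := by nlinarith
  have b4 : (S4.card : ℝ) ≤ B * X + B / 4 * X := by
    have hg2 : θ ^ 2 / 4 ≤ 1 := by rw [hθ]; nlinarith
    have h1 := card_YY R X (PX R X θ) (gX X θ) (fun p hp => by
      rw [mem_PX (by omega)] at hp
      exact ⟨hp.1, hp.2.1⟩) (fun p hp => gX_nonneg (by omega) hp) (s := θ ^ 2 / 2 + h) (lam := h)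
      hh0 (by omega) (hX2 X hXX2) (by rw [hθ, hh]; nlinarith) (fun p _ => (gX_le X p).trans hg2)
    refine h1.trans ?_
    have h2 := card_PX R X θ (by omega)
    have h3 : (1 : ℝ) ≤ (X : ℝ) ^ θ := Real.one_le_rpow hX1' hθ0.le
    have h4 : (((PX R X θ).card : ℝ) + 1) ^ 2 ≤ 4 * (X : ℝ) ^ (2 * θ) := by
      have e : (X : ℝ) ^ (2 * θ) = ((X : ℝ) ^ θ) ^ 2 := by
        rw [mul_comm, Real.rpow_mul hX0.le]
        norm_cast
      rw [e]
      have : ((PX R X θ).card : ℝ) + 1 ≤ 2 * (X : ℝ) ^ θ := by linarith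
      calc (((PX R X θ).card : ℝ) + 1) ^ 2 ≤ (2 * (X : ℝ) ^ θ) ^ 2 :=
            pow_le_pow_left₀ (by positivity) this 2
        _ = _ := by ring
    have h5 : 4 * (((PX R X θ).card : ℝ) + 1) ^ 2 / h ^ 2 ≤ B / 4 * X := by
      rw [div_le_iff₀ (by positivity)]
      calc 4 * (((PX R X θ).card : ℝ) + 1) ^ 2 ≤ 4 * (4 * (X : ℝ) ^ (2 * θ)) := by linarith
        _ ≤ 4 * (4 * (B * h ^ 2 / 128 * X)) := by linarith
        _ ≤ B / 4 * X * h ^ 2 := by
            have : 0 ≤ B * h ^ 2 * X := by positivity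
            nlinarith
    have h6 : (X : ℝ) / (R * h ^ 2) = B * X := by rw [hB]; ring
    linarith
  have b5 : (S5.card : ℝ) ≤ B / 8 * X := by
    refine (hcount X (by omega)).trans ?_
    calc C1 * (X : ℝ) ^ (1 - c1) ≤ C1 * (B / (8 * C1) * X) := mul_le_mul_of_nonneg_left t3 hC1.le
      _ = B / 8 * X := by field_simp
  have htot : (((Icc 1 X).filter fun a => excL R ν a).card : ℝ) ≤
      S1.card + (S2.card + (S3.card + (S4.card + S5.card))) := by
    have h1 := card_le_card hsub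
    have h2 := card_union_le S1 (S2 ∪ (S3 ∪ (S4 ∪ S5)))
    have h3 := card_union_le S2 (S3 ∪ (S4 ∪ S5))
    have h4 := card_union_le S3 (S4 ∪ S5)
    have h5 := card_union_le S4 S5
    have : ((Icc 1 X).filter fun a => excL R ν a).card ≤
      S1.card + (S2.card + (S3.card + (S4.card + S5.card))) := by omega
    exact_mod_cast this
  have hfin : (3 : ℝ) / (R * h ^ 2) * X = 3 * B * X := by rw [hB]; ring
  rw [hfin]
  have : 0 ≤ B * X := by positivity
  nlinarith

open Classical in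
theorem linear_main (ε : ℝ) (hε : 0 < ε) : ∃ C : ℝ, ∀ R : ℕ, 1 ≤ R → ∃ X0 : ℕ, ∀ X : ℕ,
    X0 ≤ X → (((Icc 1 X).filter fun a => excL R ((3 / 8 - ε) * R) a).card : ℝ) ≤
      C / R * X := by
  set ε' := min ε (1 / 4) with hε'
  have h0 : 0 < ε' := lt_min hε (by norm_num)
  have h4 : ε' ≤ 1 / 4 := min_le_right _ _
  refine ⟨3 / (ε' / 16) ^ 2, fun R hR => ?_⟩
  have hR0 : (0 : ℝ) < R := by exact_mod_cast hR
  have hC1 : (1 : ℝ) ≤ 3 / (ε' / 16) ^ 2 := by
    rw [le_div_iff₀ (by positivity)]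
    nlinarith
  rcases Nat.lt_or_ge R 2 with h2 | h2
  · have : R = 1 := by omega
    subst this
    refine ⟨0, fun X _ => ?_⟩
    have h1 : ((Icc 1 X).filter fun a => excL 1 ((3 / 8 - ε) * (1 : ℕ)) a).card ≤ X := by
      refine (Finset.card_filter_le _ _).trans ?_
      rw [Nat.card_Icc, Nat.add_sub_cancel]
    calc (((Icc 1 X).filter fun a => excL 1 ((3 / 8 - ε) * (1 : ℕ)) a).card : ℝ) ≤ X := by
          exact_mod_cast h1
      _ = 1 * X := (one_mul _).symm
      _ ≤ 3 / (ε' / 16) ^ 2 / (1 : ℕ) * X := by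
          refine mul_le_mul_of_nonneg_right ?_ (Nat.cast_nonneg _)
          rw [Nat.cast_one, div_one]
          exact hC1
  · obtain ⟨X0, hX0⟩ := linear_fixed h0 h4 R h2
    refine ⟨X0, fun X hX => ?_⟩
    have h5 := hX0 X hX
    have h6 : (3 : ℝ) / (ε' / 16) ^ 2 / R = 3 / (R * (ε' / 16) ^ 2) := by
      rw [div_div, mul_comm]
    rw [h6]
    refine le_trans (Nat.cast_le.2 (card_le_card ?_)) h5
    intro a ha
    rw [mem_filter, mem_Icc] at ha ⊢
    obtain ⟨h7, n, r, h8, h9, h10, h11⟩ := ha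
    refine ⟨h7, n, r, h8, h9, h10.trans ?_, h11⟩
    refine Real.rpow_le_rpow_of_exponent_le (by exact_mod_cast h7.1) ?_
    exact mul_le_mul_of_nonneg_right (by linarith [min_le_left ε (1 / 4)]) hR0.le

end Pool.Agent.K9h7.SG
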