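import Pool.Agent.K9h7.SG.Cases
import Pool.Agent.K9h7.SG.Curve4
import Pool.Agent.R60.Steiner.Basic

/-!
# Rows: what the divisibility condition says about zeros of a polynomial
-/

set_option autoImplicit false

open Finset Polynomial Polynomial.Bivariate

namespace Pool.Agent.K9h7.SG

open Pool.Agent.R60.Steiner

/-- A polynomial with `0 ≤ Q(-k)/d < k` for `k ≤ R` and of small degree is trivial. -/
theorem class_small {d : ℤ} (hd : d ≠ 0) (Q : ℤ[X]) (R : ℕ) (hR : 2 ≤ R)
    (hrow : ∀ k : ℕ, 1 ≤ k → k ≤ R → ∃ i : ℕ, i < k ∧ Q.eval (-(k : ℤ)) = d * i)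
    (hdeg : Q.natDegree ≤ 1 ∨ 3 * (Q.natDegree - 1) + 2 ≤ R) :
    Q = 0 ∨ Q = -C d * (X + 1) := by
  rcases Nat.lt_or_ge Q.natDegree 2 with h2 | h2
  · have hQ := eq_X_add_C_of_natDegree_le_one (p := Q) (by omega)
    obtain ⟨i, hi, h1⟩ := hrow 1 le_rfl (by omega)
    obtain ⟨j, hj, h2⟩ := hrow 2 (by omega) hR
    have hi0 : i = 0 := by omega
    subst hi0
    rw [hQ] at h1 h2
    simp only [eval_add, eval_mul, eval_C, eval_X] at h1 h2
    push_cast at h1 h2
    have e1 : Q.coeff 0 = Q.coeff 1 := by linarith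
    rw [e1] at h2
    have hj2 : j = 0 ∨ j = 1 := by omega
    rcases hj2 with rfl | rfl
    · left
      have : Q.coeff 1 = 0 := by push_cast at h2; linarith
      rw [hQ, e1, this]; simp
    · right
      have : Q.coeff 1 = -d := by push_cast at h2; linarith
      rw [hQ, e1, this]; simp; ring
  · exfalso
    have h3 : 3 * (Q.natDegree - 1) + 2 ≤ R := by
      rcases hdeg with h | h
      · omega
      · exact h
    obtain ⟨m, hm⟩ : ∃ m, Q.natDegree = m + 2 := ⟨Q.natDegree - 2, by omega⟩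
    have := classify hd Q R hrow 3 (List.replicate m 3) (by rw [List.length_replicate, hm])
      (by rw [List.sum_replicate, smul_eq_mul]; omega) (by omega)
    rw [List.prod_replicate, List.length_replicate, hm] at this
    have key : ∀ m : ℕ, (m + 2) * 2 ^ m < 3 * 3 ^ m := by
      intro m
      induction m with
      | zero => norm_num
      | succ m ih =>
        rw [pow_succ, pow_succ]
        nlinarith [Nat.pow_le_pow_left (show 2 ≤ 3 by norm_num) m, Nat.one_le_two_pow (n := m)]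
    exact absurd this (not_le.2 (key m))

theorem noCarry_mono {a b r r' : ℕ} (h : NoCarry a b r) (hr : r' ≤ r) : NoCarry a b r' :=
  fun p e hp he hle => h p e hp he (by omega)

/-- the residue of `b` modulo the prime power divisors of `a + k` -/
theorem mod_lt_of_noCarry {a b r k p e : ℕ} (h : NoCarry a b r) (hp : p.Prime) (hk : 1 ≤ k)
    (hkr : k ≤ r) (hkP : k < p ^ e) (hdvd : p ^ e ∣ a + k) : b % p ^ e < k := by
  have he : 0 < e := by
    rcases Nat.eq_zero_or_pos e with rfl | he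
    · rw [pow_zero] at hkP; omega
    · exact he
  set P := p ^ e with hP
  obtain ⟨c, hc⟩ := hdvd
  have hPpos : 0 < P := by omega
  have hc0 : 0 < c := by
    rcases Nat.eq_zero_or_pos c with rfl | h0
    · omega
    · exact h0
  obtain ⟨c', rfl⟩ : ∃ c', c = c' + 1 := ⟨c - 1, by omega⟩
  have ha : a = P * c' + (P - k) := by
    have : P * (c' + 1) = P * c' + P := by ring
    omega
  have hdiv : a / P = c' := by
    rw [ha, Nat.mul_add_div hPpos, Nat.div_eq_of_lt (by omega)]; omega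
  have hmod : a % P = P - k := by
    rw [ha, Nat.mul_add_mod, Nat.mod_eq_of_lt (by omega)]
  have := h p e hp he (by rw [← hP, hdiv, ← hc]; omega)
  rw [← hP, hmod] at this
  omega

/-- **Row lemma.** If the zero set of `G` misses the lattice points of one row then `a` is
bounded. -/
theorem row_bound {G : ℤ[X][Y]} {a b r k : ℕ} (hnc : NoCarry a b r) (hk : 1 ≤ k) (hkr : k ≤ r)
    (hG : evalEval (a : ℤ) (b : ℤ) G = 0)
    (hrow : ∀ i : ℕ, i < k → evalEval (-(k : ℤ)) (i : ℤ) G ≠ 0) :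
    a + k ≤ k.factorial * ∏ i ∈ range k, (evalEval (-(k : ℤ)) (i : ℤ) G).natAbs := by
  have hpos : 0 < k.factorial * ∏ i ∈ range k, (evalEval (-(k : ℤ)) (i : ℤ) G).natAbs := by
    refine Nat.mul_pos (Nat.factorial_pos _) (Finset.prod_pos fun i hi => ?_)
    rw [mem_range] at hi
    exact Int.natAbs_pos.2 (hrow i hi)
  refine Nat.le_of_dvd hpos ?_
  rw [Nat.dvd_iff_prime_pow_dvd_dvd]
  intro p e hp hdvd
  rcases Nat.lt_or_ge k (p ^ e) with hlt | hge
  · have hi := mod_lt_of_noCarry hnc hp hk hkr hlt hdvd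
    refine Dvd.dvd.mul_left (Dvd.dvd.trans ?_ (Finset.dvd_prod_of_mem _ (mem_range.2 hi))) _
    rw [← Int.natCast_dvd]
    have h1 : ((p ^ e : ℕ) : ℤ) ∣ (a : ℤ) - (-(k : ℤ)) := by
      rw [sub_neg_eq_add]; exact_mod_cast hdvd
    have h2 : ((p ^ e : ℕ) : ℤ) ∣ (b : ℤ) - ((b % p ^ e : ℕ) : ℤ) := by
      rw [← Nat.cast_sub (Nat.mod_le _ _)]
      exact_mod_cast Nat.dvd_sub_mod b
    have h3 := evalEval_congr _ G h1 h2
    rw [hG, zero_sub, dvd_neg] at h3
    exact h3
  · exact Dvd.dvd.mul_right (Nat.dvd_factorial (pow_pos hp.pos e) hge) _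

end Pool.Agent.K9h7.SG
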