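import Mathlib
import Pool.Agent.Erdos456.Mertens

/-!
# A second moment bound for additive functions on short intervals, and mean values
-/

set_option autoImplicit false

open Finset

namespace Pool.Agent.K9h7.SG

/-- a set of integers of one residue class -/
theorem card_class_le (m X : ℕ) (_hm : 0 < m) (S : Finset ℕ) (hS : ∀ a ∈ S, a ≤ X)
    (hc : ∀ a ∈ S, ∀ b ∈ S, a % m = b % m) : (S.card : ℝ) ≤ X / m + 1 := by
  have h1 : S.card ≤ (range (X / m + 1)).card := by
    refine Finset.card_le_card_of_injOn (fun a => a / m) ?_ ?_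
    · intro a ha
      rw [mem_coe, mem_range]
      exact Nat.lt_succ_of_le (Nat.div_le_div_right (hS a ha))
    · intro a ha b hb hab
      have h2 := hc a ha b hb
      have h3 : a / m = b / m := hab
      rw [← Nat.div_add_mod a m, ← Nat.div_add_mod b m, h2, h3]
  rw [card_range] at h1
  calc (S.card : ℝ) ≤ ((X / m + 1 : ℕ) : ℝ) := by exact_mod_cast h1
    _ = ((X / m : ℕ) : ℝ) + 1 := by push_cast; rfl
    _ ≤ X / m + 1 := by linarith [@Nat.cast_div_le ℝ _ _ _ X m]

theorem count_one_le {p k X : ℕ} (hp : 0 < p) :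
    (#{a ∈ Icc 1 X | p ∣ a + k} : ℝ) ≤ X / p + 1 := by
  refine card_class_le p X hp _ (fun a ha => (mem_Icc.1 (mem_filter.1 ha).1).2) ?_
  intro a ha b hb
  have h1 := (mem_filter.1 ha).2
  have h2 := (mem_filter.1 hb).2
  have h3 : a + k ≡ b + k [MOD p] :=
    ((Nat.modEq_zero_iff_dvd.2 h1).trans (Nat.modEq_zero_iff_dvd.2 h2).symm)
  exact Nat.ModEq.add_right_cancel' k h3

theorem count_two_le {p p' k k' X : ℕ} (hp : 0 < p) (hp' : 0 < p') (hc : Nat.Coprime p p') :
    (#{a ∈ Icc 1 X | p ∣ a + k ∧ p' ∣ a + k'} : ℝ) ≤ X / (p * p' : ℕ) + 1 := by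
  refine card_class_le (p * p') X (Nat.mul_pos hp hp') _
    (fun a ha => (mem_Icc.1 (mem_filter.1 ha).1).2) ?_
  intro a ha b hb
  have h1 := (mem_filter.1 ha).2
  have h2 := (mem_filter.1 hb).2
  have h3 : a ≡ b [MOD p] := Nat.ModEq.add_right_cancel' k
    ((Nat.modEq_zero_iff_dvd.2 h1.1).trans (Nat.modEq_zero_iff_dvd.2 h2.1).symm)
  have h4 : a ≡ b [MOD p'] := Nat.ModEq.add_right_cancel' k'
    ((Nat.modEq_zero_iff_dvd.2 h1.2).trans (Nat.modEq_zero_iff_dvd.2 h2.2).symm)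
  exact (Nat.modEq_and_modEq_iff_modEq_mul hc).1 ⟨h3, h4⟩

theorem le_count_one {p k X : ℕ} (hkp : k < p) :
    (X : ℝ) / p - 1 ≤ (#{a ∈ Icc 1 X | p ∣ a + k} : ℝ) := by
  have h1 : #{a ∈ Icc 1 X | p ∣ a + k} = (X + k) / p := by
    rw [← Nat.Ioc_filter_dvd_card_eq_div (X + k) p]
    refine Finset.card_bij (fun a _ => a + k) ?_ ?_ ?_
    · intro a ha
      rw [mem_filter, mem_Icc] at ha
      rw [mem_filter, mem_Ioc]
      exact ⟨⟨by omega, by omega⟩, ha.2⟩
    · intro a _ b _ h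
      omega
    · intro m hm
      rw [mem_filter, mem_Ioc] at hm
      have : p ≤ m := Nat.le_of_dvd hm.1.1 hm.2
      refine ⟨m - k, ?_, by omega⟩
      rw [mem_filter, mem_Icc]
      refine ⟨by omega, ?_⟩
      rw [Nat.sub_add_cancel (by omega)]
      exact hm.2
  rw [h1]
  have hp : 0 < p := by omega
  have h2 : X + k < p * ((X + k) / p + 1) := Nat.lt_mul_div_succ _ hp
  have h3 : (X : ℝ) < p * (((X + k) / p : ℕ) + 1) := by
    have : X < p * ((X + k) / p + 1) := by omega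
    exact_mod_cast this
  have hp0 : (0 : ℝ) < p := by exact_mod_cast hp
  rw [sub_le_iff_le_add, div_le_iff₀ hp0]
  linarith

/-- the additive function -/
noncomputable def YY (R : ℕ) (P : Finset ℕ) (g : ℕ → ℝ) (a : ℕ) : ℝ :=
  ∑ k ∈ range R, ∑ p ∈ P, if p ∣ a + (k + 1) then g p else 0

theorem second_moment (R X : ℕ) (P : Finset ℕ) (g : ℕ → ℝ) (hP : ∀ p ∈ P, p.Prime ∧ R < p)
    (hg : ∀ p ∈ P, 0 ≤ g p) :
    ∑ a ∈ Icc 1 X, (YY R P g a - R * ∑ p ∈ P, g p / p) ^ 2 ≤
      R * X * (∑ p ∈ P, g p ^ 2 / p) + R ^ 2 * (∑ p ∈ P, g p) ^ 2 + R * (∑ p ∈ P, g p ^ 2) +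
        2 * R ^ 2 * (∑ p ∈ P, g p / p) * (∑ p ∈ P, g p) := by
  classical
  set S1 := ∑ p ∈ P, g p / p with hS1
  set G := ∑ p ∈ P, g p with hG
  set e : ℕ → ℕ × ℕ → ℝ := fun a x => if x.2 ∣ a + (x.1 + 1) then g x.2 else 0 with he
  set I := range R ×ˢ P with hI
  have hY : ∀ a, YY R P g a = ∑ x ∈ I, e a x := by
    intro a
    rw [hI, Finset.sum_product]
    rfl
  have hS10 : 0 ≤ S1 := Finset.sum_nonneg fun p hp => div_nonneg (hg p hp) (Nat.cast_nonneg _)
  have hG0 : 0 ≤ G := Finset.sum_nonneg hg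
  -- the first moment
  have hfirst : R * (X * S1 - G) ≤ ∑ a ∈ Icc 1 X, YY R P g a := by
    have h1 : ∑ a ∈ Icc 1 X, YY R P g a = ∑ k ∈ range R, ∑ p ∈ P,
        g p * (#{a ∈ Icc 1 X | p ∣ a + (k + 1)} : ℝ) := by
      unfold YY
      rw [Finset.sum_comm]
      refine Finset.sum_congr rfl fun k _ => ?_
      rw [Finset.sum_comm]
      refine Finset.sum_congr rfl fun p _ => ?_
      rw [← Finset.sum_filter, Finset.sum_const, nsmul_eq_mul, mul_comm]
    rw [h1]
    have h2 : R * (X * S1 - G) = ∑ k ∈ range R, ∑ p ∈ P, g p * ((X : ℝ) / p - 1) := by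
      rw [Finset.sum_const, card_range, nsmul_eq_mul, hS1, hG, Finset.mul_sum,
        ← Finset.sum_sub_distrib]
      congr 1
      refine Finset.sum_congr rfl fun p _ => ?_
      ring
    rw [h2]
    refine Finset.sum_le_sum fun k hk => Finset.sum_le_sum fun p hp => ?_
    rw [mem_range] at hk
    have := (hP p hp).2
    exact mul_le_mul_of_nonneg_left (le_count_one (by omega)) (hg p hp)
  -- the second moment
  have hsecond : ∑ a ∈ Icc 1 X, YY R P g a ^ 2 ≤ R ^ 2 * (X * S1 ^ 2 + G ^ 2) +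
      R * (X * (∑ p ∈ P, g p ^ 2 / p) + ∑ p ∈ P, g p ^ 2) := by
    have h1 : ∑ a ∈ Icc 1 X, YY R P g a ^ 2 = ∑ x ∈ I, ∑ y ∈ I, ∑ a ∈ Icc 1 X, e a x * e a y := by
      calc ∑ a ∈ Icc 1 X, YY R P g a ^ 2 = ∑ a ∈ Icc 1 X, ∑ x ∈ I, ∑ y ∈ I, e a x * e a y := by
            refine Finset.sum_congr rfl fun a _ => ?_
            rw [hY, sq, Finset.sum_mul_sum]
        _ = ∑ x ∈ I, ∑ a ∈ Icc 1 X, ∑ y ∈ I, e a x * e a y := Finset.sum_comm
        _ = _ := Finset.sum_congr rfl fun x _ => Finset.sum_comm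
    have h2 : ∀ x ∈ I, ∀ y ∈ I, ∑ a ∈ Icc 1 X, e a x * e a y ≤
        g x.2 * g y.2 * (X / (x.2 * y.2) + 1) +
          (if x = y then g x.2 ^ 2 * (X / x.2 + 1) else 0) := by
      rintro ⟨k, p⟩ hx ⟨k', p'⟩ hy
      rw [hI, mem_product] at hx hy
      simp only at hx hy ⊢
      have hgp := hg p hx.2
      have hgp' := hg p' hy.2
      have hpp := (hP p hx.2).1.pos
      have hpp' := (hP p' hy.2).1.pos
      have hk := mem_range.1 hx.1
      have hk' := mem_range.1 hy.1
      have e1 : ∑ a ∈ Icc 1 X, e a (k, p) * e a (k', p') =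
          g p * g p' * (#{a ∈ Icc 1 X | p ∣ a + (k + 1) ∧ p' ∣ a + (k' + 1)} : ℝ) := by
        rw [mul_comm (g p * g p'), ← nsmul_eq_mul, ← Finset.sum_const, Finset.sum_filter]
        refine Finset.sum_congr rfl fun a _ => ?_
        simp only [he]
        by_cases h1 : p ∣ a + (k + 1) <;> by_cases h2 : p' ∣ a + (k' + 1) <;> simp [h1, h2]
      rw [e1]
      have hbase : 0 ≤ g p * g p' * ((X : ℝ) / (p * p') + 1) := by positivity
      by_cases hpe : p = p'
      · subst hpe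
        by_cases hke : k = k'
        · subst hke
          rw [if_pos rfl]
          have h3 : (#{a ∈ Icc 1 X | p ∣ a + (k + 1) ∧ p ∣ a + (k + 1)} : ℝ) ≤ X / p + 1 := by
            simp only [and_self]
            exact count_one_le hpp
          have h4 := mul_le_mul_of_nonneg_left h3 (mul_nonneg hgp hgp)
          rw [sq]
          linarith
        · have h3 : #{a ∈ Icc 1 X | p ∣ a + (k + 1) ∧ p ∣ a + (k' + 1)} = 0 := by
            rw [card_eq_zero, Finset.filter_eq_empty_iff]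
            rintro a _ ⟨h5, h6⟩
            have h7 := (hP p hx.2).2
            rcases Nat.lt_or_gt_of_ne hke with hlt | hlt
            · have := Nat.le_of_dvd (by omega) (Nat.dvd_sub h6 h5)
              omega
            · have := Nat.le_of_dvd (by omega) (Nat.dvd_sub h5 h6)
              omega
          rw [h3, Nat.cast_zero, mul_zero]
          split_ifs
          · positivity
          · linarith
      · have hne : ¬ ((k, p) = (k', p')) := by
          intro h
          rw [Prod.mk.injEq] at h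
          exact hpe h.2
        rw [if_neg hne, add_zero]
        have h3 := count_two_le (k := k + 1) (k' := k' + 1) (X := X) hpp hpp'
          ((Nat.coprime_primes (hP p hx.2).1 (hP p' hy.2).1).2 hpe)
        rw [Nat.cast_mul] at h3
        exact mul_le_mul_of_nonneg_left h3 (mul_nonneg hgp hgp')
    rw [h1]
    refine (Finset.sum_le_sum fun x hx => Finset.sum_le_sum fun y hy => h2 x hx y hy).trans
      (le_of_eq ?_)
    have h3 : ∀ x ∈ I, ∑ y ∈ I, (g x.2 * g y.2 * (X / (x.2 * y.2) + 1) +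
        (if x = y then g x.2 ^ 2 * (X / x.2 + 1) else 0)) =
        (X * (g x.2 / x.2) * (∑ y ∈ I, g y.2 / y.2) + g x.2 * ∑ y ∈ I, g y.2) +
          g x.2 ^ 2 * (X / x.2 + 1) := by
      intro x hx
      rw [Finset.sum_add_distrib, Finset.sum_ite_eq, if_pos hx, Finset.mul_sum, Finset.mul_sum,
        ← Finset.sum_add_distrib]
      congr 1
      refine Finset.sum_congr rfl fun y _ => ?_
      have : (X : ℝ) / (x.2 * y.2) = X * (1 / x.2) * (1 / y.2) := by
        simp only [div_eq_mul_inv, mul_inv]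
        ring
      rw [this]
      ring
    rw [Finset.sum_congr rfl h3, Finset.sum_add_distrib, Finset.sum_add_distrib, ← Finset.sum_mul,
      ← Finset.sum_mul, ← Finset.mul_sum]
    have hI1 : ∀ f : ℕ → ℝ, ∑ x ∈ I, f x.2 = R * ∑ p ∈ P, f p := by
      intro f
      rw [hI, Finset.sum_product]
      simp only
      rw [Finset.sum_const, card_range, nsmul_eq_mul]
    rw [hI1 (fun p => g p / p), hI1 (fun p => g p), hI1 (fun p => g p ^ 2 * (X / p + 1)),
      ← hS1, ← hG]
    have h4 : ∑ p ∈ P, g p ^ 2 * ((X : ℝ) / p + 1) = X * (∑ p ∈ P, g p ^ 2 / p) + ∑ p ∈ P, g p ^ 2 := by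
      rw [Finset.mul_sum, ← Finset.sum_add_distrib]
      refine Finset.sum_congr rfl fun p _ => ?_
      ring
    rw [h4]
    ring
  -- combine
  have h3 : ∀ c : ℝ, ∑ a ∈ Icc 1 X, (YY R P g a - c) ^ 2 = ∑ a ∈ Icc 1 X, YY R P g a ^ 2 -
      2 * c * ∑ a ∈ Icc 1 X, YY R P g a + X * c ^ 2 := by
    intro c
    rw [Finset.mul_sum, ← Finset.sum_sub_distrib]
    have h4 : (X : ℝ) * c ^ 2 = ∑ a ∈ Icc 1 X, c ^ 2 := by
      rw [Finset.sum_const, Nat.card_Icc, nsmul_eq_mul, Nat.add_sub_cancel]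
    rw [h4, ← Finset.sum_add_distrib]
    refine Finset.sum_congr rfl fun a _ => ?_
    ring
  rw [h3]
  have h5 : 0 ≤ 2 * (R * S1) := by positivity
  have h6 := mul_le_mul_of_nonneg_left hfirst h5
  nlinarith

end Pool.Agent.K9h7.SG
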