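import Pool.Agent.K9h7.SG.Typical1

/-!
# Steiner systems on almost all numbers of points
-/

set_option autoImplicit false

open Finset

namespace Pool.Agent.K9h7.SG

open Pool.Agent.R60.Steiner

/-- the numbers `n` with a pair `(q, r)`, `2 ≤ r < q < n`, with `q ≥ Q`, `q - r ≥ q ^ η` and the
divisibility condition -/
def excT (Q : ℕ) (η : ℝ) (n : ℕ) : Prop :=
  ∃ q r : ℕ, 2 ≤ r ∧ r < q ∧ q < n ∧ Q ≤ q ∧ (q : ℝ) ^ η ≤ ((q - r : ℕ) : ℝ) ∧ DivCond n q r

theorem mem_PD {X Q n q r : ℕ} (hn : n ≤ X) (hr : 2 ≤ r) (hrq : r < q) (hqn : q < n)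
    (hQ : Q ≤ q - r) (hD : DivCond n q r) :
    (n - (r - 2), q - (r - 2)) ∈ Pool.Agent.N696.SA.PD X Q := by
  classical
  unfold Pool.Agent.N696.SA.PD
  rw [mem_filter, mem_product, mem_Icc, mem_Icc]
  refine ⟨⟨⟨by simp only; omega, by simp only; omega⟩, by simp only; omega, by simp only; omega⟩,
    by simp only; omega, by simp only; omega, ?_⟩
  intro i hi
  have h1 := hD (r - 2 + i) (by omega)
  have e1 : q - (r - 2 + i) = q - (r - 2) - i := by omega
  have e2 : n - (r - 2 + i) = n - (r - 2) - i := by omega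
  have e3 : r - (r - 2 + i) = 2 - i := by omega
  rw [e1, e2, e3] at h1
  exact h1

open Classical in
theorem card_small (X Q N : ℕ) :
    (((Icc 1 X).filter fun n => ∃ q r : ℕ, 2 ≤ r ∧ r < N ∧ r < q ∧ q < n ∧ Q ≤ q - r ∧
      DivCond n q r).card : ℝ) ≤ N * ((Pool.Agent.N696.SA.PD X Q).card : ℝ) := by
  have hsub : ((Icc 1 X).filter fun n => ∃ q r : ℕ, 2 ≤ r ∧ r < N ∧ r < q ∧ q < n ∧ Q ≤ q - r ∧
      DivCond n q r) ⊆ (range N).biUnion fun j =>
        (Pool.Agent.N696.SA.PD X Q).image fun p => p.1 + j := by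
    intro n hn
    rw [mem_filter, mem_Icc] at hn
    obtain ⟨⟨_, hnX⟩, q, r, h2, h3, h4, h5, h6, h7⟩ := hn
    rw [mem_biUnion]
    refine ⟨r - 2, mem_range.2 (by omega), ?_⟩
    rw [mem_image]
    exact ⟨_, mem_PD hnX h2 h4 h5 h6 h7, by simp only; omega⟩
  have h1 : (((Icc 1 X).filter fun n => ∃ q r : ℕ, 2 ≤ r ∧ r < N ∧ r < q ∧ q < n ∧ Q ≤ q - r ∧
      DivCond n q r)).card ≤ N * (Pool.Agent.N696.SA.PD X Q).card := by
    refine (card_le_card hsub).trans (card_biUnion_le.trans ?_)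
    calc ∑ j ∈ range N, ((Pool.Agent.N696.SA.PD X Q).image fun p => p.1 + j).card
        ≤ ∑ _j ∈ range N, (Pool.Agent.N696.SA.PD X Q).card :=
          Finset.sum_le_sum fun j _ => card_image_le
      _ = N * (Pool.Agent.N696.SA.PD X Q).card := by
          rw [Finset.sum_const, card_range, smul_eq_mul]
  exact_mod_cast h1

open Classical in
/-- the numbers of the second kind -/
theorem card_large {C : ℝ} {s : ℕ} (hcount : ∀ a : ℕ, 1 ≤ a → ∀ X : ℕ,
    (((Icc 1 X).filter fun b => NoCarry a b (s + 3)).card : ℝ) ≤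
      C * a * (X / (a : ℝ) ^ (s + 3) + 1)) (hC : 0 < C) (X A : ℕ) (hX : 1 ≤ X) (hA : 1 ≤ A) :
    (((Icc 1 X).filter fun n => ∃ q r : ℕ, s + 3 ≤ r ∧ r < q ∧ q < n ∧ A ≤ q - r ∧
      q ≤ (q - r) ^ s ∧ (q - r) ^ (s + 3) ≤ X ∧ DivCond n q r).card : ℝ) ≤
      C * (X * (2 / A) + (X : ℝ) ^ (((s : ℝ) + 2) / (s + 3))) := by
  set SX := (Icc A X).filter fun a => a ^ (s + 3) ≤ X with hSX
  have hX0 : (0 : ℝ) < X := by exact_mod_cast hX
  have hsub : ((Icc 1 X).filter fun n => ∃ q r : ℕ, s + 3 ≤ r ∧ r < q ∧ q < n ∧ A ≤ q - r ∧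
      q ≤ (q - r) ^ s ∧ (q - r) ^ (s + 3) ≤ X ∧ DivCond n q r) ⊆
      SX.biUnion fun a => (range (a ^ s)).biUnion fun r =>
        ((Icc 1 X).filter fun b => NoCarry a b (s + 3)).image fun b => b + (a + r) := by
    intro n hn
    rw [mem_filter, mem_Icc] at hn
    obtain ⟨⟨_, hnX⟩, q, r, h1, h2, h3, h4, h5, h6, h7⟩ := hn
    rw [mem_biUnion]
    refine ⟨q - r, ?_, ?_⟩
    · rw [hSX, mem_filter, mem_Icc]
      exact ⟨⟨h4, by omega⟩, h6⟩
    · rw [mem_biUnion]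
      refine ⟨r, mem_range.2 (by omega), ?_⟩
      rw [mem_image]
      refine ⟨n - q, ?_, by omega⟩
      rw [mem_filter, mem_Icc]
      exact ⟨⟨by omega, by omega⟩, noCarry_mono (noCarry_of_div h2.le h3.le h7) h1⟩
  have h1 : (((Icc 1 X).filter fun n => ∃ q r : ℕ, s + 3 ≤ r ∧ r < q ∧ q < n ∧ A ≤ q - r ∧
      q ≤ (q - r) ^ s ∧ (q - r) ^ (s + 3) ≤ X ∧ DivCond n q r)).card ≤
      ∑ a ∈ SX, a ^ s * ((Icc 1 X).filter fun b => NoCarry a b (s + 3)).card := by
    refine (card_le_card hsub).trans (card_biUnion_le.trans (Finset.sum_le_sum fun a _ => ?_))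
    refine card_biUnion_le.trans ?_
    calc ∑ r ∈ range (a ^ s), (((Icc 1 X).filter fun b => NoCarry a b (s + 3)).image
          fun b => b + (a + r)).card
        ≤ ∑ _r ∈ range (a ^ s), ((Icc 1 X).filter fun b => NoCarry a b (s + 3)).card :=
          Finset.sum_le_sum fun r _ => card_image_le
      _ = _ := by rw [Finset.sum_const, card_range, smul_eq_mul]
  set Y : ℝ := (X : ℝ) ^ ((1 : ℝ) / (s + 3)) with hY
  have hY0 : 0 < Y := Real.rpow_pos_of_pos hX0 _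
  have hs0 : (0 : ℝ) < (s : ℝ) + 3 := by positivity
  have haY : ∀ a ∈ SX, (a : ℝ) ≤ Y := by
    intro a ha
    rw [hSX, mem_filter] at ha
    have h2 : ((a : ℝ)) ^ (s + 3) ≤ X := by exact_mod_cast ha.2
    have h3 : (a : ℝ) = ((a : ℝ) ^ (s + 3)) ^ ((1 : ℝ) / (s + 3)) := by
      rw [← Real.rpow_natCast, ← Real.rpow_mul (by positivity)]
      push_cast
      rw [mul_one_div, div_self hs0.ne', Real.rpow_one]
    rw [h3, hY]
    exact Real.rpow_le_rpow (by positivity) h2 (by positivity)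
  have hcardSX : (SX.card : ℝ) ≤ Y := by
    have h2 : SX ⊆ Icc 1 ⌊Y⌋₊ := by
      intro a ha
      have h3 := haY a ha
      rw [hSX, mem_filter, mem_Icc] at ha
      rw [mem_Icc]
      exact ⟨by omega, Nat.le_floor h3⟩
    have h3 := card_le_card h2
    rw [Nat.card_Icc, Nat.add_sub_cancel] at h3
    exact (Nat.cast_le.2 h3).trans (Nat.floor_le hY0.le)
  have h2 : ∀ a ∈ SX, ((a ^ s * ((Icc 1 X).filter fun b => NoCarry a b (s + 3)).card : ℕ) : ℝ) ≤
      C * (X * ((a : ℝ) ^ 2)⁻¹) + C * Y ^ (s + 1) := by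
    intro a ha
    have h3 := haY a ha
    rw [hSX, mem_filter, mem_Icc] at ha
    have ha1 : 1 ≤ a := by omega
    have ha0 : (0 : ℝ) < a := by exact_mod_cast ha1
    have h4 := hcount a ha1 X
    push_cast
    calc (a : ℝ) ^ s * (((Icc 1 X).filter fun b => NoCarry a b (s + 3)).card : ℝ)
        ≤ (a : ℝ) ^ s * (C * a * (X / (a : ℝ) ^ (s + 3) + 1)) :=
          mul_le_mul_of_nonneg_left h4 (by positivity)
      _ = C * (X * ((a : ℝ) ^ 2)⁻¹) + C * (a : ℝ) ^ (s + 1) := by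
          have : (a : ℝ) ^ (s + 3) = (a : ℝ) ^ s * a * (a : ℝ) ^ 2 := by ring
          rw [this]
          field_simp
          ring
      _ ≤ C * (X * ((a : ℝ) ^ 2)⁻¹) + C * Y ^ (s + 1) := by
          have := pow_le_pow_left₀ ha0.le h3 (s + 1)
          have := mul_le_mul_of_nonneg_left this hC.le
          linarith
  have h3 : ∑ a ∈ SX, ((a : ℝ) ^ 2)⁻¹ ≤ 2 / A := by
    have h4 := sum_Ioo_inv_sq_le (α := ℝ) (A - 1) (X + 1)
    have h5 : (((A - 1 : ℕ) : ℝ) + 1) = A := by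
      rw [Nat.cast_sub hA]; push_cast; ring
    rw [h5] at h4
    refine le_trans (Finset.sum_le_sum_of_subset_of_nonneg ?_ fun a _ _ => by positivity) h4
    intro a ha
    rw [hSX, mem_filter, mem_Icc] at ha
    rw [mem_Ioo]
    omega
  have h4 : Y * Y ^ (s + 1) = (X : ℝ) ^ (((s : ℝ) + 2) / (s + 3)) := by
    rw [← pow_succ', hY, ← Real.rpow_natCast, ← Real.rpow_mul hX0.le]
    congr 1
    push_cast
    field_simp
    ring
  calc _ ≤ ((∑ a ∈ SX, a ^ s * ((Icc 1 X).filter fun b => NoCarry a b (s + 3)).card : ℕ) : ℝ) := by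
        exact_mod_cast h1
    _ = ∑ a ∈ SX, ((a ^ s * ((Icc 1 X).filter fun b => NoCarry a b (s + 3)).card : ℕ) : ℝ) := by
        push_cast; rfl
    _ ≤ ∑ a ∈ SX, (C * (X * ((a : ℝ) ^ 2)⁻¹) + C * Y ^ (s + 1)) := Finset.sum_le_sum h2
    _ = C * (X * ∑ a ∈ SX, ((a : ℝ) ^ 2)⁻¹) + SX.card * (C * Y ^ (s + 1)) := by
        rw [Finset.sum_add_distrib, Finset.sum_const, nsmul_eq_mul, Finset.mul_sum, Finset.mul_sum]
    _ ≤ C * (X * (2 / A)) + Y * (C * Y ^ (s + 1)) := by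
        refine add_le_add ?_ ?_
        · exact mul_le_mul_of_nonneg_left (mul_le_mul_of_nonneg_left h3 hX0.le) hC.le
        · exact mul_le_mul_of_nonneg_right hcardSX (by positivity)
    _ = C * (X * (2 / A) + (X : ℝ) ^ (((s : ℝ) + 2) / (s + 3))) := by
        rw [← h4]; ring

open Classical in
theorem typical_main (η ε : ℝ) (hη : 0 < η) (hε : 0 < ε) : ∃ Q X0 : ℕ, ∀ X : ℕ, X0 ≤ X →
    (((Icc 1 X).filter (excT Q η)).card : ℝ) ≤ ε * X := by
  -- parameters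
  set s : ℕ := ⌈1 / η⌉₊ with hs
  have hs1 : 1 ≤ s := Nat.one_le_ceil_iff.2 (by positivity)
  have hsη : 1 ≤ s * η := by
    have := Nat.le_ceil (1 / η)
    rw [div_le_iff₀ hη] at this
    exact this
  obtain ⟨N1, hN1⟩ := omega_div (s + 3)
  obtain ⟨C, hC, hcount⟩ := count_b (s + 3) (by omega)
  set N := max N1 (s + 3) with hN
  -- the tails
  have hlogtail : Filter.Tendsto (fun Q : ℕ => (N : ℝ) * (2 * ((6 + 2 * Real.log Q) / Q)))
      Filter.atTop (nhds 0) := by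
    have h1 : Filter.Tendsto (fun x : ℝ => Real.log x / x) Filter.atTop (nhds 0) := by
      have := Real.tendsto_pow_log_div_mul_add_atTop 1 0 1 one_ne_zero
      simpa using this
    have h2 : Filter.Tendsto (fun Q : ℕ => Real.log (Q : ℝ) / Q) Filter.atTop (nhds 0) :=
      h1.comp tendsto_natCast_atTop_atTop
    have h3 : Filter.Tendsto (fun Q : ℕ => (6 : ℝ) / Q) Filter.atTop (nhds 0) :=
      tendsto_const_div_atTop_nhds_zero_nat 6
    have h4 := ((h3.add (h2.const_mul 2)).const_mul 2).const_mul (N : ℝ)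
    rw [mul_zero, add_zero, mul_zero, mul_zero] at h4
    refine h4.congr fun Q => ?_
    ring
  obtain ⟨Q1, hQ1, hQ1'⟩ := ((hlogtail.eventually (gt_mem_nhds (show (0 : ℝ) < ε / 8 by positivity))).and
    (Filter.eventually_ge_atTop 1)).exists
  obtain ⟨A1, hA1⟩ := exists_nat_gt ((N : ℝ) * 8 / (ε / 8))
  obtain ⟨A2, hA2⟩ := exists_nat_gt (C * 2 / (ε / 8))
  set A := max (max A2 N) (max Q1 1) with hA
  have hA1' : 1 ≤ A := (le_max_right _ _).trans (le_max_right _ _)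
  have hA1pos : (0 : ℝ) < A1 := lt_of_le_of_lt (by positivity) hA1
  have hA1n : 1 ≤ A1 := by exact_mod_cast hA1pos
  -- the small terms
  have ev1 : ∀ᶠ X : ℕ in Filter.atTop, (N : ℝ) * (2 * (A1 : ℝ) ^ 2) / (ε / 8) ≤ X :=
    tendsto_natCast_atTop_atTop.eventually_ge_atTop _
  have ev2 : ∀ᶠ X : ℕ in Filter.atTop, (X : ℝ) ^ (((s : ℝ) + 2) / (s + 3)) ≤ ε / (8 * C) * X := by
    have h1 : Filter.Tendsto (fun X : ℕ => ((X : ℝ)) ^ ((1 : ℝ) / (s + 3))) Filter.atTop Filter.atTop :=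
      (tendsto_rpow_atTop (by positivity)).comp tendsto_natCast_atTop_atTop
    filter_upwards [h1.eventually_ge_atTop (8 * C / ε), Filter.eventually_ge_atTop 1] with X h2 h3
    have hX : (0 : ℝ) < X := by exact_mod_cast h3
    have h4 : (X : ℝ) = (X : ℝ) ^ ((1 : ℝ) / (s + 3)) * (X : ℝ) ^ (((s : ℝ) + 2) / (s + 3)) := by
      rw [← Real.rpow_add hX]
      have : (1 : ℝ) / (s + 3) + ((s : ℝ) + 2) / (s + 3) = 1 := by field_simp; ring
      rw [this, Real.rpow_one]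
    have h5 : (0 : ℝ) < (X : ℝ) ^ (((s : ℝ) + 2) / (s + 3)) := Real.rpow_pos_of_pos hX _
    calc (X : ℝ) ^ (((s : ℝ) + 2) / (s + 3))
        = ε / (8 * C) * (8 * C / ε * (X : ℝ) ^ (((s : ℝ) + 2) / (s + 3))) := by field_simp
      _ ≤ ε / (8 * C) * ((X : ℝ) ^ ((1 : ℝ) / (s + 3)) * (X : ℝ) ^ (((s : ℝ) + 2) / (s + 3))) :=
          mul_le_mul_of_nonneg_left (mul_le_mul_of_nonneg_right h2 h5.le) (by positivity)
      _ = ε / (8 * C) * X := by rw [← h4]
  obtain ⟨X0, hX0⟩ := Filter.eventually_atTop.1 (ev1.and ev2)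
  refine ⟨A ^ s, max X0 1, fun X hX => ?_⟩
  have hX1 : 1 ≤ X := (le_max_right _ _).trans hX
  obtain ⟨t1, t2⟩ := hX0 X ((le_max_left _ _).trans hX)
  have hXpos : (0 : ℝ) < X := by exact_mod_cast hX1
  -- the two kinds
  have hsub : (Icc 1 X).filter (excT (A ^ s) η) ⊆
      ((Icc 1 X).filter fun n => ∃ q r : ℕ, 2 ≤ r ∧ r < N ∧ r < q ∧ q < n ∧ Q1 ≤ q - r ∧
        DivCond n q r) ∪
      ((Icc 1 X).filter fun n => ∃ q r : ℕ, s + 3 ≤ r ∧ r < q ∧ q < n ∧ A ≤ q - r ∧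
        q ≤ (q - r) ^ s ∧ (q - r) ^ (s + 3) ≤ X ∧ DivCond n q r) := by
    intro n hn
    rw [mem_filter, mem_Icc] at hn
    obtain ⟨⟨hn1, hnX⟩, q, r, h1, h2, h3, h4, h5, h6⟩ := hn
    have hq0 : (0 : ℝ) < q := by exact_mod_cast (by omega : 0 < q)
    have haA : A ≤ q - r := by
      have e1 : (A : ℝ) ≤ ((A : ℝ) ^ s) ^ η := by
        have hA1r : (1 : ℝ) ≤ A := by exact_mod_cast hA1'
        rw [← Real.rpow_natCast, ← Real.rpow_mul (by positivity)]
        calc (A : ℝ) = (A : ℝ) ^ (1 : ℝ) := (Real.rpow_one _).symm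
          _ ≤ (A : ℝ) ^ ((s : ℝ) * η) := Real.rpow_le_rpow_of_exponent_le hA1r hsη
      have e2 : ((A : ℝ) ^ s) ^ η ≤ (q : ℝ) ^ η :=
        Real.rpow_le_rpow (by positivity) (by exact_mod_cast h4) hη.le
      exact_mod_cast e1.trans (e2.trans h5)
    have hqa : q ≤ (q - r) ^ s := by
      have ha0 : (1 : ℝ) ≤ ((q - r : ℕ) : ℝ) := by exact_mod_cast hA1'.trans haA
      have e1 : (q : ℝ) = ((q : ℝ) ^ η) ^ (1 / η) := by
        rw [← Real.rpow_mul hq0.le, mul_one_div, div_self hη.ne', Real.rpow_one]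
      have e2 : (q : ℝ) ≤ (((q - r : ℕ) : ℝ)) ^ s := by
        rw [e1, ← Real.rpow_natCast (((q - r : ℕ) : ℝ)) s]
        calc ((q : ℝ) ^ η) ^ (1 / η) ≤ (((q - r : ℕ) : ℝ)) ^ (1 / η) :=
              Real.rpow_le_rpow (by positivity) h5 (by positivity)
          _ ≤ (((q - r : ℕ) : ℝ)) ^ (s : ℝ) :=
              Real.rpow_le_rpow_of_exponent_le ha0 (Nat.le_ceil _)
      exact_mod_cast e2
    rw [mem_union, mem_filter, mem_filter, mem_Icc]
    rcases Nat.lt_or_ge r N with hr | hr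
    · left
      refine ⟨⟨hn1, hnX⟩, q, r, h1, hr, h2, h3, ?_, h6⟩
      exact ((le_max_left _ _).trans (le_max_right _ _)).trans haA
    · right
      have hN1r : N1 ≤ r := (le_max_left _ _).trans hr
      have hsr : s + 3 ≤ r := (le_max_right _ _).trans hr
      have hN1a : N1 ≤ q - r :=
        (((le_max_left _ _).trans (le_max_right _ _)).trans (le_max_left _ _)).trans haA
      have h7 := hN1 n q r hN1r (by omega) h3 h6
      exact ⟨⟨hn1, hnX⟩, q, r, hsr, h2, h3, haA, hqa, by omega, h6⟩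
  have hS := card_small X Q1 N
  have hL := card_large hcount hC X A hX1 hA1'
  have hP := Pool.Agent.N696.SA.PD_card X Q1 A1 hQ1' hA1n
  have htot := Nat.cast_le (α := ℝ).2 ((card_le_card hsub).trans (card_union_le _ _))
  rw [Nat.cast_add] at htot
  refine htot.trans ((add_le_add hS hL).trans ?_)
  have hN0 : (0 : ℝ) ≤ N := Nat.cast_nonneg _
  have b1 : (N : ℝ) * (2 * X * ((6 + 2 * Real.log Q1) / Q1)) ≤ ε / 8 * X := by
    have := mul_le_mul_of_nonneg_right hQ1.le hXpos.le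
    linarith
  have b2 : (N : ℝ) * (2 * (A1 : ℝ) ^ 2) ≤ ε / 8 * X := by
    rw [div_le_iff₀ (by positivity)] at t1
    linarith
  have b3 : (N : ℝ) * (8 * X / A1) ≤ ε / 8 * X := by
    rw [div_lt_iff₀ (by positivity)] at hA1
    calc (N : ℝ) * (8 * X / A1) = (N * 8) * (X / A1) := by ring
      _ ≤ (A1 * (ε / 8)) * (X / A1) := mul_le_mul_of_nonneg_right hA1.le (by positivity)
      _ = ε / 8 * X := by field_simp
  have b4 : C * (X * (2 / A)) ≤ ε / 8 * X := by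
    have hA2A : (A2 : ℝ) ≤ A := by
      exact_mod_cast (le_max_left _ _).trans (le_max_left _ _)
    have hA0 : (0 : ℝ) < A := by exact_mod_cast hA1'
    rw [div_lt_iff₀ (by positivity)] at hA2
    have : C * 2 ≤ A * (ε / 8) :=
      hA2.le.trans (mul_le_mul_of_nonneg_right hA2A (by positivity))
    calc C * (X * (2 / A)) = (C * 2) * (X / A) := by ring
      _ ≤ (A * (ε / 8)) * (X / A) := mul_le_mul_of_nonneg_right this (by positivity)
      _ = ε / 8 * X := by field_simp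
  have b5 : C * (X : ℝ) ^ (((s : ℝ) + 2) / (s + 3)) ≤ ε / 8 * X := by
    calc C * (X : ℝ) ^ (((s : ℝ) + 2) / (s + 3)) ≤ C * (ε / (8 * C) * X) :=
          mul_le_mul_of_nonneg_left t2 hC.le
      _ = ε / 8 * X := by field_simp
  have hP' := mul_le_mul_of_nonneg_left hP hN0
  have hεX : 0 ≤ ε * X := by positivity
  nlinarith

end Pool.Agent.K9h7.SG
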