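import Pool.Agent.K9h7.SG.Typical1

/-!
# Counting the `b` with no carries in the first `R` rows, with a factor `a ^ δ`
-/

set_option autoImplicit false

open Finset

namespace Pool.Agent.K9h7.SG

open Pool.Agent.R60.Steiner

open Classical in
/-- the number of `b ≤ X` with no carries in the first `R` rows -/
theorem count_b_rpow (R : ℕ) (hR : 1 ≤ R) (δ : ℝ) (hδ : 0 < δ) :
    ∃ C : ℝ, 0 < C ∧ ∀ a : ℕ, 1 ≤ a → ∀ X : ℕ,
    (((Icc 1 X).filter fun b => NoCarry a b R).card : ℝ) ≤
      C * (a : ℝ) ^ δ * (X / (a : ℝ) ^ R + 1) := by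
  -- exponent for the divisor bound
  set M : ℕ := Fintype.card (Cell R) with hM
  have hM0 : 0 < M := by
    rw [hM, Fintype.card_pos_iff]
    exact ⟨⟨⟨0, hR⟩, ⟨0, by simp⟩⟩⟩
  have hM0' : (0 : ℝ) < M := by exact_mod_cast hM0
  obtain ⟨C0, hC0, hdiv⟩ := divisor_bound (δ / M) (by positivity)
  set F : ℝ := (R.factorial : ℝ) ^ R with hF
  have hF1 : 1 ≤ F := one_le_pow₀ (by exact_mod_cast Nat.factorial_pos R)
  refine ⟨C0 ^ M * ((R : ℝ) + 1) ^ δ * F, by positivity, fun a ha X => ?_⟩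
  have ha0 : (0 : ℝ) < a := by exact_mod_cast ha
  set S := (Icc 1 X).filter fun b => NoCarry a b R with hS
  set T : Finset (Cell R → ℕ) := Fintype.piFinset fun c => (a + (c.1.1 + 1)).divisors with hT
  have hmaps : ∀ b ∈ S, tup R a b ∈ T := by
    intro b _
    rw [hT, Fintype.mem_piFinset]
    intro c
    rw [Nat.mem_divisors]
    exact ⟨cellD_dvd (by omega), by omega⟩
  have hfib : ∀ t ∈ T, ((S.filter fun b => tup R a b = t).card : ℝ) ≤ F * (X / (a : ℝ) ^ R + 1) := by
    intro t _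
    rcases (S.filter fun b => tup R a b = t).eq_empty_or_nonempty with hemp | ⟨b0, hb0⟩
    · rw [hemp, card_empty, Nat.cast_zero]; positivity
    · rw [mem_filter, hS, mem_filter] at hb0
      have hnc := hb0.1.2
      set m := ∏ c : Cell R, tup R a b0 c with hm
      have hmpos : 0 < m := Finset.prod_pos fun c _ => cellD_pos _ _ _ _ _
      have hge := prod_tup_ge hnc le_rfl
      have hcard := card_class_le m X hmpos (S.filter fun b => tup R a b = t)
        (fun b hb => by
          rw [mem_filter, hS, mem_filter, mem_Icc] at hb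
          exact hb.1.1.2)
        (fun b hb b' hb' => by
          rw [mem_filter] at hb hb'
          have e1 := congr_of_tup (hb0.2.trans hb.2.symm)
          have e2 := congr_of_tup (hb0.2.trans hb'.2.symm)
          rw [← hm] at e1 e2
          rw [← e1, ← e2])
      refine hcard.trans ?_
      have h1 : (a : ℝ) ^ R ≤ F * m := by
        rw [hF]
        exact_mod_cast hge
      have hm0 : (0 : ℝ) < m := by exact_mod_cast hmpos
      have h2 : (X : ℝ) / m ≤ F * (X / (a : ℝ) ^ R) := by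
        rw [div_le_iff₀ hm0]
        have h3 : (X : ℝ) = X / (a : ℝ) ^ R * (a : ℝ) ^ R := by field_simp
        calc (X : ℝ) = X / (a : ℝ) ^ R * (a : ℝ) ^ R := h3
          _ ≤ X / (a : ℝ) ^ R * (F * m) := mul_le_mul_of_nonneg_left h1 (by positivity)
          _ = F * (X / (a : ℝ) ^ R) * m := by ring
      linarith
  have hcardT : (T.card : ℝ) ≤ C0 ^ M * (((R : ℝ) + 1) ^ δ * (a : ℝ) ^ δ) := by
    rw [hT, Fintype.card_piFinset, Nat.cast_prod]
    have h1 : ∀ c : Cell R, (((a + (c.1.1 + 1)).divisors.card : ℕ) : ℝ) ≤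
        C0 * (((R : ℝ) + 1) * a) ^ (δ / M) := by
      intro c
      refine (hdiv _ (by omega)).trans ?_
      refine mul_le_mul_of_nonneg_left ?_ hC0.le
      refine Real.rpow_le_rpow (by positivity) ?_ (by positivity)
      have h2 := c.1.2
      have h3 : ((a + (c.1.1 + 1) : ℕ) : ℝ) ≤ ((a + R : ℕ) : ℝ) := by
        exact_mod_cast (by omega : a + (c.1.1 + 1) ≤ a + R)
      refine h3.trans ?_
      push_cast
      have : (1 : ℝ) ≤ a := by exact_mod_cast ha
      nlinarith [(Nat.cast_nonneg R : (0 : ℝ) ≤ R)]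
    calc ∏ c : Cell R, (((a + (c.1.1 + 1)).divisors.card : ℕ) : ℝ)
        ≤ ∏ _c : Cell R, (C0 * (((R : ℝ) + 1) * a) ^ (δ / M)) :=
          Finset.prod_le_prod (fun c _ => Nat.cast_nonneg _) fun c _ => h1 c
      _ = (C0 * (((R : ℝ) + 1) * a) ^ (δ / M)) ^ M := by
          rw [Finset.prod_const, card_univ]
      _ = C0 ^ M * (((R : ℝ) + 1) ^ δ * (a : ℝ) ^ δ) := by
          rw [mul_pow, ← Real.rpow_natCast ((((R : ℝ) + 1) * a) ^ (δ / M)) M,
            ← Real.rpow_mul (by positivity), div_mul_cancel₀ _ hM0'.ne',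
            Real.mul_rpow (by positivity) (by positivity)]
  have hcard := Finset.card_eq_sum_card_fiberwise (f := fun b => tup R a b) (s := S) (t := T) hmaps
  rw [hcard]
  push_cast
  calc ∑ t ∈ T, ((S.filter fun b => tup R a b = t).card : ℝ)
      ≤ ∑ _t ∈ T, F * (X / (a : ℝ) ^ R + 1) := Finset.sum_le_sum hfib
    _ = T.card * (F * (X / (a : ℝ) ^ R + 1)) := by rw [Finset.sum_const, nsmul_eq_mul]
    _ ≤ (C0 ^ M * (((R : ℝ) + 1) ^ δ * (a : ℝ) ^ δ)) * (F * (X / (a : ℝ) ^ R + 1)) :=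
        mul_le_mul_of_nonneg_right hcardT (by positivity)
    _ = C0 ^ M * ((R : ℝ) + 1) ^ δ * F * (a : ℝ) ^ δ * (X / (a : ℝ) ^ R + 1) := by ring

end Pool.Agent.K9h7.SG
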