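import Pool.Agent.K9h7.SG.Typical3

/-!
# Counting the parameters of Steiner systems with large blocks
-/

set_option autoImplicit false

open Finset

namespace Pool.Agent.K9h7.SG

open Pool.Agent.R60.Steiner

/-- the triples `(n, q, r)`, `R ≤ r < q < n`, with `q ≥ Q`, `q - r ≥ q ^ η` and `E n q r` -/
def excE (E : ℕ → ℕ → ℕ → Prop) (R Q : ℕ) (η : ℝ) (t : ℕ × ℕ × ℕ) : Prop :=
  R ≤ t.2.2 ∧ t.2.2 < t.2.1 ∧ t.2.1 < t.1 ∧ Q ≤ t.2.1 ∧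
    (t.2.1 : ℝ) ^ η ≤ ((t.2.1 - t.2.2 : ℕ) : ℝ) ∧ E t.1 t.2.1 t.2.2

/-- the triples with `R ≤ r < N` and `q - r > y` -/
def tailE (E : ℕ → ℕ → ℕ → Prop) (R A N : ℕ) (y : ℝ) (t : ℕ × ℕ × ℕ) : Prop :=
  R ≤ t.2.2 ∧ t.2.2 < N ∧ t.2.2 + A ≤ t.2.1 ∧ t.2.2 < t.2.1 ∧ t.2.1 < t.1 ∧ E t.1 t.2.1 t.2.2 ∧
    y < ((t.2.1 - t.2.2 : ℕ) : ℝ)

/-- the box of the triples -/
def box (X : ℕ) : Finset (ℕ × ℕ × ℕ) := Icc 1 X ×ˢ (Icc 1 X ×ˢ Icc 1 X)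

open Classical in
/-- the covering -/
theorem card_cover (R X : ℕ) (I : Finset ℕ) (J : ℕ → ℕ) (P : ℕ × ℕ × ℕ → Prop)
    (hP : ∀ n q r, P (n, q, r) → n ≤ X → R ≤ r ∧ r < q ∧ q < n ∧ q - r ∈ I ∧ r < J (q - r) ∧
      DivCond n q r) :
    (((box X).filter P).card : ℝ) ≤
      ∑ a ∈ I, (J a : ℝ) * (((Icc 1 X).filter fun b => NoCarry a b R).card : ℝ) := by
  have hsub : ((box X).filter P) ⊆
      I.biUnion fun a => (range (J a)).biUnion fun r =>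
        ((Icc 1 X).filter fun b => NoCarry a b R).image fun b => (b + (a + r), a + r, r) := by
    rintro ⟨n, q, r⟩ hn
    rw [mem_filter, box, mem_product, mem_product, mem_Icc, mem_Icc, mem_Icc] at hn
    obtain ⟨⟨⟨_, hnX⟩, _⟩, hPn⟩ := hn
    obtain ⟨h1, h2, h3, h4, h5, h6⟩ := hP n q r hPn hnX
    rw [mem_biUnion]
    refine ⟨q - r, h4, ?_⟩
    rw [mem_biUnion]
    refine ⟨r, mem_range.2 h5, ?_⟩
    rw [mem_image]
    refine ⟨n - q, ?_, ?_⟩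
    · rw [mem_filter, mem_Icc]
      simp only at hnX
      exact ⟨⟨by omega, by omega⟩, noCarry_mono (noCarry_of_div h2.le h3.le h6) h1⟩
    · rw [Prod.mk.injEq, Prod.mk.injEq]
      exact ⟨by omega, by omega, rfl⟩
  have h1 : ((box X).filter P).card ≤
      ∑ a ∈ I, J a * ((Icc 1 X).filter fun b => NoCarry a b R).card := by
    refine (card_le_card hsub).trans (card_biUnion_le.trans (Finset.sum_le_sum fun a _ => ?_))
    refine card_biUnion_le.trans ?_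
    calc ∑ r ∈ range (J a), (((Icc 1 X).filter fun b => NoCarry a b R).image
          fun b => (b + (a + r), a + r, r)).card
        ≤ ∑ _r ∈ range (J a), ((Icc 1 X).filter fun b => NoCarry a b R).card :=
          Finset.sum_le_sum fun r _ => card_image_le
      _ = _ := by rw [Finset.sum_const, card_range, smul_eq_mul]
  exact_mod_cast h1

/-- a finite set of positive integers below `Y` has at most `Y` members -/
theorem card_le_of_le {I : Finset ℕ} {Y : ℝ} (hY : 0 ≤ Y) (h : ∀ a ∈ I, 1 ≤ a ∧ (a : ℝ) ≤ Y) :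
    (I.card : ℝ) ≤ Y := by
  have h2 : I ⊆ Icc 1 ⌊Y⌋₊ := by
    intro a ha
    rw [mem_Icc]
    exact ⟨(h a ha).1, Nat.le_floor (h a ha).2⟩
  have h3 := card_le_card h2
  rw [Nat.card_Icc, Nat.add_sub_cancel] at h3
  exact (Nat.cast_le.2 h3).trans (Nat.floor_le hY)

/-- the first sum -/
theorem sum_first {R : ℕ} (hR : 2 ≤ R) {δ ε : ℝ} (hδ : 0 < δ) (hε : 0 < ε) (hε1 : ε ≤ 1)
    (hδε : 2 * δ ≤ ε) {Q : ℕ} (hQ : 1 ≤ Q) {I : Finset ℕ} {Y : ℝ} (hY : 0 ≤ Y)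
    (hI : ∀ a ∈ I, Q ≤ 2 * a ∧ (a : ℝ) ≤ Y) (X : ℝ) (hX : 0 ≤ X) :
    ∑ a ∈ I, (a : ℝ) ^ δ * (X / (a : ℝ) ^ R + 1) ≤
      (2 ^ R * ∑' a : ℕ, (a : ℝ) ^ (-(1 + ε / 2))) * (X * (Q : ℝ) ^ (ε - (R - 1))) +
        Y ^ (1 + δ) := by
  have hR' : (2 : ℝ) ≤ R := by exact_mod_cast hR
  have hQ0 : (0 : ℝ) < Q := by exact_mod_cast hQ
  have hsum : Summable fun a : ℕ => (a : ℝ) ^ (-(1 + ε / 2)) := by
    rw [Real.summable_nat_rpow]; linarith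
  have hterm : ∀ a ∈ I, (a : ℝ) ^ δ * (X / (a : ℝ) ^ R + 1) ≤
      (a : ℝ) ^ (-(1 + ε / 2)) * (2 ^ R * (X * (Q : ℝ) ^ (ε - (R - 1)))) + Y ^ δ := by
    intro a ha
    obtain ⟨h1, h2⟩ := hI a ha
    have ha1 : 1 ≤ a := by omega
    have ha0 : (0 : ℝ) < a := by exact_mod_cast ha1
    have ha1' : (1 : ℝ) ≤ a := by exact_mod_cast ha1
    have e1 : (a : ℝ) ^ δ * (X / (a : ℝ) ^ R + 1) = X * (a : ℝ) ^ (δ - R) + (a : ℝ) ^ δ := by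
      rw [Real.rpow_sub ha0, Real.rpow_natCast]
      field_simp
    have e2 : (a : ℝ) ^ (δ - R) ≤
        (a : ℝ) ^ (-(1 + ε / 2)) * (2 ^ R * (Q : ℝ) ^ (ε - (R - 1))) := by
      have e3 : (a : ℝ) ^ (δ - R) ≤ (a : ℝ) ^ (-(1 + ε / 2)) * (a : ℝ) ^ (ε - (R - 1)) := by
        rw [← Real.rpow_add ha0]
        exact Real.rpow_le_rpow_of_exponent_le ha1' (by linarith)
      refine e3.trans (mul_le_mul_of_nonneg_left ?_ (by positivity))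
      have e4 : (a : ℝ) ^ (ε - (R - 1)) ≤ ((Q : ℝ) / 2) ^ (ε - (R - 1)) := by
        refine Real.rpow_le_rpow_of_nonpos (by positivity) ?_ (by linarith)
        have : (Q : ℝ) ≤ 2 * a := by exact_mod_cast h1
        linarith
      refine e4.trans ?_
      rw [Real.div_rpow hQ0.le (by norm_num), div_eq_mul_inv, ← Real.rpow_neg (by norm_num),
        mul_comm]
      refine mul_le_mul_of_nonneg_right ?_ (by positivity)
      rw [← Real.rpow_natCast (2 : ℝ) R]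
      exact Real.rpow_le_rpow_of_exponent_le (by norm_num) (by linarith)
    have e5 : (a : ℝ) ^ δ ≤ Y ^ δ := Real.rpow_le_rpow ha0.le h2 hδ.le
    rw [e1]
    have e6 := mul_le_mul_of_nonneg_left e2 hX
    calc X * (a : ℝ) ^ (δ - R) + (a : ℝ) ^ δ
        ≤ X * ((a : ℝ) ^ (-(1 + ε / 2)) * (2 ^ R * (Q : ℝ) ^ (ε - (R - 1)))) + Y ^ δ :=
          add_le_add e6 e5
      _ = _ := by ring
  have hcard : (I.card : ℝ) ≤ Y := card_le_of_le hY fun a ha => by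
    obtain ⟨h1, h2⟩ := hI a ha
    exact ⟨by omega, h2⟩
  have h5 : ∑ a ∈ I, (a : ℝ) ^ (-(1 + ε / 2)) ≤ ∑' a : ℕ, (a : ℝ) ^ (-(1 + ε / 2)) :=
    hsum.sum_le_tsum _ fun a _ => by positivity
  calc ∑ a ∈ I, (a : ℝ) ^ δ * (X / (a : ℝ) ^ R + 1)
      ≤ ∑ a ∈ I, ((a : ℝ) ^ (-(1 + ε / 2)) * (2 ^ R * (X * (Q : ℝ) ^ (ε - (R - 1)))) + Y ^ δ) :=
        Finset.sum_le_sum hterm
    _ = (∑ a ∈ I, (a : ℝ) ^ (-(1 + ε / 2))) * (2 ^ R * (X * (Q : ℝ) ^ (ε - (R - 1)))) +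
        I.card * Y ^ δ := by
        rw [Finset.sum_add_distrib, Finset.sum_const, nsmul_eq_mul, Finset.sum_mul]
    _ ≤ (∑' a : ℕ, (a : ℝ) ^ (-(1 + ε / 2))) * (2 ^ R * (X * (Q : ℝ) ^ (ε - (R - 1)))) +
        Y * Y ^ δ := by
        refine add_le_add (mul_le_mul_of_nonneg_right h5 (by positivity))
          (mul_le_mul_of_nonneg_right hcard (by positivity))
    _ = _ := by
        rcases hY.eq_or_lt with h0 | h0
        · rw [← h0, Real.zero_rpow hδ.ne', Real.zero_rpow (by linarith)]; ring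
        · rw [Real.rpow_add h0, Real.rpow_one]; ring

/-- the second sum -/
theorem sum_second {R s L : ℕ} {η : ℝ} (hη : 0 < η)
    (hL : (R : ℝ) - 1 ≤ η * L) {Q : ℕ} (hQ : 1 ≤ Q) {I : Finset ℕ} {Z : ℝ} (hZ : 0 ≤ Z)
    (hI : ∀ a ∈ I, 1 ≤ a ∧ (Q : ℝ) ^ η ≤ a ∧ (a : ℝ) ≤ Z) (X : ℝ) (hX : 0 ≤ X) :
    ∑ a ∈ I, (a : ℝ) ^ s * (a * (X / (a : ℝ) ^ (s + 3 + L) + 1)) ≤
      (∑' a : ℕ, (a : ℝ) ^ (-(2 : ℝ))) * (X * (Q : ℝ) ^ (-((R : ℝ) - 1))) + Z ^ (s + 2) := by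
  have hQ0 : (0 : ℝ) < Q := by exact_mod_cast hQ
  have hQ1 : (1 : ℝ) ≤ Q := by exact_mod_cast hQ
  have hsum : Summable fun a : ℕ => (a : ℝ) ^ (-(2 : ℝ)) := by
    rw [Real.summable_nat_rpow]; norm_num
  have hterm : ∀ a ∈ I, (a : ℝ) ^ s * (a * (X / (a : ℝ) ^ (s + 3 + L) + 1)) ≤
      (a : ℝ) ^ (-(2 : ℝ)) * (X * (Q : ℝ) ^ (-((R : ℝ) - 1))) + Z ^ (s + 1) := by
    intro a ha
    obtain ⟨h1, h2, h3⟩ := hI a ha
    have ha0 : (0 : ℝ) < a := by exact_mod_cast h1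
    have e1 : (a : ℝ) ^ s * (a * (X / (a : ℝ) ^ (s + 3 + L) + 1)) =
        (a : ℝ) ^ (-(2 : ℝ)) * (X * ((a : ℝ) ^ L)⁻¹) + (a : ℝ) ^ (s + 1) := by
      rw [Real.rpow_neg ha0.le]
      have : (a : ℝ) ^ (2 : ℝ) = (a : ℝ) ^ 2 := by exact_mod_cast Real.rpow_natCast (a : ℝ) 2
      rw [this]
      field_simp
      ring
    have e2 : ((a : ℝ) ^ L)⁻¹ ≤ (Q : ℝ) ^ (-((R : ℝ) - 1)) := by
      rw [Real.rpow_neg hQ0.le]
      refine inv_anti₀ (by positivity) ?_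
      calc (Q : ℝ) ^ ((R : ℝ) - 1) ≤ (Q : ℝ) ^ (η * L) :=
            Real.rpow_le_rpow_of_exponent_le hQ1 hL
        _ = ((Q : ℝ) ^ η) ^ L := by rw [Real.rpow_mul hQ0.le, Real.rpow_natCast]
        _ ≤ (a : ℝ) ^ L := pow_le_pow_left₀ (by positivity) h2 L
    rw [e1]
    refine add_le_add ?_ (pow_le_pow_left₀ ha0.le h3 _)
    exact mul_le_mul_of_nonneg_left (mul_le_mul_of_nonneg_left e2 hX) (by positivity)
  have hcard : (I.card : ℝ) ≤ Z := card_le_of_le hZ fun a ha => ⟨(hI a ha).1, (hI a ha).2.2⟩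
  have h5 : ∑ a ∈ I, (a : ℝ) ^ (-(2 : ℝ)) ≤ ∑' a : ℕ, (a : ℝ) ^ (-(2 : ℝ)) :=
    hsum.sum_le_tsum _ fun a _ => by positivity
  calc ∑ a ∈ I, (a : ℝ) ^ s * (a * (X / (a : ℝ) ^ (s + 3 + L) + 1))
      ≤ ∑ a ∈ I, ((a : ℝ) ^ (-(2 : ℝ)) * (X * (Q : ℝ) ^ (-((R : ℝ) - 1))) + Z ^ (s + 1)) :=
        Finset.sum_le_sum hterm
    _ = (∑ a ∈ I, (a : ℝ) ^ (-(2 : ℝ))) * (X * (Q : ℝ) ^ (-((R : ℝ) - 1))) +
        I.card * Z ^ (s + 1) := by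
        rw [Finset.sum_add_distrib, Finset.sum_const, nsmul_eq_mul, Finset.sum_mul]
    _ ≤ (∑' a : ℕ, (a : ℝ) ^ (-(2 : ℝ))) * (X * (Q : ℝ) ^ (-((R : ℝ) - 1))) +
        Z * Z ^ (s + 1) := by
        refine add_le_add (mul_le_mul_of_nonneg_right h5 (by positivity))
          (mul_le_mul_of_nonneg_right hcard (by positivity))
    _ = _ := by ring

end Pool.Agent.K9h7.SG
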