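import Pool.Agent.K9h7.SG.Typical4
import Pool.Agent.K9h7.SG.Four
import Pool.Agent.K9h7.SH.LowC

/-!
# Counting the parameters of Steiner systems with large blocks: the main bound
-/

set_option autoImplicit false

open Finset

namespace Pool.Agent.K9h7.SG

open Pool.Agent.R60.Steiner

open Classical in
/-- the bound for large `Q` -/
theorem count_large (R : ℕ) (hR : 2 ≤ R) (η ε v c : ℝ) (hη : 0 < η) (hε : 0 < ε)
    (hε1 : ε ≤ 1) (hv : 0 < v) (hc : 0 < c) (A : ℕ)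
    (E : ℕ → ℕ → ℕ → Prop) (hE : ∀ n q r, E n q r → DivCond n q r)
    (htail : ∀ N : ℕ, ∃ C0 : ℝ, 0 ≤ C0 ∧ ∀ X : ℕ, 1 ≤ X →
      (((box X).filter (tailE E R A N ((X / c) ^ (1 / v)))).card : ℝ) ≤
        C0 * (X : ℝ) ^ (1 / v + ε)) :
    ∃ (C : ℝ) (Q1 : ℕ), 0 ≤ C ∧ 1 ≤ Q1 ∧ ∀ X Q : ℕ, 1 ≤ X → Q1 ≤ Q →
      (((box X).filter (excE E R Q η)).card : ℝ) ≤
        C * (X * (Q : ℝ) ^ (ε - (R - 1)) + (X : ℝ) ^ (1 / v + ε)) := by
  have hR' : (2 : ℝ) ≤ R := by exact_mod_cast hR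
  -- parameters
  set s : ℕ := ⌈1 / η⌉₊ with hs
  set L : ℕ := ⌈((R : ℝ) - 1) / η⌉₊ with hL
  have hL' : (R : ℝ) - 1 ≤ η * L := by
    have := Nat.le_ceil (((R : ℝ) - 1) / η)
    rw [div_le_iff₀ hη] at this
    rw [mul_comm]
    exact this
  set K : ℕ := ⌈v * (s + 2)⌉₊ with hK
  have hK1 : v * (s + 2) ≤ K := Nat.le_ceil _
  have hK0 : (0 : ℝ) < K := lt_of_lt_of_le (by positivity) hK1
  obtain ⟨N1, hN1⟩ := omega_div K
  set N := max N1 (s + 3 + L) with hN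
  set A0 := max A (max N 1) with hA0
  set δ : ℝ := min (ε / 2) (ε * v) with hδ
  have hδ0 : 0 < δ := lt_min (by positivity) (by positivity)
  have hδ1 : 2 * δ ≤ ε := by have := min_le_left (ε / 2) (ε * v); rw [← hδ] at this; linarith
  have hδ2 : δ ≤ ε * v := min_le_right _ _
  obtain ⟨C1, hC1, hcount1⟩ := count_b_rpow R (by omega) δ hδ0
  obtain ⟨C2, hC2, hcount2⟩ := count_b (s + 3 + L) (by omega)
  obtain ⟨C3, hC3, hcount3⟩ := htail N
  set Q1 : ℕ := max ⌈(A0 : ℝ) ^ (1 / η)⌉₊ (2 * N) + 1 with hQ1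
  set S1 : ℝ := ∑' a : ℕ, (a : ℝ) ^ (-(1 + ε / 2)) with hS1
  set S2 : ℝ := ∑' a : ℕ, (a : ℝ) ^ (-(2 : ℝ)) with hS2
  have hS1' : 0 ≤ S1 := tsum_nonneg fun a => by positivity
  have hS2' : 0 ≤ S2 := tsum_nonneg fun a => by positivity
  set c1 : ℝ := (c⁻¹) ^ ((1 + δ) / v) with hc1
  have hc1' : 0 ≤ c1 := by positivity
  refine ⟨N * C1 * (2 ^ R * S1) + N * C1 * c1 + C2 * S2 + C2 + C3, Q1,
    by positivity, by omega, fun X Q hX hQQ => ?_⟩
  have hQ : 1 ≤ Q := by omega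
  have hX0 : (0 : ℝ) < X := by exact_mod_cast hX
  have hX1 : (1 : ℝ) ≤ X := by exact_mod_cast hX
  have hQ0 : (0 : ℝ) < Q := by exact_mod_cast hQ
  have hQ1' : (1 : ℝ) ≤ Q := by exact_mod_cast hQ
  set T1 : ℝ := X * (Q : ℝ) ^ (ε - (R - 1)) with hT1
  set T2 : ℝ := (X : ℝ) ^ (1 / v + ε) with hT2
  have hT1' : 0 ≤ T1 := by positivity
  have hT2' : 0 ≤ T2 := by positivity
  have hQA : (A0 : ℝ) ≤ (Q : ℝ) ^ η := by
    have e1 : (A0 : ℝ) ^ (1 / η) ≤ Q := by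
      have e2 : ⌈(A0 : ℝ) ^ (1 / η)⌉₊ ≤ Q := by omega
      exact (Nat.le_ceil _).trans (by exact_mod_cast e2)
    have e3 : (A0 : ℝ) = ((A0 : ℝ) ^ (1 / η)) ^ η := by
      rw [← Real.rpow_mul (by positivity), one_div, inv_mul_cancel₀ hη.ne', Real.rpow_one]
    rw [e3]
    exact Real.rpow_le_rpow (by positivity) e1 hη.le
  have hQN : 2 * N ≤ Q := by omega
  set Y : ℝ := (X / c) ^ (1 / v) with hY
  set Z : ℝ := (X : ℝ) ^ (1 / (K : ℝ)) with hZ
  have hY0 : 0 ≤ Y := by positivity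
  have hZ0 : 0 ≤ Z := by positivity
  set I1 := (Icc 1 X).filter fun a : ℕ => Q ≤ 2 * a ∧ (a : ℝ) ≤ Y with hI1
  set I2 := (Icc 1 X).filter fun a : ℕ => (Q : ℝ) ^ η ≤ a ∧ (a : ℝ) ≤ Z with hI2
  set P1 : ℕ × ℕ × ℕ → Prop := fun t => R ≤ t.2.2 ∧ t.2.2 < t.2.1 ∧ t.2.1 < t.1 ∧
    t.2.1 - t.2.2 ∈ I1 ∧ t.2.2 < N ∧ DivCond t.1 t.2.1 t.2.2 with hP1
  set P2 : ℕ × ℕ × ℕ → Prop := fun t => s + 3 + L ≤ t.2.2 ∧ t.2.2 < t.2.1 ∧ t.2.1 < t.1 ∧
    t.2.1 - t.2.2 ∈ I2 ∧ t.2.2 < (t.2.1 - t.2.2) ^ s ∧ DivCond t.1 t.2.1 t.2.2 with hP2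
  have hsub : (box X).filter (excE E R Q η) ⊆ ((box X).filter P1 ∪ (box X).filter P2) ∪
      (box X).filter (tailE E R A N Y) := by
    rintro ⟨n, q, r⟩ hn
    rw [mem_filter] at hn
    obtain ⟨hbox, h1, h2, h3, h4, h5, h7⟩ := hn
    have h6 := hE _ _ _ h7
    have hnX : n ≤ X := by
      rw [box, mem_product, mem_Icc] at hbox
      exact hbox.1.2
    simp only at h1 h2 h3 h4 h5 h6 h7
    have hq0 : (0 : ℝ) < q := by exact_mod_cast (by omega : 0 < q)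
    have haA : A0 ≤ q - r := by
      have e2 : (Q : ℝ) ^ η ≤ (q : ℝ) ^ η :=
        Real.rpow_le_rpow (by positivity) (by exact_mod_cast h4) hη.le
      exact_mod_cast hQA.trans (e2.trans h5)
    have hA01 : 1 ≤ A0 := (le_max_right _ _).trans (le_max_right _ _)
    have hqa : q ≤ (q - r) ^ s := by
      have ha0 : (1 : ℝ) ≤ ((q - r : ℕ) : ℝ) := by exact_mod_cast hA01.trans haA
      have e1 : (q : ℝ) = ((q : ℝ) ^ η) ^ (1 / η) := by
        rw [← Real.rpow_mul hq0.le, mul_one_div, div_self hη.ne', Real.rpow_one]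
      have e2 : (q : ℝ) ≤ (((q - r : ℕ) : ℝ)) ^ s := by
        rw [e1, ← Real.rpow_natCast (((q - r : ℕ) : ℝ)) s]
        calc ((q : ℝ) ^ η) ^ (1 / η) ≤ (((q - r : ℕ) : ℝ)) ^ (1 / η) :=
              Real.rpow_le_rpow (by positivity) h5 (by positivity)
          _ ≤ (((q - r : ℕ) : ℝ)) ^ (s : ℝ) :=
              Real.rpow_le_rpow_of_exponent_le ha0 (Nat.le_ceil _)
      exact_mod_cast e2
    have hnX' : (n : ℝ) ≤ X := by exact_mod_cast hnX
    rw [mem_union, mem_union, mem_filter, mem_filter, mem_filter]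
    have hAq : r + A ≤ q := by
      have : A ≤ A0 := le_max_left _ _
      omega
    rcases Nat.lt_or_ge r N with hr | hr
    · rcases lt_or_ge Y ((q - r : ℕ) : ℝ) with hy | hy
      · right
        exact ⟨hbox, h1, hr, hAq, h2, h3, h7, hy⟩
      · left
        left
        refine ⟨hbox, h1, h2, h3, ?_, hr, h6⟩
        rw [hI1, mem_filter, mem_Icc]
        simp only
        exact ⟨⟨by omega, by omega⟩, by omega, hy⟩
    · left
      right
      have hN1r : N1 ≤ r := (le_max_left _ _).trans hr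
      have hsr : s + 3 + L ≤ r := (le_max_right _ _).trans hr
      have hNA : N ≤ A0 := (le_max_left _ _).trans (le_max_right _ _)
      have hN1N : N1 ≤ N := le_max_left _ _
      have h8 := hN1 n q r hN1r (by omega) h3 h6
      have h9 : r < (q - r) ^ s := by omega
      refine ⟨hbox, hsr, h2, h3, ?_, h9, h6⟩
      rw [hI2, mem_filter, mem_Icc]
      simp only
      refine ⟨⟨by omega, by omega⟩, ?_, ?_⟩
      · exact (Real.rpow_le_rpow (by positivity) (by exact_mod_cast h4) hη.le).trans h5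
      · have e2 : ((q - r : ℕ) : ℝ) ^ K ≤ X := by
          have : (q - r) ^ K ≤ X := by omega
          exact_mod_cast this
        have e3 : ((q - r : ℕ) : ℝ) = (((q - r : ℕ) : ℝ) ^ K) ^ (1 / (K : ℝ)) := by
          rw [← Real.rpow_natCast, ← Real.rpow_mul (by positivity), mul_one_div,
            div_self hK0.ne', Real.rpow_one]
        rw [e3, hZ]
        exact Real.rpow_le_rpow (by positivity) e2 (by positivity)
  -- the two bounds
  have hB1 : (((box X).filter P1).card : ℝ) ≤ N * C1 * ((2 ^ R * S1) * T1 + c1 * T2) := by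
    have e1 : (((box X).filter P1).card : ℝ) ≤
        ∑ a ∈ I1, (((fun _ => N) a : ℕ) : ℝ) *
          (((Icc 1 X).filter fun b => NoCarry a b R).card : ℝ) := by
      convert card_cover R X I1 (fun _ => N) P1 (fun n q r hn _ => hn)
    refine e1.trans ?_
    have e2 : ∀ a ∈ I1, (N : ℝ) * (((Icc 1 X).filter fun b => NoCarry a b R).card : ℝ) ≤
        N * C1 * ((a : ℝ) ^ δ * (X / (a : ℝ) ^ R + 1)) := by
      intro a ha
      rw [hI1, mem_filter, mem_Icc] at ha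
      have e3 := hcount1 a ha.1.1 X
      calc (N : ℝ) * (((Icc 1 X).filter fun b => NoCarry a b R).card : ℝ)
          ≤ N * (C1 * (a : ℝ) ^ δ * (X / (a : ℝ) ^ R + 1)) :=
            mul_le_mul_of_nonneg_left e3 (Nat.cast_nonneg _)
        _ = _ := by ring
    refine (Finset.sum_le_sum e2).trans ?_
    rw [← Finset.mul_sum]
    refine mul_le_mul_of_nonneg_left ?_ (by positivity)
    have e4 := sum_first hR hδ0 hε hε1 hδ1 hQ (I := I1) hY0 (fun a ha => by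
      rw [hI1, mem_filter] at ha
      exact ha.2) X hX0.le
    refine e4.trans (add_le_add le_rfl ?_)
    have e5 : Y ^ (1 + δ) = c1 * (X : ℝ) ^ ((1 + δ) / v) := by
      rw [hY, ← Real.rpow_mul (by positivity), hc1, ← Real.mul_rpow (by positivity) hX0.le]
      congr 1
      · rw [div_eq_mul_inv, mul_comm]
      · ring
    rw [e5]
    refine mul_le_mul_of_nonneg_left (Real.rpow_le_rpow_of_exponent_le hX1 ?_) hc1'
    rw [div_le_iff₀ hv]
    have : (1 / v + ε) * v = 1 + ε * v := by field_simp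
    rw [this]
    linarith
  have hB2 : (((box X).filter P2).card : ℝ) ≤ C2 * (S2 * T1 + T2) := by
    have e1 : (((box X).filter P2).card : ℝ) ≤
        ∑ a ∈ I2, (((fun a => a ^ s) a : ℕ) : ℝ) *
          (((Icc 1 X).filter fun b => NoCarry a b (s + 3 + L)).card : ℝ) := by
      convert card_cover (s + 3 + L) X I2 (fun a => a ^ s) P2 (fun n q r hn _ => hn)
    refine e1.trans ?_
    have e2 : ∀ a ∈ I2, (((fun a => a ^ s) a : ℕ) : ℝ) *
        (((Icc 1 X).filter fun b => NoCarry a b (s + 3 + L)).card : ℝ) ≤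
        C2 * ((a : ℝ) ^ s * (a * (X / (a : ℝ) ^ (s + 3 + L) + 1))) := by
      intro a ha
      rw [hI2, mem_filter, mem_Icc] at ha
      have e3 := hcount2 a ha.1.1 X
      push_cast
      calc (a : ℝ) ^ s * (((Icc 1 X).filter fun b => NoCarry a b (s + 3 + L)).card : ℝ)
          ≤ (a : ℝ) ^ s * (C2 * a * (X / (a : ℝ) ^ (s + 3 + L) + 1)) :=
            mul_le_mul_of_nonneg_left e3 (by positivity)
        _ = _ := by ring
    refine (Finset.sum_le_sum e2).trans ?_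
    rw [← Finset.mul_sum]
    refine mul_le_mul_of_nonneg_left ?_ hC2.le
    have e4 := sum_second (R := R) (s := s) hη hL' hQ (I := I2) hZ0 (fun a ha => by
      rw [hI2, mem_filter, mem_Icc] at ha
      exact ⟨ha.1.1, ha.2.1, ha.2.2⟩) X hX0.le
    refine e4.trans (add_le_add ?_ ?_)
    · refine mul_le_mul_of_nonneg_left ?_ hS2'
      refine mul_le_mul_of_nonneg_left ?_ hX0.le
      exact Real.rpow_le_rpow_of_exponent_le hQ1' (by linarith)
    · rw [hZ, ← Real.rpow_natCast, ← Real.rpow_mul hX0.le]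
      refine Real.rpow_le_rpow_of_exponent_le hX1 ?_
      push_cast
      have e5 : 1 / (K : ℝ) * (s + 2) ≤ 1 / v := by
        rw [one_div_mul_eq_div, div_le_div_iff₀ hK0 hv]
        linarith
      linarith
  have hB3 := hcount3 X hX
  have htot := Nat.cast_le (α := ℝ).2 ((card_le_card hsub).trans ((card_union_le _ _).trans
    (Nat.add_le_add_right (card_union_le _ _) _)))
  rw [Nat.cast_add, Nat.cast_add] at htot
  refine htot.trans ((add_le_add (add_le_add hB1 hB2) hB3).trans ?_)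
  have p1 : 0 ≤ N * C1 * (2 ^ R * S1) := by positivity
  have p2 : 0 ≤ N * C1 * c1 := by positivity
  have p3 : 0 ≤ C2 * S2 := by positivity
  have e : (N * C1 * (2 ^ R * S1) + N * C1 * c1 + C2 * S2 + C2 + C3) *
      (T1 + T2) = N * C1 * ((2 ^ R * S1) * T1 + c1 * T2) + C2 * (S2 * T1 + T2) + C3 * T2 +
      (N * C1 * (2 ^ R * S1) * T2 + N * C1 * c1 * T1 + C2 * S2 * T2 + C2 * T1 + C3 * T1) := by
    ring
  rw [e]
  refine le_add_of_nonneg_right ?_
  have q3 := mul_nonneg p1 hT2'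
  have q4 := mul_nonneg p2 hT1'
  have q5 := mul_nonneg p3 hT2'
  have q6 := mul_nonneg hC2.le hT1'
  have q7 := mul_nonneg hC3 hT1'
  exact add_nonneg (add_nonneg (add_nonneg (add_nonneg q3 q4) q5) q6) q7

open Classical in
theorem count_main (R : ℕ) (hR : 2 ≤ R) (η ε v c : ℝ) (hη : 0 < η) (hε : 0 < ε)
    (hv : 0 < v) (hc : 0 < c) (A : ℕ)
    (E : ℕ → ℕ → ℕ → Prop) (hE : ∀ n q r, E n q r → DivCond n q r)
    (htail : ∀ (N : ℕ) (ε : ℝ), 0 < ε → ∃ C0 : ℝ, 0 ≤ C0 ∧ ∀ X : ℕ, 1 ≤ X →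
      (((box X).filter (tailE E R A N ((X / c) ^ (1 / v)))).card : ℝ) ≤
        C0 * (X : ℝ) ^ (1 / v + ε)) :
    ∃ C : ℝ, ∀ X Q : ℕ, 1 ≤ X → 1 ≤ Q →
      (((box X).filter (excE E R Q η)).card : ℝ) ≤
        C * (X * (Q : ℝ) ^ (ε - (R - 1)) + (X : ℝ) ^ (1 / v + ε)) := by
  have hR' : (2 : ℝ) ≤ R := by exact_mod_cast hR
  have hε' : min ε 1 ≤ ε := min_le_left _ _
  have hε'' : min ε 1 ≤ 1 := min_le_right _ _
  have hε0 : 0 < min ε 1 := lt_min hε one_pos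
  obtain ⟨C, Q1, hC, hQ1, h⟩ := count_large R hR η (min ε 1) v c hη hε0 hε'' hv hc A E hE
    (fun N => htail N _ hε0)
  refine ⟨(Q1 : ℝ) ^ 2 * (Q1 : ℝ) ^ ((R : ℝ) - 1) + C, fun X Q hX hQ => ?_⟩
  have hX0 : (0 : ℝ) < X := by exact_mod_cast hX
  have hX1 : (1 : ℝ) ≤ X := by exact_mod_cast hX
  have hQ0 : (0 : ℝ) < Q := by exact_mod_cast hQ
  have hQ1' : (1 : ℝ) ≤ Q := by exact_mod_cast hQ
  set T1 : ℝ := X * (Q : ℝ) ^ (ε - (R - 1)) with hT1
  set T2 : ℝ := (X : ℝ) ^ (1 / v + ε) with hT2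
  have hT1' : 0 ≤ T1 := by positivity
  have hT2' : 0 ≤ T2 := by positivity
  have hsub : (box X).filter (excE E R Q η) ⊆
      (Icc 1 X ×ˢ (Icc 1 Q1 ×ˢ Icc 1 Q1)).filter (fun _ => Q < Q1) ∪
        (box X).filter (excE E R (max Q Q1) η) := by
    rintro ⟨n, q, r⟩ hn
    rw [mem_filter] at hn
    obtain ⟨hbox, h1, h2, h3, h4, h5, h6⟩ := hn
    simp only at h1 h2 h3 h4 h5 h6
    rw [mem_union, mem_filter, mem_filter]
    rcases Nat.lt_or_ge q (max Q Q1) with hq | hq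
    · left
      have hq1 : q < Q1 := by
        rcases lt_max_iff.1 hq with h8 | h8
        · omega
        · exact h8
      rw [box, mem_product, mem_Icc] at hbox
      have hn := hbox.1
      simp only at hn
      simp only [mem_product, mem_Icc]
      omega
    · right
      exact ⟨hbox, h1, h2, h3, hq, h5, h6⟩
  have hcard1 : ((((Icc 1 X ×ˢ (Icc 1 Q1 ×ˢ Icc 1 Q1)) : Finset (ℕ × ℕ × ℕ)).filter
      (fun _ => Q < Q1)).card : ℝ) ≤ (Q1 : ℝ) ^ 2 * (Q1 : ℝ) ^ ((R : ℝ) - 1) * T1 := by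
    rcases Nat.lt_or_ge Q Q1 with hQQ | hQQ
    · have e0 : ((((Icc 1 X ×ˢ (Icc 1 Q1 ×ˢ Icc 1 Q1)) : Finset (ℕ × ℕ × ℕ)).filter
          (fun _ => Q < Q1)).card : ℝ) ≤ X * (Q1 : ℝ) ^ 2 := by
        have := card_filter_le ((Icc 1 X ×ˢ (Icc 1 Q1 ×ˢ Icc 1 Q1)) : Finset (ℕ × ℕ × ℕ))
          (fun _ => Q < Q1)
        rw [card_product, card_product, Nat.card_Icc, Nat.card_Icc, Nat.add_sub_cancel,
          Nat.add_sub_cancel, ← pow_two] at this
        exact_mod_cast this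
      have e1 : (1 : ℝ) ≤ (Q1 : ℝ) ^ ((R : ℝ) - 1) * (Q : ℝ) ^ (ε - (R - 1)) := by
        have e2 : (Q : ℝ) ^ ((R : ℝ) - 1) ≤ (Q1 : ℝ) ^ ((R : ℝ) - 1) :=
          Real.rpow_le_rpow hQ0.le (by exact_mod_cast hQQ.le) (by linarith)
        have e3 : (1 : ℝ) ≤ (Q : ℝ) ^ ((R : ℝ) - 1) * (Q : ℝ) ^ (ε - (R - 1)) := by
          rw [← Real.rpow_add hQ0]
          exact Real.one_le_rpow hQ1' (by linarith)
        exact e3.trans (mul_le_mul_of_nonneg_right e2 (by positivity))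
      calc _ ≤ X * (Q1 : ℝ) ^ 2 := e0
        _ = X * (Q1 : ℝ) ^ 2 * 1 := (mul_one _).symm
        _ ≤ X * (Q1 : ℝ) ^ 2 * ((Q1 : ℝ) ^ ((R : ℝ) - 1) * (Q : ℝ) ^ (ε - (R - 1))) :=
          mul_le_mul_of_nonneg_left e1 (by positivity)
        _ = _ := by rw [hT1]; ring
    · rw [filter_false_of_mem (fun _ _ => by omega), card_empty, Nat.cast_zero]
      positivity
  have hcard2 : (((box X).filter (excE E R (max Q Q1) η)).card : ℝ) ≤ C * (T1 + T2) := by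
    refine (h X (max Q Q1) hX (le_max_right _ _)).trans (mul_le_mul_of_nonneg_left ?_ hC)
    refine add_le_add (mul_le_mul_of_nonneg_left ?_ hX0.le)
      (Real.rpow_le_rpow_of_exponent_le hX1 (by linarith))
    have e1 : ((max Q Q1 : ℕ) : ℝ) ^ (min ε 1 - (R - 1)) ≤ (Q : ℝ) ^ (min ε 1 - (R - 1)) :=
      Real.rpow_le_rpow_of_nonpos hQ0 (by exact_mod_cast le_max_left _ _) (by linarith)
    exact e1.trans (Real.rpow_le_rpow_of_exponent_le hQ1' (by linarith))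
  have htot := Nat.cast_le (α := ℝ).2 ((card_le_card hsub).trans (card_union_le _ _))
  rw [Nat.cast_add] at htot
  refine htot.trans ((add_le_add hcard1 hcard2).trans ?_)
  have p : 0 ≤ (Q1 : ℝ) ^ 2 * (Q1 : ℝ) ^ ((R : ℝ) - 1) := by positivity
  have q := mul_nonneg p hT2'
  have e : ((Q1 : ℝ) ^ 2 * (Q1 : ℝ) ^ ((R : ℝ) - 1) + C) * (T1 + T2) =
      (Q1 : ℝ) ^ 2 * (Q1 : ℝ) ^ ((R : ℝ) - 1) * T1 + C * (T1 + T2) +
      (Q1 : ℝ) ^ 2 * (Q1 : ℝ) ^ ((R : ℝ) - 1) * T2 := by ring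
  rw [e]
  exact le_add_of_nonneg_right q

end Pool.Agent.K9h7.SG
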