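import Pool.Agent.K9h7.SG.Typical4

/-!
# The triples with the divisibility condition and `n < (q - r + 1) ^ 2`
-/

set_option autoImplicit false

open Finset

namespace Pool.Agent.K9h7.SG

open Pool.Agent.R60.Steiner

theorem two_dvd_of_div {n q r : ℕ} (hr : 2 ≤ r) (hrq : r < q) (hqn : q < n) (hD : DivCond n q r) :
    ∃ t : ℕ, 2 ≤ t ∧ (q - r + 1) * t = n - r + 1 ∧ (q - r + 2) ∣ t * (t - 1) := by
  have h1 := hD (r - 1) (by omega)
  have h2 := hD (r - 2) (by omega)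
  obtain ⟨a, rfl⟩ := Nat.exists_eq_add_of_lt hrq
  obtain ⟨b, rfl⟩ := Nat.exists_eq_add_of_lt hqn
  have e1 : r + a + 1 - (r - 1) = a + 2 := by omega
  have e2 : r + a + 1 + b + 1 - (r - 1) = a + b + 3 := by omega
  have e3 : r - (r - 1) = 1 := by omega
  have e4 : r + a + 1 - (r - 2) = a + 3 := by omega
  have e5 : r + a + 1 + b + 1 - (r - 2) = a + b + 4 := by omega
  have e6 : r - (r - 2) = 2 := by omega
  have e7 : r + a + 1 - r = a + 1 := by omega
  have e8 : r + a + 1 + b + 1 - r = a + b + 2 := by omega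
  rw [e1, e2, e3, Nat.choose_one_right, Nat.choose_one_right] at h1
  rw [e4, e5, e6] at h2
  rw [e7, e8]
  obtain ⟨t, ht⟩ := h1
  have c1 : (a + 3) * (a + 2) = (a + 3).choose 2 * 2 := by
    have := Nat.add_one_mul_choose_eq (a + 2) 1
    rw [Nat.choose_one_right] at this
    exact this
  have c2 : (a + b + 4) * (a + b + 3) = (a + b + 4).choose 2 * 2 := by
    have := Nat.add_one_mul_choose_eq (a + b + 3) 1
    rw [Nat.choose_one_right] at this
    exact this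
  have h3 : (a + 3) * (a + 2) ∣ (a + b + 4) * (a + b + 3) := by
    rw [c1, c2]
    exact Nat.mul_dvd_mul_right h2 2
  have ht2 : 2 ≤ t := by
    by_contra hcon
    have : t ≤ 1 := by omega
    have := Nat.mul_le_mul_left (a + 2) this
    omega
  refine ⟨t, ht2, by rw [show a + 1 + 1 = a + 2 from rfl, ← ht], ?_⟩
  rw [ht] at h3
  have h4 : (a + 3) ∣ (a + b + 4) * t := by
    have e : (a + b + 4) * ((a + 2) * t) = (a + b + 4) * t * (a + 2) := by ring
    rw [e] at h3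
    exact Nat.dvd_of_mul_dvd_mul_right (by omega) h3
  have e9 : a + 1 + 2 = a + 3 := by ring
  rw [e9]
  obtain ⟨u, rfl⟩ : ∃ u, t = u + 1 := ⟨t - 1, by omega⟩
  rw [Nat.add_sub_cancel]
  have h5 : (a + b + 4) * (u + 1) + (u + 1) * u = (a + 3) * ((u + 1) * (u + 1)) := by
    have : a + b + 4 = (a + 2) * (u + 1) + 1 := by omega
    rw [this]
    ring
  exact (Nat.dvd_add_right h4).1 (h5 ▸ Dvd.intro _ rfl)

open Classical in
theorem tail_two (N : ℕ) (ε : ℝ) (hε : 0 < ε) : ∃ C0 : ℝ, 0 ≤ C0 ∧ ∀ X : ℕ, 1 ≤ X →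
    (((box X).filter fun t => 2 ≤ t.2.2 ∧ t.2.2 < N ∧ t.2.2 < t.2.1 ∧ t.2.1 < t.1 ∧
      DivCond t.1 t.2.1 t.2.2 ∧ X < (t.2.1 - t.2.2 + 1) ^ 2).card : ℝ) ≤
        C0 * (X : ℝ) ^ (1 / 2 + ε) := by
  obtain ⟨C, hC, hdiv⟩ := divisor_bound ε hε
  refine ⟨N * C, by positivity, fun X hX => ?_⟩
  have hX0 : (0 : ℝ) < X := by exact_mod_cast hX
  have hsub : ((box X).filter fun t => 2 ≤ t.2.2 ∧ t.2.2 < N ∧ t.2.2 < t.2.1 ∧ t.2.1 < t.1 ∧
      DivCond t.1 t.2.1 t.2.2 ∧ X < (t.2.1 - t.2.2 + 1) ^ 2) ⊆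
      (range N).biUnion fun r => (Icc 2 (Nat.sqrt X)).biUnion fun t =>
        (t * (t - 1)).divisors.image fun d => (t * (d - 1) + r - 1, d - 2 + r, r) := by
    rintro ⟨n, q, r⟩ hn
    rw [mem_filter, box, mem_product, mem_Icc] at hn
    obtain ⟨⟨⟨_, hnX⟩, _⟩, h1, h2, h3, h4, h5, h6⟩ := hn
    simp only at hnX h1 h2 h3 h4 h5 h6
    obtain ⟨t, t1, t2, t3⟩ := two_dvd_of_div h1 h3 h4 h5
    rw [mem_biUnion]
    refine ⟨r, mem_range.2 h2, ?_⟩
    rw [mem_biUnion]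
    refine ⟨t, ?_, ?_⟩
    · rw [mem_Icc]
      refine ⟨t1, ?_⟩
      have e1 : (q - r + 1) * t ≤ X := by omega
      have e2 : t < q - r + 1 := by
        by_contra hcon
        push Not at hcon
        have := Nat.mul_le_mul_left (q - r + 1) hcon
        have e : (q - r + 1) * (q - r + 1) = (q - r + 1) ^ 2 := by ring
        omega
      rw [Nat.le_sqrt]
      exact (Nat.mul_le_mul_right t e2.le).trans e1
    · rw [mem_image]
      refine ⟨q - r + 2, ?_, ?_⟩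
      · rw [Nat.mem_divisors]
        refine ⟨t3, ?_⟩
        exact Nat.mul_ne_zero (by omega) (by omega)
      · rw [Prod.mk.injEq, Prod.mk.injEq]
        refine ⟨?_, by omega, rfl⟩
        have e : q - r + 2 - 1 = q - r + 1 := by omega
        rw [e, mul_comm t]
        omega
  have hterm : ∀ t ∈ Icc 2 (Nat.sqrt X), ((t * (t - 1)).divisors.card : ℝ) ≤ C * (X : ℝ) ^ ε := by
    intro t ht
    rw [mem_Icc, Nat.le_sqrt] at ht
    refine (hdiv _ (Nat.mul_ne_zero (by omega) (by omega))).trans ?_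
    refine mul_le_mul_of_nonneg_left (Real.rpow_le_rpow (by positivity) ?_ hε.le) hC.le
    have : t * (t - 1) ≤ X := (Nat.mul_le_mul_left t (Nat.sub_le t 1)).trans ht.2
    exact_mod_cast this
  have hsqrt : ((Icc 2 (Nat.sqrt X)).card : ℝ) ≤ (X : ℝ) ^ ((1 : ℝ) / 2) := by
    rw [← Real.sqrt_eq_rpow]
    refine le_trans ?_ (Real.nat_sqrt_le_real_sqrt)
    rw [Nat.card_Icc]
    exact_mod_cast (by omega : Nat.sqrt X + 1 - 2 ≤ Nat.sqrt X)
  have h1 : (((box X).filter fun t => 2 ≤ t.2.2 ∧ t.2.2 < N ∧ t.2.2 < t.2.1 ∧ t.2.1 < t.1 ∧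
      DivCond t.1 t.2.1 t.2.2 ∧ X < (t.2.1 - t.2.2 + 1) ^ 2)).card ≤
      ∑ _r ∈ range N, ∑ t ∈ Icc 2 (Nat.sqrt X), (t * (t - 1)).divisors.card := by
    refine (card_le_card hsub).trans (card_biUnion_le.trans (Finset.sum_le_sum fun r _ => ?_))
    exact card_biUnion_le.trans (Finset.sum_le_sum fun t _ => card_image_le)
  calc _ ≤ ((∑ _r ∈ range N, ∑ t ∈ Icc 2 (Nat.sqrt X), (t * (t - 1)).divisors.card : ℕ) : ℝ) := by
        exact_mod_cast h1
    _ = N * ∑ t ∈ Icc 2 (Nat.sqrt X), ((t * (t - 1)).divisors.card : ℝ) := by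
        rw [Finset.sum_const, card_range, smul_eq_mul]
        push_cast
        rfl
    _ ≤ N * ∑ _t ∈ Icc 2 (Nat.sqrt X), C * (X : ℝ) ^ ε :=
        mul_le_mul_of_nonneg_left (Finset.sum_le_sum hterm) (Nat.cast_nonneg _)
    _ = N * C * ((Icc 2 (Nat.sqrt X)).card * (X : ℝ) ^ ε) := by
        rw [Finset.sum_const, nsmul_eq_mul]; ring
    _ ≤ N * C * ((X : ℝ) ^ ((1 : ℝ) / 2) * (X : ℝ) ^ ε) :=
        mul_le_mul_of_nonneg_left (mul_le_mul_of_nonneg_right hsqrt (by positivity))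
          (by positivity)
    _ = N * C * (X : ℝ) ^ (1 / 2 + ε) := by rw [Real.rpow_add hX0]

end Pool.Agent.K9h7.SG
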