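import Pool.Agent.K9h7.SG.Typical5
import Pool.Agent.K9h7.SG.Typical6

/-!
# The triples with large `q - r`
-/

set_option autoImplicit false

open Finset

namespace Pool.Agent.K9h7.SG

open Pool.Agent.R60.Steiner

open Classical in
/-- a lower bound for the number of points excludes the tail -/
theorem tail_of_sep {E : ℕ → ℕ → ℕ → Prop} {R A : ℕ} {c w : ℝ} (hc : 0 < c) (hw : 0 < w)
    (hsep : ∀ n q r : ℕ, R ≤ r → r + A ≤ q → r < q → q < n → E n q r →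
      c * ((q - r : ℕ) : ℝ) ^ w ≤ n) (N : ℕ) (ε : ℝ) :
    ∃ C0 : ℝ, 0 ≤ C0 ∧ ∀ X : ℕ, 1 ≤ X →
      (((box X).filter (tailE E R A N ((X / c) ^ (1 / w)))).card : ℝ) ≤
        C0 * (X : ℝ) ^ (1 / w + ε) := by
  refine ⟨0, le_rfl, fun X _ => ?_⟩
  rw [filter_false_of_mem, card_empty, Nat.cast_zero, zero_mul]
  rintro ⟨n, q, r⟩ hbox ⟨h1, _, h3, h4, h5, h6, h7⟩
  rw [box, mem_product, mem_Icc] at hbox
  have hnX : (n : ℝ) ≤ X := by exact_mod_cast hbox.1.2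
  simp only at h1 h3 h4 h5 h6 h7
  have e1 := hsep n q r h1 h3 h4 h5 h6
  have e2 : ((q - r : ℕ) : ℝ) ^ w ≤ X / c := by
    rw [le_div_iff₀ hc]
    linarith
  have e3 : ((q - r : ℕ) : ℝ) = (((q - r : ℕ) : ℝ) ^ w) ^ (1 / w) := by
    rw [← Real.rpow_mul (by positivity), mul_one_div, div_self hw.ne', Real.rpow_one]
  have e4 : ((q - r : ℕ) : ℝ) ≤ (X / c) ^ (1 / w) := by
    rw [e3]
    exact Real.rpow_le_rpow (by positivity) e2 (by positivity)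
  linarith

open Classical in
/-- the tail for the exponent two -/
theorem tail_low {E : ℕ → ℕ → ℕ → Prop} (hE : ∀ n q r, E n q r → DivCond n q r) {R A : ℕ}
    (hR : 2 ≤ R) {w : ℝ} (hw : 0 < w) (hw2 : w ≤ 2) (N : ℕ) (ε : ℝ) (hε : 0 < ε) :
    ∃ C0 : ℝ, 0 ≤ C0 ∧ ∀ X : ℕ, 1 ≤ X →
      (((box X).filter (tailE E R A N ((X / (1 : ℝ)) ^ (1 / w)))).card : ℝ) ≤
        C0 * (X : ℝ) ^ (1 / w + ε) := by
  obtain ⟨C0, hC0, h⟩ := tail_two N ε hε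
  refine ⟨C0, hC0, fun X hX => ?_⟩
  have hX1 : (1 : ℝ) ≤ X := by exact_mod_cast hX
  have hw' : (1 : ℝ) / 2 ≤ 1 / w := one_div_le_one_div_of_le hw hw2
  refine le_trans ?_ ((h X hX).trans (mul_le_mul_of_nonneg_left
    (Real.rpow_le_rpow_of_exponent_le hX1 (by linarith)) hC0))
  refine Nat.cast_le.2 (card_le_card ?_)
  rintro ⟨n, q, r⟩ ht
  rw [mem_filter] at ht ⊢
  obtain ⟨hbox, h1, h2, _, h4, h5, h6, h7⟩ := ht
  simp only at h1 h2 h4 h5 h6 h7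
  refine ⟨hbox, hR.trans h1, h2, h4, h5, hE _ _ _ h6, ?_⟩
  simp only
  have e1 : (X : ℝ) ^ ((1 : ℝ) / 2) < ((q - r : ℕ) : ℝ) := by
    rw [div_one] at h7
    exact lt_of_le_of_lt (Real.rpow_le_rpow_of_exponent_le hX1 hw') h7
  rw [← Real.sqrt_eq_rpow, Real.sqrt_lt' (lt_of_le_of_lt (by positivity) e1)] at e1
  have e2 : X < (q - r) ^ 2 := by exact_mod_cast e1
  exact e2.trans_le (Nat.pow_le_pow_left (by omega) 2)

end Pool.Agent.K9h7.SG
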